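import Pool.Agent.Lib.MP_671ac3_gt.C3.Spec
import Pool.Agent.Lib.MP_671ac3_gt.SP2
import Pool.Agent.Lib.MP_671ac3_gt.NTR
import Pool.Agent.Lib.MP_671ac3_gt.MR2

/-!
# MP_671ac3_gt, bodies of class C²₊ : FIN (assembly)
-/

namespace Pool.MP671.C3.FIN

open MeasureTheory Real Filter Topology Pool.MP671

theorem sREP : SpecREP := specREP specSEG
theorem sNPR : SpecNPR := specNPR specSEG sREP
theorem sNUL : SpecNUL := specNUL specSEG sREP specFRM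
theorem sNZB : SpecNZB := specNZB specSEG sREP
theorem sNLA (φ : Set Pl → ℝ) (hφ : IsPhi φ) (a b : ℝ) : ee φ * |a - b| ≤ nn φ a + nn φ b :=
  nul_abs specSEG sREP φ hφ a b

theorem sq_pos' (v : Pl) (hv : v ≠ 0) : 0 < v.1 ^ 2 + v.2 ^ 2 := by
  have h1 := sq_nonneg v.1
  have h2 := sq_nonneg v.2
  rcases (add_nonneg h1 h2).lt_or_eq with h | h
  · exact h
  · exfalso
    apply hv
    have a1 : v.1 ^ 2 = 0 := by linarith
    have a2 : v.2 ^ 2 = 0 := by linarith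
    ext
    · simpa using a1
    · simpa using a2

theorem mul_surj' (v : Pl) (hv : v ≠ 0) (x : Pl) : ∃ a b : ℝ, x = mul v (a, b) := by
  have h := (sq_pos' v hv).ne'
  refine ⟨(v.1 * x.1 + v.2 * x.2) / (v.1 ^ 2 + v.2 ^ 2),
    (v.1 * x.2 - v.2 * x.1) / (v.1 ^ 2 + v.2 ^ 2), ?_⟩
  ext
  · simp only [mul]
    field_simp
    ring
  · simp only [mul]
    field_simp
    ring

theorem nrm_smul' {φ : Set Pl → ℝ} (hφ : IsPhi φ) (t : ℝ) (v : Pl) :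
    nrm φ (t • v) = |t| * nrm φ v := (specSEG φ hφ).2.1 t v

theorem nrm_nn' {φ : Set Pl → ℝ} (hφ : IsPhi φ) (v : Pl) : 0 ≤ nrm φ v := (specSEG φ hφ).2.2 v

theorem ee_fr (v : Pl) (hv : v ≠ 0) (φ : Set Pl → ℝ) : ee (frφ v φ) = nrm φ v := by
  obtain ⟨-, -, g3, -⟩ := specFRM v hv
  show nrm (frφ v φ) (1, 0) = _
  rw [g3]
  congr 1
  ext
  · simp [mul]
  · simp [mul]

theorem nn_fr (v : Pl) (hv : v ≠ 0) (φ : Set Pl → ℝ) (s : ℝ) :
    nn (frφ v φ) s = nrm φ (mul v (s, 1)) := by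
  obtain ⟨-, -, g3, -⟩ := specFRM v hv
  show nrm (frφ v φ) (s, 1) = _
  rw [g3]

theorem phi_fr (v : Pl) (hv : v ≠ 0) {φ : Set Pl → ℝ} (hφ : IsPhi φ) : IsPhi (frφ v φ) :=
  (specFRM v hv).1 φ hφ

/-- two independent null directions -/
theorem nrm_zero {φ : Set Pl → ℝ} (hφ : IsPhi φ) (v : Pl) (hv : v ≠ 0) (s : ℝ)
    (h0 : nrm φ v = 0) (h1 : nrm φ (mul v (s, 1)) = 0) (x : Pl) : nrm φ x = 0 := by
  obtain ⟨a, b, rfl⟩ := mul_surj' v hv x
  have e : mul v (a, b) = (a - b * s) • v + b • mul v (s, 1) := by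
    ext
    · simp only [mul, Prod.smul_fst, smul_eq_mul, Prod.fst_add]
      ring
    · simp only [mul, Prod.smul_snd, smul_eq_mul, Prod.snd_add]
      ring
  have h := sNUL φ hφ ((a - b * s) • v) (b • mul v (s, 1))
  rw [← e, nrm_smul' hφ, nrm_smul' hφ, h0, h1] at h
  exact le_antisymm (by linarith) (nrm_nn' hφ _)

theorem vv_ne (a : ℝ) : vv a ≠ 0 := by
  intro h
  have h1 : cos a = 0 := congrArg Prod.fst h
  have h2 : sin a = 0 := congrArg Prod.snd h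
  have := sin_sq_add_cos_sq a
  rw [h1, h2] at this
  norm_num at this

theorem cc_sq1 : CC (prof 0 (0 + 1) (fun z : ℝ => 0 + 0 * (z - 0)) (fun z => 1 + 0 * (z - 0))) ∧
    (interior (prof 0 (0 + 1) (fun z : ℝ => 0 + 0 * (z - 0)) (fun z => 1 + 0 * (z - 0)))).Nonempty := by
  have e : prof 0 (0 + 1) (fun z : ℝ => 0 + 0 * (z - 0)) (fun z => 1 + 0 * (z - 0)) =
      Set.Icc (0 : ℝ) 1 ×ˢ Set.Icc (0 : ℝ) 1 := by
    ext z
    simp only [prof, Set.mem_ofPred_eq, Set.mem_prod, Set.mem_Icc]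
    constructor
    · rintro ⟨a, b, c, d⟩
      exact ⟨⟨by linarith, by linarith⟩, ⟨by linarith, by linarith⟩⟩
    · rintro ⟨⟨a, b⟩, ⟨c, d⟩⟩
      exact ⟨by linarith, by linarith, by linarith, by linarith⟩
  rw [e]
  refine ⟨⟨(convex_Icc _ _).prod (convex_Icc _ _), isCompact_Icc.prod isCompact_Icc⟩, ?_⟩
  rw [interior_prod_eq, interior_Icc]
  exact ⟨(1 / 2, 1 / 2), by norm_num, by norm_num⟩

/-- the measure part does not vanish -/
theorem nonzero {φ : Set Pl → ℝ} (hφ : IsPhi φ) {α : ℝ} (hα : IsAl φ α) (h0 : 0 ≤ α)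
    (pφ : ∀ A, CC A → (interior A).Nonempty → 0 < φ A) (v : Pl) (hv : v ≠ 0) :
    0 < α ∨ ∃ x, 0 < nn (frφ v φ) x := by
  by_contra hcon
  push Not at hcon
  obtain ⟨hα0, hn⟩ := hcon
  have hα' : α = 0 := le_antisymm hα0 h0
  have hφ' := phi_fr v hv hφ
  have hn' : ∀ x, nn (frφ v φ) x = 0 := fun x => le_antisymm (hn x) (nrm_nn' hφ' _)
  have he : ee (frφ v φ) = 0 := by
    have := sNLA (frφ v φ) hφ' 1 0
    rw [hn', hn'] at this
    norm_num at this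
    exact le_antisymm this (nrm_nn' hφ' _)
  rw [ee_fr v hv] at he
  have h1 := hn' 0
  rw [nn_fr v hv] at h1
  have hz : ∀ x, nrm φ x = 0 := nrm_zero hφ v hv 0 he h1
  have hs := hα 0 1 0 0 1 0 (by norm_num) (by norm_num) (by norm_num)
  have e1 : ee φ = 0 := hz _
  have e2 : nn φ 0 = 0 := hz _
  rw [e1, e2, hα'] at hs
  have := pφ _ cc_sq1.1 cc_sq1.2
  rw [hs] at this
  norm_num at this

theorem deriv2_cont {f : ℝ → ℝ} (h : ContDiff ℝ 2 f) : Continuous (deriv (deriv f)) := by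
  have h1 : ContDiff ℝ 1 (deriv f) := by
    have := (contDiff_succ_iff_deriv (n := 1) (f := f) (𝕜 := ℝ)).1 (by exact_mod_cast h)
    exact this.2.2
  exact (contDiff_one_iff_deriv.1 h1).2

theorem diff_of {f : ℝ → ℝ} (h : ContDiff ℝ 2 f) : Differentiable ℝ f ∧ Differentiable ℝ (deriv f) := by
  have := (contDiff_succ_iff_deriv (n := 1) (f := f) (𝕜 := ℝ)).1 (by exact_mod_cast h)
  exact ⟨this.1, (contDiff_one_iff_deriv.1 this.2.2).1⟩

theorem sum_Rc (hSHF : SpecSHF) {h k : ℝ → ℝ} (hh : Sm h) (hk : Sm k)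
    (hs : ∀ θ, h θ + h (θ + π) = k θ + k (θ + π)) (θ : ℝ) :
    Rc h θ + Rc h (θ + π) = Rc k θ + Rc k (θ + π) := by
  have key : ∀ f : ℝ → ℝ, Sm f → deriv (deriv (fun θ => f θ + sh f π θ)) θ =
      deriv (deriv f) θ + deriv (deriv (sh f π)) θ := by
    intro f hf
    obtain ⟨hf2, -, -, -⟩ := hSHF.1 f π hf
    have d1 := diff_of hf.c2
    have d2 := diff_of hf2.c2
    have e : deriv (fun θ => f θ + sh f π θ) = fun θ => deriv f θ + deriv (sh f π) θ := by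
      funext x
      exact deriv_add (d1.1 x) (d2.1 x)
    rw [e]
    exact deriv_add (d1.2 θ) (d2.2 θ)
  have e : (fun θ => h θ + sh h π θ) = fun θ => k θ + sh k π θ := funext hs
  have k1 := key h hh
  have k2 := key k hk
  rw [e, k2] at k1
  have r1 := (hSHF.1 h π hh).2.2.1 θ
  have r2 := (hSHF.1 k π hk).2.2.1 θ
  rw [← r1, ← r2]
  have := hs θ
  simp only [Rc, sh] at *
  linarith

theorem specFIN (hSHF : SpecSHF) (hFRC : SpecFRC) (hALF : SpecALF) (hCVS : SpecCVS)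
    (hUNQ : SpecUNQ) (hSTC : SpecSTC) (hMXI : SpecMXI) (hCRX : SpecCRX) : Final3 := by
  intro h k φ ψ hh hk hφ hψ ha hb hcov
  have pφ := sNZB φ hφ ha
  have pψ := sNZB ψ hψ hb
  obtain ⟨α, hα⟩ : ∃ α, IsAl φ α := sREP φ hφ
  obtain ⟨β, hβ⟩ : ∃ β, IsAl ψ β := sREP ψ hψ
  obtain ⟨hab, hN, hsum, hpair⟩ := hSTC h k φ ψ α β hh hk hφ hψ hα hβ pφ pψ hcov
  subst hab
  by_cases c1 : ∀ θ, Rc k θ = Rc h θ
  · obtain ⟨t, ht⟩ := hUNQ h k hh hk c1
    exact ⟨t, Or.inl ht⟩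
  by_cases c2 : ∀ θ, Rc k θ = Rc h (θ + π)
  · obtain ⟨s1, -, s3, -⟩ := hSHF.1 h π hh
    obtain ⟨t, ht⟩ := hUNQ (sh h π) k s1 hk (fun θ => by rw [c2, s3])
    exact ⟨t, Or.inr (by rw [ht, hSHF.2.1 h hh])⟩
  exfalso
  push Not at c1 c2
  obtain ⟨θ₀, hθ₀⟩ := c1
  obtain ⟨θ₂, hθ₂⟩ := c2
  have hRc := sum_Rc hSHF hh hk hsum
  have perh := (hSHF.2.2.2.1 h hh).1
  have perk := (hSHF.2.2.2.1 k hk).1
  have conh := (hSHF.2.2.2.1 h hh).2
  have conk := (hSHF.2.2.2.1 k hk).2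
  -- shift `θ₂`
  obtain ⟨θ₁, hθ₁m, hθ₁⟩ : ∃ θ₁ ∈ Set.Ioc (θ₀ - π) (θ₀ - π + π), Rc k θ₁ ≠ Rc h (θ₁ + π) := by
    have hp : Function.Periodic (fun θ => (Rc k θ - Rc h (θ + π)) ^ 2) π := by
      intro θ
      show (Rc k (θ + π) - Rc h (θ + π + π)) ^ 2 = _
      have e1 : θ + π + π = θ + 2 * π := by ring
      rw [e1, perh]
      have := hRc θ
      have e2 : Rc k (θ + π) - Rc h θ = -(Rc k θ - Rc h (θ + π)) := by linarith
      rw [e2, neg_sq]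
    obtain ⟨y, hy, hy2⟩ := hp.exists_mem_Ioc pi_pos θ₂ (θ₀ - π)
    refine ⟨y, hy, fun hcon => hθ₂ ?_⟩
    have : (Rc k θ₂ - Rc h (θ₂ + π)) ^ 2 = 0 := by
      have h0 : (Rc k y - Rc h (y + π)) ^ 2 = 0 := by rw [hcon]; ring
      exact hy2.trans h0
    have := pow_eq_zero_iff (two_ne_zero) |>.1 this
    linarith
  have hP1 : Rc k θ₁ = Rc h θ₁ := (hpair θ₁).resolve_right hθ₁
  have hne1 : θ₁ ≠ θ₀ := by
    rintro rfl
    exact hθ₀ hP1
  have hlt1 : θ₁ < θ₀ := lt_of_le_of_ne (by linarith [hθ₁m.2]) hne1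
  have hgt1 : θ₀ - π < θ₁ := hθ₁m.1
  have hθ₀' : Rc k (θ₀ - π) ≠ Rc h (θ₀ - π) := by
    intro hcon
    have := hRc (θ₀ - π)
    rw [hcon, sub_add_cancel] at this
    exact hθ₀ (by linarith)
  -- the frame
  set a : ℝ := θ₀ - π / 2 with ha'
  set v := vv a with hv'
  have hv : v ≠ 0 := vv_ne a
  obtain ⟨f1, f2, f3, -, -, -, -, -, -, -⟩ := specFRM v hv
  obtain ⟨sh1, -, shR, shF⟩ := hSHF.1 h a hh
  obtain ⟨sk1, -, skR, skF⟩ := hSHF.1 k a hk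
  obtain ⟨sh2, -, shR2, -⟩ := hSHF.1 (sh h a) π sh1
  obtain ⟨sk2, -, skR2, -⟩ := hSHF.1 (sh k a) π sk1
  have hφ' := f1 φ hφ
  have hψ' := f1 ψ hψ
  obtain ⟨α0, hα'⟩ := hALF φ α hφ hα
  obtain ⟨-, hβ'⟩ := hALF ψ α hψ hβ
  have hnn : nn (frφ v φ) = nn (frφ v ψ) := by
    funext s
    rw [nn_fr v hv, nn_fr v hv, hN]
  have hcov' : ∀ x, cov (frφ v φ) (bd (sh h a)) x = cov (frφ v ψ) (bd (sh k a)) x := by
    intro x
    rw [← shF, ← skF, f2, f2, hcov]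
  have hE : EqV (nn (frφ v φ)) α (el (sh h a)) (em (sh h a)) (el (sh k a)) (em (sh k a)) := by
    intro x r s r' s' t u t' u' L1 L2
    rw [← hCVS (sh h a) (frφ v φ) α sh1 hφ' (hα' a) x r s r' s' L1, hnn,
      ← hCVS (sh k a) (frφ v ψ) α sk1 hψ' (hβ' a) x t u t' u' L2, hcov']
  have hNm : Nm (nn (frφ v φ)) (ee (frφ v φ)) :=
    ⟨nrm_nn' hφ' _, fun x => nrm_nn' hφ' _, (sNPR _ hφ').2, sNLA _ hφ'⟩
  have hnz := nonzero hφ hα α0 pφ v hv
  obtain ⟨cl, dl, -⟩ := hFRC (sh h a) sh1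
  obtain ⟨cm, dm, -⟩ := hFRC (sh (sh h a) π) sh2
  obtain ⟨cl2, dl2, -⟩ := hFRC (sh k a) sk1
  obtain ⟨cm2, dm2, -⟩ := hFRC (sh (sh k a) π) sk2
  have hsum' : ∀ σ, el (sh h a) σ + em (sh h a) σ = el (sh k a) σ + em (sh k a) σ := by
    intro σ
    have := hsum (-arctan σ + a)
    have e : -arctan σ + π + a = -arctan σ + a + π := by ring
    simp only [em, el, sh, e]
    rw [← mul_add, ← mul_add, this]
  have hpos : ∀ σ : ℝ, 0 < (√(1 + σ ^ 2)) ^ 3 := fun σ => by positivity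
  have mem_iff : ∀ σ, deriv (deriv (el (sh k a))) σ = deriv (deriv (el (sh h a))) σ ↔
      Rc k (-arctan σ + a) = Rc h (-arctan σ + a) := by
    intro σ
    rw [(dl σ).2.2, (dl2 σ).2.2, shR, skR, div_left_inj' (hpos σ).ne']
  have mem_iff2 : ∀ σ, deriv (deriv (el (sh h a))) σ = deriv (deriv (em (sh h a))) σ ↔
      Rc h (-arctan σ + a) = Rc h (-arctan σ + a + π) := by
    intro σ
    have e : -arctan σ + π + a = -arctan σ + a + π := by ring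
    rw [em, (dl σ).2.2, (dm σ).2.2, shR2, shR, shR, div_left_inj' (hpos σ).ne', e]
  set S : Set ℝ := {σ | deriv (deriv (el (sh k a))) σ = deriv (deriv (el (sh h a))) σ} with hS
  have hSc : IsClosed S := isClosed_eq (deriv2_cont cl2.c2) (deriv2_cont cl.c2)
  set σ₁ : ℝ := tan (a - θ₁) with hσ₁
  have harc : arctan σ₁ = a - θ₁ := arctan_tan (by rw [ha']; linarith) (by rw [ha']; linarith)
  have hang : -arctan σ₁ + a = θ₁ := by rw [harc]; ring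
  have cang : Continuous fun σ : ℝ => -arctan σ + a := (continuous_arctan.neg).add continuous_const
  have hSn : S ∈ 𝓝 σ₁ := by
    have : ∀ᶠ σ in 𝓝 σ₁, Rc k (-arctan σ + a) - Rc h (-arctan σ + a + π) ≠ 0 := by
      have hc : Continuous fun σ : ℝ => Rc k (-arctan σ + a) - Rc h (-arctan σ + a + π) :=
        (conk.comp cang).sub (conh.comp (cang.add continuous_const))
      refine hc.continuousAt.eventually_ne ?_
      show Rc k (-arctan σ₁ + a) - Rc h (-arctan σ₁ + a + π) ≠ 0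
      rw [hang]
      exact sub_ne_zero.2 hθ₁
    filter_upwards [this] with σ hσ
    exact (mem_iff σ).2 ((hpair _).resolve_right (sub_ne_zero.1 hσ))
  have hc : Continuous fun θ : ℝ => Rc k θ - Rc h θ := conk.sub conh
  obtain ⟨A, hA, hA1⟩ : ∃ A, A ∉ S ∧ A < σ₁ := by
    have t1 : Tendsto (fun σ : ℝ => -arctan σ + a) atBot (𝓝 θ₀) := by
      have : Tendsto (fun σ : ℝ => -arctan σ + a) atBot (𝓝 (-(-(π / 2)) + a)) :=
        ((tendsto_nhds_of_tendsto_nhdsWithin tendsto_arctan_atBot).neg).add_const a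
      have e : -(-(π / 2)) + a = θ₀ := by rw [ha']; ring
      rwa [e] at this
    have t2 := (hc.tendsto θ₀).comp t1
    have t3 : ∀ᶠ σ in atBot, Rc k (-arctan σ + a) - Rc h (-arctan σ + a) ≠ 0 :=
      t2.eventually_ne (sub_ne_zero.2 hθ₀)
    obtain ⟨A, hA, hA1⟩ := (t3.and (eventually_lt_atBot σ₁)).exists
    exact ⟨A, fun hcon => hA (sub_eq_zero.2 ((mem_iff A).1 hcon)), hA1⟩
  obtain ⟨B, hB, hB1⟩ : ∃ B, B ∉ S ∧ σ₁ < B := by
    have t1 : Tendsto (fun σ : ℝ => -arctan σ + a) atTop (𝓝 (θ₀ - π)) := by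
      have : Tendsto (fun σ : ℝ => -arctan σ + a) atTop (𝓝 (-(π / 2) + a)) :=
        ((tendsto_nhds_of_tendsto_nhdsWithin tendsto_arctan_atTop).neg).add_const a
      have e : -(π / 2) + a = θ₀ - π := by rw [ha']; ring
      rwa [e] at this
    have t2 := (hc.tendsto (θ₀ - π)).comp t1
    have t3 : ∀ᶠ σ in atTop, Rc k (-arctan σ + a) - Rc h (-arctan σ + a) ≠ 0 :=
      t2.eventually_ne (sub_ne_zero.2 hθ₀')
    obtain ⟨B, hB, hB1⟩ := (t3.and (eventually_gt_atTop σ₁)).exists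
    exact ⟨B, fun hcon => hB (sub_eq_zero.2 ((mem_iff B).1 hcon)), hB1⟩
  obtain ⟨c, d, hc1, hd1, hcd, hd2, hc2⟩ := hMXI S σ₁ A B hSc hSn hA hB hA1 hB1
  have hneq : deriv (deriv (el (sh h a))) σ₁ ≠ deriv (deriv (em (sh h a))) σ₁ := by
    intro hcon
    have := (mem_iff2 σ₁).1 hcon
    rw [hang] at this
    exact hθ₁ (by rw [hP1, this])
  rcases hCRX (nn (frφ v φ)) (ee (frφ v φ)) α (el (sh h a)) (em (sh h a)) (el (sh k a))
    (em (sh k a)) hNm α0 hnz cl cm cl2 cm2 hE hsum' c d (hc1.trans hd1) (fun σ hσ => hcd hσ)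
    ⟨σ₁, ⟨hc1, hd1⟩, hneq⟩ with ⟨δ, hδ, hx⟩ | ⟨δ, hδ, hx⟩
  · exact hd2 ⟨δ, hδ, fun σ hσ => hx σ hσ⟩
  · exact hc2 ⟨δ, hδ, fun σ hσ => hx σ hσ⟩

end Pool.MP671.C3.FIN

namespace Pool.MP671.C3

theorem specFIN (hSHF : SpecSHF) (hFRC : SpecFRC) (hALF : SpecALF) (hCVS : SpecCVS)
    (hUNQ : SpecUNQ) (hSTC : SpecSTC) (hMXI : SpecMXI) (hCRX : SpecCRX) : Final3 :=
  FIN.specFIN hSHF hFRC hALF hCVS hUNQ hSTC hMXI hCRX

end Pool.MP671.C3
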