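import Pool.Agent.Lib.MP_671ac3_gt.C3.Spec

section
/-!
# BRG: a crossing lens near the end of an interval of symmetry
-/
namespace Pool.MP671.C3

open MeasureTheory Real Filter Topology Pool.MP671

namespace BRG

/-- the slope at which the derivative has dropped by `u` -/
noncomputable def P (l : ℝ → ℝ) (b u : ℝ) : ℝ := sl l (deriv l b - u)

/-- the change of `Xc` -/
noncomputable def AA (l : ℝ → ℝ) (b u : ℝ) : ℝ := lg l (deriv l b) - lg l (deriv l b - u)

variable {l m : ℝ → ℝ} {a b c : ℝ}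

theorem mem_range (hLEG : SpecLEG) (hl : Cx l) {u : ℝ} (h0 : 0 ≤ u) (hu : u ≤ deriv l b - deriv l a) :
    deriv l b - u ∈ Set.range (deriv l) := by
  obtain ⟨_, _, _, ⟨_, h4⟩, _⟩ := hLEG l hl
  exact h4.out (Set.mem_range_self a) (Set.mem_range_self b) ⟨by linarith, by linarith⟩

theorem dP (hLEG : SpecLEG) (hl : Cx l) {u : ℝ} (h0 : 0 ≤ u) (hu : u ≤ deriv l b - deriv l a) :
    deriv l (P l b u) = deriv l b - u := by
  obtain ⟨_, _, h3, _⟩ := hLEG l hl
  exact h3 _ (mem_range hLEG hl h0 hu)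

theorem P_zero (hLEG : SpecLEG) (hl : Cx l) : P l b 0 = b := by
  obtain ⟨_, h2, _⟩ := hLEG l hl
  unfold P
  rw [sub_zero, h2]

theorem P_gt (hLEG : SpecLEG) (hl : Cx l) {u : ℝ} (h0 : 0 ≤ u) (hu : u < deriv l b - deriv l a) :
    a < P l b u := by
  obtain ⟨h1, _⟩ := hLEG l hl
  rw [← h1.lt_iff_lt, dP hLEG hl h0 hu.le]
  linarith

theorem P_anti (hLEG : SpecLEG) (hl : Cx l) (hc : c ≤ deriv l b - deriv l a) :
    StrictAntiOn (P l b) (Set.Ico 0 c) := by
  obtain ⟨h1, _⟩ := hLEG l hl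
  intro u hu v hv huv
  rw [← h1.lt_iff_lt, dP hLEG hl hu.1 (hu.2.le.trans hc), dP hLEG hl hv.1 (hv.2.le.trans hc)]
  linarith

theorem P_lt (hLEG : SpecLEG) (hl : Cx l) {u : ℝ} (h0 : 0 < u) (hu : u < deriv l b - deriv l a) :
    P l b u < b := by
  obtain ⟨h1, _⟩ := hLEG l hl
  rw [← h1.lt_iff_lt, dP hLEG hl h0.le hu.le]
  linarith

theorem P_cont (hLEG : SpecLEG) (hl : Cx l) (hc : c ≤ deriv l b - deriv l a) :
    ContinuousOn (P l b) (Set.Ico 0 c) := by
  obtain ⟨_, _, _, _, _, h6, _⟩ := hLEG l hl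
  intro u hu
  have h1 := (h6 _ (mem_range hLEG hl hu.1 (hu.2.le.trans hc))).1.continuousAt
  have h2 : ContinuousAt (fun u : ℝ => deriv l b - u) u := by fun_prop
  exact (ContinuousAt.comp (f := fun u : ℝ => deriv l b - u) h1 h2).continuousWithinAt

theorem AA_deriv (hLEG : SpecLEG) (hl : Cx l) {u : ℝ} (h0 : 0 ≤ u) (hu : u ≤ deriv l b - deriv l a) :
    HasDerivAt (AA l b) (P l b u) u := by
  obtain ⟨_, _, _, _, _, h6, _⟩ := hLEG l hl
  have h1 := (h6 _ (mem_range hLEG hl h0 hu)).2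
  have h2 : HasDerivAt (fun u : ℝ => deriv l b - u) (-1) u := by
    simpa using (hasDerivAt_id u).const_sub (deriv l b)
  have h3 : HasDerivAt (fun u : ℝ => lg l (deriv l b) - lg l (deriv l b - u))
      (-(sl l (deriv l b - u) * (-1))) u := (h1.comp u h2).const_sub _
  have h4 : -(sl l (deriv l b - u) * (-1)) = P l b u := by unfold P; ring
  rw [h4] at h3
  exact h3

theorem AA_eq (hLEG : SpecLEG) (hl : Cx l) {u : ℝ} (h0 : 0 ≤ u) (hu : u ≤ deriv l b - deriv l a) :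
    AA l b u = Xc l (P l b u) - Xc l b := by
  obtain ⟨_, _, _, _, _, _, h7, _⟩ := hLEG l hl
  unfold AA
  rw [← dP hLEG hl h0 hu, h7, h7]
  ring

theorem AA_zero : AA l b 0 = 0 := by
  unfold AA; rw [sub_zero]; ring

/-- mean value theorem for `AA` -/
theorem AA_mvt (hLEG : SpecLEG) (hl : Cx l) {u v : ℝ} (h0 : 0 ≤ u) (huv : u < v)
    (hv : v ≤ deriv l b - deriv l a) :
    ∃ ξ ∈ Set.Ioo u v, AA l b v - AA l b u = P l b ξ * (v - u) := by
  have h1 : ContinuousOn (AA l b) (Set.Icc u v) := fun w hw =>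
    (AA_deriv hLEG hl (h0.trans hw.1) (hw.2.trans hv)).continuousAt.continuousWithinAt
  obtain ⟨ξ, hξ, h2⟩ := exists_hasDerivAt_eq_slope (AA l b) (P l b) huv h1
    (fun w hw => AA_deriv hLEG hl (h0.trans hw.1.le) (hw.2.le.trans hv))
  refine ⟨ξ, hξ, ?_⟩
  rw [h2]
  field_simp [sub_ne_zero.2 huv.ne']

theorem lens (hLEG : SpecLEG) (hl : Cx l) (hm : Cx m) (hcl : c ≤ deriv l b - deriv l a)
    (hcm : c ≤ deriv m b - deriv m a) {κ M : ℝ} (hκ : 0 < κ) (hM : 0 < M) (hc : κ + M < c)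
    (h : AA l b (κ + M) - AA l b κ = AA m b M) :
    Ln l m (Psi l m (P l b (κ + M)) b) (P l b (κ + M)) b (P l b κ) (P m b M) := by
  have hl1 : κ + M < deriv l b - deriv l a := by linarith
  have hm1 : M < deriv m b - deriv m a := by linarith
  have hl2 : κ < deriv l b - deriv l a := by linarith
  refine ⟨P_lt hLEG hl (by linarith) hl1, ?_, rfl, ?_⟩
  · by_contra hcon
    push Not at hcon
    obtain ⟨ξ, hξ, h1⟩ := AA_mvt hLEG hl hκ.le (show κ < κ + M by linarith) hl1.le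
    obtain ⟨η, hη, h2⟩ := AA_mvt (b := b) hLEG hm le_rfl hM hm1.le
    have h3 : P l b ξ < P l b κ :=
      P_anti hLEG hl hcl ⟨hκ.le, by linarith⟩ ⟨by linarith [hξ.1], by linarith [hξ.2]⟩ hξ.1
    have h4 : P m b M < P m b η :=
      P_anti hLEG hm hcm ⟨hη.1.le, by linarith [hη.2]⟩ ⟨hM.le, by linarith⟩ hη.2
    rw [AA_zero] at h2
    have h5 : P l b ξ * M < P m b η * M := by
      apply mul_lt_mul_of_pos_right _ hM
      linarith
    have h6 : κ + M - κ = M := by ring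
    rw [h6] at h1
    linarith
  · unfold Psi
    have e1 := AA_eq (b := b) hLEG hl (by linarith : (0 : ℝ) ≤ κ + M) hl1.le
    have e2 := AA_eq (b := b) hLEG hl hκ.le hl2.le
    have e3 := AA_eq (b := b) hLEG hm hM.le hm1.le
    have d1 := dP (b := b) hLEG hl (by linarith : (0 : ℝ) ≤ κ + M) hl1.le
    have d2 := dP (b := b) hLEG hl hκ.le hl2.le
    have d3 := dP (b := b) hLEG hm hM.le hm1.le
    ext
    · show Xc l (P l b κ) + Xc m (P m b M) = Xc l (P l b (κ + M)) + Xc m b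
      linarith
    · show -(deriv l (P l b κ) + deriv m (P m b M)) = -(deriv l (P l b (κ + M)) + deriv m b)
      linarith

end BRG

open BRG in
/-- BRG -/
theorem specBRG (hEXL : SpecEXL) (hLEG : SpecLEG) : SpecBRG := by
  intro l m hl hm a b z haz hzb heq hne δ hδ
  have hab : a < b := lt_of_lt_of_le haz hzb
  obtain ⟨hl1, hl2, _⟩ := hLEG l hl
  obtain ⟨hm1, hm2, _⟩ := hLEG m hm
  -- the derivatives are differentiable
  have hdl : Differentiable ℝ (deriv l) := by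
    have := hl.c2
    rw [show (2 : WithTop ℕ∞) = 1 + 1 by norm_num, contDiff_succ_iff_deriv] at this
    exact this.2.2.differentiable (by norm_num)
  have hdm : Differentiable ℝ (deriv m) := by
    have := hm.c2
    rw [show (2 : WithTop ℕ∞) = 1 + 1 by norm_num, contDiff_succ_iff_deriv] at this
    exact this.2.2.differentiable (by norm_num)
  -- equality of the increments
  have hinc : ∀ σ, z ≤ σ → σ ≤ b → deriv l b - deriv l σ = deriv m b - deriv m σ := by
    intro σ h1 h2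
    rcases h2.eq_or_lt with h3 | h3
    · subst h3; ring
    · have hD : ∀ w, HasDerivAt (fun w => deriv l w - deriv m w)
          (deriv (deriv l) w - deriv (deriv m) w) w := fun w =>
        (hdl w).hasDerivAt.sub (hdm w).hasDerivAt
      obtain ⟨ξ, hξ, h4⟩ := exists_hasDerivAt_eq_slope (fun w => deriv l w - deriv m w)
        (fun w => deriv (deriv l) w - deriv (deriv m) w) h3
        (fun w _ => (hD w).continuousAt.continuousWithinAt) (fun w _ => hD w)
      rw [heq ξ ⟨lt_of_le_of_lt h1 hξ.1, hξ.2⟩, sub_self] at h4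
      have h5 : b - σ ≠ 0 := by linarith [h3] |> fun h : (0 : ℝ) < b - σ => h.ne'
      rw [eq_comm, div_eq_zero_iff] at h4
      rcases h4 with h4 | h4
      · linarith
      · exact absurd h4 h5
  set M₁ := deriv l b - deriv l z with hM₁
  have hM₁' : M₁ = deriv m b - deriv m z := hinc z le_rfl hzb
  set c := min (deriv l b - deriv l a) (deriv m b - deriv m a) with hc
  have hcl : c ≤ deriv l b - deriv l a := min_le_left _ _
  have hcm : c ≤ deriv m b - deriv m a := min_le_right _ _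
  have hM0 : 0 ≤ M₁ := by
    have := hl1.monotone hzb
    linarith
  have hMc : M₁ < c := by
    apply lt_min
    · have := hl1 haz; linarith
    · have := hm1 haz; linarith
  have hc0 : 0 < c := lt_of_le_of_lt hM0 hMc
  have hPQ : ∀ u ∈ Set.Icc 0 M₁, P l b u = P m b u := by
    intro u hu
    have h1 := dP (b := b) hLEG hl hu.1 (by linarith [hu.2] : u ≤ deriv l b - deriv l a)
    have h2 : z ≤ P l b u := by
      rw [← hl1.le_iff_le, h1]; linarith [hu.2]
    have h3 : P l b u ≤ b := by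
      rw [← hl1.le_iff_le, h1]; linarith [hu.1]
    have h4 := hinc _ h2 h3
    have h5 : deriv m (P l b u) = deriv m b - u := by linarith
    show _ = sl m (deriv m b - u)
    rw [← h5, hm2]
  have hPz : P l b M₁ = z := by
    show sl l (deriv l b - M₁) = z
    have : deriv l b - M₁ = deriv l z := by rw [hM₁]; ring
    rw [this, hl2]
  have hQz : P m b M₁ = z := by
    rw [← hPQ M₁ ⟨hM0, le_rfl⟩, hPz]
  -- nondegeneracy
  have hnd : ∀ δ > 0, ∃ M, M₁ < M ∧ M < M₁ + δ ∧ M < c ∧ AA l b M ≠ AA m b M := by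
    intro δ' hδ'
    by_contra hcon
    push Not at hcon
    set M₂ := min (M₁ + δ' / 2) ((M₁ + c) / 2) with hM₂
    have h1 : M₁ < M₂ := lt_min (by linarith) (by linarith)
    have h2 : M₂ < M₁ + δ' := lt_of_le_of_lt (min_le_left _ _) (by linarith)
    have h3 : M₂ < c := lt_of_le_of_lt (min_le_right _ _) (by linarith)
    have hPQ2 : ∀ M ∈ Set.Ioo M₁ M₂, P l b M = P m b M := by
      intro M hM
      have d1 := AA_deriv (b := b) hLEG hl (by linarith [hM.1] : 0 ≤ M)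
        (by linarith [hM.2] : M ≤ deriv l b - deriv l a)
      have d2 := AA_deriv (b := b) hLEG hm (by linarith [hM.1] : 0 ≤ M)
        (by linarith [hM.2] : M ≤ deriv m b - deriv m a)
      have hee : AA l b =ᶠ[𝓝 M] AA m b := by
        filter_upwards [Ioo_mem_nhds hM.1 hM.2] with w hw
        exact hcon w hw.1 (by linarith [hw.2]) (by linarith [hw.2])
      exact (d1.congr_of_eventuallyEq hee.symm).unique d2
    have hlt : P l b M₂ < z := by
      rw [← hl1.lt_iff_lt, dP (a := a) hLEG hl (by linarith) (by linarith)]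
      linarith
    obtain ⟨σ, hσ, hσne⟩ := hne (z - P l b M₂) (by linarith)
    apply hσne
    have hσ1 : P l b M₂ < σ := by linarith [hσ.1]
    have hee : deriv l =ᶠ[𝓝 σ] fun w => deriv m w + (deriv l b - deriv m b) := by
      filter_upwards [Ioo_mem_nhds hσ1 hσ.2] with w hw
      have h4 : deriv l b - deriv l w ∈ Set.Ioo M₁ M₂ := by
        constructor
        · have := hl1 hw.2; linarith
        · have := hl1 hw.1
          rw [dP (a := a) hLEG hl (by linarith) (by linarith)] at this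
          linarith
      have h5 := hPQ2 _ h4
      have h6 : P l b (deriv l b - deriv l w) = w := by
        show sl l (deriv l b - (deriv l b - deriv l w)) = w
        rw [sub_sub_cancel, hl2]
      have h7 := dP (b := b) hLEG hm (by linarith [h4.1] : 0 ≤ deriv l b - deriv l w)
        (by linarith [h4.2] : deriv l b - deriv l w ≤ deriv m b - deriv m a)
      rw [← h5, h6] at h7
      linarith
    rw [hee.deriv_eq]
    simp
  -- continuity at M₁
  have hcontP : ∀ᶠ u in 𝓝[Set.Ico 0 c] M₁, |P l b u - z| < δ := by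
    have h1 := (P_cont (b := b) hLEG hl hcl) M₁ ⟨hM0, hMc⟩
    have h2 := (Metric.tendsto_nhds.1 h1 δ hδ)
    rw [hPz] at h2
    filter_upwards [h2] with u hu
    rwa [Real.dist_eq] at hu
  have hcontQ : ∀ᶠ u in 𝓝[Set.Ico 0 c] M₁, |P m b u - z| < δ := by
    have h1 := (P_cont (b := b) hLEG hm hcm) M₁ ⟨hM0, hMc⟩
    have h2 := (Metric.tendsto_nhds.1 h1 δ hδ)
    rw [hQz] at h2
    filter_upwards [h2] with u hu
    rwa [Real.dist_eq] at hu
  obtain ⟨η, hη, hηP⟩ := Metric.mem_nhdsWithin_iff.1 (hcontP.and hcontQ)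
  obtain ⟨M, κ, hM1, hM2, hκ0, hκ1, hκM, hor⟩ := hEXL (AA l b) (AA m b) (P l b) (P m b) c M₁ hM0 hMc
    AA_zero AA_zero
    (fun u hu => AA_deriv hLEG hl hu.1 (hu.2.le.trans hcl))
    (fun u hu => AA_deriv hLEG hm hu.1 (hu.2.le.trans hcm))
    (P_anti hLEG hl hcl) (P_anti hLEG hm hcm) (P_cont hLEG hl hcl) (P_cont hLEG hm hcm) hPQ hnd
    (η / 2) (by linarith)
  have hM : 0 < M := lt_of_le_of_lt hM0 hM1
  have hnear : |P l b (κ + M) - z| < δ ∧ |P m b (κ + M) - z| < δ := by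
    apply hηP
    refine ⟨?_, ⟨by linarith, hκM⟩⟩
    rw [Metric.mem_ball, Real.dist_eq, abs_of_pos (by linarith)]
    linarith
  rcases hor with h | h
  · refine ⟨_, P l b (κ + M), P l b κ, P m b M,
      Or.inl (lens hLEG hl hm hcl hcm hκ0 hM hκM h), ?_, hnear.1, ?_, ?_, ?_, ?_⟩
    · exact P_gt hLEG hl (by linarith) (by linarith)
    · exact P_gt hLEG hl hκ0.le (by linarith)
    · exact P_lt hLEG hl hκ0 (by linarith)
    · exact P_gt hLEG hm hM.le (by linarith)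
    · exact P_lt hLEG hm hM (by linarith)
  · refine ⟨_, P m b (κ + M), P m b κ, P l b M,
      Or.inr (lens hLEG hm hl hcm hcl hκ0 hM hκM h), ?_, hnear.2, ?_, ?_, ?_, ?_⟩
    · exact P_gt hLEG hm (by linarith) (by linarith)
    · exact P_gt hLEG hm hκ0.le (by linarith)
    · exact P_lt hLEG hm hκ0 (by linarith)
    · exact P_gt hLEG hl hM.le (by linarith)
    · exact P_lt hLEG hl hM (by linarith)

end Pool.MP671.C3
end

section
/-! # MP_671ac3_gt, C3: module CCC (the products and the sums) -/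
namespace Pool.MP671.C3.CCC

open MeasureTheory Real Filter Topology Pool.MP671

theorem key (N N' R R' w : ℝ → ℝ) (α β : ℝ) (hN : ∀ θ, 0 ≤ N θ)
    (hR : ∀ θ, 0 < R θ) (hR' : ∀ θ, 0 < R' θ) (hw : ∀ θ, 0 < w θ) (hc : Continuous R')
    (hp : ∀ θ, R' (θ + 2 * π) = R' θ)
    (hs : ∀ θ, R θ + R (θ + π) = R' θ + R' (θ + π))
    (h1 : ∀ θ, 2 * N θ + α * w θ = 2 * N' θ + β * w θ)
    (h2 : ∀ θ, N θ ^ 2 * (R θ * R (θ + π)) = N' θ ^ 2 * (R' θ * R' (θ + π))) :
    ¬ β < α := by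
  intro hlt
  have hne : ∀ θ, R' θ - R' (θ + π) ≠ 0 := by
    intro θ h0
    have a1 : 0 < (α - β) * w θ := mul_pos (sub_pos.2 hlt) (hw θ)
    have a2 : N θ < N' θ := by
      have := h1 θ
      nlinarith
    have hP : 0 < R θ * R (θ + π) := mul_pos (hR _) (hR _)
    have hP' : 0 < R' θ * R' (θ + π) := mul_pos (hR' _) (hR' _)
    have a3 : N θ ^ 2 < N' θ ^ 2 := by
      have := hN θ
      nlinarith
    have a4 : R' θ * R' (θ + π) ≤ R θ * R (θ + π) := by
      by_contra hcon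
      rw [not_le] at hcon
      have a5 : N θ ^ 2 * (R θ * R (θ + π)) ≤ N θ ^ 2 * (R' θ * R' (θ + π)) :=
        mul_le_mul_of_nonneg_left hcon.le (sq_nonneg _)
      have a6 : N θ ^ 2 * (R' θ * R' (θ + π)) < N' θ ^ 2 * (R' θ * R' (θ + π)) :=
        mul_lt_mul_of_pos_right a3 hP'
      have := h2 θ
      linarith
    have a7 : R' θ * R' (θ + π) < R θ * R (θ + π) := by
      rcases a4.lt_or_eq with h | h
      · exact h
      · exfalso
        have h3 := h2 θ
        rw [h] at h3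
        have := mul_lt_mul_of_pos_right a3 hP
        linarith
    have a8 := hs θ
    have a9 : R' θ = R' (θ + π) := sub_eq_zero.1 h0
    rw [a9] at a7
    have b1 : R θ + R (θ + π) = 2 * R' (θ + π) := by rw [a8, a9]; ring
    have b2 : (R θ + R (θ + π)) ^ 2 = (2 * R' (θ + π)) ^ 2 := by rw [b1]
    nlinarith [sq_nonneg (R θ - R (θ + π))]
  have hcD : Continuous fun θ => R' θ - R' (θ + π) :=
    hc.sub (hc.comp (continuous_id.add continuous_const))
  have hD : R' (0 + π) - R' (0 + π + π) = -(R' 0 - R' (0 + π)) := by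
    have h3 := hp 0
    have h4 : (0 : ℝ) + π + π = 0 + 2 * π := by ring
    rw [h4, h3]
    ring
  have hiv : (0 : ℝ) ∈ (fun θ => R' θ - R' (θ + π)) '' Set.uIcc 0 (0 + π) := by
    apply intermediate_value_uIcc hcD.continuousOn
    show (0 : ℝ) ∈ Set.uIcc (R' 0 - R' (0 + π)) (R' (0 + π) - R' (0 + π + π))
    rw [hD, Set.mem_uIcc]
    rcases le_total 0 (R' 0 - R' (0 + π)) with h | h
    · right
      constructor <;> linarith
    · left
      constructor <;> linarith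
  obtain ⟨θ, -, hθ⟩ := hiv
  exact hne θ hθ

end Pool.MP671.C3.CCC

namespace Pool.MP671.C3

open MeasureTheory Real Filter Topology Pool.MP671

theorem specCCC : SpecCCC := by
  intro N N' R R' w α β hN hN' hR hR' hw hc hc' hp hp' hs h1 h2
  have hαβ : α = β := by
    rcases lt_trichotomy α β with h | h | h
    · exact absurd h (CCC.key N' N R' R w β α hN' hR' hR hw hc hp (fun θ => (hs θ).symm)
        (fun θ => (h1 θ).symm) (fun θ => (h2 θ).symm))
    · exact h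
    · exact absurd h (CCC.key N N' R R' w α β hN hR hR' hw hc' hp' hs h1 h2)
  have hNN : ∀ θ, N θ = N' θ := by
    intro θ
    have h3 := h1 θ
    rw [hαβ] at h3
    linarith
  refine ⟨hαβ, hNN, fun θ hθ => ?_⟩
  have h3 := h2 θ
  rw [← hNN θ] at h3
  have h4 : R θ * R (θ + π) = R' θ * R' (θ + π) :=
    mul_left_cancel₀ (pow_ne_zero 2 hθ) h3
  have h5 := hs θ
  have h6 : (R' θ - R θ) * (R' θ - R (θ + π)) = 0 := by
    have h7 : R (θ + π) = R' θ + R' (θ + π) - R θ := by linarith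
    rw [h7] at h4 ⊢
    nlinarith
  rcases mul_eq_zero.1 h6 with h | h
  · left; linarith
  · right; linarith

end Pool.MP671.C3
end

section
/-! # MP_671ac3_gt, C3: module CEQ (corner equations) -/
namespace Pool.MP671.C3.CEQ

open MeasureTheory Real Filter Topology Pool.MP671

theorem c1 {f : ℝ → ℝ} (hf : Cx f) : ContDiff ℝ 1 (deriv f) := by
  have h := hf.c2
  have : (2 : WithTop ℕ∞) = 1 + 1 := by norm_num
  rw [this] at h
  exact (contDiff_succ_iff_deriv.1 h).2.2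

theorem hdd {f : ℝ → ℝ} (hf : Cx f) (σ : ℝ) :
    HasDerivAt (deriv f) (deriv (deriv f) σ) σ :=
  ((c1 hf).contDiffAt.differentiableAt (by norm_num)).hasDerivAt

theorem cdd {f : ℝ → ℝ} (hf : Cx f) : Continuous (deriv (deriv f)) :=
  (c1 hf).continuous_deriv (by norm_num)

theorem cXc {f : ℝ → ℝ} (hf : Cx f) : Continuous (Xc f) := by
  unfold Xc
  exact hf.c2.continuous.sub (continuous_id.mul (c1 hf).continuous)

theorem map_pair (p : Pl →L[ℝ] ℝ) (a D : ℝ) :
    p (-(a * D), -D) = -D * (a * p (1, 0) + p (0, 1)) := by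
  have h : ((-(a * D), -D) : Pl) = (-(a * D)) • ((1, 0) : Pl) + (-D) • ((0, 1) : Pl) := by
    ext <;> simp
  rw [h, map_add, map_smul, map_smul, smul_eq_mul, smul_eq_mul]
  ring

end Pool.MP671.C3.CEQ

namespace Pool.MP671.C3

open MeasureTheory Real Filter Topology Pool.MP671

theorem specCEQ (hLEG : SpecLEG) : SpecCEQ := by
  intro n α c l m hn hl hm r s G p hev hG
  obtain ⟨-, -, -, -, -, -, -, -, hXl⟩ := hLEG l hl
  obtain ⟨-, -, -, -, -, -, -, -, hXm⟩ := hLEG m hm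
  have cl : Continuous fun σ => (n σ + α * Xc l σ) * deriv (deriv l) σ :=
    (hn.add (continuous_const.mul (CEQ.cXc hl))).mul (CEQ.cdd hl)
  have cm : Continuous fun σ => (n σ + α * Xc m σ) * deriv (deriv m) σ :=
    (hn.add (continuous_const.mul (CEQ.cXc hm))).mul (CEQ.cdd hm)
  constructor
  · -- along `r`
    have t1 : Tendsto (fun r' : ℝ => (r', s)) (𝓝 r) (𝓝 (r, s)) :=
      (continuous_id.prodMk continuous_const).tendsto r
    have e1 : ∀ᶠ r' in 𝓝 r, VV n α c l m r' s = G (Psi l m r' s) := t1.eventually hev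
    have d1 : HasDerivAt (fun r' => Psi l m r' s)
        (-(r * deriv (deriv l) r), -(deriv (deriv l) r)) r := by
      unfold Psi
      refine HasDerivAt.prodMk ?_ ?_
      · exact (hXl r).add_const _
      · exact ((CEQ.hdd hl r).add_const _).neg
    have d2 : HasDerivAt (fun r' => G (Psi l m r' s))
        (p (-(r * deriv (deriv l) r), -(deriv (deriv l) r))) r :=
      HasFDerivAt.comp_hasDerivAt r hG d1
    have d3 : HasDerivAt (fun r' => VV n α c l m r' s)
        (-((n r + α * Xc l r) * deriv (deriv l) r) + 0 +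
          (α * (-(r * deriv (deriv l) r)) * deriv l r +
            α * (Xc l r + Xc m s) * deriv (deriv l) r)) r := by
      unfold VV
      refine HasDerivAt.add (HasDerivAt.add ?_ (hasDerivAt_const _ _)) ?_
      · have h1 := (cl.integral_hasStrictDerivAt c r).hasDerivAt.neg
        refine h1.congr_of_eventuallyEq (Eventually.of_forall fun x => ?_)
        exact intervalIntegral.integral_symm _ _
      · exact (((hXl r).add_const _).const_mul α).mul (CEQ.hdd hl r)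
    have h4 := d3.unique (d2.congr_of_eventuallyEq e1)
    rw [CEQ.map_pair] at h4
    have h5 := (hl.pos r).ne'
    have h6 : deriv (deriv l) r * (r * p (1, 0) + p (0, 1)) =
        deriv (deriv l) r * (n r + α * (l r - (Psi l m r s).1)) := by
      have h7 : (Psi l m r s).1 = Xc l r + Xc m s := rfl
      have h8 : Xc l r = l r - r * deriv l r := rfl
      rw [h7]
      rw [h8] at h4 ⊢
      linarith
    exact mul_left_cancel₀ h5 h6
  · -- along `s`
    have t1 : Tendsto (fun s' : ℝ => (r, s')) (𝓝 s) (𝓝 (r, s)) :=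
      (continuous_const.prodMk continuous_id).tendsto s
    have e1 : ∀ᶠ s' in 𝓝 s, VV n α c l m r s' = G (Psi l m r s') := t1.eventually hev
    have d1 : HasDerivAt (fun s' => Psi l m r s')
        (-(s * deriv (deriv m) s), -(deriv (deriv m) s)) s := by
      unfold Psi
      refine HasDerivAt.prodMk ?_ ?_
      · exact (hXm s).const_add _
      · exact ((CEQ.hdd hm s).const_add _).neg
    have d2 : HasDerivAt (fun s' => G (Psi l m r s'))
        (p (-(s * deriv (deriv m) s), -(deriv (deriv m) s))) s :=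
      HasFDerivAt.comp_hasDerivAt s hG d1
    have d3 : HasDerivAt (fun s' => VV n α c l m r s')
        (0 + (n s + α * Xc m s) * deriv (deriv m) s +
          α * (-(s * deriv (deriv m) s)) * deriv l r) s := by
      unfold VV
      refine HasDerivAt.add (HasDerivAt.add (hasDerivAt_const _ _) ?_) ?_
      · exact (cm.integral_hasStrictDerivAt c s).hasDerivAt
      · exact (((hXm s).const_add _).const_mul α).mul_const _
    have h4 := d3.unique (d2.congr_of_eventuallyEq e1)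
    rw [CEQ.map_pair] at h4
    have h5 := (hm.pos s).ne'
    have h6 : deriv (deriv m) s * (s * p (1, 0) + p (0, 1)) =
        deriv (deriv m) s * (-n s + α * (l r + deriv l r * (s - r) - (Psi l m r s).1)) := by
      have h7 : (Psi l m r s).1 = Xc l r + Xc m s := rfl
      have h8 : Xc l r = l r - r * deriv l r := rfl
      rw [h7, h8]
      linarith
    exact mul_left_cancel₀ h5 h6

end Pool.MP671.C3
end

section
/-!
# Module CRS (MP_671ac3_gt, folder C3): crossing lenses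
-/
namespace Pool.MP671.C3

open MeasureTheory Real Filter Topology
open Pool.MP671

namespace CRS

/-- two `C¹` functions which agree on `[a,b]` have there the same derivative -/
theorem eqOn_deriv {f g : ℝ → ℝ} (hf : Continuous (deriv f)) (hg : Continuous (deriv g)) {a b : ℝ}
    (hab : a < b) (h : ∀ σ ∈ Set.Icc a b, f σ = g σ) :
    ∀ σ ∈ Set.Icc a b, deriv f σ = deriv g σ := by
  have hcl : IsClosed {σ | deriv f σ = deriv g σ} := isClosed_eq hf hg
  have hsub : Set.Ioo a b ⊆ {σ | deriv f σ = deriv g σ} := by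
    intro σ hσ
    have hev : f =ᶠ[𝓝 σ] g := by
      filter_upwards [Ioo_mem_nhds hσ.1 hσ.2] with τ hτ
      exact h τ ⟨hτ.1.le, hτ.2.le⟩
    exact hev.deriv_eq
  intro σ hσ
  have h1 : closure (Set.Ioo a b) ⊆ {σ | deriv f σ = deriv g σ} := hcl.closure_subset_iff.2 hsub
  rw [closure_Ioo hab.ne] at h1
  exact h1 hσ

theorem cont_deriv {f : ℝ → ℝ} (hf : Cx f) : Continuous (deriv f) :=
  hf.c2.continuous_deriv (by norm_num)

theorem cont_deriv2 {f : ℝ → ℝ} (hf : Cx f) : Continuous (deriv (deriv f)) := by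
  have h1 : ContDiff ℝ 1 (deriv f) := by
    have h := hf.c2
    rw [show (2 : WithTop ℕ∞) = 1 + 1 by norm_num, contDiff_succ_iff_deriv] at h
    exact h.2.2
  exact h1.continuous_deriv (by norm_num)

theorem cont_Xc {f : ℝ → ℝ} (hf : Cx f) : Continuous (Xc f) := by
  unfold Xc
  exact hf.c2.continuous.sub (continuous_id.mul (cont_deriv hf))

theorem cont_Psi {l m : ℝ → ℝ} (hl : Cx l) (hm : Cx m) :
    Continuous (fun z : Pl => Psi l m z.1 z.2) := by
  unfold Psi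
  refine Continuous.prodMk ?_ ?_
  · exact ((cont_Xc hl).comp continuous_fst).add ((cont_Xc hm).comp continuous_snd)
  · exact (((cont_deriv hl).comp continuous_fst).add ((cont_deriv hm).comp continuous_snd)).neg

/-- the tangent inequality, equality allowed -/
theorem tan_le {f : ℝ → ℝ} (h : ∀ σ τ, σ ≠ τ → Xc f σ + τ * deriv f σ < f τ) (σ τ : ℝ) :
    Xc f σ + τ * deriv f σ ≤ f τ := by
  by_cases hst : σ = τ
  · subst hst
    unfold Xc
    linarith
  · exact (h σ τ hst).le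

end CRS

open CRS in
theorem specCRS (hINV : SpecINV) (hVAV : SpecVAV) (hCEQ : SpecCEQ) (hLSX : SpecLSX)
    (hLEG : SpecLEG) : SpecCRS := by
  intro n e α l m l₂ m₂ hN hα hl hm hl₂ hm₂ hEq a b hab hag x r r' s' hLn har har' hr'b has' hs'b
    hpos
  have hnc : Continuous n := by
    have hL : LipschitzWith ⟨e, hN.e0⟩ n := by
      refine LipschitzWith.of_dist_le_mul fun u v => ?_
      rw [Real.dist_eq, Real.dist_eq]
      exact hN.lip u v
    exact hL.continuous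
  -- the functions and their derivatives agree on `[a,b]`
  have hl1 : ∀ σ ∈ Set.Icc a b, l₂ σ = l σ := fun σ hσ => (hag σ hσ).1
  have hm1 : ∀ σ ∈ Set.Icc a b, m₂ σ = m σ := fun σ hσ => (hag σ hσ).2
  have hl' := eqOn_deriv (cont_deriv hl₂) (cont_deriv hl) hab hl1
  have hm' := eqOn_deriv (cont_deriv hm₂) (cont_deriv hm) hab hm1
  have hl'' := eqOn_deriv (cont_deriv2 hl₂) (cont_deriv2 hl) hab hl'
  have hm'' := eqOn_deriv (cont_deriv2 hm₂) (cont_deriv2 hm) hab hm'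
  have hXl : ∀ σ ∈ Set.Icc a b, Xc l₂ σ = Xc l σ := by
    intro σ hσ
    unfold Xc
    rw [hl1 σ hσ, hl' σ hσ]
  have hXm : ∀ σ ∈ Set.Icc a b, Xc m₂ σ = Xc m σ := by
    intro σ hσ
    unfold Xc
    rw [hm1 σ hσ, hm' σ hσ]
  have hPsi : ∀ u ∈ Set.Icc a b, ∀ v ∈ Set.Icc a b, Psi l₂ m₂ u v = Psi l m u v := by
    intro u hu v hv
    unfold Psi
    rw [hXl u hu, hXm v hv, hl' u hu, hm' v hv]
  have hrb : r < b := hLn.top
  have hs'r' : s' < r' := hLn.bot
  have hbI : b ∈ Set.Icc a b := ⟨hab.le, le_rfl⟩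
  have hrI : r ∈ Set.Icc a b := ⟨har.le, hrb.le⟩
  -- the open sets
  let W₁ : Set Pl := {z | a < z.1 ∧ z.1 < b ∧ z.1 < z.2 ∧ (0 < α ∨ e * (z.2 - z.1) < n z.1 + n z.2)}
  let W₃ : Set Pl := {z | a < z.1 ∧ z.1 < b ∧ a < z.2 ∧ z.2 < b ∧ z.2 < z.1}
  have hW₁ : IsOpen W₁ := by
    refine IsOpen.and (isOpen_lt continuous_const continuous_fst) ?_
    refine IsOpen.and (isOpen_lt continuous_fst continuous_const) ?_
    refine IsOpen.and (isOpen_lt continuous_fst continuous_snd) ?_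
    by_cases hα0 : 0 < α
    · simp only [hα0, true_or]
      exact isOpen_const
    · simp only [hα0, false_or]
      exact isOpen_lt (continuous_const.mul (continuous_snd.sub continuous_fst))
        ((hnc.comp continuous_fst).add (hnc.comp continuous_snd))
  have hW₃ : IsOpen W₃ := by
    refine IsOpen.and (isOpen_lt continuous_const continuous_fst) ?_
    refine IsOpen.and (isOpen_lt continuous_fst continuous_const) ?_
    refine IsOpen.and (isOpen_lt continuous_const continuous_snd) ?_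
    refine IsOpen.and (isOpen_lt continuous_snd continuous_const) ?_
    exact isOpen_lt continuous_snd continuous_fst
  have hrW₁ : ((r, b) : Pl) ∈ W₁ := ⟨har, hrb, hrb, hpos⟩
  have hrW₃ : ((r', s') : Pl) ∈ W₃ := ⟨har', hr'b, has', hs'b, hs'r'⟩
  obtain ⟨U₁, V₁, g₁, hU₁, hV₁, hUW₁, hmU₁, hUV₁, hVU₁⟩ := hINV l m hl hm r b hrb.ne W₁ hW₁ hrW₁
  obtain ⟨U₂, V₂, g₂, hU₂, hV₂, hUW₂, hmU₂, hUV₂, hVU₂⟩ :=
    hINV l₂ m₂ hl₂ hm₂ r b hrb.ne W₁ hW₁ hrW₁
  obtain ⟨U₃, V₃, g₃, hU₃, hV₃, hUW₃, hmU₃, hUV₃, hVU₃⟩ :=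
    hINV l m hl hm r' s' hs'r'.ne' W₃ hW₃ hrW₃
  set O : Set Pl := V₁ ∩ V₂ ∩ V₃ with hO
  have hOo : IsOpen O := (hV₁.inter hV₂).inter hV₃
  have hx1 : Psi l m r b = x := hLn.ht
  have hx2 : Psi l₂ m₂ r b = x := by rw [hPsi r hrI b hbI]; exact hx1
  have hx3 : Psi l m r' s' = x := hLn.hb
  have hxO : x ∈ O := by
    refine ⟨⟨?_, ?_⟩, ?_⟩
    · rw [← hx1]; exact (hUV₁ _ hmU₁).1
    · rw [← hx2]; exact (hUV₂ _ hmU₂).1
    · rw [← hx3]; exact (hUV₃ _ hmU₃).1
  -- the contributions of the upper corners agree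
  have hVV : ∀ y ∈ O, VV n α r' l m (g₁ y).1 (g₁ y).2 = VV n α r' l₂ m₂ (g₂ y).1 (g₂ y).2 := by
    rintro y ⟨⟨hy1, hy2⟩, hy3⟩
    obtain ⟨h1U, h1P, -⟩ := hVU₁ y hy1
    obtain ⟨h2U, h2P, -⟩ := hVU₂ y hy2
    obtain ⟨h3U, h3P, -⟩ := hVU₃ y hy3
    obtain ⟨-, -, h1t, -⟩ := hUW₁ h1U
    obtain ⟨-, -, h2t, -⟩ := hUW₂ h2U
    obtain ⟨h3a, h3b, h3c, h3d, h3e⟩ := hUW₃ h3U
    have h3I1 : (g₃ y).1 ∈ Set.Icc a b := ⟨h3a.le, h3b.le⟩
    have h3I2 : (g₃ y).2 ∈ Set.Icc a b := ⟨h3c.le, h3d.le⟩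
    have hr'I : r' ∈ Set.Icc a b := ⟨har'.le, hr'b.le⟩
    have hL1 : Ln l m y (g₁ y).1 (g₁ y).2 (g₃ y).1 (g₃ y).2 := ⟨h1t, h3e, h1P, h3P⟩
    have hL2 : Ln l₂ m₂ y (g₂ y).1 (g₂ y).2 (g₃ y).1 (g₃ y).2 :=
      ⟨h2t, h3e, h2P, by rw [hPsi _ h3I1 _ h3I2]; exact h3P⟩
    have hE := hEq y _ _ _ _ _ _ _ _ hL1 hL2
    rw [hVAV.1 n α r' l m hnc hl hm _ _ _ _ _ hL1,
      hVAV.1 n α r' l₂ m₂ hnc hl₂ hm₂ _ _ _ _ _ hL2] at hE
    have hsame : VV n α r' l₂ m₂ (g₃ y).1 (g₃ y).2 = VV n α r' l m (g₃ y).1 (g₃ y).2 := by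
      unfold VV
      have i1 : (∫ σ in (g₃ y).1..r', (n σ + α * Xc l₂ σ) * deriv (deriv l₂) σ) =
          ∫ σ in (g₃ y).1..r', (n σ + α * Xc l σ) * deriv (deriv l) σ := by
        refine intervalIntegral.integral_congr fun σ hσ => ?_
        have hσI : σ ∈ Set.Icc a b := Set.uIcc_subset_Icc h3I1 hr'I hσ
        simp only [hXl σ hσI, hl'' σ hσI]
      have i2 : (∫ σ in r'..(g₃ y).2, (n σ + α * Xc m₂ σ) * deriv (deriv m₂) σ) =
          ∫ σ in r'..(g₃ y).2, (n σ + α * Xc m σ) * deriv (deriv m) σ := by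
        refine intervalIntegral.integral_congr fun σ hσ => ?_
        have hσI : σ ∈ Set.Icc a b := Set.uIcc_subset_Icc hr'I h3I2 hσ
        simp only [hXm σ hσI, hm'' σ hσI]
      rw [i1, i2, hXl _ h3I1, hXm _ h3I2, hl' _ h3I1]
    rw [hsame] at hE
    linarith
  -- the function `G`
  let G : Pl → ℝ := fun y => VV n α r' l m (g₁ y).1 (g₁ y).2
  have hGd : ∀ y ∈ O, DifferentiableAt ℝ G y := by
    intro y hy
    have h1 := (hVU₁ y hy.1.1).2.2
    have h2 := (hVAV.2.1 n α r' l m hnc hl hm) (g₁ y)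
    exact DifferentiableAt.comp (g := fun z : Pl => VV n α r' l m z.1 z.2) y h2 h1
  -- the slopes of the right arcs agree
  have hkey : ∀ y ∈ O, (g₁ y).1 = (g₂ y).1 := by
    intro y hy
    obtain ⟨h1U, h1P, -⟩ := hVU₁ y hy.1.1
    obtain ⟨h2U, h2P, -⟩ := hVU₂ y hy.1.2
    obtain ⟨h1a, h1b, h1t, h1p⟩ := hUW₁ h1U
    obtain ⟨h2a, h2b, h2t, h2p⟩ := hUW₂ h2U
    have hGy : HasFDerivAt G (fderiv ℝ G y) y := (hGd y hy).hasFDerivAt
    have e1 : ∀ᶠ z : Pl in 𝓝 ((g₁ y).1, (g₁ y).2), VV n α r' l m z.1 z.2 =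
        G (Psi l m z.1 z.2) := by
      filter_upwards [hU₁.mem_nhds h1U] with z hz
      show VV n α r' l m z.1 z.2 = VV n α r' l m (g₁ (Psi l m z.1 z.2)).1 (g₁ (Psi l m z.1 z.2)).2
      rw [(hUV₁ z hz).2]
    have e2 : ∀ᶠ z : Pl in 𝓝 ((g₂ y).1, (g₂ y).2), VV n α r' l₂ m₂ z.1 z.2 =
        G (Psi l₂ m₂ z.1 z.2) := by
      have hO' : (fun z : Pl => Psi l₂ m₂ z.1 z.2) ⁻¹' O ∈ 𝓝 (g₂ y) := by
        refine (cont_Psi hl₂ hm₂).continuousAt.preimage_mem_nhds ?_
        rw [h2P]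
        exact hOo.mem_nhds hy
      filter_upwards [hU₂.mem_nhds h2U, hO'] with z hz hzO
      have h := hVV _ hzO
      show VV n α r' l₂ m₂ z.1 z.2 =
        VV n α r' l m (g₁ (Psi l₂ m₂ z.1 z.2)).1 (g₁ (Psi l₂ m₂ z.1 z.2)).2
      rw [h, (hUV₂ z hz).2]
    have c1 := hCEQ n α r' l m hnc hl hm (g₁ y).1 (g₁ y).2 G (fderiv ℝ G y) e1
      (by rw [h1P]; exact hGy)
    have c2 := hCEQ n α r' l₂ m₂ hnc hl₂ hm₂ (g₂ y).1 (g₂ y).2 G (fderiv ℝ G y) e2
      (by rw [h2P]; exact hGy)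
    rw [h1P] at c1
    rw [h2P, hl1 _ ⟨h2a.le, h2b.le⟩, hl' _ ⟨h2a.le, h2b.le⟩] at c2
    exact hLSX n e α l hN hα hl _ _ _ _ _ _ _ h1t h2t h1p h2p c1.1 c1.2 c2.1 c2.2
  -- near `b`
  have hpair : Tendsto (fun σ : ℝ => ((r, σ) : Pl)) (𝓝 b) (𝓝 (r, b)) :=
    (Continuous.prodMk continuous_const continuous_id).tendsto b
  have ev1 : ∀ᶠ σ in 𝓝 b, ((r, σ) : Pl) ∈ U₁ := hpair (hU₁.mem_nhds hmU₁)
  have ev2 : ∀ᶠ σ in 𝓝 b, ((r, σ) : Pl) ∈ U₂ := hpair (hU₂.mem_nhds hmU₂)
  have ev3 : ∀ᶠ σ in 𝓝 b, Psi l m r σ ∈ O := by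
    have h : (fun z : Pl => Psi l m z.1 z.2) ⁻¹' O ∈ 𝓝 ((r, b) : Pl) := by
      refine (cont_Psi hl hm).continuousAt.preimage_mem_nhds ?_
      show O ∈ 𝓝 (Psi l m r b)
      rw [hx1]
      exact hOo.mem_nhds hxO
    exact hpair h
  have ev4 : ∀ᶠ σ in 𝓝 b, Psi l₂ m₂ r σ ∈ O := by
    have h : (fun z : Pl => Psi l₂ m₂ z.1 z.2) ⁻¹' O ∈ 𝓝 ((r, b) : Pl) := by
      refine (cont_Psi hl₂ hm₂).continuousAt.preimage_mem_nhds ?_
      show O ∈ 𝓝 (Psi l₂ m₂ r b)
      rw [hx2]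
      exact hOo.mem_nhds hxO
    exact hpair h
  have hfin : ∀ᶠ σ in 𝓝 b, m₂ σ = m σ := by
    filter_upwards [ev1, ev2, ev3, ev4] with σ h1 h2 h3 h4
    have hT := (hLEG m hm).2.2.2.2.2.2.2.1
    have hT₂ := (hLEG m₂ hm₂).2.2.2.2.2.2.2.1
    refine le_antisymm ?_ ?_
    · -- `y = Psi l₂ m₂ r σ`
      have hg2 := (hUV₂ _ h2).2
      have hg1 := hkey _ h4
      obtain ⟨-, hP, -⟩ := hVU₁ _ h4.1.1
      simp only at hg2
      rw [hg2] at hg1
      rw [hg1] at hP
      generalize (g₁ (Psi l₂ m₂ r σ)).2 = τ at hP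
      have hP1 := congrArg Prod.fst hP
      have hP2 := congrArg Prod.snd hP
      simp only [Psi] at hP1 hP2
      rw [hXl r hrI] at hP1
      rw [hl' r hrI] at hP2
      have ht := tan_le hT τ σ
      have hX : Xc m₂ σ + σ * deriv m₂ σ = m₂ σ := by unfold Xc; ring
      have q1 : Xc m τ = Xc m₂ σ := by linarith
      have q2 : deriv m τ = deriv m₂ σ := by linarith
      rw [q1, q2] at ht
      linarith
    · have hg1 := (hUV₁ _ h1).2
      have hg2 := hkey _ h3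
      obtain ⟨-, hP, -⟩ := hVU₂ _ h3.1.2
      simp only at hg1
      rw [hg1] at hg2
      rw [← hg2] at hP
      generalize (g₂ (Psi l m r σ)).2 = τ at hP
      have hP1 := congrArg Prod.fst hP
      have hP2 := congrArg Prod.snd hP
      simp only [Psi] at hP1 hP2
      rw [hXl r hrI] at hP1
      rw [hl' r hrI] at hP2
      have ht := tan_le hT₂ τ σ
      have hX : Xc m σ + σ * deriv m σ = m σ := by unfold Xc; ring
      have q1 : Xc m₂ τ = Xc m σ := by linarith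
      have q2 : deriv m₂ τ = deriv m σ := by linarith
      rw [q1, q2] at ht
      linarith
  obtain ⟨δ, hδ, hball⟩ := Metric.eventually_nhds_iff.1 hfin
  refine ⟨δ, hδ, fun σ hσ => hball ?_⟩
  rw [Real.dist_eq, abs_lt]
  constructor <;> linarith [hσ.1, hσ.2]

end Pool.MP671.C3
end

section
/-!
# MP_671ac3_gt, C3, module CRX (helper54)
-/
namespace Pool.MP671.C3

open MeasureTheory Real Filter Topology Pool.MP671

namespace CRX

/-- the right end of the last interval on which `D` is not identically zero. -/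
theorem right (D : ℝ → ℝ) (hD : Continuous D) (a b σ₁ : ℝ) (ha : a < σ₁) (hb : σ₁ < b)
    (h : D σ₁ ≠ 0) : ∃ z, σ₁ < z ∧ z ≤ b ∧ (∀ σ ∈ Set.Ioo z b, D σ = 0) ∧
      ∀ δ > 0, ∃ σ ∈ Set.Ioo (z - δ) z, D σ ≠ 0 := by
  set S : Set ℝ := {z | z ≤ b ∧ σ₁ ≤ z ∧ ∀ σ ∈ Set.Ioo z b, D σ = 0} with hS
  have hbS : b ∈ S := ⟨le_refl _, hb.le, fun σ hσ => absurd (hσ.1.trans hσ.2) (lt_irrefl _)⟩
  have hne : S.Nonempty := ⟨b, hbS⟩
  have hbdd : BddBelow S := ⟨σ₁, fun z hz => hz.2.1⟩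
  have hcl : IsClosed {σ | D σ = 0} := isClosed_eq hD continuous_const
  set z := sInf S with hz
  have hz1 : σ₁ ≤ z := le_csInf hne fun z hz => hz.2.1
  have hz2 : z ≤ b := csInf_le hbdd hbS
  have hz3 : ∀ σ ∈ Set.Ioo z b, D σ = 0 := by
    intro σ hσ
    obtain ⟨w, hw, hwσ⟩ := exists_lt_of_csInf_lt hne hσ.1
    exact hw.2.2 σ ⟨hwσ, hσ.2⟩
  have hz4 : σ₁ < z := by
    rcases hz1.lt_or_eq with h1 | h1
    · exact h1
    · exfalso
      have h2 : closure (Set.Ioo σ₁ b) ⊆ {σ | D σ = 0} := by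
        apply hcl.closure_subset_iff.2
        rw [h1]
        exact hz3
      rw [closure_Ioo hb.ne] at h2
      exact h (h2 ⟨le_refl _, hb.le⟩)
  refine ⟨z, hz4, hz2, hz3, ?_⟩
  intro δ hδ
  by_contra hcon
  push Not at hcon
  have hzz : D z = 0 := by
    have h2 : closure (Set.Ioo (z - δ) z) ⊆ {σ | D σ = 0} := hcl.closure_subset_iff.2 hcon
    rw [closure_Ioo (by linarith : z - δ ≠ z)] at h2
    exact h2 ⟨by linarith, le_refl _⟩
  have hm : max σ₁ (z - δ / 2) ∈ S := by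
    refine ⟨max_le hb.le (by linarith), le_max_left _ _, ?_⟩
    intro σ hσ
    have h1 : z - δ / 2 < σ := lt_of_le_of_lt (le_max_right _ _) hσ.1
    rcases lt_trichotomy σ z with h2 | h2 | h2
    · exact hcon σ ⟨by linarith, h2⟩
    · rw [h2]; exact hzz
    · exact hz3 σ ⟨h2, hσ.2⟩
  have h1 : z ≤ max σ₁ (z - δ / 2) := csInf_le hbdd hm
  have h2 : max σ₁ (z - δ / 2) < z := max_lt hz4 (by linarith)
  exact absurd h1 (not_le.2 h2)

theorem left (D : ℝ → ℝ) (hD : Continuous D) (a b σ₁ : ℝ) (ha : a < σ₁) (hb : σ₁ < b)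
    (h : D σ₁ ≠ 0) : ∃ z, z < σ₁ ∧ a ≤ z ∧ (∀ σ ∈ Set.Ioo a z, D σ = 0) ∧
      ∀ δ > 0, ∃ σ ∈ Set.Ioo z (z + δ), D σ ≠ 0 := by
  obtain ⟨z, h1, h2, h3, h4⟩ := right (fun σ => D (-σ)) (hD.comp continuous_neg) (-b) (-a) (-σ₁)
    (by linarith) (by linarith) (by simpa using h)
  refine ⟨-z, by linarith, by linarith, ?_, ?_⟩
  · intro σ hσ
    have := h3 (-σ) ⟨by linarith [hσ.2], by linarith [hσ.1]⟩
    simpa using this
  · intro δ hδ
    obtain ⟨σ, hσ, hne⟩ := h4 δ hδ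
    exact ⟨-σ, ⟨by linarith [hσ.2], by linarith [hσ.1]⟩, hne⟩

theorem cx_d {f : ℝ → ℝ} (hf : Cx f) (σ : ℝ) : HasDerivAt f (deriv f σ) σ :=
  ((hf.c2.differentiable (by norm_num)) σ).hasDerivAt

theorem cx_c1 {f : ℝ → ℝ} (hf : Cx f) : ContDiff ℝ 1 (deriv f) := by
  have h : ContDiff ℝ (1 + 1) f := by
    have := hf.c2
    norm_num
    exact this
  exact ((contDiff_succ_iff_deriv.1 h).2.2)

theorem cx_dd {f : ℝ → ℝ} (hf : Cx f) (σ : ℝ) : HasDerivAt (deriv f) (deriv (deriv f) σ) σ :=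
  (((cx_c1 hf).differentiable (by norm_num)) σ).hasDerivAt

theorem cx_cont {f : ℝ → ℝ} (hf : Cx f) : Continuous (deriv (deriv f)) :=
  (cx_c1 hf).continuous_deriv (by norm_num)

theorem affine {f g : ℝ → ℝ} (hf : Cx f) (hg : Cx g) {a b : ℝ} (hab : a < b)
    (h : ∀ σ ∈ Set.Icc a b, deriv (deriv f) σ = deriv (deriv g) σ) :
    ∃ c₀ c₁ : ℝ, ∀ σ ∈ Set.Icc a b, f σ - (c₀ + c₁ * σ) = g σ := by
  have h1 : ∀ σ ∈ Set.Icc a b, deriv f σ - deriv g σ = deriv f a - deriv g a := by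
    intro σ hσ
    refine constant_of_has_deriv_right_zero (f := fun σ => deriv f σ - deriv g σ) ?_ ?_ σ hσ
    · exact ((cx_c1 hf).continuous.sub (cx_c1 hg).continuous).continuousOn
    · intro x hx
      have := ((cx_dd hf x).sub (cx_dd hg x)).hasDerivWithinAt (s := Set.Ici x)
      rwa [h x ⟨hx.1, hx.2.le⟩, sub_self] at this
  set c₁ := deriv f a - deriv g a with hc₁
  refine ⟨f a - g a - c₁ * a, c₁, ?_⟩
  intro σ hσ
  have h2 : f σ - g σ - c₁ * σ = f a - g a - c₁ * a := by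
    refine constant_of_has_deriv_right_zero (f := fun σ => f σ - g σ - c₁ * σ) ?_ ?_ σ hσ
    · exact ((hf.c2.continuous.sub hg.c2.continuous).sub
        (continuous_const.mul continuous_id)).continuousOn
    · intro x hx
      have h3 := (((cx_d hf x).sub (cx_d hg x)).sub ((hasDerivAt_id x).const_mul c₁))
      have h4 := h3.hasDerivWithinAt (s := Set.Ici x)
      rw [h1 x ⟨hx.1, hx.2.le⟩, mul_one, sub_self] at h4
      exact h4
  linarith

theorem dd_sub {f : ℝ → ℝ} (hf : Cx f) (c₀ c₁ σ : ℝ) :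
    deriv (deriv (fun σ => f σ - (c₀ + c₁ * σ))) σ = deriv (deriv f) σ := by
  have h1 : deriv (fun σ => f σ - (c₀ + c₁ * σ)) = fun σ => deriv f σ - c₁ := by
    funext x
    have h2 := ((cx_d hf x).sub (((hasDerivAt_id x).const_mul c₁).const_add c₀)).deriv
    rw [mul_one] at h2
    exact h2
  rw [h1]
  exact ((cx_dd hf σ).sub_const c₁).deriv

end CRX

open CRX in
theorem specCRX (hEDG : SpecEDG) (hMIQ : SpecMIQ) : SpecCRX := by
  obtain ⟨hM1, hM2, hM3, hM4⟩ := hMIQ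
  intro n e α l m l₂ m₂ hn hα hpos hl hm hl₂ hm₂ hE hsum a b hab hdd hex
  have hncont : Continuous n := by
    have : LipschitzWith (Real.toNNReal e) n := by
      apply LipschitzWith.of_dist_le_mul
      intro x y
      rw [Real.dist_eq, Real.dist_eq, Real.coe_toNNReal _ hn.e0]
      exact hn.lip x y
    exact this.continuous
  obtain ⟨c₀, c₁, hc⟩ := affine hl₂ hl hab hdd
  obtain ⟨hCl, hCm, hE'⟩ := hM4 n α l m l₂ m₂ c₀ c₁ hncont hl₂ hm₂ hE
  set l₂' : ℝ → ℝ := fun σ => l₂ σ - (c₀ + c₁ * σ) with hl₂'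
  set m₂' : ℝ → ℝ := fun σ => m₂ σ + (c₀ + c₁ * σ) with hm₂'
  have hdl : ∀ σ, deriv (deriv l₂') σ = deriv (deriv l₂) σ := dd_sub hl₂ c₀ c₁
  have hsum' : ∀ σ, l σ + m σ = l₂' σ + m₂' σ := by
    intro σ
    have := hsum σ
    simp only [hl₂', hm₂']
    linarith
  have heq : ∀ σ ∈ Set.Icc a b, l₂' σ = l σ ∧ m₂' σ = m σ := by
    intro σ hσ
    have h1 := hc σ hσ
    have h2 := hsum' σ
    refine ⟨h1, ?_⟩
    have h3 : l₂' σ = l σ := h1
    linarith
  obtain ⟨σ₁, hσ₁, hne⟩ := hex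
  set D : ℝ → ℝ := fun σ => deriv (deriv l) σ - deriv (deriv m) σ with hDdef
  have hD : Continuous D := (cx_cont hl).sub (cx_cont hm)
  have hD1 : D σ₁ ≠ 0 := sub_ne_zero.2 hne
  obtain ⟨z₁, hz1, hz1b, hz10, hz1n⟩ := right D hD a b σ₁ hσ₁.1 hσ₁.2 hD1
  obtain ⟨z₂, hz2, hz2a, hz20, hz2n⟩ := left D hD a b σ₁ hσ₁.1 hσ₁.2 hD1
  by_cases hA : 0 < α ∨ e * (b - z₁) < n z₁ + n b
  · left
    obtain ⟨δ, hδ, h⟩ := hEDG n e α l m l₂' m₂' hn hα hl hm hCl hCm hE' hsum' a b z₁ hab heq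
      (hσ₁.1.trans hz1) hz1b (fun σ hσ => sub_eq_zero.1 (hz10 σ hσ))
      (fun δ hδ => by
        obtain ⟨σ, hσ, h⟩ := hz1n δ hδ
        exact ⟨σ, hσ, sub_ne_zero.1 h⟩) hA
    exact ⟨δ, hδ, fun σ hσ => by rw [← hdl, h σ hσ]⟩
  by_cases hB : 0 < α ∨ e * (z₂ - a) < n z₂ + n a
  · right
    obtain ⟨δ, hδ, h⟩ := hEDG (mi n) e α (mi l) (mi m) (mi l₂') (mi m₂') (hM2 n e hn) hα
      (hM1 l hl).1 (hM1 m hm).1 (hM1 _ hCl).1 (hM1 _ hCm).1 (hM3 n α l m l₂' m₂' hE')
      (fun σ => hsum' (-σ)) (-b) (-a) (-z₂) (by linarith)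
      (fun σ hσ => heq (-σ) ⟨by linarith [hσ.2], by linarith [hσ.1]⟩)
      (by linarith [hσ₁.2]) (by linarith)
      (fun σ hσ => by
        rw [(hM1 l hl).2, (hM1 m hm).2]
        exact sub_eq_zero.1 (hz20 (-σ) ⟨by linarith [hσ.2], by linarith [hσ.1]⟩))
      (fun δ hδ => by
        obtain ⟨σ, hσ, h⟩ := hz2n δ hδ
        refine ⟨-σ, ⟨by linarith [hσ.2], by linarith [hσ.1]⟩, ?_⟩
        rw [(hM1 l hl).2, (hM1 m hm).2, neg_neg]
        exact sub_ne_zero.1 h)
      (by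
        rcases hB with h | h
        · exact Or.inl h
        · refine Or.inr ?_
          have h1 : mi n (-z₂) = n z₂ := by simp [mi]
          have h2 : mi n (-a) = n a := by simp [mi]
          rw [h1, h2]
          linarith)
    refine ⟨δ, hδ, fun σ hσ => ?_⟩
    have h1 := h (-σ) ⟨by linarith [hσ.2], by linarith [hσ.1]⟩
    rw [(hM1 _ hCl).2, (hM1 l hl).2, neg_neg] at h1
    rw [← hdl, h1]
  exfalso
  push Not at hA hB
  have hα0 : α = 0 := le_antisymm hA.1 hα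
  obtain ⟨x, hx⟩ : ∃ x, 0 < n x := by
    rcases hpos with h | h
    · exact absurd h (not_lt.2 hA.1)
    · exact h
  have hz21 : z₂ < z₁ := hz2.trans hz1
  have t1 := hn.tri z₂ b
  have t2 := hn.tri a z₁
  have l1 := hn.lip z₂ z₁
  rw [abs_sub_comm z₂ b, abs_of_nonneg (by linarith : (0 : ℝ) ≤ b - z₂)] at t1
  rw [abs_sub_comm a z₁, abs_of_nonneg (by linarith : (0 : ℝ) ≤ z₁ - a)] at t2
  have he : e = 0 := by
    have h1 : e * (z₁ - z₂) ≤ 0 := by nlinarith [hA.2, hB.2]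
    have h2 : 0 < z₁ - z₂ := by linarith
    have h3 : e ≤ 0 := by
      by_contra h
      push Not at h
      have := mul_pos h h2
      linarith
    exact le_antisymm h3 hn.e0
  have h0 : n z₁ + n b ≤ 0 := by
    have := hA.2
    rw [he, zero_mul] at this
    exact this
  have h1 := hn.lip x z₁
  rw [he, zero_mul] at h1
  have h2 : n x = n z₁ := by
    have := abs_nonpos_iff.1 h1
    linarith
  have h3 := hn.nn b
  linarith

end Pool.MP671.C3
end

section
/-!
# MP_671ac3_gt, C3: CVS (helper94)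

The covariogram as an integral over the slopes.
-/
namespace Pool.MP671.C3

open MeasureTheory Real Filter Topology

namespace CVS

/-- the integrand in the variable `y = f' σ` -/
noncomputable def GG (f n : ℝ → ℝ) (α : ℝ) (y : ℝ) : ℝ := n (sl f y) + α * -lg f y

theorem cont_GG (hLEG : SpecLEG) {f n : ℝ → ℝ} (hf : Cx f) (hn : Continuous n) (α : ℝ) :
    ContinuousOn (GG f n α) (Set.range (deriv f)) := by
  obtain ⟨-, -, -, -, -, h6, -, -, -⟩ := hLEG f hf
  have h1 : ContinuousOn (sl f) (Set.range (deriv f)) :=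
    fun y hy => (h6 y hy).1.continuousAt.continuousWithinAt
  have h2 : ContinuousOn (lg f) (Set.range (deriv f)) :=
    fun y hy => (h6 y hy).2.continuousAt.continuousWithinAt
  exact (hn.comp_continuousOn h1).add (continuousOn_const.mul h2.neg)

/-- change of variables -/
theorem change (hLEG : SpecLEG) {f n : ℝ → ℝ} (hf : Cx f) (hn : Continuous n) (α a b : ℝ) :
    ∫ y in (deriv f a)..(deriv f b), GG f n α y =
      ∫ σ in a..b, (n σ + α * Xc f σ) * deriv (deriv f) σ := by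
  obtain ⟨-, h2, -, -, -, -, h7, -, -⟩ := hLEG f hf
  have hc : ContDiff ℝ (1 + 1) f := by
    rw [one_add_one_eq_two]
    exact hf.c2
  have hd : ContDiff ℝ 1 (deriv f) := (contDiff_succ_iff_deriv.1 hc).2.2
  have hdd : Continuous (deriv (deriv f)) := hd.continuous_deriv le_rfl
  have hder : ∀ σ, HasDerivAt (deriv f) (deriv (deriv f) σ) σ :=
    fun σ => ((hd.differentiable (by norm_num)) σ).hasDerivAt
  rw [← intervalIntegral.integral_comp_mul_deriv' (fun σ _ => hder σ) hdd.continuousOn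
    ((cont_GG hLEG hf hn α).mono (Set.image_subset_range _ _))]
  congr 1
  funext σ
  simp only [Function.comp_apply, GG]
  rw [h2 σ, h7 σ, neg_neg]

/-- `Va` as an integral over the height -/
theorem main (hLEG : SpecLEG) {l m n : ℝ → ℝ} (hl : Cx l) (hm : Cx m) (hn : Continuous n)
    (α : ℝ) (x : Pl) (r s r' s' : ℝ) (hL : Ln l m x r s r' s') :
    ∫ y in (-deriv l r')..(-deriv l r), (n (sl m (y - x.2)) + n (sl l (-y))
        + α * (-lg l (-y) - lg m (y - x.2) - x.1)) = Va n α l m x r s r' s' := by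
  have ht : -(deriv l r + deriv m s) = x.2 := congrArg Prod.snd hL.ht
  have hb : -(deriv l r' + deriv m s') = x.2 := congrArg Prod.snd hL.hb
  have e1 : -deriv l r' - x.2 = deriv m s' := by linarith
  have e2 : -deriv l r - x.2 = deriv m s := by linarith
  have hrl := (hLEG l hl).2.2.2.1.2
  have hrm := (hLEG m hm).2.2.2.1.2
  have i1 : IntervalIntegrable (fun y => GG l n α (-y)) volume (-deriv l r') (-deriv l r) := by
    apply ContinuousOn.intervalIntegrable
    refine (cont_GG hLEG hl hn α).comp continuous_neg.continuousOn ?_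
    intro y hy
    have h1 : -y ∈ Set.uIcc (deriv l r') (deriv l r) := by
      rw [Set.mem_uIcc] at hy ⊢
      rcases hy with ⟨h1, h2⟩ | ⟨h1, h2⟩
      · right
        constructor <;> linarith
      · left
        constructor <;> linarith
    exact hrl.uIcc_subset ⟨r', rfl⟩ ⟨r, rfl⟩ h1
  have i2 : IntervalIntegrable (fun y => GG m n α (y - x.2)) volume (-deriv l r')
      (-deriv l r) := by
    apply ContinuousOn.intervalIntegrable
    refine (cont_GG hLEG hm hn α).comp (continuous_id.sub continuous_const).continuousOn ?_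
    intro y hy
    have h1 : y - x.2 ∈ Set.uIcc (deriv m s') (deriv m s) := by
      rw [← e1, ← e2]
      rw [Set.mem_uIcc] at hy ⊢
      rcases hy with ⟨h1, h2⟩ | ⟨h1, h2⟩
      · left
        constructor <;> linarith
      · right
        constructor <;> linarith
    exact hrm.uIcc_subset ⟨s', rfl⟩ ⟨s, rfl⟩ h1
  have hsplit : ∀ y, (n (sl m (y - x.2)) + n (sl l (-y))
      + α * (-lg l (-y) - lg m (y - x.2) - x.1)) =
      GG l n α (-y) + GG m n α (y - x.2) + -(α * x.1) := by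
    intro y
    unfold GG
    ring
  simp only [hsplit]
  rw [intervalIntegral.integral_add (i1.add i2) intervalIntegrable_const,
    intervalIntegral.integral_add i1 i2, intervalIntegral.integral_comp_neg (GG l n α),
    intervalIntegral.integral_comp_sub_right (GG m n α), e1, e2, neg_neg, neg_neg,
    change hLEG hl hn, change hLEG hm hn, intervalIntegral.integral_const, smul_eq_mul]
  unfold Va
  ring

end CVS

/-- CVS -/
theorem specCVS (hCVY : SpecCVY) (hLEG : SpecLEG) (hFRC : SpecFRC) (hSHF : SpecSHF)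
    (hNPR : SpecNPR) : SpecCVS := by
  intro h φ α hh hφ hα x r s r' s' hL
  have hl : Cx (el h) := (hFRC h hh).1
  have hm : Cx (em h) := (hFRC (sh h π) (hSHF.1 h π hh).1).1
  have hn : Continuous (nn φ) := by
    have h1 := (hNPR φ hφ).2
    have h2 : LipschitzWith (ee φ).toNNReal (nn φ) := by
      apply LipschitzWith.of_dist_le_mul
      intro a b
      rw [Real.dist_eq, Real.dist_eq]
      refine (h1 a b).trans ?_
      exact mul_le_mul_of_nonneg_right (Real.le_coe_toNNReal _) (abs_nonneg _)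
    exact h2.continuous
  rw [hCVY h φ α hh hφ hα x r s r' s' hL]
  exact CVS.main hLEG hl hm hn α x r s r' s' hL

end Pool.MP671.C3
end

section
/-!
# MP_671ac3_gt, bodies of class `C²₊`: module CVY

The covariogram in terms of the profile functions of the lens.
-/
set_option autoImplicit false

namespace Pool.MP671.C3

open MeasureTheory Real Filter Topology

namespace CVY

/-- A function with antitone derivative which vanishes at both ends is nonnegative. -/
theorem nonneg_of_antitone {f f' : ℝ → ℝ} {c d : ℝ} (hcd : c ≤ d)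
    (hf : ∀ y ∈ Set.Icc c d, HasDerivAt f (f' y) y) (ha : AntitoneOn f' (Set.Icc c d))
    (hc : f c = 0) (hd : f d = 0) : ∀ y ∈ Set.Icc c d, 0 ≤ f y := by
  have h1 : ConcaveOn ℝ (Set.Icc c d) f := by
    refine AntitoneOn.concaveOn_of_deriv (convex_Icc c d)
      (fun y hy => (hf y hy).continuousAt.continuousWithinAt)
      (fun y hy => (hf y (interior_subset hy)).differentiableAt.differentiableWithinAt) ?_
    intro x hx y hy hxy
    rw [(hf x (interior_subset hx)).deriv, (hf y (interior_subset hy)).deriv]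
    exact ha (interior_subset hx) (interior_subset hy) hxy
  intro y hy
  have h2 := h1.min_le_of_mem_Icc (Set.left_mem_Icc.2 hcd) (Set.right_mem_Icc.2 hcd) hy
  rwa [hc, hd, min_self] at h2

/-- `sl f` is monotone on the range of `f'`. -/
theorem sl_mono (hLEG : SpecLEG) {f : ℝ → ℝ} (hf : Cx f) {y z : ℝ}
    (hy : y ∈ Set.range (deriv f)) (hz : z ∈ Set.range (deriv f)) (hyz : y ≤ z) :
    sl f y ≤ sl f z := by
  obtain ⟨h1, -, h3, -⟩ := hLEG f hf
  by_contra hc
  push Not at hc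
  have h4 := h1 hc
  rw [h3 y hy, h3 z hz] at h4
  exact absurd h4 (not_lt.2 hyz)

end CVY

open CVY in
theorem specCVY (hLNS : SpecLNS) (hLN0 : SpecLN0) (hPHF : SpecPHF) (hLEG : SpecLEG)
    (hFRC : SpecFRC) (hSHF : SpecSHF) : SpecCVY := by
  intro h φ α hh hφ hα x r s r' s' hL
  have hl : Cx (el h) := (hFRC h hh).1
  have hm : Cx (em h) := (hFRC _ (hSHF.1 h π hh).1).1
  obtain ⟨hrr, hss⟩ := hLN0 _ _ hl hm x r s r' s' hL
  have hset := hLNS h hh x r s r' s' hL
  generalize hle : el h = l at *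
  generalize hme : em h = m at *
  obtain ⟨l1, -, -, ⟨-, l4⟩, -, l6, l7, -, -⟩ := hLEG l hl
  obtain ⟨m1, -, -, ⟨-, m4⟩, -, m6, m7, -, -⟩ := hLEG m hm
  have ht1 : Xc l r + Xc m s = x.1 := congrArg Prod.fst hL.ht
  have ht2 : -(deriv l r + deriv m s) = x.2 := congrArg Prod.snd hL.ht
  have hb1 : Xc l r' + Xc m s' = x.1 := congrArg Prod.fst hL.hb
  have hb2 : -(deriv l r' + deriv m s') = x.2 := congrArg Prod.snd hL.hb
  have hcd : -deriv l r' ≤ -deriv l r := neg_le_neg (l1 hrr).le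
  -- the arguments are in the ranges
  have ml : ∀ y ∈ Set.Icc (-deriv l r') (-deriv l r), -y ∈ Set.range (deriv l) := by
    intro y hy
    exact l4.out (Set.mem_range_self r) (Set.mem_range_self r')
      ⟨by linarith [hy.2], by linarith [hy.1]⟩
  have mm : ∀ y ∈ Set.Icc (-deriv l r') (-deriv l r), y - x.2 ∈ Set.range (deriv m) := by
    intro y hy
    exact m4.out (Set.mem_range_self s') (Set.mem_range_self s)
      ⟨by linarith [hy.1], by linarith [hy.2]⟩
  -- derivatives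
  have dL : ∀ y ∈ Set.Icc (-deriv l r') (-deriv l r),
      HasDerivAt (fun y => lg m (y - x.2) + x.1) (sl m (y - x.2)) y := by
    intro y hy
    exact (HasDerivAt.comp_sub_const y x.2 (m6 _ (mm y hy)).2).add_const _
  have dR : ∀ y ∈ Set.Icc (-deriv l r') (-deriv l r),
      HasDerivAt (fun y => -lg l (-y)) (sl l (-y)) y := by
    intro y hy
    have h1 := ((l6 _ (ml y hy)).2.comp y (hasDerivAt_neg y)).neg
    have h2 : -(sl l (-y) * -1) = sl l (-y) := by ring
    rw [h2] at h1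
    exact h1
  have cL : ContinuousOn (fun y => sl m (y - x.2)) (Set.Icc (-deriv l r') (-deriv l r)) := by
    intro y hy
    have h1 : ContinuousAt (sl m) (y - x.2) := (m6 _ (mm y hy)).1.continuousAt
    exact (ContinuousAt.comp (g := sl m) (f := fun y => y - x.2) h1
      (by fun_prop)).continuousWithinAt
  have cR : ContinuousOn (fun y => sl l (-y)) (Set.Icc (-deriv l r') (-deriv l r)) := by
    intro y hy
    have h1 : ContinuousAt (sl l) (-y) := (l6 _ (ml y hy)).1.continuousAt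
    exact (ContinuousAt.comp (g := sl l) (f := fun y => -y) h1
      (by fun_prop)).continuousWithinAt
  have mL : MonotoneOn (fun y => sl m (y - x.2)) (Set.Icc (-deriv l r') (-deriv l r)) := by
    intro y hy z hz hyz
    exact sl_mono hLEG hm (mm y hy) (mm z hz) (by linarith)
  have mR : AntitoneOn (fun y => sl l (-y)) (Set.Icc (-deriv l r') (-deriv l r)) := by
    intro y hy z hz hyz
    exact sl_mono hLEG hl (ml z hz) (ml y hy) (by linarith)
  -- the widths
  have e1 : -lg l (- -deriv l r') - (lg m (-deriv l r' - x.2) + x.1) = 0 := by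
    have h1 : -deriv l r' - x.2 = deriv m s' := by linarith
    rw [h1, neg_neg, l7, m7]
    linarith
  have e2 : -lg l (- -deriv l r) - (lg m (-deriv l r - x.2) + x.1) = 0 := by
    have h1 : -deriv l r - x.2 = deriv m s := by linarith
    rw [h1, neg_neg, l7, m7]
    linarith
  have hw : ∀ y ∈ Set.Icc (-deriv l r') (-deriv l r),
      0 ≤ -lg l (-y) - (lg m (y - x.2) + x.1) := by
    refine nonneg_of_antitone (f := fun y => -lg l (-y) - (lg m (y - x.2) + x.1))
      (f' := fun y => sl l (-y) - sl m (y - x.2)) hcd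
      (fun y hy => (dR y hy).sub (dL y hy)) ?_ e1 e2
    intro y hy z hz hyz
    exact sub_le_sub (mR hy hz hyz) (mL hy hz hyz)
  have key := hPHF φ α hφ hα (-deriv l r') (-deriv l r) (fun y => lg m (y - x.2) + x.1)
    (fun y => -lg l (-y)) (fun y => sl m (y - x.2)) (fun y => sl l (-y)) hcd dL dR cL cR mL mR
    (fun y hy => by linarith [hw y hy])
  unfold cov
  rw [hset, key, e1, e2, add_zero, mul_zero, zero_add]
  refine intervalIntegral.integral_congr fun y _ => ?_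
  ring

end Pool.MP671.C3
end

section
/-!
# MP_671ac3_gt, C3: module DIH (helper99), the support function of the difference body
-/
set_option autoImplicit false

namespace Pool.MP671.C3

open MeasureTheory Real Filter Topology

namespace DIH

/-- one inequality -/
lemma le_aux (hSPT : SpecSPT) (h k : ℝ → ℝ) (hh : Sm h) (hd : dif (bd h) = dif (bd k)) (θ : ℝ) :
    h θ + h (θ + π) ≤ k θ + k (θ + π) := by
  have h1 := (hSPT h hh).1 θ
  have h2 := (hSPT h hh).1 (θ + π)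
  have hm : Pt h θ - Pt h (θ + π) ∈ dif (bd k) := by
    rw [← hd]
    exact ⟨_, h1.1, _, h2.1, rfl⟩
  obtain ⟨x, hx, y, hy, hxy⟩ := hm
  have e1 : (Pt h θ).1 - (Pt h (θ + π)).1 = x.1 - y.1 := by
    have := congrArg Prod.fst hxy
    simpa using this
  have e2 : (Pt h θ).2 - (Pt h (θ + π)).2 = x.2 - y.2 := by
    have := congrArg Prod.snd hxy
    simpa using this
  have hx1 := hx θ
  have hy1 := hy (θ + π)
  have h3 := h1.2
  have h4 := h2.2
  rw [cos_add_pi, sin_add_pi] at hy1 h4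
  have : h θ + h (θ + π) = ((Pt h θ).1 - (Pt h (θ + π)).1) * cos θ +
      ((Pt h θ).2 - (Pt h (θ + π)).2) * sin θ := by
    rw [← h3]
    nlinarith [h4]
  rw [this, e1, e2]
  nlinarith [hx1, hy1]

end DIH

open DIH in
/-- module DIH -/
theorem specDIH (hSPT : SpecSPT) : SpecDIH := by
  intro h k hh hk hd θ
  exact le_antisymm (le_aux hSPT h k hh hd θ) (le_aux hSPT k h hk hd.symm θ)

end Pool.MP671.C3
end

section
/-!
# MP_671ac3_gt, C3: module EDG
-/
set_option autoImplicit false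

namespace Pool.MP671.C3

open MeasureTheory Real Filter Topology
open Pool.MP671

namespace EDG

/-- exchange of the two functions -/
theorem eqv_swap (hVAV : SpecVAV) (n : ℝ → ℝ) (α : ℝ) (l m l₂ m₂ : ℝ → ℝ)
    (h : EqV n α l m l₂ m₂) : EqV n α m l m₂ l₂ := by
  intro x r s r' s' t u t' u' h1 h2
  obtain ⟨h3, h4⟩ := hVAV.2.2 m l x r s r' s' h1
  obtain ⟨h5, h6⟩ := hVAV.2.2 m₂ l₂ x t u t' u' h2
  rw [← h4 n α, ← h6 n α]
  exact h x s' r' s r u' t' u t h3 h5

/-- equality near a point gives equality of the second derivatives -/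
theorem deriv2_eq (f g : ℝ → ℝ) (b δ : ℝ) (h : ∀ σ ∈ Set.Ioo (b - δ) (b + δ), f σ = g σ) (hδ : 0 < δ) :
    ∀ σ ∈ Set.Ioo b (b + δ), deriv (deriv f) σ = deriv (deriv g) σ := by
  intro σ hσ
  have h1 : f =ᶠ[𝓝 σ] g := by
    have : Set.Ioo (b - δ) (b + δ) ∈ 𝓝 σ := Ioo_mem_nhds (by linarith [hσ.1]) hσ.2
    filter_upwards [this] with τ hτ
    exact h τ hτ
  exact h1.deriv.deriv_eq

theorem main (hBRG : SpecBRG) (hCRS : SpecCRS) (hVAV : SpecVAV) : SpecEDG := by
  intro n e α l m l₂ m₂ hn hα hl hm hl₂ hm₂ hE hsum a b z hab hag haz hzb h2 hne hlast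
  obtain ⟨δ₀, hδ₀, hr⟩ : ∃ δ₀ : ℝ, 0 < δ₀ ∧ ∀ r : ℝ, |r - z| < δ₀ →
      (0 < α ∨ e * (b - r) < n r + n b) := by
    rcases hlast with h | h
    · exact ⟨1, one_pos, fun r _ => Or.inl h⟩
    · have he := hn.e0
      have hg : 0 < n z + n b - e * (b - z) := by linarith
      refine ⟨(n z + n b - e * (b - z)) / (2 * e + 1), by positivity, fun r hr => Or.inr ?_⟩
      rw [lt_div_iff₀ (by positivity)] at hr
      have h3 := hn.lip r z
      have h4 := abs_le.1 h3
      have h5 : z - r ≤ |r - z| := by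
        have := neg_abs_le (r - z)
        linarith
      have h6 : e * (z - r) ≤ e * |r - z| := mul_le_mul_of_nonneg_left h5 he
      have h7 : 0 ≤ |r - z| := abs_nonneg _
      have h8 : e * (b - r) = e * (b - z) + e * (z - r) := by ring
      nlinarith [h4.1]
  obtain ⟨x, r, r', s', hL, har, hrz, har', hr'b, has', hs'b⟩ :=
    hBRG l m hl hm a b z haz hzb h2 hne δ₀ hδ₀
  rcases hL with hL | hL
  · obtain ⟨δ, hδ, h⟩ := hCRS n e α l m l₂ m₂ hn hα hl hm hl₂ hm₂ hE a b hab hag x r r' s' hL har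
      har' hr'b has' hs'b (hr r hrz)
    refine ⟨δ, hδ, deriv2_eq l₂ l b δ (fun σ hσ => ?_) hδ⟩
    have h3 := h σ hσ
    have h4 := hsum σ
    linarith
  · obtain ⟨δ, hδ, h⟩ := hCRS n e α m l m₂ l₂ hn hα hm hl hm₂ hl₂ (eqv_swap hVAV n α l m l₂ m₂ hE)
      a b hab (fun σ hσ => ⟨(hag σ hσ).2, (hag σ hσ).1⟩) x r r' s' hL har har' hr'b has' hs'b
      (hr r hrz)
    exact ⟨δ, hδ, deriv2_eq l₂ l b δ h hδ⟩

end EDG

theorem specEDG (hBRG : SpecBRG) (hCRS : SpecCRS) (hVAV : SpecVAV) : SpecEDG :=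
  EDG.main hBRG hCRS hVAV

end Pool.MP671.C3
end

section
/-!
# MP_671ac3_gt, C3: EXL (helper22)

Existence of special lenses: the analytic part.
-/
namespace Pool.MP671.C3

open MeasureTheory Real Filter Topology

namespace EXL

/-- near `M₁` the increments of `A` from `η` are smaller than those of `B` from `0` -/
theorem small (A B p q : ℝ → ℝ) (c M₁ η : ℝ) (hM : 0 ≤ M₁) (hη : 0 < η) (hc : η + M₁ < c)
    (hB0 : B 0 = 0) (hA : ∀ u ∈ Set.Ico 0 c, HasDerivAt A (p u) u)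
    (hB : ∀ u ∈ Set.Ico 0 c, HasDerivAt B (q u) u) (hp : StrictAntiOn p (Set.Ico 0 c))
    (hpc : ContinuousOn p (Set.Ico 0 c)) (hqc : ContinuousOn q (Set.Ico 0 c))
    (hpq : ∀ u ∈ Set.Icc 0 M₁, p u = q u) :
    ∃ δ' > 0, ∀ M, 0 < M → M < M₁ + δ' → η + M < c ∧ A (η + M) - A η < B M := by
  have hlt : p (η + M₁) < q M₁ := by
    rw [← hpq M₁ ⟨hM, le_rfl⟩]
    exact hp ⟨hM, by linarith⟩ ⟨by linarith, hc⟩ (by linarith)
  have h1 : Tendsto (fun M => p (η + M)) (𝓝[≥] M₁) (𝓝 (p (η + M₁))) := by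
    have h2 : ContinuousAt p (η + M₁) :=
      hpc.continuousAt (Ico_mem_nhds (by linarith) hc)
    have h3 : ContinuousAt (fun M => η + M) M₁ := by fun_prop
    have h4 : ContinuousAt (fun M => p (η + M)) M₁ :=
      ContinuousAt.comp (g := p) (f := fun M => η + M) h2 h3
    exact h4.tendsto.mono_left nhdsWithin_le_nhds
  have h5 : Tendsto q (𝓝[≥] M₁) (𝓝 (q M₁)) := by
    have h6 : ContinuousWithinAt q (Set.Ico 0 c) M₁ := hqc M₁ ⟨hM, by linarith⟩
    have h7 : Set.Ico M₁ c ⊆ Set.Ico 0 c := Set.Ico_subset_Ico_left hM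
    have h8 : 𝓝[≥] M₁ ≤ 𝓝[Set.Ico 0 c] M₁ := by
      rw [← nhdsWithin_Ico_eq_nhdsGE (show M₁ < c by linarith)]
      exact nhdsWithin_mono _ h7
    exact h6.tendsto.mono_left h8
  have h9 : ∀ᶠ M in 𝓝[≥] M₁, p (η + M) < q M := h1.eventually_lt h5 hlt
  obtain ⟨u, hu, hsub⟩ := mem_nhdsGE_iff_exists_Ico_subset.1 h9
  have hu' : M₁ < u := hu
  refine ⟨min (u - M₁) (c - η - M₁), lt_min (by linarith) (by linarith), ?_⟩
  intro M hM0 hM1
  have hMu : M < u := by
    have := min_le_left (u - M₁) (c - η - M₁)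
    linarith
  have hMc : η + M < c := by
    have := min_le_right (u - M₁) (c - η - M₁)
    linarith
  refine ⟨hMc, ?_⟩
  have hneg : ∀ x ∈ Set.Icc 0 M, p (η + x) < q x := by
    intro x hx
    rcases le_or_gt x M₁ with h | h
    · rw [← hpq x ⟨hx.1, h⟩]
      exact hp ⟨hx.1, by linarith [hx.2]⟩ ⟨by linarith [hx.1], by linarith [hx.2]⟩ (by linarith)
    · exact hsub ⟨h.le, by linarith [hx.2]⟩
  have hder : ∀ x ∈ Set.Icc 0 M, HasDerivAt (fun x => A (η + x) - A η - B x) (p (η + x) - q x) x := by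
    intro x hx
    have h10 : HasDerivAt (fun x => A (η + x)) (p (η + x)) x :=
      HasDerivAt.comp_const_add η x (hA (η + x) ⟨by linarith [hx.1], by linarith [hx.2]⟩)
    exact (h10.sub_const (A η)).sub (hB x ⟨hx.1, by linarith [hx.2]⟩)
  have hanti : StrictAntiOn (fun x => A (η + x) - A η - B x) (Set.Icc 0 M) := by
    refine strictAntiOn_of_deriv_neg (convex_Icc 0 M)
      (fun x hx => (hder x hx).continuousAt.continuousWithinAt) ?_
    intro x hx
    rw [interior_Icc] at hx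
    have hx' : x ∈ Set.Icc 0 M := Set.Ioo_subset_Icc_self hx
    rw [(hder x hx').deriv]
    linarith [hneg x hx']
  have h11 := hanti (Set.left_mem_Icc.2 hM0.le) (Set.right_mem_Icc.2 hM0.le) hM0
  simp only [add_zero, hB0, sub_self] at h11
  linarith

/-- intermediate value theorem -/
theorem inter (A B p : ℝ → ℝ) (c η M : ℝ) (hη : 0 < η) (hM : 0 < M) (hc : η + M < c)
    (hA0 : A 0 = 0) (hA : ∀ u ∈ Set.Ico 0 c, HasDerivAt A (p u) u) (h1 : B M < A M)
    (h2 : A (η + M) - A η < B M) :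
    ∃ κ, 0 < κ ∧ κ < η ∧ A (κ + M) - A κ = B M := by
  have hcont : ContinuousOn (fun κ => A (κ + M) - A κ) (Set.Icc 0 η) := by
    intro x hx
    have h3 : ContinuousAt (fun κ => A (κ + M)) x := by
      have h4 : ContinuousAt A (x + M) :=
        (hA (x + M) ⟨by linarith [hx.1], by linarith [hx.2]⟩).continuousAt
      have h5 : ContinuousAt (fun κ => κ + M) x := by fun_prop
      exact ContinuousAt.comp (g := A) (f := fun κ => κ + M) h4 h5
    have h6 : ContinuousAt A x := (hA x ⟨hx.1, by linarith [hx.2]⟩).continuousAt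
    exact (h3.sub h6).continuousWithinAt
  have h7 := intermediate_value_Ioo' hη.le hcont
  have h8 : B M ∈ Set.Ioo ((fun κ => A (κ + M) - A κ) η) ((fun κ => A (κ + M) - A κ) 0) := by
    constructor
    · exact h2
    · show B M < A (0 + M) - A 0
      rw [zero_add, hA0, sub_zero]
      exact h1
  obtain ⟨κ, hκ, he⟩ := h7 h8
  exact ⟨κ, hκ.1, hκ.2, he⟩

end EXL

/-- EXL -/
theorem specEXL : SpecEXL := by
  intro A B p q c M₁ hM₁ hMc hA0 hB0 hA hB hp hq hpc hqc hpq hex δ hδ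
  have hη : 0 < min δ (c - M₁) / 2 := by
    have : 0 < min δ (c - M₁) := lt_min hδ (by linarith)
    linarith
  set η := min δ (c - M₁) / 2 with hηd
  have hηδ : η < δ := by
    have h := min_le_left δ (c - M₁)
    have h' : η * 2 = min δ (c - M₁) := by rw [hηd]; ring
    linarith
  have hηc : η + M₁ < c := by
    have h := min_le_right δ (c - M₁)
    have h' : η * 2 = min δ (c - M₁) := by rw [hηd]; ring
    linarith
  obtain ⟨δ₁, hδ₁, h1⟩ := EXL.small A B p q c M₁ η hM₁ hη hηc hB0 hA hB hp hpc hqc hpq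
  obtain ⟨δ₂, hδ₂, h2⟩ := EXL.small B A q p c M₁ η hM₁ hη hηc hA0 hB hA hq hqc hpc
    (fun u hu => (hpq u hu).symm)
  obtain ⟨M, hM1, hM2, hM3, hM4⟩ := hex (min δ (min δ₁ δ₂)) (lt_min hδ (lt_min hδ₁ hδ₂))
  have hMδ : M < M₁ + δ := by
    have := min_le_left δ (min δ₁ δ₂)
    linarith
  have hMδ₁ : M < M₁ + δ₁ := by
    have := (min_le_right δ (min δ₁ δ₂)).trans (min_le_left δ₁ δ₂)
    linarith
  have hMδ₂ : M < M₁ + δ₂ := by
    have := (min_le_right δ (min δ₁ δ₂)).trans (min_le_right δ₁ δ₂)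
    linarith
  have hM0 : 0 < M := by linarith
  obtain ⟨hc1, hl1⟩ := h1 M hM0 hMδ₁
  obtain ⟨-, hl2⟩ := h2 M hM0 hMδ₂
  rcases lt_or_gt_of_ne hM4 with h | h
  · obtain ⟨κ, hκ0, hκη, he⟩ := EXL.inter B A q c η M hη hM0 hc1 hB0 hB h hl2
    exact ⟨M, κ, hM1, hMδ, hκ0, by linarith, by linarith, Or.inr he⟩
  · obtain ⟨κ, hκ0, hκη, he⟩ := EXL.inter A B p c η M hη hM0 hc1 hA0 hA h hl1
    exact ⟨M, κ, hM1, hMδ, hκ0, by linarith, by linarith, Or.inl he⟩

end Pool.MP671.C3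
end

section
/-!
# Module EXO (MP_671ac3_gt, folder C3): the behaviour of the covariogram at the origin
-/
namespace Pool.MP671.C3

open MeasureTheory Real Filter Topology
open Pool.MP671

namespace EXO

/-- level points of a function with a large negative derivative near `b` -/
theorem level {W W' : ℝ → ℝ} {a b y₀ M : ℝ} (hM : 0 < M) (ha : a ≤ y₀) (hb : y₀ < b)
    (hW : ∀ y ∈ Set.Ioo a b, HasDerivAt W (W' y) y) (hneg : ∀ y ∈ Set.Ioo y₀ b, W' y ≤ -(2 * M))
    (hlim : Tendsto W (𝓝[<] b) (𝓝 0)) :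
    ∃ ξ₀ > 0, ∀ ξ, 0 < ξ → ξ < ξ₀ → ∃ y₁, y₀ < y₁ ∧ y₁ < b ∧ W y₁ = ξ ∧ b - y₁ ≤ ξ / (2 * M) := by
  -- the mean value inequality
  have hdec : ∀ u ∈ Set.Ioo y₀ b, ∀ v ∈ Set.Ioo y₀ b, u ≤ v → 2 * M * (v - u) ≤ W u - W v := by
    intro u hu v hv huv
    rcases huv.eq_or_lt with rfl | huv
    · simp
    have hsub : ∀ y ∈ Set.Icc u v, y ∈ Set.Ioo a b := fun y hy =>
      ⟨ha.trans_lt (hu.1.trans_le hy.1), hy.2.trans_lt hv.2⟩
    obtain ⟨c, hc, hcW⟩ := exists_hasDerivAt_eq_slope W W' huv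
      (fun y hy => (hW y (hsub y hy)).continuousAt.continuousWithinAt)
      (fun y hy => hW y (hsub y ⟨hy.1.le, hy.2.le⟩))
    have hc' := hneg c ⟨hu.1.trans hc.1, hc.2.trans hv.2⟩
    rw [hcW, div_le_iff₀ (by linarith)] at hc'
    linarith
  have hbd : ∀ u ∈ Set.Ioo y₀ b, 2 * M * (b - u) ≤ W u := by
    intro u hu
    have h1 : Tendsto (fun v => W u - W v) (𝓝[<] b) (𝓝 (W u - 0)) := tendsto_const_nhds.sub hlim
    have h2 : Tendsto (fun v : ℝ => 2 * M * (v - u)) (𝓝[<] b) (𝓝 (2 * M * (b - u))) := by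
      refine Tendsto.mono_left ?_ nhdsWithin_le_nhds
      exact (continuous_const.mul (continuous_id.sub continuous_const)).tendsto b
    rw [sub_zero] at h1
    refine le_of_tendsto_of_tendsto h2 h1 ?_
    filter_upwards [Ioo_mem_nhdsLT hu.2] with v hv
    exact hdec u hu v ⟨hu.1.trans hv.1, hv.2⟩ hv.1.le
  set ys : ℝ := (y₀ + b) / 2 with hys
  have hysI : ys ∈ Set.Ioo y₀ b := ⟨by rw [hys]; linarith, by rw [hys]; linarith⟩
  have hpos : 0 < W ys := by
    have h := hbd ys hysI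
    have h' : 0 < 2 * M * (b - ys) := mul_pos (by linarith) (by linarith [hysI.2])
    linarith
  refine ⟨W ys, hpos, fun ξ hξ hξ' => ?_⟩
  obtain ⟨z, hz1, hz2⟩ : ∃ z, z ∈ Set.Ioo ys b ∧ W z < ξ := by
    have h1 : ∀ᶠ z in 𝓝[<] b, W z < ξ := hlim.eventually_lt_const hξ
    have h2 : ∀ᶠ z in 𝓝[<] b, z ∈ Set.Ioo ys b := Ioo_mem_nhdsLT hysI.2
    obtain ⟨z, hz⟩ := (h2.and h1).exists
    exact ⟨z, hz.1, hz.2⟩
  have hcont : ContinuousOn W (Set.Icc ys z) := fun y hy =>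
    (hW y ⟨ha.trans_lt (hysI.1.trans_le hy.1), hy.2.trans_lt hz1.2⟩).continuousAt.continuousWithinAt
  obtain ⟨y₁, hy₁, hy₁W⟩ := intermediate_value_Icc' hz1.1.le hcont ⟨hz2.le, hξ'.le⟩
  have hy₁I : y₁ ∈ Set.Ioo y₀ b := ⟨hysI.1.trans_le hy₁.1, hy₁.2.trans_lt hz1.2⟩
  refine ⟨y₁, hy₁I.1, hy₁I.2, hy₁W, ?_⟩
  have h := hbd y₁ hy₁I
  rw [le_div_iff₀ (by linarith), ← hy₁W]
  linarith

theorem cc_half_le {K : Set Pl} (hK : CC K) (y : ℝ) : CC (K ∩ {z : Pl | z.2 ≤ y}) := by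
  refine ⟨hK.1.inter ?_, hK.2.inter_right ?_⟩
  · exact convex_halfSpace_le (IsLinearMap.mk (fun _ _ => rfl) (fun _ _ => rfl)) y
  · exact isClosed_le continuous_snd continuous_const

theorem cc_half_ge {K : Set Pl} (hK : CC K) (y : ℝ) : CC (K ∩ {z : Pl | y ≤ z.2}) := by
  refine ⟨hK.1.inter ?_, hK.2.inter_right ?_⟩
  · exact convex_halfSpace_ge (IsLinearMap.mk (fun _ _ => rfl) (fun _ _ => rfl)) y
  · exact isClosed_le continuous_const continuous_snd

theorem cc_rect (a b c d : ℝ) : CC (Set.Icc a b ×ˢ Set.Icc c d : Set Pl) :=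
  ⟨(convex_Icc a b).prod (convex_Icc c d), isCompact_Icc.prod isCompact_Icc⟩

/-- the value of a rectangle -/
theorem rect_val {φ : Set Pl → ℝ} {α : ℝ} (hα : IsAl φ α) {x₁ x₂ y k : ℝ} (hx : x₁ ≤ x₂)
    (hk : 0 ≤ k) : φ (Set.Icc x₁ x₂ ×ˢ Set.Icc y (y + k) : Set Pl) =
      2 * ee φ * (x₂ - x₁) + k * (2 * nn φ 0 + α * (x₂ - x₁)) := by
  have h := hα y k x₁ 0 x₂ 0 hk hx (by simpa using hx)
  have hset : (Set.Icc x₁ x₂ ×ˢ Set.Icc y (y + k) : Set Pl) =
      prof y (y + k) (fun z => x₁ + 0 * (z - y)) (fun z => x₂ + 0 * (z - y)) := by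
    ext z
    simp only [prof, Set.mem_prod, Set.mem_Icc, zero_mul, add_zero]
    constructor
    · rintro ⟨⟨h1, h2⟩, h3, h4⟩
      exact ⟨h3, h4, h1, h2⟩
    · rintro ⟨h3, h4, h1, h2⟩
      exact ⟨⟨h1, h2⟩, h3, h4⟩
  rw [hset, h]
  ring

/-- cutting off a cap: upper part -/
theorem cut_top {φ : Set Pl → ℝ} {α : ℝ} (hφ : IsPhi φ) (hα : IsAl φ α) (hS : SpecSEG)
    {K : Set Pl} (hK : CC K) {x₁ x₂ y b : ℝ} (hx : x₁ ≤ x₂) (hyb : y ≤ b)
    (hcut : ∀ x, (x, y) ∈ K ↔ x₁ ≤ x ∧ x ≤ x₂)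
    (hcap : ∀ z ∈ K, y ≤ z.2 → x₁ ≤ z.1 ∧ z.1 ≤ x₂ ∧ z.2 ≤ b) :
    φ K - φ (K ∩ {z : Pl | z.2 ≤ y}) ≤ (b - y) * (2 * nn φ 0 + α * (x₂ - x₁)) := by
  have hU : K ∩ {z : Pl | z.2 ≤ y} ∪ K ∩ {z : Pl | y ≤ z.2} = K := by
    ext z
    simp only [Set.mem_union, Set.mem_inter_iff]
    constructor
    · rintro (h | h) <;> exact h.1
    · intro h
      rcases le_total z.2 y with h' | h'
      · exact Or.inl ⟨h, h'⟩
      · exact Or.inr ⟨h, h'⟩
  have hI : K ∩ {z : Pl | z.2 ≤ y} ∩ (K ∩ {z : Pl | y ≤ z.2}) = segment ℝ ((x₁, y) : Pl) (x₂, y) := by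
    ext z
    constructor
    · rintro ⟨⟨hzK, h1⟩, _, h2⟩
      have hz : z.2 = y := le_antisymm h1 h2
      have hzz : (z.1, y) ∈ K := by rw [← hz]; exact hzK
      obtain ⟨h3, h4⟩ := (hcut z.1).1 hzz
      have hseg : z.1 ∈ segment ℝ x₁ x₂ := by rw [segment_eq_Icc hx]; exact ⟨h3, h4⟩
      obtain ⟨s, t, hs, ht, hst, he⟩ := hseg
      refine ⟨s, t, hs, ht, hst, ?_⟩
      refine Prod.ext ?_ ?_
      · exact he
      · show s * y + t * y = z.2
        rw [hz, ← add_mul, hst, one_mul]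
    · rintro ⟨s, t, hs, ht, hst, rfl⟩
      have h2 : (s • ((x₁, y) : Pl) + t • ((x₂, y) : Pl)).2 = y := by
        show s * y + t * y = y
        rw [← add_mul, hst, one_mul]
      have h1 : (s • ((x₁, y) : Pl) + t • ((x₂, y) : Pl)).1 ∈ Set.Icc x₁ x₂ := by
        rw [← segment_eq_Icc hx]
        exact ⟨s, t, hs, ht, hst, rfl⟩
      have hK' : s • ((x₁, y) : Pl) + t • ((x₂, y) : Pl) ∈ K := by
        have := (hcut (s • ((x₁, y) : Pl) + t • ((x₂, y) : Pl)).1).2 ⟨h1.1, h1.2⟩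
        have he : ((s • ((x₁, y) : Pl) + t • ((x₂, y) : Pl)).1, y) =
            s • ((x₁, y) : Pl) + t • ((x₂, y) : Pl) := Prod.ext rfl h2.symm
        rwa [he] at this
      exact ⟨⟨hK', h2.le⟩, hK', h2.ge⟩
  have hv := hφ.val _ _ (cc_half_le hK y) (cc_half_ge hK y) (by rw [hU]; exact hK)
  rw [hU, hI] at hv
  have hseg := (hS φ hφ).1 ((x₁, y) : Pl) (x₂, y)
  have hseg2 : nrm φ (((x₂, y) : Pl) - (x₁, y)) = (x₂ - x₁) * ee φ := by
    have h : ((x₂, y) : Pl) - (x₁, y) = (x₂ - x₁) • ((1, 0) : Pl) := by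
      refine Prod.ext ?_ ?_
      · show x₂ - x₁ = (x₂ - x₁) * 1
        ring
      · show y - y = (x₂ - x₁) * 0
        ring
    rw [h, (hS φ hφ).2.1, abs_of_nonneg (by linarith)]
    rfl
  rw [hseg2] at hseg
  have hrect := rect_val hα hx (show 0 ≤ b - y by linarith) (y := y)
  have hmono : φ (K ∩ {z : Pl | y ≤ z.2}) ≤ φ (Set.Icc x₁ x₂ ×ˢ Set.Icc y (y + (b - y)) : Set Pl) := by
    refine hφ.mono _ _ (cc_half_ge hK y) (cc_rect _ _ _ _) ?_
    rintro z ⟨hzK, hz⟩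
    obtain ⟨h1, h2, h3⟩ := hcap z hzK hz
    exact ⟨⟨h1, h2⟩, hz, by linarith⟩
  rw [hrect] at hmono
  linarith

/-- cutting off a cap: lower part -/
theorem cut_bot {φ : Set Pl → ℝ} {α : ℝ} (hφ : IsPhi φ) (hα : IsAl φ α) (hS : SpecSEG)
    {K : Set Pl} (hK : CC K) {x₁ x₂ y a : ℝ} (hx : x₁ ≤ x₂) (hya : a ≤ y)
    (hcut : ∀ x, (x, y) ∈ K ↔ x₁ ≤ x ∧ x ≤ x₂)
    (hcap : ∀ z ∈ K, z.2 ≤ y → x₁ ≤ z.1 ∧ z.1 ≤ x₂ ∧ a ≤ z.2) :
    φ K - φ (K ∩ {z : Pl | y ≤ z.2}) ≤ (y - a) * (2 * nn φ 0 + α * (x₂ - x₁)) := by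
  have hU : K ∩ {z : Pl | z.2 ≤ y} ∪ K ∩ {z : Pl | y ≤ z.2} = K := by
    ext z
    simp only [Set.mem_union, Set.mem_inter_iff]
    constructor
    · rintro (h | h) <;> exact h.1
    · intro h
      rcases le_total z.2 y with h' | h'
      · exact Or.inl ⟨h, h'⟩
      · exact Or.inr ⟨h, h'⟩
  have hI : K ∩ {z : Pl | z.2 ≤ y} ∩ (K ∩ {z : Pl | y ≤ z.2}) = segment ℝ ((x₁, y) : Pl) (x₂, y) := by
    ext z
    constructor
    · rintro ⟨⟨hzK, h1⟩, _, h2⟩
      have hz : z.2 = y := le_antisymm h1 h2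
      have hzz : (z.1, y) ∈ K := by rw [← hz]; exact hzK
      obtain ⟨h3, h4⟩ := (hcut z.1).1 hzz
      have hseg : z.1 ∈ segment ℝ x₁ x₂ := by rw [segment_eq_Icc hx]; exact ⟨h3, h4⟩
      obtain ⟨s, t, hs, ht, hst, he⟩ := hseg
      refine ⟨s, t, hs, ht, hst, ?_⟩
      refine Prod.ext ?_ ?_
      · exact he
      · show s * y + t * y = z.2
        rw [hz, ← add_mul, hst, one_mul]
    · rintro ⟨s, t, hs, ht, hst, rfl⟩
      have h2 : (s • ((x₁, y) : Pl) + t • ((x₂, y) : Pl)).2 = y := by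
        show s * y + t * y = y
        rw [← add_mul, hst, one_mul]
      have h1 : (s • ((x₁, y) : Pl) + t • ((x₂, y) : Pl)).1 ∈ Set.Icc x₁ x₂ := by
        rw [← segment_eq_Icc hx]
        exact ⟨s, t, hs, ht, hst, rfl⟩
      have hK' : s • ((x₁, y) : Pl) + t • ((x₂, y) : Pl) ∈ K := by
        have := (hcut (s • ((x₁, y) : Pl) + t • ((x₂, y) : Pl)).1).2 ⟨h1.1, h1.2⟩
        have he : ((s • ((x₁, y) : Pl) + t • ((x₂, y) : Pl)).1, y) =
            s • ((x₁, y) : Pl) + t • ((x₂, y) : Pl) := Prod.ext rfl h2.symm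
        rwa [he] at this
      exact ⟨⟨hK', h2.le⟩, hK', h2.ge⟩
  have hv := hφ.val _ _ (cc_half_le hK y) (cc_half_ge hK y) (by rw [hU]; exact hK)
  rw [hU, hI] at hv
  have hseg := (hS φ hφ).1 ((x₁, y) : Pl) (x₂, y)
  have hseg2 : nrm φ (((x₂, y) : Pl) - (x₁, y)) = (x₂ - x₁) * ee φ := by
    have h : ((x₂, y) : Pl) - (x₁, y) = (x₂ - x₁) • ((1, 0) : Pl) := by
      refine Prod.ext ?_ ?_
      · show x₂ - x₁ = (x₂ - x₁) * 1
        ring
      · show y - y = (x₂ - x₁) * 0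
        ring
    rw [h, (hS φ hφ).2.1, abs_of_nonneg (by linarith)]
    rfl
  rw [hseg2] at hseg
  have hrect := rect_val hα hx (show 0 ≤ y - a by linarith) (y := a)
  have hmono : φ (K ∩ {z : Pl | z.2 ≤ y}) ≤ φ (Set.Icc x₁ x₂ ×ˢ Set.Icc a (a + (y - a)) : Set Pl) := by
    refine hφ.mono _ _ (cc_half_le hK y) (cc_rect _ _ _ _) ?_
    rintro z ⟨hzK, hz⟩
    obtain ⟨h1, h2, h3⟩ := hcap z hzK hz
    exact ⟨⟨h1, h2⟩, h3, by have : z.2 ≤ y := hz; linarith⟩
  rw [hrect] at hmono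
  linarith

theorem sl_mono {f : ℝ → ℝ} (hm : StrictMono (deriv f))
    (hinv : ∀ y ∈ Set.range (deriv f), deriv f (sl f y) = y) {u v : ℝ}
    (hu : u ∈ Set.range (deriv f)) (hv : v ∈ Set.range (deriv f)) (huv : u ≤ v) :
    sl f u ≤ sl f v := by
  by_contra hcon
  push Not at hcon
  have h := hm hcon
  rw [hinv u hu, hinv v hv] at h
  linarith

end EXO

open EXO in
theorem specEXO (hTOP : SpecTOP) (hCVY : SpecCVY) (hPHF : SpecPHF) (hMEB : SpecMEB)
    (hSPT : SpecSPT) (hLEG : SpecLEG) (hFRC : SpecFRC) (hSHF : SpecSHF) (hSEG : SpecSEG)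
    (hNPR : SpecNPR) : SpecEXO := by
  intro h φ α hh hφ hα
  have hkS : Sm (sh h π) := (hSHF.1 h π hh).1
  have hl : Cx (el h) := (hFRC h hh).1
  have hm : Cx (em h) := (hFRC (sh h π) hkS).1
  obtain ⟨hM1, hM2, hM3, hM4⟩ := hMEB h hh
  obtain ⟨hlm, -, hlinv, -, -, hld, hlX, -, -⟩ := hLEG (el h) hl
  obtain ⟨hmm, -, hminv, -, -, hmd, hmX, -, -⟩ := hLEG (em h) hm
  have hCC : CC (bd h) := (hSPT h hh).2.1
  obtain ⟨-, hnnL⟩ := hNPR φ hφ
  have hee : 0 ≤ ee φ := (hSEG φ hφ).2.2 _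
  have hnn0 : 0 ≤ nn φ 0 := (hSEG φ hφ).2.2 _
  have hnnc : Continuous (nn φ) := by
    have hL : LipschitzWith ⟨ee φ, hee⟩ (nn φ) := by
      refine LipschitzWith.of_dist_le_mul fun u v => ?_
      rw [Real.dist_eq, Real.dist_eq]
      exact hnnL u v
    exact hL.continuous
  -- the boundary functions
  have hLd : ∀ y ∈ Set.Ioo (-h (-(π / 2))) (h (π / 2)),
      HasDerivAt (fun y => lg (em h) y) (sl (em h) y) y := fun y hy =>
    (hmd y (hM4 y hy.1 hy.2).2.2).2
  have hRd : ∀ y ∈ Set.Ioo (-h (-(π / 2))) (h (π / 2)),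
      HasDerivAt (fun y => -lg (el h) (-y)) (sl (el h) (-y)) y := by
    intro y hy
    have h1 := (hld (-y) (hM4 y hy.1 hy.2).2.1).2
    have h2 : HasDerivAt (fun y : ℝ => lg (el h) (-y)) (sl (el h) (-y) * (-1)) y :=
      HasDerivAt.comp y h1 (hasDerivAt_neg y)
    have h3 : HasDerivAt (fun y : ℝ => -lg (el h) (-y)) (-(sl (el h) (-y) * (-1))) y := h2.neg
    have h4 : -(sl (el h) (-y) * (-1)) = sl (el h) (-y) := by ring
    rw [h4] at h3
    exact h3
  have hWd : ∀ y ∈ Set.Ioo (-h (-(π / 2))) (h (π / 2)),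
      HasDerivAt (fun y => -lg (el h) (-y) - lg (em h) y) (sl (el h) (-y) - sl (em h) y) y :=
    fun y hy => (hRd y hy).sub (hLd y hy)
  -- the reflected body
  have hk1 : sh h π (π / 2) = h (-(π / 2)) := by
    show h (π / 2 + π) = h (-(π / 2))
    rw [← hh.per (-(π / 2))]
    congr 1
    ring
  have hk2 : sh h π (-(π / 2)) = h (π / 2) := by
    show h (-(π / 2) + π) = h (π / 2)
    congr 1
    ring
  have hk3 : em (sh h π) = el h := by
    show el (sh (sh h π) π) = el h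
    congr 1
    funext θ
    show h (θ + π + π) = h θ
    rw [← hh.per θ]
    congr 1
    ring
  have hk4 : el (sh h π) = em h := rfl
  obtain ⟨hT1, hT2⟩ := hTOP h hh
  obtain ⟨hB1, hB2⟩ := hTOP (sh h π) hkS
  rw [hk1, hk2, hk3, hk4] at hB1
  rw [hk1, hk3, hk4] at hB2
  set a : ℝ := -h (-(π / 2)) with ha
  have hna : h (-(π / 2)) = -a := by rw [ha, neg_neg]
  rw [hna] at hB1 hB2
  set b : ℝ := h (π / 2) with hb
  -- the main estimate
  have key : ∀ M : ℝ, 0 < M → ∃ ξ₀ > 0, ∀ ξ, 0 < ξ → ξ < ξ₀ → ξ < 1 →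
      |(φ (bd h) - cov φ (bd h) (ξ, 0)) / ξ - (2 * ee φ + α * (b + -a))| ≤
        (2 * nn φ 0 + 2 * |α|) / M := by
    intro M hM
    obtain ⟨yt, hyt1, hyt2, hyt3⟩ := hT1 M
    obtain ⟨yb, hyb1, hyb2, hyb3⟩ := hB1 M
    obtain ⟨ξt, hξt, htop⟩ := level (W := fun y => -lg (el h) (-y) - lg (em h) y) hM hyt1.le hyt2
      hWd (fun y hy => by
        obtain ⟨h1, h2⟩ := hyt3 y hy.1 hy.2
        linarith) hT2
    obtain ⟨ξb, hξb, hbot⟩ := level (W := fun y => -lg (em h) (-y) - lg (el h) y)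
      (W' := fun y => sl (em h) (-y) - sl (el h) y) (a := -b) (b := -a) hM hyb1.le hyb2
      (fun y hy => by
        have hy' : -y ∈ Set.Ioo a b := ⟨by linarith [hy.2], by linarith [hy.1]⟩
        have h1 := hWd (-y) hy'
        have h2 : HasDerivAt (fun y : ℝ => -lg (el h) (-(-y)) - lg (em h) (-y))
            ((sl (el h) (-(-y)) - sl (em h) (-y)) * (-1)) y := HasDerivAt.comp y h1 (hasDerivAt_neg y)
        have h3 : (fun y : ℝ => -lg (el h) (-(-y)) - lg (em h) (-y)) =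
            fun y => -lg (em h) (-y) - lg (el h) y := by
          funext u
          rw [neg_neg]
          ring
        rw [h3, neg_neg] at h2
        convert h2 using 1
        ring)
      (fun y hy => by
        obtain ⟨h1, h2⟩ := hyb3 y hy.1 hy.2
        show sl (em h) (-y) - sl (el h) y ≤ -(2 * M)
        linarith) hB2
    refine ⟨min ξt ξb, lt_min hξt hξb, fun ξ hξ hξlt hξ1 => ?_⟩
    obtain ⟨y₁, h1a, h1b, h1W, h1d⟩ := htop ξ hξ (hξlt.trans_le (min_le_left _ _))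
    obtain ⟨u, h4a, h4b, h4W, h4d⟩ := hbot ξ hξ (hξlt.trans_le (min_le_right _ _))
    obtain ⟨hr, hs⟩ := hyt3 y₁ h1a h1b
    obtain ⟨hs', hr'⟩ := hyb3 u h4a h4b
    obtain ⟨y₄, hy₄⟩ : ∃ y₄, y₄ = -u := ⟨_, rfl⟩
    have hu : u = -y₄ := by rw [hy₄, neg_neg]
    rw [hu] at h4a h4b h4W h4d hs' hr'
    rw [neg_neg] at hs' 
    simp only [neg_neg] at h4W
    have h1I : y₁ ∈ Set.Ioo a b := ⟨hyt1.trans h1a, h1b⟩
    have h4I : y₄ ∈ Set.Ioo a b := ⟨by linarith, by linarith⟩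
    obtain ⟨h1le, h1rl, h1rm⟩ := hM4 y₁ h1I.1 h1I.2
    obtain ⟨h4le, h4rl, h4rm⟩ := hM4 y₄ h4I.1 h4I.2
    -- `y₄ < y₁`
    have h41 : y₄ < y₁ := by
      have h := hlm (show sl (el h) (-y₁) < sl (el h) (-y₄) by linarith)
      rw [hlinv _ h1rl, hlinv _ h4rl] at h
      linarith
    have hIcc : ∀ y ∈ Set.Icc y₄ y₁, y ∈ Set.Ioo a b := fun y hy =>
      ⟨h4I.1.trans_le hy.1, hy.2.trans_lt h1I.2⟩
    -- the lens
    have hX1 := hlX (sl (el h) (-y₁))
    have hX2 := hmX (sl (em h) y₁)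
    have hX3 := hlX (sl (el h) (-y₄))
    have hX4 := hmX (sl (em h) y₄)
    rw [hlinv _ h1rl] at hX1
    rw [hminv _ h1rm] at hX2
    rw [hlinv _ h4rl] at hX3
    rw [hminv _ h4rm] at hX4
    have hLn : Ln (el h) (em h) (ξ, 0) (sl (el h) (-y₁)) (sl (em h) y₁) (sl (el h) (-y₄))
        (sl (em h) y₄) := by
      refine ⟨by linarith, by linarith, ?_, ?_⟩
      · refine Prod.ext ?_ ?_
        · show Xc (el h) (sl (el h) (-y₁)) + Xc (em h) (sl (em h) y₁) = ξ
          linarith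
        · show -(deriv (el h) (sl (el h) (-y₁)) + deriv (em h) (sl (em h) y₁)) = 0
          rw [hlinv _ h1rl, hminv _ h1rm]
          ring
      · refine Prod.ext ?_ ?_
        · show Xc (el h) (sl (el h) (-y₄)) + Xc (em h) (sl (em h) y₄) = ξ
          linarith
        · show -(deriv (el h) (sl (el h) (-y₄)) + deriv (em h) (sl (em h) y₄)) = 0
          rw [hlinv _ h4rl, hminv _ h4rm]
          ring
    have hcov := hCVY h φ α hh hφ hα _ _ _ _ _ hLn
    rw [hlinv _ h1rl, hlinv _ h4rl, neg_neg, neg_neg] at hcov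
    simp only [sub_zero] at hcov
    -- the value of the middle part
    have hslm : ContinuousOn (fun y => sl (em h) y) (Set.Icc y₄ y₁) := fun y hy =>
      (hmd y (hM4 y (hIcc y hy).1 (hIcc y hy).2).2.2).1.continuousAt.continuousWithinAt
    have hsll : ContinuousOn (fun y => sl (el h) (-y)) (Set.Icc y₄ y₁) := fun y hy => by
      have h1 : ContinuousAt (sl (el h)) (-y) :=
        (hld (-y) (hM4 y (hIcc y hy).1 (hIcc y hy).2).2.1).1.continuousAt
      exact (ContinuousAt.comp (f := fun y : ℝ => -y) h1 continuous_neg.continuousAt).continuousWithinAt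
    have hmid := hPHF φ α hφ hα y₄ y₁ (fun y => lg (em h) y) (fun y => -lg (el h) (-y))
      (fun y => sl (em h) y) (fun y => sl (el h) (-y)) h41.le
      (fun y hy => hLd y (hIcc y hy)) (fun y hy => hRd y (hIcc y hy)) hslm hsll
      (fun u hu v hv huv => sl_mono hmm hminv (hM4 u (hIcc u hu).1 (hIcc u hu).2).2.2
        (hM4 v (hIcc v hv).1 (hIcc v hv).2).2.2 huv)
      (fun u hu v hv huv => sl_mono hlm hlinv (hM4 v (hIcc v hv).1 (hIcc v hv).2).2.1
        (hM4 u (hIcc u hu).1 (hIcc u hu).2).2.1 (by linarith))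
      (fun y hy => (hM4 y (hIcc y hy).1 (hIcc y hy).2).1)
    -- the difference of the integrals
    have hint1 : IntervalIntegrable (fun y => nn φ (sl (em h) y) + nn φ (sl (el h) (-y))
        + α * (-lg (el h) (-y) - lg (em h) y)) volume y₄ y₁ := by
      refine ContinuousOn.intervalIntegrable ?_
      rw [Set.uIcc_of_le h41.le]
      refine ((hnnc.comp_continuousOn hslm).add (hnnc.comp_continuousOn hsll)).add ?_
      refine continuousOn_const.mul fun y hy => ?_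
      exact (hWd y (hIcc y hy)).continuousAt.continuousWithinAt
    have hdiff : (∫ y in y₄..y₁, (nn φ (sl (em h) y) + nn φ (sl (el h) (-y))
        + α * (-lg (el h) (-y) - lg (em h) y - ξ))) =
        (∫ y in y₄..y₁, (nn φ (sl (em h) y) + nn φ (sl (el h) (-y))
        + α * (-lg (el h) (-y) - lg (em h) y))) - α * ξ * (y₁ - y₄) := by
      have h1 : (∫ y in y₄..y₁, (α * ξ : ℝ)) = α * ξ * (y₁ - y₄) := by
        rw [intervalIntegral.integral_const, smul_eq_mul]
        ring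
      rw [← h1, ← intervalIntegral.integral_sub hint1 intervalIntegrable_const]
      refine intervalIntegral.integral_congr fun y _ => ?_
      ring
    rw [hdiff] at hcov
    -- the caps
    have hcap1 : ∀ z ∈ bd h, y₁ ≤ z.2 → lg (em h) y₁ ≤ z.1 ∧ z.1 ≤ -lg (el h) (-y₁) ∧ z.2 ≤ b := by
      intro z hz hzy
      have e1 := (hM1 z hz (sl (el h) (-y₁))).1
      have e2 := (hM1 z hz (sl (em h) y₁)).2
      have e3 : sl (el h) (-y₁) * (z.2 - y₁) ≤ 0 :=
        mul_nonpos_of_nonpos_of_nonneg (by linarith) (by linarith)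
      have e4 : 0 ≤ sl (em h) y₁ * (z.2 - y₁) := mul_nonneg (by linarith) (by linarith)
      refine ⟨?_, ?_, (hM2 z hz).2⟩
      · unfold lg
        nlinarith
      · unfold lg
        nlinarith
    have hcap4 : ∀ z ∈ bd h ∩ {z : Pl | z.2 ≤ y₁}, z.2 ≤ y₄ →
        lg (em h) y₄ ≤ z.1 ∧ z.1 ≤ -lg (el h) (-y₄) ∧ a ≤ z.2 := by
      rintro z ⟨hz, -⟩ hzy
      have e1 := (hM1 z hz (sl (el h) (-y₄))).1
      have e2 := (hM1 z hz (sl (em h) y₄)).2
      have e3 : sl (el h) (-y₄) * (z.2 - y₄) ≤ 0 :=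
        mul_nonpos_of_nonneg_of_nonpos (by linarith) (by linarith)
      have e4 : 0 ≤ sl (em h) y₄ * (z.2 - y₄) :=
        mul_nonneg_of_nonpos_of_nonpos (by linarith) (by linarith)
      refine ⟨?_, ?_, (hM2 z hz).1⟩
      · unfold lg
        nlinarith
      · unfold lg
        nlinarith
    have hc1 := cut_top hφ hα hSEG hCC h1le h1I.2.le (fun x => hM3 x y₁ h1I.1 h1I.2) hcap1
    have hc4 := cut_bot hφ hα hSEG (cc_half_le hCC y₁) h4le h4I.1.le (fun x => by
      rw [← hM3 x y₄ h4I.1 h4I.2]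
      exact ⟨fun hx => hx.1, fun hx => ⟨hx, h41.le⟩⟩) hcap4
    have hprof : bd h ∩ {z : Pl | z.2 ≤ y₁} ∩ {z : Pl | y₄ ≤ z.2} =
        prof y₄ y₁ (fun y => lg (em h) y) (fun y => -lg (el h) (-y)) := by
      ext z
      constructor
      · rintro ⟨⟨hz, hz1⟩, hz4⟩
        have hzI := hIcc z.2 ⟨hz4, hz1⟩
        have h := (hM3 z.1 z.2 hzI.1 hzI.2).1 hz
        exact ⟨hz4, hz1, h.1, h.2⟩
      · rintro ⟨hz4, hz1, h1, h2⟩
        have hzI := hIcc z.2 ⟨hz4, hz1⟩
        exact ⟨⟨(hM3 z.1 z.2 hzI.1 hzI.2).2 ⟨h1, h2⟩, hz1⟩, hz4⟩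
    have hmono : φ (bd h ∩ {z : Pl | z.2 ≤ y₁} ∩ {z : Pl | y₄ ≤ z.2}) ≤ φ (bd h) :=
      hφ.mono _ _ (cc_half_ge (cc_half_le hCC y₁) y₄) hCC
        (fun z hz => hz.1.1)
    rw [hprof] at hc4 hmono
    -- the widths
    have w1 : -lg (el h) (-y₁) - lg (em h) y₁ = ξ := h1W
    have w4 : -lg (el h) (-y₄) - lg (em h) y₄ = ξ := by linarith
    rw [w1] at hc1
    rw [w4] at hc4
    rw [w1, w4] at hmid
    set Δ : ℝ := φ (bd h) - φ (prof y₄ y₁ (fun y => lg (em h) y) (fun y => -lg (el h) (-y))) with hΔ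
    have hΔ0 : 0 ≤ Δ := by rw [hΔ]; linarith
    have hαξ : α * ξ ≤ |α| := by
      calc α * ξ ≤ |α| * ξ := mul_le_mul_of_nonneg_right (le_abs_self α) hξ.le
        _ ≤ |α| * 1 := mul_le_mul_of_nonneg_left hξ1.le (abs_nonneg α)
        _ = |α| := mul_one _
    have hc1' : (b - y₁) * (2 * nn φ 0 + α * ξ) ≤ ξ / (2 * M) * (2 * nn φ 0 + |α|) := by
      calc (b - y₁) * (2 * nn φ 0 + α * ξ) ≤ (b - y₁) * (2 * nn φ 0 + |α|) :=
            mul_le_mul_of_nonneg_left (by linarith) (by linarith)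
        _ ≤ ξ / (2 * M) * (2 * nn φ 0 + |α|) :=
            mul_le_mul_of_nonneg_right h1d (by positivity)
    have hc4' : (y₄ - a) * (2 * nn φ 0 + α * ξ) ≤ ξ / (2 * M) * (2 * nn φ 0 + |α|) := by
      calc (y₄ - a) * (2 * nn φ 0 + α * ξ) ≤ (y₄ - a) * (2 * nn φ 0 + |α|) :=
            mul_le_mul_of_nonneg_left (by linarith) (by linarith [h4I.1])
        _ ≤ ξ / (2 * M) * (2 * nn φ 0 + |α|) :=
            mul_le_mul_of_nonneg_right (by linarith) (by positivity)
    have hΔ1 : Δ ≤ ξ / M * (2 * nn φ 0 + |α|) := by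
      have e : ξ / M * (2 * nn φ 0 + |α|) = ξ / (2 * M) * (2 * nn φ 0 + |α|) +
          ξ / (2 * M) * (2 * nn φ 0 + |α|) := by
        field_simp
        ring
      rw [e, hΔ]
      linarith
    have hquot : (φ (bd h) - cov φ (bd h) (ξ, 0)) / ξ - (2 * ee φ + α * (b + -a)) =
        Δ / ξ - α * ((b - y₁) + (y₄ - a)) := by
      have e : φ (bd h) - cov φ (bd h) (ξ, 0) = Δ + 2 * ee φ * ξ + α * ξ * (y₁ - y₄) := by
        rw [hcov, hΔ, hmid]
        ring
      rw [e]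
      field_simp
      ring
    rw [hquot]
    have b1 : |Δ / ξ| ≤ (2 * nn φ 0 + |α|) / M := by
      rw [abs_of_nonneg (div_nonneg hΔ0 hξ.le), div_le_iff₀ hξ]
      calc Δ ≤ ξ / M * (2 * nn φ 0 + |α|) := hΔ1
        _ = (2 * nn φ 0 + |α|) / M * ξ := by ring
    have b2 : |α * ((b - y₁) + (y₄ - a))| ≤ |α| / M := by
      rw [abs_mul, abs_of_nonneg (show 0 ≤ (b - y₁) + (y₄ - a) by linarith [h4I.1])]
      have e : (b - y₁) + (y₄ - a) ≤ 1 / M := by
        have e1 : (b - y₁) + (y₄ - a) ≤ ξ / (2 * M) + ξ / (2 * M) := by linarith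
        have e2 : ξ / (2 * M) + ξ / (2 * M) = ξ / M := by
          field_simp
          ring
        rw [e2] at e1
        refine e1.trans ?_
        exact div_le_div_of_nonneg_right hξ1.le hM.le
      calc |α| * ((b - y₁) + (y₄ - a)) ≤ |α| * (1 / M) := mul_le_mul_of_nonneg_left e (abs_nonneg α)
        _ = |α| / M := by ring
    calc |Δ / ξ - α * ((b - y₁) + (y₄ - a))| ≤ |Δ / ξ| + |α * ((b - y₁) + (y₄ - a))| := abs_sub _ _
      _ ≤ (2 * nn φ 0 + |α|) / M + |α| / M := add_le_add b1 b2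
      _ = (2 * nn φ 0 + 2 * |α|) / M := by ring
  -- the limit
  have hgoal : h (-(π / 2)) = -a := hna
  rw [hgoal]
  rw [Metric.tendsto_nhds]
  intro ε hε
  set C : ℝ := 2 * nn φ 0 + 2 * |α| with hC
  have hC0 : 0 ≤ C := by rw [hC]; positivity
  obtain ⟨ξ₀, hξ₀, hξ₀'⟩ := key ((C + 1) / ε) (by positivity)
  have hev : ∀ᶠ ξ in 𝓝[>] (0 : ℝ), ξ ∈ Set.Ioo 0 (min ξ₀ 1) :=
    Ioo_mem_nhdsGT (lt_min hξ₀ one_pos)
  filter_upwards [hev] with ξ hξ
  rw [Real.dist_eq]
  refine lt_of_le_of_lt (hξ₀' ξ hξ.1 (hξ.2.trans_le (min_le_left _ _))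
    (hξ.2.trans_le (min_le_right _ _))) ?_
  rw [div_div_eq_mul_div, div_lt_iff₀ (by linarith)]
  nlinarith

end Pool.MP671.C3
end

section
/-!
# MP_671ac3_gt, C3: module FRC (the right support function)
-/
namespace Pool.MP671.C3

open MeasureTheory Real Filter Topology

namespace FRC

theorem d1 {h : ℝ → ℝ} (hh : Sm h) (θ : ℝ) : HasDerivAt h (deriv h θ) θ :=
  (hh.c2.differentiable (by norm_num) θ).hasDerivAt

theorem d2 {h : ℝ → ℝ} (hh : Sm h) (θ : ℝ) : HasDerivAt (deriv h) (deriv (deriv h) θ) θ := by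
  have h1 : ContDiff ℝ 1 (deriv h) := by
    have := hh.c2
    rw [show (2 : WithTop ℕ∞) = 1 + 1 from rfl, contDiff_succ_iff_deriv] at this
    exact this.2.2
  exact (h1.differentiable (by norm_num) θ).hasDerivAt

theorem sq_pos' (σ : ℝ) : 0 < 1 + σ ^ 2 := by positivity

theorem sq_ne (σ : ℝ) : √(1 + σ ^ 2) ≠ 0 := (sqrt_pos.2 (sq_pos' σ)).ne'

theorem inv_sq (σ : ℝ) : 1 / (1 + σ ^ 2) = (1 / √(1 + σ ^ 2)) * (1 / √(1 + σ ^ 2)) := by
  rw [div_mul_div_comm, one_mul, mul_self_sqrt (sq_pos' σ).le]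

theorem mul_inv' (σ : ℝ) : √(1 + σ ^ 2) * (1 / √(1 + σ ^ 2)) = 1 := by
  have := sq_ne σ
  field_simp

theorem cos_th (σ : ℝ) : cos (-arctan σ) = 1 / √(1 + σ ^ 2) := by
  rw [cos_neg, cos_arctan]

theorem sin_th (σ : ℝ) : sin (-arctan σ) = -(σ / √(1 + σ ^ 2)) := by
  rw [sin_neg, sin_arctan]

theorem dth (σ : ℝ) : HasDerivAt (fun σ => -arctan σ) (-(1 / (1 + σ ^ 2))) σ :=
  (hasDerivAt_arctan σ).neg

theorem dsq (σ : ℝ) : HasDerivAt (fun σ : ℝ => √(1 + σ ^ 2)) (σ / √(1 + σ ^ 2)) σ := by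
  have h1 : HasDerivAt (fun σ : ℝ => 1 + σ ^ 2) (2 * σ) σ := by
    simpa using (hasDerivAt_pow 2 σ).const_add 1
  have h2 := h1.sqrt (sq_pos' σ).ne'
  refine h2.congr_deriv ?_
  have := sq_ne σ
  field_simp

/-- the vertical coordinate of the boundary point -/
theorem dP2 {h : ℝ → ℝ} (hh : Sm h) (θ : ℝ) :
    HasDerivAt (fun θ => (Pt h θ).2) (Rc h θ * cos θ) θ := by
  have h1 : HasDerivAt (fun θ => h θ * sin θ + deriv h θ * cos θ)
      ((deriv h θ * sin θ + h θ * cos θ) + (deriv (deriv h) θ * cos θ + deriv h θ * (-sin θ))) θ :=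
    ((d1 hh θ).mul (hasDerivAt_sin θ)).add ((d2 hh θ).mul (hasDerivAt_cos θ))
  refine HasDerivAt.congr_deriv h1 ?_
  simp only [Rc]
  ring

theorem del {h : ℝ → ℝ} (hh : Sm h) (σ : ℝ) :
    HasDerivAt (el h) (-(Pt h (-arctan σ)).2) σ := by
  have h1 : HasDerivAt (fun σ => h (-arctan σ)) (deriv h (-arctan σ) * (-(1 / (1 + σ ^ 2)))) σ :=
    (d1 hh (-arctan σ)).comp σ (dth σ)
  have h2 : HasDerivAt (el h) (σ / √(1 + σ ^ 2) * h (-arctan σ) +
      √(1 + σ ^ 2) * (deriv h (-arctan σ) * (-(1 / (1 + σ ^ 2))))) σ := (dsq σ).mul h1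
  refine h2.congr_deriv ?_
  simp only [Pt, cos_th, sin_th]
  have h5 : √(1 + σ ^ 2) * (deriv h (-arctan σ) * (-(1 / (1 + σ ^ 2)))) =
      -(deriv h (-arctan σ) * (1 / √(1 + σ ^ 2))) := by
    rw [inv_sq]
    linear_combination (-(deriv h (-arctan σ) * (1 / √(1 + σ ^ 2)))) * mul_inv' σ
  rw [h5]
  ring

theorem deriv_el {h : ℝ → ℝ} (hh : Sm h) :
    deriv (el h) = fun σ => -(Pt h (-arctan σ)).2 := funext fun σ => (del hh σ).deriv

theorem Xc_el {h : ℝ → ℝ} (hh : Sm h) (σ : ℝ) : Xc (el h) σ = (Pt h (-arctan σ)).1 := by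
  rw [Xc, deriv_el hh]
  simp only [Pt, cos_th, sin_th, el]
  have h3 : √(1 + σ ^ 2) * √(1 + σ ^ 2) = 1 + σ ^ 2 := mul_self_sqrt (sq_pos' σ).le
  have h4 := sq_ne σ
  field_simp
  have h6 : √(1 + σ ^ 2) ^ 2 = 1 + σ ^ 2 := by rw [sq]; exact h3
  rw [h6]
  ring

theorem del2 {h : ℝ → ℝ} (hh : Sm h) (σ : ℝ) :
    HasDerivAt (deriv (el h)) (Rc h (-arctan σ) / (√(1 + σ ^ 2)) ^ 3) σ := by
  rw [deriv_el hh]
  have h1 : HasDerivAt (fun σ => (Pt h (-arctan σ)).2)
      (Rc h (-arctan σ) * cos (-arctan σ) * (-(1 / (1 + σ ^ 2)))) σ :=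
    HasDerivAt.comp (h₂ := fun θ => (Pt h θ).2) σ (dP2 hh (-arctan σ)) (dth σ)
  refine h1.neg.congr_deriv ?_
  rw [cos_th, inv_sq, div_eq_mul_one_div (Rc h (-arctan σ)) (√(1 + σ ^ 2) ^ 3), ← one_div_pow]
  ring

theorem cd {h : ℝ → ℝ} (hh : Sm h) : ContDiff ℝ 2 (el h) := by
  have h1 : ContDiff ℝ 2 (fun σ : ℝ => √(1 + σ ^ 2)) :=
    (contDiff_const.add (contDiff_id.pow 2)).sqrt (fun x => (sq_pos' x).ne')
  have h2 : ContDiff ℝ 2 (fun σ : ℝ => -arctan σ) := contDiff_arctan.neg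
  exact h1.mul (hh.c2.comp h2)

theorem cx {h : ℝ → ℝ} (hh : Sm h) : Cx (el h) := by
  refine ⟨cd hh, fun σ => ?_⟩
  rw [(del2 hh σ).deriv]
  exact div_pos (hh.pos _) (pow_pos (sqrt_pos.2 (sq_pos' σ)) 3)

theorem mono {h : ℝ → ℝ} (hh : Sm h) :
    StrictMonoOn (fun θ => (Pt h θ).2) (Set.Icc (-(π / 2)) (π / 2)) := by
  refine strictMonoOn_of_deriv_pos (convex_Icc _ _)
    (fun x _ => (dP2 hh x).continuousAt.continuousWithinAt) ?_
  intro x hx
  rw [interior_Icc] at hx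
  rw [(dP2 hh x).deriv]
  exact mul_pos (hh.pos x) (cos_pos_of_mem_Ioo hx)

theorem P2a (h : ℝ → ℝ) : (Pt h (-(π / 2))).2 = -h (-(π / 2)) := by
  simp [Pt]

theorem P2b (h : ℝ → ℝ) : (Pt h (π / 2)).2 = h (π / 2) := by
  simp [Pt]

theorem rng {h : ℝ → ℝ} (hh : Sm h) :
    Set.range (deriv (el h)) = Set.Ioo (-h (π / 2)) (h (-(π / 2))) := by
  have hpi : -(π / 2) < π / 2 := by linarith [pi_pos]
  rw [deriv_el hh]
  ext y
  constructor
  · rintro ⟨σ, rfl⟩
    have a1 := neg_pi_div_two_lt_arctan σ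
    have a2 := arctan_lt_pi_div_two σ
    have m : -arctan σ ∈ Set.Icc (-(π / 2)) (π / 2) := ⟨by linarith, by linarith⟩
    have b1 := mono hh ⟨le_refl _, hpi.le⟩ m (by linarith : -(π / 2) < -arctan σ)
    have b2 := mono hh m ⟨hpi.le, le_refl _⟩ (by linarith : -arctan σ < π / 2)
    simp only [P2a, P2b] at b1 b2
    constructor
    · show -h (π / 2) < -(Pt h (-arctan σ)).2
      linarith
    · show -(Pt h (-arctan σ)).2 < h (-(π / 2))
      linarith
  · rintro ⟨h1, h2⟩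
    have hc : ContinuousOn (fun θ => (Pt h θ).2) (Set.Icc (-(π / 2)) (π / 2)) :=
      fun x _ => (dP2 hh x).continuousAt.continuousWithinAt
    have hm : -y ∈ Set.Ioo ((fun θ => (Pt h θ).2) (-(π / 2))) ((fun θ => (Pt h θ).2) (π / 2)) := by
      constructor
      · show (Pt h (-(π / 2))).2 < -y
        rw [P2a]
        linarith
      · show -y < (Pt h (π / 2)).2
        rw [P2b]
        linarith
    obtain ⟨θ, hθ, he⟩ := intermediate_value_Ioo hpi.le hc hm
    refine ⟨tan (-θ), ?_⟩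
    have h3 : arctan (tan (-θ)) = -θ :=
      arctan_tan (by linarith [hθ.2]) (by linarith [hθ.1])
    show -(Pt h (-arctan (tan (-θ)))).2 = y
    rw [h3, neg_neg]
    have he' : (Pt h θ).2 = -y := he
    rw [he', neg_neg]

end FRC

open FRC in
theorem specFRC : SpecFRC := by
  intro h hh
  exact ⟨cx hh, fun σ => ⟨(del hh σ).deriv, Xc_el hh σ, (del2 hh σ).deriv⟩, rng hh⟩

end Pool.MP671.C3
end

section
/-!
# MP_671ac3_gt, C3, module INV (helper50): the inverse function theorem for `Psi`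
-/
namespace Pool.MP671.C3

open MeasureTheory Real Filter Topology Pool.MP671

namespace INV

theorem deriv_c1 {f : ℝ → ℝ} (hf : Cx f) : ContDiff ℝ 1 (deriv f) := by
  have h : ContDiff ℝ (1 + 1) f := by
    have := hf.c2
    norm_num at this ⊢
    exact this
  exact ContDiff.deriv' h

theorem diff1 {f : ℝ → ℝ} (hf : Cx f) : Differentiable ℝ f := hf.c2.differentiable (by norm_num)

theorem diff2 {f : ℝ → ℝ} (hf : Cx f) : Differentiable ℝ (deriv f) :=
  (deriv_c1 hf).differentiable (by norm_num)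

theorem Xc_c1 {f : ℝ → ℝ} (hf : Cx f) : ContDiff ℝ 1 (Xc f) := by
  have h1 : ContDiff ℝ 1 f := hf.c2.of_le (by norm_num)
  exact h1.sub (contDiff_id.mul (deriv_c1 hf))

theorem Xc_der {f : ℝ → ℝ} (hf : Cx f) (σ : ℝ) :
    HasDerivAt (Xc f) (-(σ * deriv (deriv f) σ)) σ := by
  have h1 := (diff1 hf σ).hasDerivAt
  have h2 := (diff2 hf σ).hasDerivAt
  have h3 := h1.sub ((hasDerivAt_id σ).mul h2)
  have h4 : deriv f σ - (1 * deriv f σ + id σ * deriv (deriv f) σ) = -(σ * deriv (deriv f) σ) := by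
    simp only [id]; ring
  rw [h4] at h3
  exact h3

/-- the map -/
noncomputable def FP (l m : ℝ → ℝ) : Pl → Pl := fun z => Psi l m z.1 z.2

theorem FP_c1 {l m : ℝ → ℝ} (hl : Cx l) (hm : Cx m) : ContDiff ℝ 1 (FP l m) := by
  unfold FP Psi
  apply ContDiff.prodMk
  · exact ((Xc_c1 hl).comp contDiff_fst).add ((Xc_c1 hm).comp contDiff_snd)
  · exact (((deriv_c1 hl).comp contDiff_fst).add ((deriv_c1 hm).comp contDiff_snd)).neg

/-- the derivative -/
noncomputable def D (l m : ℝ → ℝ) (z : Pl) : Pl →L[ℝ] Pl :=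
  ((-(z.1 * deriv (deriv l) z.1)) • ContinuousLinearMap.fst ℝ ℝ ℝ +
    (-(z.2 * deriv (deriv m) z.2)) • ContinuousLinearMap.snd ℝ ℝ ℝ).prod
  (-(deriv (deriv l) z.1 • ContinuousLinearMap.fst ℝ ℝ ℝ +
    deriv (deriv m) z.2 • ContinuousLinearMap.snd ℝ ℝ ℝ))

theorem FP_der {l m : ℝ → ℝ} (hl : Cx l) (hm : Cx m) (z : Pl) : HasFDerivAt (FP l m) (D l m z) z := by
  have h1 : HasFDerivAt (fun z : Pl => z.1) (ContinuousLinearMap.fst ℝ ℝ ℝ) z := hasFDerivAt_fst
  have h2 : HasFDerivAt (fun z : Pl => z.2) (ContinuousLinearMap.snd ℝ ℝ ℝ) z := hasFDerivAt_snd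
  have a1 := (Xc_der hl z.1).comp_hasFDerivAt z h1
  have a2 := (Xc_der hm z.2).comp_hasFDerivAt z h2
  have b1 := ((diff2 hl z.1).hasDerivAt).comp_hasFDerivAt z h1
  have b2 := ((diff2 hm z.2).hasDerivAt).comp_hasFDerivAt z h2
  exact (a1.add a2).prodMk (b1.add b2).neg

theorem D_inj {l m : ℝ → ℝ} (hl : Cx l) (hm : Cx m) (z : Pl) (hz : z.1 ≠ z.2) :
    Function.Injective (D l m z) := by
  rw [injective_iff_map_eq_zero]
  rintro ⟨u, v⟩ h
  have h1 := congrArg Prod.fst h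
  have h2 := congrArg Prod.snd h
  simp only [D, ContinuousLinearMap.prod_apply, _root_.add_apply,
    _root_.smul_apply, _root_.neg_apply, ContinuousLinearMap.coe_fst',
    ContinuousLinearMap.coe_snd', smul_eq_mul, Prod.fst_zero, Prod.snd_zero] at h1 h2
  have p1 := hl.pos z.1
  have p2 := hm.pos z.2
  have h3 : (z.1 - z.2) * (deriv (deriv l) z.1 * u) = 0 := by linear_combination -h1 + z.2 * h2
  have h4 : deriv (deriv l) z.1 * u = 0 := by
    rcases mul_eq_zero.mp h3 with h | h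
    · exact absurd (sub_eq_zero.mp h) hz
    · exact h
  have h5 : deriv (deriv m) z.2 * v = 0 := by linear_combination -h2 - h4
  have hu : u = 0 := by
    rcases mul_eq_zero.mp h4 with h | h
    · exact absurd h p1.ne'
    · exact h
  have hv : v = 0 := by
    rcases mul_eq_zero.mp h5 with h | h
    · exact absurd h p2.ne'
    · exact h
  rw [hu, hv]
  rfl

/-- the derivative as an equivalence -/
noncomputable def E {l m : ℝ → ℝ} (hl : Cx l) (hm : Cx m) (z : Pl) (hz : z.1 ≠ z.2) : Pl ≃L[ℝ] Pl :=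
  (LinearEquiv.ofInjectiveEndo (D l m z : Pl →ₗ[ℝ] Pl) (D_inj hl hm z hz)).toContinuousLinearEquiv

theorem E_der {l m : ℝ → ℝ} (hl : Cx l) (hm : Cx m) (z : Pl) (hz : z.1 ≠ z.2) :
    HasFDerivAt (FP l m) (E hl hm z hz : Pl →L[ℝ] Pl) z := by
  have h : (E hl hm z hz : Pl →L[ℝ] Pl) = D l m z := by
    ext <;> rfl
  rw [h]
  exact FP_der hl hm z

end INV

open INV in
theorem specINV : SpecINV := by
  intro l m hl hm r₀ s₀ h0 W hW hmem
  have hc : ContDiffAt ℝ 1 (FP l m) (r₀, s₀) := (FP_c1 hl hm).contDiffAt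
  set e := hc.toOpenPartialHomeomorph (FP l m) (E_der hl hm (r₀, s₀) h0) (by norm_num) with he
  have hcoe : (e : Pl → Pl) = FP l m := ContDiffAt.toOpenPartialHomeomorph_coe _ _ _
  have hsrc : (r₀, s₀) ∈ e.source := ContDiffAt.mem_toOpenPartialHomeomorph_source _ _ _
  have hN : IsOpen {z : Pl | z.1 ≠ z.2} := isOpen_ne_fun continuous_fst continuous_snd
  set U : Set Pl := e.source ∩ (W ∩ {z : Pl | z.1 ≠ z.2}) with hU
  have hUo : IsOpen U := e.open_source.inter (hW.inter hN)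
  have hUs : U ⊆ e.source := Set.inter_subset_left
  have hVo : IsOpen (e '' U) := e.isOpen_image_of_subset_source hUo hUs
  refine ⟨U, e '' U, e.symm, hUo, hVo, fun z hz => hz.2.1, ⟨hsrc, hmem, h0⟩, ?_, ?_⟩
  · intro z hz
    have h1 : Psi l m z.1 z.2 = e z := by rw [hcoe]; rfl
    rw [h1]
    exact ⟨⟨z, hz, rfl⟩, e.left_inv (hUs hz)⟩
  · rintro x ⟨z, hz, rfl⟩
    have h1 : e.symm (e z) = z := e.left_inv (hUs hz)
    refine ⟨?_, ?_, ?_⟩
    · rw [h1]; exact hz
    · rw [h1, hcoe]; rfl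
    · have h2 : HasFDerivAt e (E hl hm z hz.2.2 : Pl →L[ℝ] Pl) (e.symm (e z)) := by
        rw [h1, hcoe]
        exact E_der hl hm z hz.2.2
      exact (e.hasFDerivAt_symm (e.map_source (hUs hz)) h2).differentiableAt

end Pool.MP671.C3
end

section
/-! # MP_671ac3_gt, C3: module LEG (curves, Legendre transform) -/
namespace Pool.MP671.C3.LEG

open MeasureTheory Real Filter Topology Pool.MP671

theorem hd {f : ℝ → ℝ} (hf : Cx f) (σ : ℝ) : HasDerivAt f (deriv f σ) σ :=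
  (hf.c2.differentiable (by norm_num)).differentiableAt.hasDerivAt

theorem c1 {f : ℝ → ℝ} (hf : Cx f) : ContDiff ℝ 1 (deriv f) := by
  have h := hf.c2
  have : (2 : WithTop ℕ∞) = 1 + 1 := by norm_num
  rw [this] at h
  exact (contDiff_succ_iff_deriv.1 h).2.2

theorem hd2 {f : ℝ → ℝ} (hf : Cx f) (σ : ℝ) :
    HasStrictDerivAt (deriv f) (deriv (deriv f) σ) σ :=
  (c1 hf).contDiffAt.hasStrictDerivAt (by norm_num)

theorem smono {f : ℝ → ℝ} (hf : Cx f) : StrictMono (deriv f) :=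
  strictMono_of_deriv_pos hf.pos

theorem sl_deriv {f : ℝ → ℝ} (hf : Cx f) (σ : ℝ) : sl f (deriv f σ) = σ :=
  Function.leftInverse_invFun (smono hf).injective σ

theorem deriv_sl {f : ℝ → ℝ} {y : ℝ} (hy : y ∈ Set.range (deriv f)) : deriv f (sl f y) = y := by
  obtain ⟨x, hx⟩ := hy
  exact Function.invFun_eq ⟨x, hx⟩

theorem tan {f : ℝ → ℝ} (hf : Cx f) {σ τ : ℝ} (h : σ ≠ τ) :
    Xc f σ + τ * deriv f σ < f τ := by
  have hc : Continuous f := hf.c2.continuous
  rcases lt_or_gt_of_ne h with h | h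
  · obtain ⟨c, hc1, hc2⟩ := exists_hasDerivAt_eq_slope f (deriv f) h hc.continuousOn
      (fun x _ => hd hf x)
    have h1 : deriv f σ < deriv f c := smono hf hc1.1
    have h2 : 0 < τ - σ := sub_pos.2 h
    have h3 : deriv f c * (τ - σ) = f τ - f σ := by rw [hc2]; field_simp
    have h4 : deriv f σ * (τ - σ) < deriv f c * (τ - σ) := mul_lt_mul_of_pos_right h1 h2
    unfold Xc
    nlinarith
  · obtain ⟨c, hc1, hc2⟩ := exists_hasDerivAt_eq_slope f (deriv f) h hc.continuousOn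
      (fun x _ => hd hf x)
    have h1 : deriv f c < deriv f σ := smono hf hc1.2
    have h2 : 0 < σ - τ := sub_pos.2 h
    have h3 : deriv f c * (σ - τ) = f σ - f τ := by rw [hc2]; field_simp
    have h4 : deriv f c * (σ - τ) < deriv f σ * (σ - τ) := mul_lt_mul_of_pos_right h1 h2
    unfold Xc
    nlinarith

theorem dsl {f : ℝ → ℝ} (hf : Cx f) {y : ℝ} (hy : y ∈ Set.range (deriv f)) :
    HasDerivAt (sl f) (1 / deriv (deriv f) (sl f y)) y := by
  have h := (hd2 hf (sl f y)).to_local_left_inverse (hf.pos _).ne'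
    (Eventually.of_forall (fun x => sl_deriv hf x))
  rw [deriv_sl hy] at h
  rw [one_div]
  exact h.hasDerivAt

theorem specLEG : SpecLEG := by
  intro f hf
  refine ⟨smono hf, sl_deriv hf, fun y hy => deriv_sl hy, ⟨?_, ?_⟩, ?_, ?_, ?_, ?_, ?_⟩
  · rw [isOpen_iff_mem_nhds]
    rintro y ⟨σ, rfl⟩
    have h1 : deriv f (σ - 1) < deriv f σ := smono hf (by linarith)
    have h2 : deriv f σ < deriv f (σ + 1) := smono hf (by linarith)
    refine Filter.mem_of_superset (Ioo_mem_nhds h1 h2) ?_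
    intro z hz
    have h3 := intermediate_value_Ioo (show σ - 1 ≤ σ + 1 by linarith)
      (f := deriv f) (c1 hf).continuous.continuousOn hz
    obtain ⟨t, _, ht⟩ := h3
    exact ⟨t, ht⟩
  · exact (isPreconnected_range (c1 hf).continuous).ordConnected
  · intro y hy σ
    have h1 := deriv_sl hy
    unfold lg
    by_cases h : sl f y = σ
    · rw [h]; linarith
    · have h2 := tan hf h
      rw [h1] at h2
      unfold Xc at h2
      rw [h1] at h2
      nlinarith
  · intro y hy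
    refine ⟨dsl hf hy, ?_⟩
    have h1 := dsl hf hy
    have h2 : HasDerivAt (fun z => f (sl f z))
        (deriv f (sl f y) * (1 / deriv (deriv f) (sl f y))) y :=
      (hd hf (sl f y)).comp y h1
    have h3 := ((hasDerivAt_id y).mul h1).sub h2
    have h4 : (fun z => id z * sl f z - f (sl f z)) = lg f := by
      funext z; rfl
    have h5 : (1 : ℝ) * sl f y + id y * (1 / deriv (deriv f) (sl f y))
        - deriv f (sl f y) * (1 / deriv (deriv f) (sl f y)) = sl f y := by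
      rw [deriv_sl hy]; simp only [id]; ring
    rw [← h5, ← h4]
    exact h3
  · intro σ
    unfold lg Xc
    rw [sl_deriv hf]; ring
  · intro σ τ h
    exact tan hf h
  · intro σ
    have h1 := (hd hf σ).sub ((hasDerivAt_id σ).mul (hd2 hf σ).hasDerivAt)
    have h4 : (fun z => f z - id z * deriv f z) = Xc f := by
      funext z; rfl
    have h5 : deriv f σ - (1 * deriv f σ + id σ * deriv (deriv f) σ)
        = -(σ * deriv (deriv f) σ) := by simp only [id]; ring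
    rw [← h5, ← h4]
    exact h1

end Pool.MP671.C3.LEG

namespace Pool.MP671.C3

theorem specLEG : SpecLEG := LEG.specLEG

end Pool.MP671.C3
end

section
/-!
# MP_671ac3_gt, C3: module LN0 (helper74)
-/
namespace Pool.MP671.C3

open MeasureTheory Real Filter Topology

/-- **LN0**: the slopes of the corners of a lens. -/
theorem specLN0 (hLEG : SpecLEG) : SpecLN0 := by
  intro l m hl hm x r s r' s' h
  have hml := (hLEG l hl).1
  have hmm := (hLEG m hm).1
  have h2 : deriv l r + deriv m s = deriv l r' + deriv m s' := by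
    have h3 : (Psi l m r s).2 = (Psi l m r' s').2 := by rw [h.ht, h.hb]
    simp only [Psi] at h3
    linarith
  have htop := h.top
  have hbot := h.bot
  have h4 : r < r' := by
    by_contra hc
    push Not at hc
    have h5 : deriv l r' ≤ deriv l r := hml.monotone hc
    have h6 : deriv m s ≤ deriv m s' := by linarith
    have h7 : s ≤ s' := hmm.le_iff_le.1 h6
    linarith
  refine ⟨h4, ?_⟩
  have h5 : deriv l r < deriv l r' := hml h4
  have h6 : deriv m s' < deriv m s := by linarith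
  exact hmm.lt_iff_lt.1 h6

end Pool.MP671.C3
end
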