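import Pool.Agent.Lib.MP_671ac3_gt.Spec2

/-!
# MP_671ac3_gt : bodies of class C²₊, ALL valuations -- definitions and specifications

`Final3`: `K`, `H` planar convex bodies of class `C²₊`, `φ`, `ψ` any nonzero elements of `Φ²`. If the
covariograms agree, then `H` is a translate of `K` or of `-K`.

General remarks. `l = el h`, `m = em h` are the right and the left support function of the body
`bd h`, as functions of the slope `σ = dx/dy`. The right boundary point with slope `σ` is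
`(Xc l σ, - l' σ)`, the left one is `(- Xc m σ, m' σ)`. At the height `y` the body is the interval
`[L y, R y]`, `L y = lg m y`, `R y = - lg l (-y)`, `L' y = sl m y`, `R' y = sl l (-y)`.
-/

namespace Pool.MP671

open MeasureTheory Real Filter Topology

/-! ## Definitions -/

/-- periodic support functions of class `C²` with positive radius of curvature -/
structure Sm (h : ℝ → ℝ) : Prop where
  c2 : ContDiff ℝ 2 h
  per : ∀ θ, h (θ + 2 * π) = h θ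
  pos : ∀ θ, 0 < h θ + deriv (deriv h) θ

/-- the convex body with the support function `h` -/
def bd (h : ℝ → ℝ) : Set Pl := {z | ∀ θ, z.1 * cos θ + z.2 * sin θ ≤ h θ}

/-- radius of curvature -/
noncomputable def Rc (h : ℝ → ℝ) (θ : ℝ) : ℝ := h θ + deriv (deriv h) θ

/-- boundary point with the outer normal `(cos θ, sin θ)` -/
noncomputable def Pt (h : ℝ → ℝ) (θ : ℝ) : Pl :=
  (h θ * cos θ - deriv h θ * sin θ, h θ * sin θ + deriv h θ * cos θ)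

/-- shift of the angle -/
def sh (h : ℝ → ℝ) (a : ℝ) : ℝ → ℝ := fun θ => h (θ + a)

/-- unit vector -/
noncomputable def vv (a : ℝ) : Pl := (cos a, sin a)

/-- right support function of `bd h`, `σ` the slope `dx/dy` -/
noncomputable def el (h : ℝ → ℝ) : ℝ → ℝ := fun σ => √(1 + σ ^ 2) * h (-arctan σ)

/-- left support function of `bd h` -/
noncomputable def em (h : ℝ → ℝ) : ℝ → ℝ := el (sh h π)

/-- `C²` with positive second derivative -/
structure Cx (f : ℝ → ℝ) : Prop where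
  c2 : ContDiff ℝ 2 f
  pos : ∀ σ, 0 < deriv (deriv f) σ

/-- the tangent of `f` at `σ` is `τ ↦ Xc f σ + τ * f' σ` -/
noncomputable def Xc (f : ℝ → ℝ) (σ : ℝ) : ℝ := f σ - σ * deriv f σ

/-- inverse of the derivative -/
noncomputable def sl (f : ℝ → ℝ) (y : ℝ) : ℝ := Function.invFun (deriv f) y

/-- Legendre transform -/
noncomputable def lg (f : ℝ → ℝ) (y : ℝ) : ℝ := y * sl f y - f (sl f y)

/-- difference of the right boundary point of slope `r` and the left one of slope `s` -/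
noncomputable def Psi (l m : ℝ → ℝ) (r s : ℝ) : Pl := (Xc l r + Xc m s, -(deriv l r + deriv m s))

/-- The lens `K ∩ (K + x)` is bounded by the right arc of `K` with the slopes in `[r,r']` and the left
arc of `K + x` with the slopes in `[s',s]`; `(r,s)` are the slopes at the top corner, `(r',s')` at the
bottom corner. -/
structure Ln (l m : ℝ → ℝ) (x : Pl) (r s r' s' : ℝ) : Prop where
  top : r < s
  bot : s' < r'
  ht : Psi l m r s = x
  hb : Psi l m r' s' = x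

/-- value of the valuation on the lens -/
noncomputable def Va (n : ℝ → ℝ) (α : ℝ) (l m : ℝ → ℝ) (x : Pl) (r s r' s' : ℝ) : ℝ :=
  (∫ σ in r..r', (n σ + α * Xc l σ) * deriv (deriv l) σ)
    + (∫ σ in s'..s, (n σ + α * Xc m σ) * deriv (deriv m) σ)
    + α * x.1 * (deriv l r - deriv l r')

/-- contribution of one corner -/
noncomputable def VV (n : ℝ → ℝ) (α c : ℝ) (l m : ℝ → ℝ) (r s : ℝ) : ℝ :=
  (∫ σ in r..c, (n σ + α * Xc l σ) * deriv (deriv l) σ)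
    + (∫ σ in c..s, (n σ + α * Xc m σ) * deriv (deriv m) σ)
    + α * (Xc l r + Xc m s) * deriv l r

/-- properties of `n = nn φ`, `e = ee φ` -/
structure Nm (n : ℝ → ℝ) (e : ℝ) : Prop where
  e0 : 0 ≤ e
  nn : ∀ x, 0 ≤ n x
  lip : ∀ a b, |n a - n b| ≤ e * |a - b|
  tri : ∀ a b, e * |a - b| ≤ n a + n b

/-- `α` is the coefficient of the area in the formula REP for `φ` -/
def IsAl (φ : Set Pl → ℝ) (α : ℝ) : Prop :=
  ∀ y h a b c d : ℝ, 0 ≤ h → a ≤ c → a + b * h ≤ c + d * h →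
    φ (prof y (y + h) (fun z => a + b * (z - y)) (fun z => c + d * (z - y))) =
      ee φ * ((c - a) + (c + d * h - (a + b * h))) + h * nn φ b + h * nn φ d
        + α * (h * ((c - a) + (c + d * h - (a + b * h))) / 2)

/-- the valuations of the lenses agree -/
def EqV (n : ℝ → ℝ) (α : ℝ) (l m l₂ m₂ : ℝ → ℝ) : Prop :=
  ∀ x r s r' s' t u t' u', Ln l m x r s r' s' → Ln l₂ m₂ x t u t' u' →
    Va n α l m x r s r' s' = Va n α l₂ m₂ x t u t' u'

/-- mirror image of a function -/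
def mi (f : ℝ → ℝ) : ℝ → ℝ := fun σ => f (-σ)

/-! ## A. Curves -/

/-- LEG (100 lines). `f'` is strictly increasing and continuous; (3) intermediate value theorem: the
range contains `(f' (σ-1), f' (σ+1))`; (4) tangents are below a convex function; (5) for `sl`:
`HasStrictDerivAt.to_local_left_inverse`; for `lg`: product rule,
`sl + y sl' - f' (sl) sl' = sl`. -/
def SpecLEG : Prop :=
  ∀ f, Cx f →
    StrictMono (deriv f) ∧
    (∀ σ, sl f (deriv f σ) = σ) ∧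
    (∀ y ∈ Set.range (deriv f), deriv f (sl f y) = y) ∧
    (IsOpen (Set.range (deriv f)) ∧ (Set.range (deriv f)).OrdConnected) ∧
    (∀ y ∈ Set.range (deriv f), ∀ σ, σ * y - f σ ≤ lg f y) ∧
    (∀ y ∈ Set.range (deriv f), HasDerivAt (sl f) (1 / deriv (deriv f) (sl f y)) y ∧
      HasDerivAt (lg f) (sl f y) y) ∧
    (∀ σ, lg f (deriv f σ) = -Xc f σ) ∧
    (∀ σ τ, σ ≠ τ → Xc f σ + τ * deriv f σ < f τ) ∧
    (∀ σ, HasDerivAt (Xc f) (-(σ * deriv (deriv f) σ)) σ)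

/-- SHF (120 lines). Shifts of the angle. `(mul (vv a) z) · u(θ) = z · u(θ - a)`, `u(θ+π) = -u(θ)`,
`u(θ) = (cos θ, sin θ)`. -/
def SpecSHF : Prop :=
  (∀ h a, Sm h → Sm (sh h a) ∧ (∀ θ, deriv (sh h a) θ = deriv h (θ + a)) ∧
    (∀ θ, Rc (sh h a) θ = Rc h (θ + a)) ∧ fr (vv a) (bd h) = bd (sh h a)) ∧
  (∀ h, Sm h → refl (bd h) = bd (sh h π)) ∧
  (∀ h (c : Pl), tr c (bd h) = bd (fun θ => h θ + c.1 * cos θ + c.2 * sin θ)) ∧
  (∀ h, Sm h → (∀ θ, Rc h (θ + 2 * π) = Rc h θ) ∧ Continuous (Rc h)) ∧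
  (∀ h θ, Pt (sh h π) θ = -Pt h (θ + π))

/-- SPT (150 lines). The support function of `bd h` is `h`. (1) `f τ = h τ - Pt h θ · u(τ)` has
`f θ = f' θ = 0`, `f + f'' = h + h'' > 0`. For `τ ∈ (θ, θ+π]`: the function
`g s = f' s * sin (τ - s) + f s * cos (τ - s)` has `g θ = 0`, `g τ = f τ`,
`g' s = (f + f'') s * sin (τ - s) > 0` on `(θ, τ)`, so `f τ > 0`; for `τ ∈ [θ-π, θ)` in the same way;
then periodicity. (2) compact: bounded by the inequalities for `θ = 0, π/2, π, -π/2`. (3) The midpoint `c`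
of `Pt h 0` and `Pt h π` has `h τ - c · u(τ) > 0` for all `τ` (by (1), strict for one of the two points),
so `≥ δ > 0` (continuity, periodicity). (4) `h θ + h (θ+π) > 0` from an interior point. -/
def SpecSPT : Prop :=
  ∀ h, Sm h → (∀ θ, Pt h θ ∈ bd h ∧ (Pt h θ).1 * cos θ + (Pt h θ).2 * sin θ = h θ) ∧
    CC (bd h) ∧ (interior (bd h)).Nonempty ∧ ∀ θ, 0 < h θ + h (θ + π)

/-- FRC (150 lines). `cos (arctan σ) = 1/√(1+σ²)`, `sin (arctan σ) = σ/√(1+σ²)`.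
`l' σ = σ h/√(1+σ²) - h'/√(1+σ²)` at `θ = - arctan σ`. Derivative of `θ ↦ (Pt h θ).2`: `Rc h θ * cos θ`, so
`l'' = Rc h θ cos θ / (1+σ²)`. Range: `θ ↦ (Pt h θ).2` is strictly increasing on `[-π/2, π/2]`, with the
values `-h(-π/2)` and `h(π/2)` at the ends; `-arctan` maps `ℝ` onto `(-π/2, π/2)`. -/
def SpecFRC : Prop :=
  ∀ h, Sm h → Cx (el h) ∧
    (∀ σ, deriv (el h) σ = -(Pt h (-arctan σ)).2 ∧ Xc (el h) σ = (Pt h (-arctan σ)).1 ∧
      deriv (deriv (el h)) σ = Rc h (-arctan σ) / (√(1 + σ ^ 2)) ^ 3) ∧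
    Set.range (deriv (el h)) = Set.Ioo (-h (π / 2)) (h (-(π / 2)))

/-- MEB (150 lines). From LEG, SPT, FRC, SHF. (1), (2): the inequalities for `θ = - arctan σ`,
`θ = π - arctan σ`, `θ = ± π/2`. (3) `⇒`: the inequality for `σ = sl l (-y)`, resp. `σ = sl m y`. `⇐`:
`x ≤ - lg l (-y) ≤ l σ + σ y` for all `σ` by LEG, in the same way `σ y - m σ ≤ x`; every `θ` is, up to a
multiple of `2π`, `±π/2`, `-arctan σ` or `π - arctan σ`. `-y` is in the range of `l'`, `y` in that of `m'`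
(FRC for `h` and `sh h π`). (4) `(Xc l σ, -l' σ) = Pt h (-arctan σ) ∈ bd h` with `σ = sl l (-y)`. -/
def SpecMEB : Prop :=
  ∀ h, Sm h → (∀ z ∈ bd h, ∀ σ, z.1 - σ * z.2 ≤ el h σ ∧ σ * z.2 - z.1 ≤ em h σ) ∧
    (∀ z ∈ bd h, -h (-(π / 2)) ≤ z.2 ∧ z.2 ≤ h (π / 2)) ∧
    (∀ x y, -h (-(π / 2)) < y → y < h (π / 2) →
      ((x, y) ∈ bd h ↔ lg (em h) y ≤ x ∧ x ≤ -lg (el h) (-y))) ∧
    (∀ y, -h (-(π / 2)) < y → y < h (π / 2) → lg (em h) y ≤ -lg (el h) (-y) ∧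
      -y ∈ Set.range (deriv (el h)) ∧ y ∈ Set.range (deriv (em h)))

/-- DIH (60 lines). From SPT. Support function of the difference body at `u(θ)`: `h θ + h (θ+π)`, attained
at `Pt h θ - Pt h (θ+π)`. -/
def SpecDIH : Prop :=
  ∀ h k, Sm h → Sm k → dif (bd h) = dif (bd k) → ∀ θ, h θ + h (θ + π) = k θ + k (θ + π)

/-- UNQ (80 lines). From SHF. `f = k - h` is periodic (not needed) with `f + f'' = 0`, so
`f = a cos + b sin` (`(f' s * cos s + f s * sin s)' = (f''+f) cos s = 0` and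
`(f s * cos s - f' s * sin s)' = 0`). -/
def SpecUNQ : Prop :=
  ∀ h k, Sm h → Sm k → (∀ θ, Rc k θ = Rc h θ) → ∃ t, bd k = tr t (bd h)

/-! ## B. Valuations -/

/-- PHF (200 lines). From SEG (and IsAl). Formula for `C¹` profiles. Let
`F z = φ (prof c z l r) - ee ((r c - l c) + (r z - l z))`, `F c = 0`. Valuation property at the horizontal cut
at `y` (a segment of value `2 ee (r y - l y)`):
`F z - F y = φ (prof y z l r) - ee ((r y - l y) + (r z - l z))` for `c ≤ y ≤ z ≤ d`. With `k = z - y`,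
`b = (l z - l y)/k`, `e = (r z - r y)/k` (chords, `l ≤` chord because `l` is convex):
`prof y z (chords) ⊆ prof y z l r ⊆ prof y z (chord of l - δ) (chord of r + δ)`,
`δ = k * max (b - l' y) (r' y - e)`, because `l v ≥ l y + l' y (v - y)`. IsAl gives both values:
`F z - F y` is between `k (nn b + nn e + α * mean of the widths)` and that `+ (4 ee + 2 α k) δ`. So `F` is
Lipschitz on `[c,d]` (slopes are bounded) and has the right derivative
`f y = nn (l' y) + nn (r' y) + α (r y - l y)` (`b → l' y`, `e → r' y`, `nn` is Lipschitz by NPR); `f` is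
continuous: `intervalIntegral.integral_eq_sub_of_hasDeriv_right`. (`α ≥ 0` by ALF, or use `|α|`.) -/
def SpecPHF : Prop :=
  ∀ φ α, IsPhi φ → IsAl φ α → ∀ (c d : ℝ) (l r l' r' : ℝ → ℝ), c ≤ d →
    (∀ y ∈ Set.Icc c d, HasDerivAt l (l' y) y) → (∀ y ∈ Set.Icc c d, HasDerivAt r (r' y) y) →
    ContinuousOn l' (Set.Icc c d) → ContinuousOn r' (Set.Icc c d) →
    MonotoneOn l' (Set.Icc c d) → AntitoneOn r' (Set.Icc c d) →
    (∀ y ∈ Set.Icc c d, l y ≤ r y) →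
    φ (prof c d l r) = ee φ * ((r c - l c) + (r d - l d))
      + ∫ y in c..d, (nn φ (l' y) + nn φ (r' y) + α * (r y - l y))

/-- ALF (150 lines). From SEG, REP, FRM. (1) `α ≥ 0`: `φ` of the squares of side `λ → ∞` is `≥ 0`. (2) Frames.
`sin a > 0`: the parallelogram `Π = {s (1,0) + t (cos a, sin a)}` is `prof 0 (sin a) (b y) (1 + b y)`,
`b = cos a / sin a`, so `φ Π = 2 nrm (1,0) + 2 nrm (vv a) + α sin a`; `Π - (1,0)` is the image under
`mul (vv a)` of `{s (1,0) + t (- cos a, sin a)}`, so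
`φ Π = 2 nrm (vv a) + 2 nrm (1,0) + α' sin a` with the coefficient `α'` of `frφ (vv a) φ` (exists by REP and
FRM). `sin a < 0`: the same with `-vv a` (`φ` is even). `sin a = 0`: frames `a - 1` and then `1`
(`frφ (vv 1) (frφ (vv (a-1)) φ) = frφ (vv a) φ`, and `sin 1 ≠ 0`, `sin (a-1) ≠ 0`). -/
def SpecALF : Prop :=
  ∀ φ α, IsPhi φ → IsAl φ α → 0 ≤ α ∧ ∀ a, IsAl (frφ (vv a) φ) α

/-! ## C. Lenses -/

/-- LN0 (60 lines). From LEG. `D σ = (Xc l r + σ l' r) - (Xc l r' + σ l' r') = (Xc m s' + σ m' s') -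
(Xc m s + σ m' s)` (because `Psi l m r s = Psi l m r' s'`) is affine, and by LEG (tangents)
`D r ≥ 0`, `D r' ≤ 0`, `D s ≤ 0`, `D s' ≥ 0`, strict if `r ≠ r'`, resp. `s ≠ s'`. If `r = r'` or `s = s'`
then `D = 0`, so `r = r'`, `s = s'`: contradiction to `r < s`, `s' < r'`. If the slope of `D` is positive:
`r' < r < s < s' < r'`: contradiction. So it is negative. -/
def SpecLN0 : Prop :=
  ∀ l m, Cx l → Cx m → ∀ x r s r' s', Ln l m x r s r' s' → r < r' ∧ s' < s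

/-- LNS (150 lines). From LN0, LEG, FRC, MEB, SHF. `l = el h`, `m = em h`, `x = (ξ,t)`, `y₁ = -l' r`,
`y₄ = -l' r'`. (1) For `z` in the intersection: `z.1 - r z.2 ≤ l r` and `s (z.2 - t) - (z.1 - ξ) ≤ m s` (MEB);
add: `(s - r) z.2 ≤ (s - r) y₁` (use `Psi l m r s = x`). So `z.2 ≤ y₁`; in the same way `y₄ ≤ z.2`.
(2) `-y₁, -y₄ ∈ range l'`, `y₁ - t = m' s`, `y₄ - t = m' s'` are in the range of `m'`. (3) For `y ∈ [y₄, y₁]`
use MEB for `z` and for `z - x`. (4) It remains to show `L y ≤ L (y-t) + ξ`, `R y ≤ R (y-t) + ξ` on `[y₄,y₁]`.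
The derivative of `L (y-t) + ξ - L y` is `sl m (y-t) - sl m y`, of constant sign, so the difference is
monotone or antitone on `[y₄,y₁]`, and at `y₁` and `y₄` it is `R - L ≥ 0` (because
`R y₁ = Xc l r = ξ - Xc m s = L (y₁-t) + ξ`, LEG). The same for `R (y-t) + ξ - R y`. -/
def SpecLNS : Prop :=
  ∀ h, Sm h → ∀ x r s r' s', Ln (el h) (em h) x r s r' s' →
    bd h ∩ tr x (bd h) = prof (-deriv (el h) r') (-deriv (el h) r)
      (fun y => lg (em h) (y - x.2) + x.1) (fun y => -lg (el h) (-y))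

/-- CVY (80 lines). From LNS, LN0, PHF, LEG, FRC, MEB, SHF. The widths at the ends are `0`. -/
def SpecCVY : Prop :=
  ∀ h φ α, Sm h → IsPhi φ → IsAl φ α → ∀ x r s r' s', Ln (el h) (em h) x r s r' s' →
    cov φ (bd h) x = ∫ y in (-deriv (el h) r')..(-deriv (el h) r),
      (nn φ (sl (em h) (y - x.2)) + nn φ (sl (el h) (-y))
        + α * (-lg (el h) (-y) - lg (em h) (y - x.2) - x.1))

/-- CVS (120 lines). From CVY, LEG, FRC, SHF, NPR (continuity of `nn φ`). Change of variables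
`y = -l' σ` (`sl l (-y) = σ`, `-lg l (-y) = Xc l σ`), `y - t = m' σ` (`lg m (y-t) = - Xc m σ`). -/
def SpecCVS : Prop :=
  ∀ h φ α, Sm h → IsPhi φ → IsAl φ α → ∀ x r s r' s', Ln (el h) (em h) x r s r' s' →
    cov φ (bd h) x = Va (nn φ) α (el h) (em h) x r s r' s'

/-! ## D. The behaviour at the origin and at the boundary of the difference body -/

/-- TOP (100 lines). From LEG, FRC, SHF. `R y - L y`, `y → b = h (π/2)`. `-y ∈ range l' = (-b, -a)`, `l'` strictly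
increasing, so `sl l (-y) → -∞`; in the same way `sl m y → ∞`. `R y = Xc l σ = (Pt h (-arctan σ)).1`,
`σ = sl l (-y)`, tends to `(Pt h (π/2)).1`; `L y = - Xc m σ = (Pt h (π - arctan σ)).1`, `σ = sl m y → ∞`,
tends to the same point. -/
def SpecTOP : Prop :=
  ∀ h, Sm h →
    (∀ M, ∃ y₀, -h (-(π / 2)) < y₀ ∧ y₀ < h (π / 2) ∧ ∀ y, y₀ < y → y < h (π / 2) →
      sl (el h) (-y) < -M ∧ M < sl (em h) y) ∧
    Tendsto (fun y => -lg (el h) (-y) - lg (em h) y) (𝓝[<] (h (π / 2))) (𝓝 0)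

/-- EXO (250 lines). From TOP (for `h`, and for `sh h π` = reflected body: bottom), CVY, PHF, MEB, SPT, LEG,
FRC, SHF, SEG. `W = R - L` on `(a,b)`, `a = -h(-π/2)`, `b = h(π/2)`. Fix `M > 0`. For small `ξ > 0` there are
`y₄ < y₁`, close to `a` and `b`, with `W y₁ = ξ = W y₄`, `R' y₁ < -M`, `L' y₁ > M`, etc. (intermediate value
theorem); `W' < -2M` on `(y₀,b)` and `W → 0` give `W y ≥ 2 M (b - y)`, so `b - y₁ ≤ ξ/(2M)`; the same for
`y₄ - a`. These are the corners of the lens at `(ξ,0)`: `r = sl l (-y₁)`, `s = sl m y₁`, etc. CVY: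
`cov (ξ,0) = ∫ (nn + nn + α (W - ξ))`; PHF: `φ (bd h ∩ {y₄ ≤ y ≤ y₁}) = 2 ee ξ + ∫ (nn + nn + α W)`. So the
difference is `2 ee ξ + α ξ (y₁ - y₄)`. Caps: `bd h ∩ {y₁ ≤ y}` is contained in the rectangle
`[L y₁, R y₁] × [y₁, b]` (`z.1 ≤ R y₁ + r (z.2 - y₁)`, `r < 0`), so its value is
`≤ 2 ee ξ + (b - y₁) (2 nn 0 + α ξ)`, and by the valuation property
`0 ≤ φ (bd h) - φ (bd h ∩ {y ≤ y₁}) ≤ (b - y₁) (2 nn 0 + α ξ)`; the same at the bottom. So
`(φ (bd h) - cov (ξ,0))/ξ` is between `2 ee + α (y₁ - y₄)` and that `+ (2 nn 0 + α ξ)/M`. -/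
def SpecEXO : Prop :=
  ∀ h φ α, Sm h → IsPhi φ → IsAl φ α →
    Tendsto (fun ξ => (φ (bd h) - cov φ (bd h) (ξ, 0)) / ξ) (𝓝[>] 0)
      (𝓝 (2 * ee φ + α * (h (π / 2) + h (-(π / 2)))))

/-- THE (200 lines). Pure analysis. `E' y = -c (y - y₀) + o(y - y₀)`, so (mean value inequality) for every
`η ∈ (0, c/2)` there is `δ` with `|E y + (c/2) (y-y₀)²| ≤ η (y-y₀)²` for `|y - y₀| < δ`. `E` is strictly
increasing on `(y₀-ρ, y₀]`, strictly decreasing on `[y₀, y₀+ρ)`. For small `ε` let `y₁ ε > y₀ > y₄ ε` be the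
points with `E = -ε`. Then `(c/2 - η) (y₁-y₀)² ≤ ε ≤ (c/2 + η) (y₁-y₀)²`, etc. The integral of `E + ε`:
`∫ (ε - (c/2) (y-y₀)²)` over `[y₄,y₁]`, up to `η ∫ (y-y₀)²`. -/
def SpecTHE : Prop :=
  ∀ (E E' : ℝ → ℝ) (y₀ c ρ : ℝ), 0 < c → 0 < ρ → E y₀ = 0 → E' y₀ = 0 →
    (∀ y ∈ Set.Ioo (y₀ - ρ) (y₀ + ρ), HasDerivAt E (E' y) y) →
    StrictAntiOn E' (Set.Ioo (y₀ - ρ) (y₀ + ρ)) → HasDerivAt E' (-c) y₀ →
    ∃ y₁ y₄ : ℝ → ℝ, (∀ᶠ ε in 𝓝[>] 0, y₀ - ρ < y₄ ε ∧ y₄ ε < y₀ ∧ y₀ < y₁ ε ∧ y₁ ε < y₀ + ρ ∧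
        E (y₁ ε) = -ε ∧ E (y₄ ε) = -ε) ∧
      Tendsto y₁ (𝓝[>] 0) (𝓝 y₀) ∧ Tendsto y₄ (𝓝[>] 0) (𝓝 y₀) ∧
      Tendsto (fun ε => (y₁ ε - y₄ ε) ^ 2 / ε) (𝓝[>] 0) (𝓝 (8 / c)) ∧
      Tendsto (fun ε => (∫ y in (y₄ ε)..(y₁ ε), (E y + ε)) / (ε * (y₁ ε - y₄ ε))) (𝓝[>] 0)
        (𝓝 (2 / 3))

/-- THN (200 lines). From THE, CVY, LEG, FRC, SHF, NPR. `l = el h`, `m = em h`, `t = h' 0 + h' π`,
`y₀ = h' 0 = - l' 0`, `y₀ - t = m' 0 = - h' π`, `E y = - lg l (-y) - lg m (y-t) - h 0 - h π` (`l 0 = h 0`,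
`m 0 = h π`), `E' y = sl l (-y) - sl m (y-t)`, `E' y₀ = 0`, `E'' y₀ = -c`, `c = 1/l''(0) + 1/m''(0) =
1/Rc 0 + 1/Rc π` (LEG, FRC). With `y₁`, `y₄` from THE: the lens at `(h 0 + h π - ε, t)` has the corners
`r = sl l (-y₁)`, `s = sl m (y₁-t)`, `r' = sl l (-y₄)`, `s' = sl m (y₄-t)` (`r < s` because `E' y₁ < 0`;
`Xc l r = -lg l (-y₁)`, etc.). CVY: `cov = ∫ y in y₄..y₁, (nn (..) + nn (..) + α (E y + ε))`. So
`cov / (y₁ - y₄) → 2 nn 0` (`nn` is continuous; `0 ≤ E + ε ≤ ε`), and if `nn = 0`: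
`cov / (ε (y₁ - y₄)) → 2 α / 3`. -/
def SpecTHN : Prop :=
  ∀ h φ α, Sm h → IsPhi φ → IsAl φ α →
    Tendsto (fun ε => (cov φ (bd h) (h 0 + h π - ε, deriv h 0 + deriv h π)) ^ 2 / ε) (𝓝[>] 0)
      (𝓝 (32 * (nn φ 0) ^ 2 * (Rc h 0 * Rc h π / (Rc h 0 + Rc h π)))) ∧
    ((∀ x, nn φ x = 0) →
      Tendsto (fun ε => (cov φ (bd h) (h 0 + h π - ε, deriv h 0 + deriv h π)) ^ 2 / ε ^ 3)
        (𝓝[>] 0) (𝓝 (32 / 9 * α ^ 2 * (Rc h 0 * Rc h π / (Rc h 0 + Rc h π)))))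

/-- CCC (80 lines). Suppose `β < α`. Then `N' > N` everywhere, so `N' > 0`, `N > 0` (product),
`R θ R (θ+π) > R' θ R' (θ+π)`, and the sums agree, so `R' θ ≠ R' (θ+π)` for all `θ`; but
`R' θ - R' (θ+π)` is continuous and changes sign under `θ ↦ θ+π`. In the same way `α < β` is impossible
(the hypotheses are symmetric). Then `N = N'`; if `N θ ≠ 0`: sums and products agree. -/
def SpecCCC : Prop :=
  ∀ (N N' R R' w : ℝ → ℝ) (α β : ℝ), (∀ θ, 0 ≤ N θ) → (∀ θ, 0 ≤ N' θ) → (∀ θ, 0 < R θ) →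
    (∀ θ, 0 < R' θ) → (∀ θ, 0 < w θ) → Continuous R → Continuous R' →
    (∀ θ, R (θ + 2 * π) = R θ) → (∀ θ, R' (θ + 2 * π) = R' θ) →
    (∀ θ, R θ + R (θ + π) = R' θ + R' (θ + π)) →
    (∀ θ, 2 * N θ + α * w θ = 2 * N' θ + β * w θ) →
    (∀ θ, N θ ^ 2 * (R θ * R (θ + π)) = N' θ ^ 2 * (R' θ * R' (θ + π))) →
    α = β ∧ (∀ θ, N θ = N' θ) ∧ ∀ θ, N θ ≠ 0 → R' θ = R θ ∨ R' θ = R (θ + π)

/-- STC (200 lines). From EXO, THN, CCC, ALF, FRM, SHF, SPT, SP2, DIH, SEG, NUL. (1) SP2 and DIH: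
`h θ + h (θ+π) = k θ + k (θ+π)`; differentiate: `Rc h θ + Rc h (θ+π) = Rc k θ + Rc k (θ+π)`. (2) In the frame
`vv a`: the bodies `bd (sh h a)`, `bd (sh k a)` (SHF), the valuations `frφ (vv a) φ`, `frφ (vv a) ψ` with the
coefficients `α`, `β` (ALF), and the covariograms agree (FRM). EXO (`φ (bd h) = cov φ (bd h) 0`), uniqueness
of limits: `2 nrm φ (vv a) + α w = 2 nrm ψ (vv a) + β w`, `w = h (a+π/2) + h (a-π/2)`
(`ee (frφ v φ) = nrm φ v`). THN: `nn (frφ (vv a) φ) 0 = nrm φ (mul (vv a) (0,1)) = nrm φ (vv (a+π/2))`. With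
`N θ = nrm φ (vv (θ+π/2))`, `R = Rc h`, etc. the hypotheses of CCC hold. (3) `nrm` is homogeneous. (4) Last
claim: if `N θ = 0` for all `θ` then `nn (frφ (vv a) φ) = 0` for all `a`, `α > 0` (positivity of `φ` on
squares), and the second part of THN gives the products. Otherwise `N θ > 0` for a dense set of `θ`
(two independent null directions give `N = 0` by the triangle inequality); the claim is closed. -/
def SpecSTC : Prop :=
  ∀ h k φ ψ α β, Sm h → Sm k → IsPhi φ → IsPhi ψ → IsAl φ α → IsAl ψ β →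
    (∀ A, CC A → (interior A).Nonempty → 0 < φ A) →
    (∀ A, CC A → (interior A).Nonempty → 0 < ψ A) →
    (∀ x, cov φ (bd h) x = cov ψ (bd k) x) →
    α = β ∧ (∀ v, nrm φ v = nrm ψ v) ∧ (∀ θ, h θ + h (θ + π) = k θ + k (θ + π)) ∧
      ∀ θ, Rc k θ = Rc h θ ∨ Rc k θ = Rc h (θ + π)

/-! ## E. Crossing lenses -/

/-- EXL (100 lines). Pure analysis. Let `η > 0` be small. `Q M = A (η + M) - A η - B M`, `Q 0 = 0`,
`Q' M = p (η + M) - q M < 0` for `M ∈ [0,M₁]` (there `q M = p M`), so for `M ∈ [0, M₁ + δ']` (continuity at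
`M₁`), hence `Q M < 0` for `0 < M ≤ M₁ + δ'`. The same with `A`, `B` exchanged. Choose
`M ∈ (M₁, M₁ + min δ δ')` with `A M ≠ B M`, say `A M > B M`: `κ ↦ A (κ + M) - A κ - B M` is positive at `0`,
negative at `η`. -/
def SpecEXL : Prop :=
  ∀ (A B p q : ℝ → ℝ) (c M₁ : ℝ), 0 ≤ M₁ → M₁ < c → A 0 = 0 → B 0 = 0 →
    (∀ u ∈ Set.Ico 0 c, HasDerivAt A (p u) u) → (∀ u ∈ Set.Ico 0 c, HasDerivAt B (q u) u) →
    StrictAntiOn p (Set.Ico 0 c) → StrictAntiOn q (Set.Ico 0 c) →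
    ContinuousOn p (Set.Ico 0 c) → ContinuousOn q (Set.Ico 0 c) →
    (∀ u ∈ Set.Icc 0 M₁, p u = q u) →
    (∀ δ > 0, ∃ M, M₁ < M ∧ M < M₁ + δ ∧ M < c ∧ A M ≠ B M) →
    ∀ δ > 0, ∃ M κ, M₁ < M ∧ M < M₁ + δ ∧ 0 < κ ∧ κ < δ ∧ κ + M < c ∧
      (A (κ + M) - A κ = B M ∨ B (κ + M) - B κ = A M)

/-- BRG (200 lines). From EXL, LEG. `p u = sl l (l' b - u)`, `A u = Xc l (p u) - Xc l b`,
`q u = sl m (m' b - u)`, `B u = Xc m (q u) - Xc m b` for `0 ≤ u < c`, `c = min (l' b - l' a) (m' b - m' a)`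
(so `l' (p u) = l' b - u`, `p u > a`). `A' = p`, because `Xc l (p u) = - lg l (l' b - u)`.
`M₁ = l' b - l' z = m' b - m' z` (if `z < b`, `l'' = m''` on `[z,b]` by continuity; `z = b` is allowed,
`M₁ = 0`), `p = q` on `[0,M₁]`, `p M₁ = z`. If `A = B` on `[M₁, M₁+δ)` then `p = q` there
(derivatives), so `l' b - l' σ = m' b - m' σ` for `σ ∈ (z-δ', z]` and `l'' = m''` there: contradiction. So
EXL applies. If `A (κ+M) - A κ = B M`: type (i) lens for `(l,m)`, `r = p (κ+M)`, `s = b`, `r' = p κ`,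
`s' = q M`. `s' < r'`: otherwise `A (κ+M) - A κ < M p κ ≤ M q M < B M`. Otherwise the same for `(m,l)`. `κ` and
`M - M₁` are small, so `r` is close to `z` (continuity of `p` at `M₁`). -/
def SpecBRG : Prop :=
  ∀ l m, Cx l → Cx m → ∀ a b z, a < z → z ≤ b →
    (∀ σ ∈ Set.Ioo z b, deriv (deriv l) σ = deriv (deriv m) σ) →
    (∀ δ > 0, ∃ σ ∈ Set.Ioo (z - δ) z, deriv (deriv l) σ ≠ deriv (deriv m) σ) →
    ∀ δ > 0, ∃ x r r' s', (Ln l m x r b r' s' ∨ Ln m l x r b r' s') ∧ a < r ∧ |r - z| < δ ∧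
      a < r' ∧ r' < b ∧ a < s' ∧ s' < b

/-- INV (150 lines). Inverse function theorem for `z ↦ Psi l m z.1 z.2`, which is `C¹` (`l'`, `m'`, `Xc l`,
`Xc m` are) with the derivative matrix `((-r l'' r, -s m'' s), (-l'' r, -m'' s))`, determinant
`l'' r m'' s (r - s) ≠ 0`. Shrink the source of the local homeomorphism to `W ∩ {z.1 ≠ z.2}`;
differentiability of the inverse at all points of `V`: `HasFDerivAt.of_local_left_inverse`. -/
def SpecINV : Prop :=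
  ∀ l m, Cx l → Cx m → ∀ r₀ s₀, r₀ ≠ s₀ → ∀ W : Set Pl, IsOpen W → (r₀, s₀) ∈ W →
    ∃ (U V : Set Pl) (g : Pl → Pl), IsOpen U ∧ IsOpen V ∧ U ⊆ W ∧ (r₀, s₀) ∈ U ∧
      (∀ z ∈ U, Psi l m z.1 z.2 ∈ V ∧ g (Psi l m z.1 z.2) = z) ∧
      ∀ x ∈ V, g x ∈ U ∧ Psi l m (g x).1 (g x).2 = x ∧ DifferentiableAt ℝ g x

/-- VAV (80 lines). (1) `Va` is the difference of the contributions of the corners. (2) `VV` is
differentiable (in each term at most one variable in the integral; the integrands are continuous).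
(3) exchange of `l` and `m`: `Psi m l s r = Psi l m r s`; for `Va` use `l' r + m' s = l' r' + m' s'`. -/
def SpecVAV : Prop :=
  (∀ n α c l m, Continuous n → Cx l → Cx m → ∀ x r s r' s', Ln l m x r s r' s' →
    Va n α l m x r s r' s' = VV n α c l m r s - VV n α c l m r' s') ∧
  (∀ n α c l m, Continuous n → Cx l → Cx m →
    Differentiable ℝ (fun z : Pl => VV n α c l m z.1 z.2)) ∧
  (∀ l m x r s r' s', Ln l m x r s r' s' → Ln m l x s' r' s r ∧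
    ∀ n α, Va n α m l x s' r' s r = Va n α l m x r s r' s')

/-- CEQ (120 lines). From LEG (derivative of `Xc`). Corner equations. `P = p (1,0)`, `Q = p (0,1)`. Along
`r ↦ (r, s)`: the derivative of `Psi` is `-l'' r (r, 1)`, that of `VV` is
`l'' r (- n r - α r l' r + α Xc m s)`. Along `s ↦ (r, s)`: `-m'' s (s, 1)` and
`m'' s (n s + α Xc m s - α s l' r)`. Use `Xc m s = (Psi l m r s).1 - Xc l r`, `Xc l r + r l' r = l r`. -/
def SpecCEQ : Prop :=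
  ∀ n α c l m, Continuous n → Cx l → Cx m → ∀ (r s : ℝ) (G : Pl → ℝ) (p : Pl →L[ℝ] ℝ),
    (∀ᶠ z : Pl in 𝓝 (r, s), VV n α c l m z.1 z.2 = G (Psi l m z.1 z.2)) →
    HasFDerivAt G p (Psi l m r s) →
    r * p (1, 0) + p (0, 1) = n r + α * (l r - (Psi l m r s).1) ∧
    s * p (1, 0) + p (0, 1) = -n s + α * (l r + deriv l r * (s - r) - (Psi l m r s).1)

/-- LSX (80 lines). From LEG (tangents). Suppose `r' < r`. `q σ = σ P + Q + α x - α (l r' + l' r' (σ - r'))` is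
affine, `q r' = n r'`, `q s' = - n s'`, so its slope is `-e'`, `e' = (n r' + n s')/(s' - r') ≥ e`, and
`q r = n r + α (l r - l r' - l' r' (r - r'))`. So
`n r' - n r = e' (r - r') + α (l r - l r' - l' r' (r - r'))`, the last bracket is `> 0`, and
`n r' - n r ≤ e (r - r')`. So `e' = e` and `α = 0`: contradiction. The case `r < r'` is symmetric. -/
def SpecLSX : Prop :=
  ∀ n e α l, Nm n e → 0 ≤ α → Cx l → ∀ r s r' s' P Q x : ℝ, r < s → r' < s' →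
    (0 < α ∨ e * (s - r) < n r + n s) → (0 < α ∨ e * (s' - r') < n r' + n s') →
    r * P + Q = n r + α * (l r - x) →
    s * P + Q = -n s + α * (l r + deriv l r * (s - r) - x) →
    r' * P + Q = n r' + α * (l r' - x) →
    s' * P + Q = -n s' + α * (l r' + deriv l r' * (s' - r') - x) → r = r'

/-- CRS (250 lines). From INV, VAV, CEQ, LSX, LEG. `W₁ = {z | z.1 ∈ (a,b), z.1 < z.2, 0 < α ∨
e (z.2 - z.1) < n z.1 + n z.2}` (open), `W₃ = {z | z.1, z.2 ∈ (a,b), z.2 < z.1}`. INV for `(l,m)` at `(r,b)` in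
`W₁`: `U₁, V₁, g₁`; for `(l₂,m₂)` at `(r,b)` in `W₁`: `U₂, V₂, g₂` (the derivatives of `l`, `l₂`, and of `m`, `m₂`
agree on `[a,b]`, at the ends by continuity, so `Psi l₂ m₂ r b = x`); for `(l,m)` at `(r',s')` in `W₃`:
`U₃, V₃, g₃`. `O = V₁ ∩ V₂ ∩ V₃`. For `y ∈ O`: `Ln l m y (g₁ y) (g₃ y)` and `Ln l₂ m₂ y (g₂ y) (g₃ y)`, so by EqV and
VAV (`c = r'`; `VV` is the same for both at `g₃ y`, the integrals stay in `(a,b)`)
`VV l m (g₁ y) = VV l₂ m₂ (g₂ y)`. `G y = VV l m (g₁ y)` is differentiable in `O`. CEQ at `g₁ y` (for `z ∈ U₁`: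
`G (Psi l m z) = VV l m z`) and at `g₂ y` (for `z ∈ U₂`, `Psi l₂ m₂ z ∈ O`: `VV l₂ m₂ z = G (Psi l₂ m₂ z)`), then
LSX: `(g₁ y).1 = (g₂ y).1` for all `y ∈ O`. For `σ` close to `b` let `y = Psi l m r σ ∈ O`, `g₁ y = (r,σ)`,
`g₂ y = (r, τ)`: `Xc m₂ τ = Xc m σ`, `m₂' τ = m' σ`, so `m₂ σ ≥ Xc m₂ τ + σ m₂' τ = m σ` (tangent). With
`y = Psi l₂ m₂ r σ` in the same way `m σ ≥ m₂ σ`. -/
def SpecCRS : Prop :=
  ∀ n e α l m l₂ m₂, Nm n e → 0 ≤ α → Cx l → Cx m → Cx l₂ → Cx m₂ → EqV n α l m l₂ m₂ →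
    ∀ a b, a < b → (∀ σ ∈ Set.Icc a b, l₂ σ = l σ ∧ m₂ σ = m σ) →
    ∀ x r r' s', Ln l m x r b r' s' → a < r → a < r' → r' < b → a < s' → s' < b →
    (0 < α ∨ e * (b - r) < n r + n b) → ∃ δ > 0, ∀ σ ∈ Set.Ioo (b - δ) (b + δ), m₂ σ = m σ

/-- EDG (100 lines). From BRG, CRS, VAV. By continuity of `n` the last hypothesis holds with `r` in place of
`z` for `r` close to `z`. BRG gives a lens of type (i) for `(l,m)` or for `(m,l)`; apply CRS to `(l,m,l₂,m₂)`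
or `(m,l,m₂,l₂)` (`EqV` for the exchanged functions by VAV). Since `l + m = l₂ + m₂`, `l₂ = l` near `b`; take
second derivatives. -/
def SpecEDG : Prop :=
  ∀ n e α l m l₂ m₂, Nm n e → 0 ≤ α → Cx l → Cx m → Cx l₂ → Cx m₂ → EqV n α l m l₂ m₂ →
    (∀ σ, l σ + m σ = l₂ σ + m₂ σ) →
    ∀ a b z, a < b → (∀ σ ∈ Set.Icc a b, l₂ σ = l σ ∧ m₂ σ = m σ) → a < z → z ≤ b →
    (∀ σ ∈ Set.Ioo z b, deriv (deriv l) σ = deriv (deriv m) σ) →
    (∀ δ > 0, ∃ σ ∈ Set.Ioo (z - δ) z, deriv (deriv l) σ ≠ deriv (deriv m) σ) →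
    (0 < α ∨ e * (b - z) < n z + n b) →
    ∃ δ > 0, ∀ σ ∈ Set.Ioo b (b + δ), deriv (deriv l₂) σ = deriv (deriv l) σ

/-- MIQ (150 lines). (1) mirror images `σ ↦ -σ`: `Xc (mi f) σ = Xc f (-σ)`, `(mi f)' σ = - f' (-σ)`, a lens of
`(mi l, mi m)` at `(ξ,t)` with the corners `(r,s), (r',s')` is a lens of `(l,m)` at `(ξ,-t)` with the corners
`(-r',-s'), (-r,-s)`, with the same `Va` (substitution `σ ↦ -σ`). (2) translations: subtract `c₀ + c₁ σ` from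
`l₂` and add it to `m₂`: `Psi` does not change; the change of `Va` is
`α c₀ (-(l₂' r' - l₂' r) + (m₂' s - m₂' s')) = 0`. -/
def SpecMIQ : Prop :=
  (∀ f, Cx f → Cx (mi f) ∧ (∀ σ, deriv (deriv (mi f)) σ = deriv (deriv f) (-σ))) ∧
  (∀ n e, Nm n e → Nm (mi n) e) ∧
  (∀ n α l m l₂ m₂, EqV n α l m l₂ m₂ → EqV (mi n) α (mi l) (mi m) (mi l₂) (mi m₂)) ∧
  (∀ n α l m l₂ m₂ c₀ c₁, Continuous n → Cx l₂ → Cx m₂ → EqV n α l m l₂ m₂ →
    Cx (fun σ => l₂ σ - (c₀ + c₁ * σ)) ∧ Cx (fun σ => m₂ σ + (c₀ + c₁ * σ)) ∧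
    EqV n α l m (fun σ => l₂ σ - (c₀ + c₁ * σ)) (fun σ => m₂ σ + (c₀ + c₁ * σ)))

/-- CRX (200 lines). From EDG, MIQ. (1) On `[a,b]` `l₂ - l` has second derivative `0`, so it is
`c₀ + c₁ σ`; by MIQ (2) we may assume `l₂ = l` and (sums) `m₂ = m` on `[a,b]`. (2) Let `σ₁ ∈ (a,b)`,
`l'' σ₁ ≠ m'' σ₁`, `z₁` the infimum of the `z ∈ [a,b]` with `l'' = m''` on `(z,b)`, `z₂` the supremum of the
`z ∈ [a,b]` with `l'' = m''` on `(a,z)`. The set `l'' ≠ m''` is open, so `a ≤ z₂ < σ₁ < z₁ ≤ b`; there are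
points with `l'' ≠ m''` just to the left of `z₁` (otherwise `z₁` could be made smaller; continuity at
`z₁`), and just to the right of `z₂`. (3) If `0 < α` or `e (b - z₁) < n z₁ + n b`: EDG, first alternative. If `0 < α` or
`e (z₂ - a) < n z₂ + n a`: EDG for the mirror images at `-a`, second alternative. (4) Otherwise `α = 0`,
`n z₁ + n b = e (b - z₁)`, `n z₂ + n a = e (z₂ - a)`. By `tri` (for `z₂`, `b`) and `lip`:
`n z₂ = n z₁ + e (z₁ - z₂)`, by `tri` (for `a`, `z₁`) and `lip`: `n z₁ = n z₂ + e (z₁ - z₂)`. So `e = 0`; then `n` is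
constant, `2 n z₁ = 0`, so `n = 0`: contradiction. -/
def SpecCRX : Prop :=
  ∀ n e α l m l₂ m₂, Nm n e → 0 ≤ α → (0 < α ∨ ∃ x, 0 < n x) → Cx l → Cx m → Cx l₂ → Cx m₂ →
    EqV n α l m l₂ m₂ → (∀ σ, l σ + m σ = l₂ σ + m₂ σ) →
    ∀ a b, a < b → (∀ σ ∈ Set.Icc a b, deriv (deriv l₂) σ = deriv (deriv l) σ) →
    (∃ σ ∈ Set.Ioo a b, deriv (deriv l) σ ≠ deriv (deriv m) σ) →
    (∃ δ > 0, ∀ σ ∈ Set.Ioo b (b + δ), deriv (deriv l₂) σ = deriv (deriv l) σ) ∨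
    (∃ δ > 0, ∀ σ ∈ Set.Ioo (a - δ) a, deriv (deriv l₂) σ = deriv (deriv l) σ)

/-- MXI (60 lines). A maximal interval of a closed set around an interior point. -/
def SpecMXI : Prop :=
  ∀ (S : Set ℝ) (σ A B : ℝ), IsClosed S → S ∈ 𝓝 σ → A ∉ S → B ∉ S → A < σ → σ < B →
    ∃ a b, a < σ ∧ σ < b ∧ Set.Icc a b ⊆ S ∧ ¬ (∃ δ > 0, Set.Ioo b (b + δ) ⊆ S) ∧
      ¬ (∃ δ > 0, Set.Ioo (a - δ) a ⊆ S)

/-! ## F. The theorem -/

/-- The theorem. -/
def Final3 : Prop :=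
  ∀ (h k : ℝ → ℝ) (φ ψ : Set Pl → ℝ), Sm h → Sm k → IsPhi φ → IsPhi ψ → (∃ A, CC A ∧ φ A ≠ 0) →
    (∃ A, CC A ∧ ψ A ≠ 0) → (∀ x, cov φ (bd h) x = cov ψ (bd k) x) →
    ∃ t, bd k = tr t (bd h) ∨ bd k = tr t (refl (bd h))

/-- FIN (200 lines). NZB, SP2 (positivity), REP (`∃ α, IsAl φ α`), STC: `α = β`, the norms agree, the sums
agree, `Rc k θ ∈ {Rc h θ, Rc h (θ+π)}`. (1) If `Rc k = Rc h`: UNQ. If `Rc k θ = Rc h (θ+π)` for all `θ`: UNQ
for `sh h π`, SHF. (2) Otherwise there are `θ₀` with `Rc k θ₀ ≠ Rc h θ₀` and `θ₁` with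
`Rc k θ₁ ≠ Rc h (θ₁+π)`, so `Rc k θ₁ = Rc h θ₁ ≠ Rc h (θ₁+π)`. All these conditions have the period `π`
(sums). Frame `vv a`, `a = θ₀ - π/2`: bodies `bd (sh h a)`, `bd (sh k a)`; `l = el (sh h a)`, etc.,
`n = nn (frφ (vv a) φ) = nn (frφ (vv a) ψ)`; EqV by CVS (covariograms agree, FRM, SHF, ALF); `Nm` by NPR, NLA;
`0 < α ∨ ∃ x, 0 < n x` because `φ` is positive on squares. `l + m = l₂ + m₂`. `S = {σ | l₂'' σ = l'' σ}` is
closed; `l'' σ = Rc h (a - arctan σ)/(..)³`, so `S` is bounded (near `σ = ±∞` the angle is close to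
`θ₀ - π` or `θ₀`, where `Rc k ≠ Rc h`), and contains a neighbourhood of the `σ₁` with
`θ₁ ≡ a - arctan σ₁ mod π` (`θ₁ ≢ θ₀`), where `l'' σ₁ ≠ m'' σ₁` (and near `σ₁` too). MXI, CRX:
contradiction. -/
def SpecFIN : Prop := Final3

end Pool.MP671
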