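import Pool.Agent.Lib.MP_671ac3_gt.SP2
import Pool.Agent.Lib.MP_671ac3_gt.C3.Spec

/-!
# MP_671ac3_gt, C3, module PHF (helper9): the value of a valuation on a set between `C¹` profiles
-/

set_option autoImplicit false

namespace Pool.MP671.C3

open MeasureTheory Real Filter Topology

namespace PHF

/-- facts on a function with a monotone derivative -/
lemma slope_mem {c d : ℝ} {g g' : ℝ → ℝ} (hg : ∀ y ∈ Set.Icc c d, HasDerivAt g (g' y) y)
    (hm : MonotoneOn g' (Set.Icc c d)) {y z : ℝ} (hy : c ≤ y) (hyz : y < z) (hz : z ≤ d) :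
    ∃ ξ, y < ξ ∧ ξ < z ∧ g z - g y = g' ξ * (z - y) ∧ g' y ≤ g' ξ ∧ g' ξ ≤ g' z := by
  obtain ⟨ξ, hξ, h⟩ := exists_hasDerivAt_eq_slope g g' hyz
    (fun v hv => (hg v ⟨hy.trans hv.1, hv.2.trans hz⟩).continuousAt.continuousWithinAt)
    (fun v hv => hg v ⟨hy.trans hv.1.le, hv.2.le.trans hz⟩)
  have hne : z - y ≠ 0 := by linarith
  refine ⟨ξ, hξ.1, hξ.2, ?_, ?_, ?_⟩
  · rw [h]
    field_simp
  · exact hm ⟨hy, by linarith [hξ.1, hξ.2]⟩ ⟨by linarith [hξ.1], by linarith [hξ.2]⟩ hξ.1.le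
  · exact hm ⟨by linarith [hξ.1], by linarith [hξ.2]⟩ ⟨by linarith, hz⟩ hξ.2.le

lemma tangent {c d : ℝ} {g g' : ℝ → ℝ} (hg : ∀ y ∈ Set.Icc c d, HasDerivAt g (g' y) y)
    (hm : MonotoneOn g' (Set.Icc c d)) {y v : ℝ} (hy : c ≤ y) (hyv : y ≤ v) (hv : v ≤ d) :
    g y + g' y * (v - y) ≤ g v := by
  rcases eq_or_lt_of_le hyv with h | h
  · rw [h]
    simp
  · obtain ⟨ξ, _, _, h1, h2, _⟩ := slope_mem hg hm hy h hv
    have h3 := mul_le_mul_of_nonneg_right h2 (by linarith : 0 ≤ v - y)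
    linarith

lemma cvx {c d : ℝ} {g g' : ℝ → ℝ} (hg : ∀ y ∈ Set.Icc c d, HasDerivAt g (g' y) y)
    (hm : MonotoneOn g' (Set.Icc c d)) : ConvexOn ℝ (Set.Icc c d) g := by
  refine MonotoneOn.convexOn_of_deriv (convex_Icc c d)
    (fun v hv => (hg v hv).continuousAt.continuousWithinAt) ?_ ?_
  · intro v hv
    rw [interior_Icc] at hv
    exact (hg v (Set.Ioo_subset_Icc_self hv)).differentiableAt.differentiableWithinAt
  · rw [interior_Icc]
    intro v hv w hw hvw
    rw [(hg v (Set.Ioo_subset_Icc_self hv)).deriv, (hg w (Set.Ioo_subset_Icc_self hw)).deriv]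
    exact hm (Set.Ioo_subset_Icc_self hv) (Set.Ioo_subset_Icc_self hw) hvw

lemma chord {c d : ℝ} {g g' : ℝ → ℝ} (hg : ∀ y ∈ Set.Icc c d, HasDerivAt g (g' y) y)
    (hm : MonotoneOn g' (Set.Icc c d)) {y z v b : ℝ} (hy : c ≤ y) (hyz : y < z) (hz : z ≤ d)
    (hb : g z - g y = b * (z - y)) (hyv : y ≤ v) (hvz : v ≤ z) :
    g v ≤ g y + b * (v - y) := by
  have hc := cvx hg hm
  have hp : 0 < z - y := by linarith
  have h1 := hc.2 (⟨hy, hyz.le.trans hz⟩ : y ∈ Set.Icc c d) (⟨hy.trans hyz.le, hz⟩ : z ∈ Set.Icc c d)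
    (div_nonneg (by linarith : 0 ≤ z - v) hp.le) (div_nonneg (by linarith : 0 ≤ v - y) hp.le)
    (by field_simp; ring)
  simp only [smul_eq_mul] at h1
  have e1 : (z - v) / (z - y) * y + (v - y) / (z - y) * z = v := by
    field_simp
    ring
  have e2 : (z - v) / (z - y) * g y + (v - y) / (z - y) * g z = g y + b * (v - y) := by
    have h2 : g z = g y + b * (z - y) := by linarith
    rw [h2]
    field_simp
    ring
  rwa [e1, e2] at h1

lemma cc_aff (y z p q b e : ℝ) :
    CC (prof y z (fun v => p + b * (v - y)) (fun v => q + e * (v - y))) := by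
  have h : ∀ p b : ℝ, Continuous (fun v : ℝ => p + b * (v - y)) := by
    intro p b
    fun_prop
  have h' : ∀ (p b x w s t : ℝ), s + t = 1 →
      p + b * (s * x + t * w - y) = s * (p + b * (x - y)) + t * (p + b * (w - y)) := by
    intro p b x w s t hst
    have : t = 1 - s := by linarith
    rw [this]
    ring
  refine PAR.prof_cc (h p b).continuousOn (h q e).continuousOn ⟨convex_Icc y z, ?_⟩
    ⟨convex_Icc y z, ?_⟩
  · intro x _ w _ s t _ _ hst
    simp only [smul_eq_mul]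
    exact (h' p b x w s t hst).le
  · intro x _ w _ s t _ _ hst
    simp only [smul_eq_mul]
    exact (h' q e x w s t hst).ge

section
variable {φ : Set Pl → ℝ} {α c d : ℝ} {l r l' r' : ℝ → ℝ}

/-- the value minus the horizontal part -/
noncomputable def Ph (φ : Set Pl → ℝ) (l r : ℝ → ℝ) (y z : ℝ) : ℝ :=
  φ (prof y z l r) - ee φ * ((r y - l y) + (r z - l z))

/-- the density -/
noncomputable def ff (φ : Set Pl → ℝ) (α : ℝ) (l r l' r' : ℝ → ℝ) (y : ℝ) : ℝ :=
  nn φ (l' y) + nn φ (r' y) + α * (r y - l y)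

lemma neg_mono (h : AntitoneOn r' (Set.Icc c d)) : MonotoneOn (fun y => -r' y) (Set.Icc c d) :=
  fun _ hx _ hy hxy => neg_le_neg (h hx hy hxy)

lemma neg_der (h : ∀ y ∈ Set.Icc c d, HasDerivAt r (r' y) y) :
    ∀ y ∈ Set.Icc c d, HasDerivAt (fun y => -r y) (-r' y) y := fun y hy => (h y hy).neg

lemma ccv (hr : ∀ y ∈ Set.Icc c d, HasDerivAt r (r' y) y) (hm : AntitoneOn r' (Set.Icc c d)) :
    ConcaveOn ℝ (Set.Icc c d) r := by
  have h := cvx (neg_der hr) (neg_mono hm)
  have h2 := h.neg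
  have e : (-fun y => -r y) = r := by
    funext y
    simp
  rwa [e] at h2

lemma cc_sub (hl : ∀ y ∈ Set.Icc c d, HasDerivAt l (l' y) y)
    (hr : ∀ y ∈ Set.Icc c d, HasDerivAt r (r' y) y)
    (hml : MonotoneOn l' (Set.Icc c d)) (hmr : AntitoneOn r' (Set.Icc c d)) {y z : ℝ}
    (hy : c ≤ y) (hz : z ≤ d) : CC (prof y z l r) := by
  have hs : Set.Icc y z ⊆ Set.Icc c d := Set.Icc_subset_Icc hy hz
  exact PAR.prof_cc (fun v hv => (hl v (hs hv)).continuousAt.continuousWithinAt)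
    (fun v hv => (hr v (hs hv)).continuousAt.continuousWithinAt)
    ((cvx hl hml).subset hs (convex_Icc _ _)) ((ccv hr hmr).subset hs (convex_Icc _ _))

/-- the main estimate -/
lemma est (hSEG : SpecSEG) (hNPR : SpecNPR) (hφ : IsPhi φ) (hα : IsAl φ α)
    (hl : ∀ y ∈ Set.Icc c d, HasDerivAt l (l' y) y) (hr : ∀ y ∈ Set.Icc c d, HasDerivAt r (r' y) y)
    (hml : MonotoneOn l' (Set.Icc c d)) (hmr : AntitoneOn r' (Set.Icc c d))
    (hlr : ∀ y ∈ Set.Icc c d, l y ≤ r y) {y z : ℝ} (hy : c ≤ y) (hyz : y < z) (hz : z ≤ d) :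
    |Ph φ l r y z - (z - y) * ff φ α l r l' r' y| ≤
      (z - y) * (ee φ * ((l' z - l' y) + (r' y - r' z)) +
        |α| * ((z - y) * (|r' y - l' y| + ((l' z - l' y) + (r' y - r' z))))) := by
  obtain ⟨ξ, _, _, hb, hb1, hb2⟩ := slope_mem hl hml hy hyz hz
  obtain ⟨ζ, _, _, he, he1, he2⟩ := slope_mem (neg_der hr) (neg_mono hmr) hy hyz hz
  set b := l' ξ with hbdef
  set e := r' ζ with hedef
  have he' : r z - r y = e * (z - y) := by linarith
  have he1' : e ≤ r' y := by linarith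
  have he2' : r' z ≤ e := by linarith
  have hk : 0 < z - y := by linarith
  have hyI : y ∈ Set.Icc c d := ⟨hy, hyz.le.trans hz⟩
  have hzI : z ∈ Set.Icc c d := ⟨hy.trans hyz.le, hz⟩
  have hwy := hlr y hyI
  have hwz := hlr z hzI
  have hee : 0 ≤ ee φ := (hSEG φ hφ).2.2 _
  obtain ⟨_, hLip⟩ := hNPR φ hφ
  have hzz : y + (z - y) = z := by ring
  have htl := tangent hl hml hy hyz.le hz
  have htr := tangent (neg_der hr) (neg_mono hmr) hy hyz.le hz
  -- the chord trapezoid
  have h1 := hα y (z - y) (l y) b (r y) e hk.le hwy (by rw [← hb, ← he']; linarith)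
  have h2 := hα y (z - y) (l y) (l' y) (r y) (r' y) hk.le hwy (by linarith)
  rw [hzz] at h1 h2
  have hcc := cc_sub hl hr hml hmr hy hz
  have hlow : φ (prof y z (fun v => l y + b * (v - y)) (fun v => r y + e * (v - y))) ≤
      φ (prof y z l r) := by
    refine hφ.mono _ _ (cc_aff _ _ _ _ _ _) hcc ?_
    rintro v ⟨v1, v2, v3, v4⟩
    have e1 := chord hl hml hy hyz hz hb v1 v2
    have e2 := chord (neg_der hr) (neg_mono hmr) hy hyz hz (b := -e) (by linarith) v1 v2
    refine ⟨v1, v2, e1.trans v3, ?_⟩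
    have e3 : v.1 ≤ r y + e * (v.2 - y) := v4
    linarith
  have hupp : φ (prof y z l r) ≤
      φ (prof y z (fun v => l y + l' y * (v - y)) (fun v => r y + r' y * (v - y))) := by
    refine hφ.mono _ _ hcc (cc_aff _ _ _ _ _ _) ?_
    rintro v ⟨v1, v2, v3, v4⟩
    have e1 := tangent hl hml hy v1 (v2.trans hz)
    have e2 := tangent (neg_der hr) (neg_mono hmr) hy v1 (v2.trans hz)
    refine ⟨v1, v2, ?_, ?_⟩
    · exact e1.trans v3
    · change v.1 ≤ r y + r' y * (v.2 - y)
      linarith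
  rw [h1] at hlow
  rw [h2] at hupp
  have hLb := hLip (l' y) b
  have hLe := hLip (r' y) e
  rw [abs_of_nonpos (by linarith : l' y - b ≤ 0)] at hLb
  rw [abs_of_nonneg (by linarith : 0 ≤ r' y - e)] at hLe
  have hLb' := (abs_le.1 hLb).2
  have hLe' := (abs_le.1 hLe).2
  set k := z - y with hkdef
  set D := (l' z - l' y) + (r' y - r' z) with hD
  have hD0 : 0 ≤ D := by linarith
  have hs0 : 0 ≤ (b - l' y) + (r' y - e) := by linarith
  have hsD : (b - l' y) + (r' y - e) ≤ D := by linarith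
  have hlz : l z = l y + b * k := by linarith
  have hrz : r z = r y + e * k := by linarith
  have hPh : Ph φ l r y z = φ (prof y z l r) - ee φ * ((r y - l y) + (r y + e * k - (l y + b * k))) := by
    unfold Ph
    rw [hlz, hrz]
  rw [hPh]
  unfold ff
  have hα1 := le_abs_self α
  have hα2 := neg_abs_le α
  have hα0 := abs_nonneg α
  have hA := le_abs_self (r' y - l' y)
  have hA2 := neg_abs_le (r' y - l' y)
  have hk2 : 0 ≤ k * k := mul_self_nonneg k
  -- products
  have hkee : 0 ≤ k * ee φ := mul_nonneg hk.le hee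
  have p1 : k * ee φ * ((b - l' y) + (r' y - e)) ≤ k * ee φ * D :=
    mul_le_mul_of_nonneg_left hsD hkee
  have p2 : |α * (k * k * (r' y - l' y) / 2)| ≤ |α| * (k * k * |r' y - l' y|) := by
    rw [abs_mul, abs_div, abs_mul, abs_of_nonneg hk2]
    refine mul_le_mul_of_nonneg_left ?_ hα0
    have := mul_nonneg hk2 (abs_nonneg (r' y - l' y))
    rw [abs_of_pos (by norm_num : (0 : ℝ) < 2)]
    linarith
  have p3 : |α * (k * k * ((b - l' y) + (r' y - e)) / 2)| ≤ |α| * (k * k * D) := by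
    rw [abs_mul, abs_div, abs_mul, abs_of_nonneg hk2, abs_of_nonneg hs0,
      abs_of_pos (by norm_num : (0 : ℝ) < 2)]
    refine mul_le_mul_of_nonneg_left ?_ hα0
    have h3 := mul_le_mul_of_nonneg_left hsD hk2
    have h4 := mul_nonneg hk2 hs0
    linarith
  have p2' := abs_le.1 p2
  have p3' := abs_le.1 p3
  have p4 : k * (nn φ (l' y) - nn φ b) ≤ k * (ee φ * (b - l' y)) :=
    mul_le_mul_of_nonneg_left (by linarith) hk.le
  have p5 : k * (nn φ (r' y) - nn φ e) ≤ k * (ee φ * (r' y - e)) :=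
    mul_le_mul_of_nonneg_left (by linarith) hk.le
  have p6 : 0 ≤ |α| * (k * k * D) := by positivity
  rw [abs_le]
  constructor
  · linarith [p1, p2'.1, p3'.2, p4, p5, hlow]
  · linarith [p1, p2'.2, p3'.1, hupp]


/-- the horizontal cut -/
lemma cut (hSEG : SpecSEG) (hφ : IsPhi φ)
    (hl : ∀ y ∈ Set.Icc c d, HasDerivAt l (l' y) y) (hr : ∀ y ∈ Set.Icc c d, HasDerivAt r (r' y) y)
    (hml : MonotoneOn l' (Set.Icc c d)) (hmr : AntitoneOn r' (Set.Icc c d))
    (hlr : ∀ y ∈ Set.Icc c d, l y ≤ r y) {a b e : ℝ} (ha : c ≤ a) (hab : a ≤ b) (hbe : b ≤ e) (he : e ≤ d) :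
    Ph φ l r a e = Ph φ l r a b + Ph φ l r b e := by
  have c1 := cc_sub hl hr hml hmr ha (hbe.trans he)
  have c2 := cc_sub hl hr hml hmr (ha.trans hab) he
  have c3 := cc_sub hl hr hml hmr ha he
  have hu : prof a b l r ∪ prof b e l r = prof a e l r := by
    ext z
    unfold prof
    constructor
    · rintro (⟨p1, p2, p3⟩ | ⟨p1, p2, p3⟩)
      · exact ⟨p1, p2.trans hbe, p3⟩
      · exact ⟨hab.trans p1, p2, p3⟩
    · rintro ⟨p1, p2, p3⟩
      rcases le_total z.2 b with h | h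
      · exact Or.inl ⟨p1, h, p3⟩
      · exact Or.inr ⟨h, p2, p3⟩
  have hlb : l b ≤ r b := hlr b ⟨ha.trans hab, hbe.trans he⟩
  have hi : prof a b l r ∩ prof b e l r = segment ℝ ((l b, b) : Pl) (r b, b) := by
    rw [← PAR.seg_horiz b (l b) (r b) hlb]
    ext z
    unfold prof
    constructor
    · rintro ⟨⟨p1, p2, p3, p4⟩, q1, q2, q3, q4⟩
      have : z.2 = b := le_antisymm p2 q1
      rw [this] at p3 p4
      exact ⟨this, p3, p4⟩
    · rintro ⟨p1, p2, p3⟩
      have q3 : l z.2 ≤ z.1 := by rw [p1]; exact p2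
      have q4 : z.1 ≤ r z.2 := by rw [p1]; exact p3
      exact ⟨⟨by rw [p1]; exact hab, p1.le, q3, q4⟩, p1.ge, by rw [p1]; exact hbe, q3, q4⟩
  have hv := hφ.val _ _ c1 c2 (by
    rw [hu]
    exact c3)
  obtain ⟨g1, g2, -⟩ := hSEG φ hφ
  have hs : φ (segment ℝ ((l b, b) : Pl) (r b, b)) = 2 * ((r b - l b) * ee φ) := by
    rw [g1]
    have : ((r b, b) : Pl) - (l b, b) = (r b - l b) • ((1, 0) : Pl) := by
      ext <;> simp
    rw [this, g2, abs_of_nonneg (by linarith)]
    rfl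
  rw [hu, hi, hs] at hv
  unfold Ph
  linarith

/-- the error term tends to zero from the right -/
lemma err (hcl : ContinuousOn l' (Set.Icc c d)) (hcr : ContinuousOn r' (Set.Icc c d)) (e A : ℝ)
    {y : ℝ} (hy : c ≤ y) (hyd : y < d) :
    Tendsto (fun z => e * ((l' z - l' y) + (r' y - r' z)) +
        A * ((z - y) * (|r' y - l' y| + ((l' z - l' y) + (r' y - r' z))))) (𝓝[>] y) (𝓝 0) := by
  have h : ContinuousOn (fun z => e * ((l' z - l' y) + (r' y - r' z)) +
        A * ((z - y) * (|r' y - l' y| + ((l' z - l' y) + (r' y - r' z))))) (Set.Icc c d) := by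
    fun_prop
  have h1 := h y ⟨hy, hyd.le⟩
  have h2 : Set.Ioo y d ⊆ Set.Icc c d := fun v hv => ⟨hy.trans hv.1.le, hv.2.le⟩
  have h3 := h1.mono h2
  unfold ContinuousWithinAt at h3
  rw [nhdsWithin_Ioo_eq_nhdsGT hyd] at h3
  simpa using h3

end

end PHF

open PHF in
/-- PHF. -/
theorem specPHF (hSEG : SpecSEG) (hNPR : SpecNPR) : SpecPHF := by
  intro φ α hφ hα c d l r l' r' hcd hl hr hcl hcr hml hmr hlr
  have hcut := fun {a b e : ℝ} (ha : c ≤ a) (hab : a ≤ b) (hbe : b ≤ e) (he : e ≤ d) =>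
    cut hSEG hφ hl hr hml hmr hlr ha hab hbe he
  have hdiag : ∀ y, c ≤ y → y ≤ d → Ph φ l r y y = 0 := by
    intro y h1 h2
    have := hcut h1 le_rfl le_rfl h2
    linarith
  have hest := fun {y z : ℝ} (hy : c ≤ y) (hyz : y < z) (hz : z ≤ d) =>
    est hSEG hNPR hφ hα hl hr hml hmr hlr hy hyz hz
  have hee : 0 ≤ ee φ := (hSEG φ hφ).2.2 _
  obtain ⟨_, hLip⟩ := hNPR φ hφ
  have hnc : Continuous (nn φ) := by
    have h : LipschitzWith ⟨ee φ, hee⟩ (nn φ) := LipschitzWith.of_dist_le_mul (fun a b => by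
      rw [Real.dist_eq, Real.dist_eq]
      exact hLip a b)
    exact h.continuous
  have hlc : ContinuousOn l (Set.Icc c d) := fun v hv => (hl v hv).continuousAt.continuousWithinAt
  have hrc : ContinuousOn r (Set.Icc c d) := fun v hv => (hr v hv).continuousAt.continuousWithinAt
  have hfc : ContinuousOn (ff φ α l r l' r') (Set.Icc c d) :=
    ((hnc.comp_continuousOn hcl).add (hnc.comp_continuousOn hcr)).add
      (continuousOn_const.mul (hrc.sub hlc))
  obtain ⟨Cf, hCf⟩ := isCompact_Icc.exists_bound_of_continuousOn hfc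
  obtain ⟨Cl, hCl⟩ := isCompact_Icc.exists_bound_of_continuousOn hcl
  obtain ⟨Cr, hCr⟩ := isCompact_Icc.exists_bound_of_continuousOn hcr
  simp only [Real.norm_eq_abs] at hCf hCl hCr
  have hc0 : c ∈ Set.Icc c d := ⟨le_rfl, hcd⟩
  have hCf0 : 0 ≤ Cf := (abs_nonneg _).trans (hCf c hc0)
  have hCl0 : 0 ≤ Cl := (abs_nonneg _).trans (hCl c hc0)
  have hCr0 : 0 ≤ Cr := (abs_nonneg _).trans (hCr c hc0)
  set C : ℝ := Cf + (ee φ * (2 * Cl + 2 * Cr) + |α| * ((d - c) * ((Cr + Cl) + (2 * Cl + 2 * Cr)))) with hC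
  have hCd : 0 ≤ d - c := by linarith
  have hC0 : 0 ≤ C := by positivity
  have hlip : ∀ y z, c ≤ y → y ≤ z → z ≤ d → |Ph φ l r y z| ≤ C * (z - y) := by
    intro y z hy hyz hz
    rcases eq_or_lt_of_le hyz with h | h
    · rw [← h, hdiag y hy (hyz.trans hz)]
      simp
    · have h1 := hest hy h hz
      have hyI : y ∈ Set.Icc c d := ⟨hy, h.le.trans hz⟩
      have hzI : z ∈ Set.Icc c d := ⟨hy.trans h.le, hz⟩
      have a1 := abs_le.1 (hCf y hyI)
      have a2 := abs_le.1 (hCl y hyI)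
      have a3 := abs_le.1 (hCl z hzI)
      have a4 := abs_le.1 (hCr y hyI)
      have a5 := abs_le.1 (hCr z hzI)
      have hk : 0 < z - y := by linarith
      have hD : (l' z - l' y) + (r' y - r' z) ≤ 2 * Cl + 2 * Cr := by linarith
      have hA : |r' y - l' y| ≤ Cr + Cl := abs_le.2 ⟨by linarith, by linarith⟩
      have hm1 := hml hyI hzI h.le
      have hm2 := hmr hyI hzI h.le
      have b1 : ee φ * ((l' z - l' y) + (r' y - r' z)) ≤ ee φ * (2 * Cl + 2 * Cr) :=
        mul_le_mul_of_nonneg_left hD hee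
      have b2 : |α| * ((z - y) * (|r' y - l' y| + ((l' z - l' y) + (r' y - r' z)))) ≤
          |α| * ((d - c) * ((Cr + Cl) + (2 * Cl + 2 * Cr))) := by
        refine mul_le_mul_of_nonneg_left ?_ (abs_nonneg _)
        refine mul_le_mul (by linarith) (by linarith) ?_ hCd
        have := abs_nonneg (r' y - l' y)
        linarith
      have b3 := mul_le_mul_of_nonneg_left (add_le_add b1 b2) hk.le
      have b4 : |(z - y) * ff φ α l r l' r' y| ≤ (z - y) * Cf := by
        rw [abs_mul, abs_of_pos hk]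
        exact mul_le_mul_of_nonneg_left (hCf y hyI) hk.le
      have b5 : |Ph φ l r y z| ≤ |Ph φ l r y z - (z - y) * ff φ α l r l' r' y| +
          |(z - y) * ff φ α l r l' r' y| := by
        have := abs_add_le (Ph φ l r y z - (z - y) * ff φ α l r l' r' y)
          ((z - y) * ff φ α l r l' r' y)
        rwa [sub_add_cancel] at this
      have b6 : C * (z - y) = (z - y) * Cf + (z - y) * (ee φ * (2 * Cl + 2 * Cr) +
          |α| * ((d - c) * ((Cr + Cl) + (2 * Cl + 2 * Cr)))) := by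
        rw [hC]
        ring
      rw [b6]
      linarith
  have hcont : ContinuousOn (fun z => Ph φ l r c z) (Set.Icc c d) := by
    have h : LipschitzOnWith ⟨C, hC0⟩ (fun z => Ph φ l r c z) (Set.Icc c d) := by
      refine LipschitzOnWith.of_dist_le_mul (fun x hx y hy => ?_)
      rw [Real.dist_eq, Real.dist_eq]
      change |Ph φ l r c x - Ph φ l r c y| ≤ C * |x - y|
      rcases le_total x y with h | h
      · have h1 := hcut le_rfl hx.1 h hy.2
        have h2 := hlip x y hx.1 h hy.2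
        rw [h1, abs_sub_comm x y, abs_of_nonneg (by linarith : 0 ≤ y - x)]
        rw [show Ph φ l r c x - (Ph φ l r c x + Ph φ l r x y) = -Ph φ l r x y by ring, abs_neg]
        exact h2
      · have h1 := hcut le_rfl hy.1 h hx.2
        have h2 := hlip y x hy.1 h hx.2
        rw [h1, abs_of_nonneg (by linarith : 0 ≤ x - y)]
        rw [show Ph φ l r c y + Ph φ l r y x - Ph φ l r c y = Ph φ l r y x by ring]
        exact h2
    exact h.continuousOn
  have hder : ∀ y ∈ Set.Ioo c d, HasDerivWithinAt (fun z => Ph φ l r c z) (ff φ α l r l' r' y)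
      (Set.Ioi y) y := by
    intro y hy
    rw [hasDerivWithinAt_iff_tendsto_slope' (by simp)]
    have h1 := err hcl hcr (ee φ) (|α|) hy.1.le hy.2
    rw [tendsto_iff_dist_tendsto_zero]
    refine squeeze_zero' (Eventually.of_forall (fun _ => dist_nonneg)) ?_ h1
    filter_upwards [Ioo_mem_nhdsGT hy.2] with z hz
    have hk : 0 < z - y := by linarith [hz.1]
    have h2 := hest hy.1.le hz.1 hz.2.le
    have h3 := hcut le_rfl hy.1.le hz.1.le hz.2.le
    rw [slope_def_field, Real.dist_eq, h3]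
    rw [show Ph φ l r c y + Ph φ l r y z - Ph φ l r c y = Ph φ l r y z by ring]
    have h4 : Ph φ l r y z / (z - y) - ff φ α l r l' r' y =
        (Ph φ l r y z - (z - y) * ff φ α l r l' r' y) / (z - y) := by
      field_simp
    rw [h4, abs_div, abs_of_pos hk, div_le_iff₀ hk]
    linarith
  have hint := intervalIntegral.integral_eq_sub_of_hasDeriv_right_of_le hcd hcont hder
    (hfc.intervalIntegrable_of_Icc hcd)
  have h0 := hdiag c le_rfl hcd
  simp only [h0, sub_zero] at hint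
  have h5 : φ (prof c d l r) = ee φ * ((r c - l c) + (r d - l d)) + Ph φ l r c d := by
    unfold Ph
    ring
  rw [h5, ← hint]
  rfl


end Pool.MP671.C3
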