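import Pool.Agent.Lib.MP_671ac3_gt.C3.Spec

section
/-!
# Module LNS: the shape of a lens
-/
namespace Pool.MP671.C3

open Real

namespace LNS

/-- The difference `lg f (y - t) - lg f y` is monotone or antitone. -/
theorem between (hLEG : SpecLEG) (f : ℝ → ℝ) (hf : Cx f) (a b t y : ℝ) (hab : a ≤ b)
    (ha : a ∈ Set.range (deriv f)) (hb : b ∈ Set.range (deriv f))
    (hat : a - t ∈ Set.range (deriv f)) (hbt : b - t ∈ Set.range (deriv f))
    (hy : y ∈ Set.Icc a b) :
    min (lg f (a - t) - lg f a) (lg f (b - t) - lg f b) ≤ lg f (y - t) - lg f y ∧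
      lg f (y - t) - lg f y ≤ max (lg f (a - t) - lg f a) (lg f (b - t) - lg f b) := by
  obtain ⟨hmono, -, hinv, ⟨-, hord⟩, -, hder, -, -, -⟩ := hLEG f hf
  have hr : ∀ z ∈ Set.Icc a b, z ∈ Set.range (deriv f) := fun z hz => hord.out ha hb hz
  have hrt : ∀ z ∈ Set.Icc a b, z - t ∈ Set.range (deriv f) := fun z hz =>
    hord.out hat hbt ⟨by linarith [hz.1], by linarith [hz.2]⟩
  have hsl : ∀ u ∈ Set.range (deriv f), ∀ v ∈ Set.range (deriv f), u ≤ v → sl f u ≤ sl f v := by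
    intro u hu v hv huv
    by_contra hlt
    have h1 := hmono (not_le.mp hlt)
    rw [hinv u hu, hinv v hv] at h1
    linarith
  have hD : ∀ z ∈ Set.Icc a b,
      HasDerivAt (fun z => lg f (z - t) - lg f z) (sl f (z - t) - sl f z) z := by
    intro z hz
    have h1 := (hder (z - t) (hrt z hz)).2
    have h2 := (hder z (hr z hz)).2
    have h3 : HasDerivAt (fun z => z - t) 1 z := (hasDerivAt_id z).sub_const t
    have h4 := HasDerivAt.comp z h1 h3
    rw [mul_one] at h4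
    exact h4.sub h2
  have hcont : ContinuousOn (fun z => lg f (z - t) - lg f z) (Set.Icc a b) := fun z hz =>
    (hD z hz).continuousAt.continuousWithinAt
  have hdiff : DifferentiableOn ℝ (fun z => lg f (z - t) - lg f z) (interior (Set.Icc a b)) :=
    fun z hz => (hD z (interior_subset hz)).differentiableAt.differentiableWithinAt
  have ha' : a ∈ Set.Icc a b := ⟨le_rfl, hab⟩
  have hb' : b ∈ Set.Icc a b := ⟨hab, le_rfl⟩
  rcases le_total 0 t with ht | ht
  · have hanti : AntitoneOn (fun z => lg f (z - t) - lg f z) (Set.Icc a b) := by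
      refine antitoneOn_of_deriv_nonpos (convex_Icc a b) hcont hdiff fun z hz => ?_
      have hz' := interior_subset hz
      rw [(hD z hz').deriv]
      have := hsl (z - t) (hrt z hz') z (hr z hz') (by linarith)
      linarith
    exact ⟨(min_le_right _ _).trans (hanti hy hb' hy.2),
      (hanti ha' hy hy.1).trans (le_max_left _ _)⟩
  · have hm : MonotoneOn (fun z => lg f (z - t) - lg f z) (Set.Icc a b) := by
      refine monotoneOn_of_deriv_nonneg (convex_Icc a b) hcont hdiff fun z hz => ?_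
      have hz' := interior_subset hz
      rw [(hD z hz').deriv]
      have := hsl z (hr z hz') (z - t) (hrt z hz') (by linarith)
      linarith
    exact ⟨(min_le_left _ _).trans (hm ha' hy hy.1),
      (hm hy hb' hy.2).trans (le_max_right _ _)⟩

/-- The estimate for the height of the points of the intersection. -/
theorem height (l m : ℝ → ℝ) (ξ t r s : ℝ) (hξ : Xc l r + Xc m s = ξ)
    (ht : -(deriv l r + deriv m s) = t) (z1 z2 : ℝ) (h1 : z1 - r * z2 ≤ l r)
    (h2 : s * (z2 - t) - (z1 - ξ) ≤ m s) : (s - r) * z2 ≤ (s - r) * (-deriv l r) := by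
  unfold Xc at hξ
  have h3 : (s - r) * z2 - s * t + ξ ≤ l r + m s := by nlinarith
  have h4 : l r + m s = ξ + r * deriv l r + s * deriv m s := by linarith
  have h5 : deriv m s = -t - deriv l r := by linarith
  rw [h4, h5] at h3
  nlinarith

end LNS

theorem specLNS (hLN0 : SpecLN0) (hLEG : SpecLEG) (hFRC : SpecFRC) (hMEB : SpecMEB)
    (hSHF : SpecSHF) : SpecLNS := by
  intro h hS x r s r' s' hL
  obtain ⟨hCl, -, hrl⟩ := hFRC h hS
  have hS' : Sm (sh h π) := (hSHF.1 h π hS).1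
  obtain ⟨hCm, -, hrm⟩ := hFRC (sh h π) hS'
  have hem : el (sh h π) = em h := rfl
  rw [hem] at hCm hrm
  have e1 : sh h π (π / 2) = h (-(π / 2)) := by
    unfold sh
    rw [← hS.per (-(π / 2))]
    congr 1
    ring
  have e2 : sh h π (-(π / 2)) = h (π / 2) := by
    unfold sh
    congr 1
    ring
  rw [e1, e2] at hrm
  obtain ⟨hM1, -, hM3, hM4⟩ := hMEB h hS
  obtain ⟨hr, hs⟩ := hLN0 _ _ hCl hCm x r s r' s' hL
  obtain ⟨hlm, -, -, -, -, -, hlX, -, -⟩ := hLEG _ hCl
  obtain ⟨-, -, -, -, -, -, hmX, -, -⟩ := hLEG _ hCm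
  set l := el h with hl
  set m := em h with hm
  obtain ⟨ξ, t⟩ := x
  have hht := hL.ht
  have hhb := hL.hb
  unfold Psi at hht hhb
  rw [Prod.mk.injEq] at hht hhb
  obtain ⟨ht1, ht2⟩ := hht
  obtain ⟨hb1, hb2⟩ := hhb
  have htop := hL.top
  have hbot := hL.bot
  -- the heights
  have hy41 : -deriv l r' ≤ -deriv l r := by
    have := hlm hr
    linarith
  have hyl : ∀ σ, -h (-(π / 2)) < -deriv l σ ∧ -deriv l σ < h (π / 2) := by
    intro σ
    have h1 : deriv l σ ∈ Set.range (deriv l) := ⟨σ, rfl⟩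
    rw [hrl] at h1
    exact ⟨by linarith [h1.2], by linarith [h1.1]⟩
  have hym : ∀ σ, -h (-(π / 2)) < deriv m σ ∧ deriv m σ < h (π / 2) := by
    intro σ
    have h1 : deriv m σ ∈ Set.range (deriv m) := ⟨σ, rfl⟩
    rw [hrm] at h1
    exact h1
  have ems : -deriv l r - t = deriv m s := by linarith
  have ems' : -deriv l r' - t = deriv m s' := by linarith
  have hA : ∀ y, -deriv l r' ≤ y → y ≤ -deriv l r → -h (-(π / 2)) < y ∧ y < h (π / 2) :=
    fun y h1 h2 => ⟨lt_of_lt_of_le (hyl r').1 h1, lt_of_le_of_lt h2 (hyl r).2⟩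
  have hB : ∀ y, -deriv l r' ≤ y → y ≤ -deriv l r →
      -h (-(π / 2)) < y - t ∧ y - t < h (π / 2) := by
    intro y h1 h2
    have h3 := (hym s').1
    have h4 := (hym s).2
    rw [← ems'] at h3
    rw [← ems] at h4
    exact ⟨by linarith, by linarith⟩
  -- corner values
  have hR1 : -lg l (deriv l r) = Xc l r := by rw [hlX r, neg_neg]
  have hR4 : -lg l (deriv l r') = Xc l r' := by rw [hlX r', neg_neg]
  have hL1 : lg m (-deriv l r - t) + ξ = Xc l r := by rw [ems, hmX s]; linarith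
  have hL4 : lg m (-deriv l r' - t) + ξ = Xc l r' := by rw [ems', hmX s']; linarith
  -- the two inequalities
  have hkey : ∀ y, -deriv l r' ≤ y → y ≤ -deriv l r →
      lg m y ≤ lg m (y - t) + ξ ∧ -lg l (-y) ≤ -lg l (-(y - t)) + ξ := by
    intro y h1 h2
    have hr4m := (hM4 _ (hyl r').1 (hyl r').2)
    have hr1m := (hM4 _ (hyl r).1 (hyl r).2)
    rw [neg_neg] at hr4m hr1m
    constructor
    · have h3 := (LNS.between hLEG m hCm (-deriv l r') (-deriv l r) t y hy41 hr4m.2.2 hr1m.2.2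
        (by rw [ems']; exact ⟨s', rfl⟩) (by rw [ems]; exact ⟨s, rfl⟩) ⟨h1, h2⟩).1
      have h4 : -ξ ≤ min (lg m (-deriv l r' - t) - lg m (-deriv l r'))
          (lg m (-deriv l r - t) - lg m (-deriv l r)) := by
        rw [le_min_iff]
        constructor
        · have h5 := hr4m.1
          rw [hR4] at h5
          linarith
        · have h5 := hr1m.1
          rw [hR1] at h5
          linarith
      linarith
    · have h3 := (LNS.between hLEG l hCl (deriv l r) (deriv l r') (-t) (-y) (hlm hr).le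
        ⟨r, rfl⟩ ⟨r', rfl⟩ (by
          have := (hM4 (-deriv l r - t) (by rw [ems]; exact (hym s).1)
            (by rw [ems]; exact (hym s).2)).2.1
          have e3 : deriv l r - -t = -(-deriv l r - t) := by ring
          rw [e3]; exact this) (by
          have := (hM4 (-deriv l r' - t) (by rw [ems']; exact (hym s').1)
            (by rw [ems']; exact (hym s').2)).2.1
          have e3 : deriv l r' - -t = -(-deriv l r' - t) := by ring
          rw [e3]; exact this)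
        ⟨by linarith, by linarith⟩).2
      have h4 : max (lg l (deriv l r - -t) - lg l (deriv l r))
          (lg l (deriv l r' - -t) - lg l (deriv l r')) ≤ ξ := by
        rw [max_le_iff]
        constructor
        · have h5 := (hM4 (-deriv l r - t) (by rw [ems]; exact (hym s).1)
            (by rw [ems]; exact (hym s).2)).1
          have e3 : -(-deriv l r - t) = deriv l r - -t := by ring
          rw [e3] at h5
          linarith
        · have h5 := (hM4 (-deriv l r' - t) (by rw [ems']; exact (hym s').1)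
            (by rw [ems']; exact (hym s').2)).1
          have e3 : -(-deriv l r' - t) = deriv l r' - -t := by ring
          rw [e3] at h5
          linarith
      have e4 : -y - -t = -(y - t) := by ring
      rw [e4] at h3
      linarith
  ext z
  obtain ⟨z1, z2⟩ := z
  constructor
  · rintro ⟨hz, w, hw, hwz⟩
    obtain ⟨w1, w2⟩ := w
    simp only [Prod.mk_add_mk, Prod.mk.injEq] at hwz
    obtain ⟨e3, e4⟩ := hwz
    have hw1 : w1 = z1 - ξ := by linarith
    have hw2 : w2 = z2 - t := by linarith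
    subst hw1 hw2
    have h1 : z2 ≤ -deriv l r := by
      have h2 := LNS.height l m ξ t r s ht1 ht2 z1 z2 (hM1 _ hz r).1 (hM1 _ hw s).2
      exact le_of_mul_le_mul_left h2 (by linarith)
    have h4 : -deriv l r' ≤ z2 := by
      have h2 := LNS.height l m ξ t r' s' hb1 hb2 z1 z2 (hM1 _ hz r').1 (hM1 _ hw s').2
      nlinarith
    have h5 := hA z2 h4 h1
    have h6 := hB z2 h4 h1
    have h7 := (hM3 z1 z2 h5.1 h5.2).mp hz
    have h8 := (hM3 (z1 - ξ) (z2 - t) h6.1 h6.2).mp hw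
    exact ⟨h4, h1, by show lg m (z2 - t) + ξ ≤ z1; linarith [h8.1], h7.2⟩
  · rintro ⟨h4, h1, h2, h3⟩
    simp only at h4 h1 h2 h3
    have h5 := hA z2 h4 h1
    have h6 := hB z2 h4 h1
    obtain ⟨hk1, hk2⟩ := hkey z2 h4 h1
    refine ⟨(hM3 z1 z2 h5.1 h5.2).mpr ⟨by linarith, h3⟩, (z1 - ξ, z2 - t), ?_, ?_⟩
    · exact (hM3 (z1 - ξ) (z2 - t) h6.1 h6.2).mpr ⟨by linarith, by linarith⟩
    · simp

end Pool.MP671.C3
end

section
/-!
# MP_671ac3_gt, C3, module LSX (helper12)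
-/
namespace Pool.MP671.C3

open MeasureTheory Real Filter Topology

namespace LSXM

theorem aux {n : ℝ → ℝ} {e α : ℝ} {l : ℝ → ℝ} (hn : Nm n e) (hα : 0 ≤ α)
    (hl : ∀ σ τ, σ ≠ τ → Xc l σ + τ * deriv l σ < l τ) {r r' s' P Q x : ℝ} (hs : r' < s')
    (hs' : 0 < α ∨ e * (s' - r') < n r' + n s')
    (h1 : r * P + Q = n r + α * (l r - x))
    (h3 : r' * P + Q = n r' + α * (l r' - x))
    (h4 : s' * P + Q = -n s' + α * (l r' + deriv l r' * (s' - r') - x)) (hr : r' < r) : False := by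
  have hT : 0 < l r - l r' - deriv l r' * (r - r') := by
    have h := hl r' r hr.ne
    unfold Xc at h
    nlinarith [h]
  have e1 : (s' - r') * (P - α * deriv l r') = -(n r' + n s') := by linear_combination h4 - h3
  have e2 : (r - r') * (P - α * deriv l r') = n r - n r' + α * (l r - l r' - deriv l r' * (r - r')) := by
    linear_combination h1 - h3
  have hlip : n r' - n r ≤ e * (r - r') := by
    have h := hn.lip r' r
    rw [abs_sub_comm r' r, abs_of_pos (sub_pos.2 hr)] at h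
    exact (le_abs_self _).trans h
  have htri : e * (s' - r') ≤ n r' + n s' := by
    have h := hn.tri r' s'
    rwa [abs_sub_comm r' s', abs_of_pos (sub_pos.2 hs)] at h
  -- `e' = -(P - α l' r')`
  have h5 : e ≤ -(P - α * deriv l r') := by
    have h6 : e * (s' - r') ≤ -(P - α * deriv l r') * (s' - r') := by linarith
    exact le_of_mul_le_mul_right h6 (sub_pos.2 hs)
  have h7 : α * (l r - l r' - deriv l r' * (r - r')) ≤ 0 := by
    have h8 : e * (r - r') ≤ -(P - α * deriv l r') * (r - r') :=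
      mul_le_mul_of_nonneg_right h5 (sub_pos.2 hr).le
    linarith
  rcases hs' with h | h
  · exact absurd (mul_pos h hT) (not_lt.2 h7)
  · have h9 : e < -(P - α * deriv l r') := by
      have h6 : e * (s' - r') < -(P - α * deriv l r') * (s' - r') := by linarith
      exact lt_of_mul_lt_mul_right h6 (sub_pos.2 hs).le
    have h8 : e * (r - r') < -(P - α * deriv l r') * (r - r') :=
      mul_lt_mul_of_pos_right h9 (sub_pos.2 hr)
    have h10 : 0 ≤ α * (l r - l r' - deriv l r' * (r - r')) := mul_nonneg hα hT.le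
    linarith

end LSXM

theorem specLSX (hLEG : SpecLEG) : SpecLSX := by
  intro n e α l hn hα hl r s r' s' P Q x hrs hrs' hc hc' h1 h2 h3 h4
  obtain ⟨-, -, -, -, -, -, -, htan, -⟩ := hLEG l hl
  rcases lt_trichotomy r r' with h | h | h
  · exact (LSXM.aux hn hα htan hrs hc h3 h1 h2 h).elim
  · exact h
  · exact (LSXM.aux hn hα htan hrs' hc' h1 h3 h4 h).elim

end Pool.MP671.C3
end

section
/-!
# MP_671ac3_gt, C3, module MEB: membership in the body `bd h` by its two Legendre transforms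
-/
namespace Pool.MP671

open MeasureTheory Real Filter Topology

namespace C3

namespace MEB

theorem el_ineq (h : ℝ → ℝ) (z : Pl) (hz : z ∈ bd h) (σ : ℝ) : z.1 - σ * z.2 ≤ el h σ := by
  have h1 := hz (-arctan σ)
  rw [cos_neg, sin_neg, cos_arctan, sin_arctan] at h1
  have h2 : (0 : ℝ) < √(1 + σ ^ 2) := by positivity
  unfold el
  have h3 := mul_le_mul_of_nonneg_left h1 h2.le
  have h4 : √(1 + σ ^ 2) * (z.1 * (1 / √(1 + σ ^ 2)) + z.2 * -(σ / √(1 + σ ^ 2))) =
      z.1 - σ * z.2 := by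
    field_simp
    ring
  linarith

theorem em_ineq (h : ℝ → ℝ) (z : Pl) (hz : z ∈ bd h) (σ : ℝ) : σ * z.2 - z.1 ≤ em h σ := by
  have h1 := hz (-arctan σ + π)
  rw [cos_add_pi, sin_add_pi, cos_neg, sin_neg, cos_arctan, sin_arctan] at h1
  have h2 : (0 : ℝ) < √(1 + σ ^ 2) := by positivity
  unfold em el sh
  have h3 := mul_le_mul_of_nonneg_left h1 h2.le
  have h4 : √(1 + σ ^ 2) * (z.1 * -(1 / √(1 + σ ^ 2)) + z.2 * - -(σ / √(1 + σ ^ 2))) =
      σ * z.2 - z.1 := by
    field_simp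
    ring
  linarith

theorem bounds (h : ℝ → ℝ) (z : Pl) (hz : z ∈ bd h) :
    -h (-(π / 2)) ≤ z.2 ∧ z.2 ≤ h (π / 2) := by
  have h1 := hz (π / 2)
  have h2 := hz (-(π / 2))
  rw [cos_pi_div_two, sin_pi_div_two] at h1
  rw [cos_neg, sin_neg, cos_pi_div_two, sin_pi_div_two] at h2
  constructor <;> linarith

/-- the value of `el` at `-tan θ` -/
theorem el_tan (h : ℝ → ℝ) (θ : ℝ) (h1 : -(π / 2) < θ) (h2 : θ < π / 2) :
    cos θ * el h (-tan θ) = h θ := by
  have hc : 0 < cos θ := cos_pos_of_mem_Ioo ⟨h1, h2⟩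
  unfold el
  rw [arctan_neg, neg_neg, arctan_tan h1 h2, neg_sq]
  have h3 := inv_sqrt_one_add_tan_sq hc
  have h4 : (0 : ℝ) < √(1 + tan θ ^ 2) := by positivity
  rw [← h3]
  field_simp

theorem mem_of (h : ℝ → ℝ) (hper : ∀ θ, h (θ + 2 * π) = h θ) (x y : ℝ)
    (h1 : -h (-(π / 2)) ≤ y) (h2 : y ≤ h (π / 2))
    (hl : ∀ σ, x - σ * y ≤ el h σ) (hm : ∀ σ, σ * y - x ≤ em h σ) : ((x, y) : Pl) ∈ bd h := by
  intro θ
  show x * cos θ + y * sin θ ≤ h θ
  have hp : Function.Periodic (fun θ => h θ - (x * cos θ + y * sin θ)) (2 * π) := by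
    intro θ
    show h (θ + 2 * π) - (x * cos (θ + 2 * π) + y * sin (θ + 2 * π)) =
      h θ - (x * cos θ + y * sin θ)
    rw [hper, cos_add_two_pi, sin_add_two_pi]
  obtain ⟨t, ht, hθt⟩ := hp.exists_mem_Ico two_pi_pos θ (-(π / 2))
  have key : 0 ≤ h t - (x * cos t + y * sin t) := by
    obtain ⟨ht1, ht2⟩ := ht
    rcases ht1.eq_or_lt with h3 | h3
    · rw [← h3, cos_neg, sin_neg, cos_pi_div_two, sin_pi_div_two]
      linarith
    · rcases lt_trichotomy t (π / 2) with h4 | h4 | h4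
      · have hc : 0 < cos t := cos_pos_of_mem_Ioo ⟨h3, h4⟩
        have h5 := mul_le_mul_of_nonneg_left (hl (-tan t)) hc.le
        rw [el_tan h t h3 h4] at h5
        have h6 : cos t * (x - -tan t * y) = x * cos t + y * sin t := by
          rw [← tan_mul_cos hc.ne']
          ring
        linarith
      · rw [h4, cos_pi_div_two, sin_pi_div_two]
        linarith
      · have h5 : -(π / 2) < t - π := by linarith
        have h6 : t - π < π / 2 := by linarith
        have hc : 0 < cos (t - π) := cos_pos_of_mem_Ioo ⟨h5, h6⟩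
        have h7 := mul_le_mul_of_nonneg_left (hm (-tan (t - π))) hc.le
        have h8 : cos (t - π) * em h (-tan (t - π)) = h t := by
          unfold em
          rw [el_tan (sh h π) (t - π) h5 h6]
          show h (t - π + π) = h t
          rw [sub_add_cancel]
        rw [h8] at h7
        have h9 : cos (t - π) * (-tan (t - π) * y - x) = x * cos t + y * sin t := by
          have h10 : sin (t - π) = tan (t - π) * cos (t - π) := (tan_mul_cos hc.ne').symm
          have h11 : cos (t - π) * (-tan (t - π) * y - x) =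
              -(tan (t - π) * cos (t - π)) * y - cos (t - π) * x := by ring
          rw [h11, ← h10, cos_sub_pi, sin_sub_pi]
          ring
        linarith
  have h12 : h θ - (x * cos θ + y * sin θ) = h t - (x * cos t + y * sin t) := hθt
  linarith

end MEB

open MEB

theorem specMEB (hLEG : SpecLEG) (hSPT : SpecSPT) (hFRC : SpecFRC) (hSHF : SpecSHF) :
    SpecMEB := by
  intro h hh
  have hs : Sm (sh h π) := (hSHF.1 h π hh).1
  obtain ⟨hCl, hvl, hrl⟩ := hFRC h hh
  obtain ⟨hCm, hvm, hrm⟩ := hFRC (sh h π) hs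
  have hrm' : Set.range (deriv (em h)) = Set.Ioo (-h (-(π / 2))) (h (π / 2)) := by
    show Set.range (deriv (el (sh h π))) = _
    rw [hrm]
    unfold sh
    have h1 : h (π / 2 + π) = h (-(π / 2)) := by
      rw [← hh.per (-(π / 2))]
      congr 1
      ring
    have h2 : h (-(π / 2) + π) = h (π / 2) := by
      congr 1
      ring
    rw [h1, h2]
  have hran : ∀ y, -h (-(π / 2)) < y → y < h (π / 2) →
      -y ∈ Set.range (deriv (el h)) ∧ y ∈ Set.range (deriv (em h)) := by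
    intro y h1 h2
    rw [hrl, hrm']
    exact ⟨⟨by linarith, by linarith⟩, h1, h2⟩
  have hfwd : ∀ x y, ((x, y) : Pl) ∈ bd h → lg (em h) y ≤ x ∧ x ≤ -lg (el h) (-y) := by
    intro x y hz
    have h1 := el_ineq h (x, y) hz (sl (el h) (-y))
    have h2 := em_ineq h (x, y) hz (sl (em h) y)
    simp only at h1 h2
    unfold lg
    constructor <;> nlinarith
  refine ⟨fun z hz σ => ⟨el_ineq h z hz σ, em_ineq h z hz σ⟩, fun z hz => bounds h z hz, ?_, ?_⟩
  · intro x y h1 h2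
    refine ⟨fun hz => hfwd x y hz, fun hxy => ?_⟩
    obtain ⟨hr1, hr2⟩ := hran y h1 h2
    refine mem_of h hh.per x y h1.le h2.le (fun σ => ?_) (fun σ => ?_)
    · have h3 := (hLEG (el h) hCl).2.2.2.2.1 (-y) hr1 σ
      linarith [hxy.2]
    · have h3 := (hLEG (em h) hCm).2.2.2.2.1 y hr2 σ
      linarith [hxy.1]
  · intro y h1 h2
    obtain ⟨hr1, hr2⟩ := hran y h1 h2
    refine ⟨?_, hr1, hr2⟩
    have h3 : deriv (el h) (sl (el h) (-y)) = -y := (hLEG (el h) hCl).2.2.1 (-y) hr1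
    obtain ⟨h4, h5, -⟩ := hvl (sl (el h) (-y))
    have h6 := (hSPT h hh).1 (-arctan (sl (el h) (-y)))
    have h7 : ((Xc (el h) (sl (el h) (-y)), y) : Pl) = Pt h (-arctan (sl (el h) (-y))) := by
      refine Prod.ext h5 ?_
      show y = (Pt h (-arctan (sl (el h) (-y)))).2
      linarith
    have h8 := hfwd (Xc (el h) (sl (el h) (-y))) y (by rw [h7]; exact h6.1)
    exact h8.1.trans h8.2

end C3

end Pool.MP671
end

section
/-!
# MP_671ac3_gt, C3/MIQ : mirror images and translations of the support functions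
-/
namespace Pool.MP671.C3

open MeasureTheory Real Filter Topology Pool.MP671

namespace MIQ

theorem deriv_mi (f : ℝ → ℝ) (σ : ℝ) : deriv (mi f) σ = -deriv f (-σ) := by
  unfold mi
  exact deriv_comp_neg f σ

theorem deriv2_mi (f : ℝ → ℝ) (σ : ℝ) : deriv (deriv (mi f)) σ = deriv (deriv f) (-σ) := by
  have h : deriv (mi f) = fun σ => -(deriv f (-σ)) := by
    funext σ
    exact deriv_mi f σ
  rw [h]
  have h2 : deriv (fun σ => -(deriv f (-σ))) σ = -deriv (fun σ => deriv f (-σ)) σ :=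
    deriv.fun_neg
  rw [h2, deriv_comp_neg (deriv f) σ, neg_neg]

theorem Xc_mi (f : ℝ → ℝ) (σ : ℝ) : Xc (mi f) σ = Xc f (-σ) := by
  unfold Xc
  rw [deriv_mi]
  unfold mi
  ring

theorem Psi_mi (l m : ℝ → ℝ) (r s : ℝ) :
    Psi (mi l) (mi m) r s = ((Psi l m (-r) (-s)).1, -(Psi l m (-r) (-s)).2) := by
  unfold Psi
  simp only [Xc_mi, deriv_mi]
  refine Prod.ext rfl ?_
  simp only
  ring

theorem Ln_mi (l m : ℝ → ℝ) (x : Pl) (r s r' s' : ℝ) (h : Ln (mi l) (mi m) x r s r' s') :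
    Ln l m (x.1, -x.2) (-r') (-s') (-r) (-s) := by
  have h1 := h.ht
  have h2 := h.hb
  rw [Psi_mi] at h1 h2
  have a1 : (Psi l m (-r) (-s)).1 = x.1 := by rw [← h1]
  have a2 : -(Psi l m (-r) (-s)).2 = x.2 := by rw [← h1]
  have a3 : (Psi l m (-r') (-s')).1 = x.1 := by rw [← h2]
  have a4 : -(Psi l m (-r') (-s')).2 = x.2 := by rw [← h2]
  refine ⟨neg_lt_neg h.bot, neg_lt_neg h.top, Prod.ext a3 ?_, Prod.ext a1 ?_⟩
  · simp only
    linarith
  · simp only
    linarith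

theorem Va_mi (n : ℝ → ℝ) (α : ℝ) (l m : ℝ → ℝ) (x : Pl) (r s r' s' : ℝ) :
    Va (mi n) α (mi l) (mi m) x r s r' s' = Va n α l m (x.1, -x.2) (-r') (-s') (-r) (-s) := by
  unfold Va
  have e1 : ∀ (f : ℝ → ℝ) (a b : ℝ),
      (∫ σ in a..b, (mi n σ + α * Xc (mi f) σ) * deriv (deriv (mi f)) σ) =
        ∫ σ in (-b)..(-a), (n σ + α * Xc f σ) * deriv (deriv f) σ := by
    intro f a b
    have h := intervalIntegral.integral_comp_neg (a := a) (b := b)
      (fun σ => (n σ + α * Xc f σ) * deriv (deriv f) σ)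
    rw [← h]
    refine intervalIntegral.integral_congr (fun σ _ => ?_)
    simp only [Xc_mi, deriv2_mi]
    rfl
  rw [e1, e1, deriv_mi, deriv_mi]
  simp only
  ring

theorem Cx_mi (f : ℝ → ℝ) (h : Cx f) : Cx (mi f) := by
  refine ⟨?_, ?_⟩
  · exact h.c2.comp contDiff_neg
  · intro σ
    rw [deriv2_mi]
    exact h.pos _

theorem Nm_mi (n : ℝ → ℝ) (e : ℝ) (h : Nm n e) : Nm (mi n) e := by
  have hab : ∀ a b : ℝ, |(-a) - (-b)| = |a - b| := by
    intro a b
    rw [show (-a) - (-b) = -(a - b) by ring, abs_neg]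
  refine ⟨h.e0, fun x => h.nn _, ?_, ?_⟩
  · intro a b
    have := h.lip (-a) (-b)
    rwa [hab] at this
  · intro a b
    have := h.tri (-a) (-b)
    rwa [hab] at this

theorem EqV_mi (n : ℝ → ℝ) (α : ℝ) (l m l₂ m₂ : ℝ → ℝ) (h : EqV n α l m l₂ m₂) :
    EqV (mi n) α (mi l) (mi m) (mi l₂) (mi m₂) := by
  intro x r s r' s' t u t' u' h1 h2
  rw [Va_mi, Va_mi]
  exact h _ _ _ _ _ _ _ _ _ (Ln_mi l m x r s r' s' h1) (Ln_mi l₂ m₂ x t u t' u' h2)

/-- derivative of the shifted function -/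
theorem deriv_add_aff (f : ℝ → ℝ) (hf : Differentiable ℝ f) (c₀ c₁ σ : ℝ) :
    deriv (fun σ => f σ + (c₀ + c₁ * σ)) σ = deriv f σ + c₁ := by
  have h1 : HasDerivAt f (deriv f σ) σ := (hf σ).hasDerivAt
  have h2 : HasDerivAt (fun σ : ℝ => c₀ + c₁ * σ) c₁ σ := by
    have := ((hasDerivAt_id σ).const_mul c₁).const_add c₀
    simpa using this
  exact (h1.add h2).deriv

theorem deriv2_add_aff (f : ℝ → ℝ) (hf : Differentiable ℝ f) (c₀ c₁ σ : ℝ) :
    deriv (deriv (fun σ => f σ + (c₀ + c₁ * σ))) σ = deriv (deriv f) σ := by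
  have h : deriv (fun σ => f σ + (c₀ + c₁ * σ)) = fun σ => deriv f σ + c₁ := by
    funext σ
    exact deriv_add_aff f hf c₀ c₁ σ
  rw [h]
  exact deriv_add_const c₁

theorem Cx_add_aff (f : ℝ → ℝ) (hf : Cx f) (c₀ c₁ : ℝ) : Cx (fun σ => f σ + (c₀ + c₁ * σ)) := by
  have hd : Differentiable ℝ f := hf.c2.differentiable (by norm_num)
  refine ⟨?_, ?_⟩
  · have h2 : ContDiff ℝ 2 (fun σ : ℝ => c₀ + c₁ * σ) := by fun_prop
    exact hf.c2.add h2
  · intro σ
    rw [deriv2_add_aff f hd]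
    exact hf.pos σ

theorem Xc_add_aff (f : ℝ → ℝ) (hf : Differentiable ℝ f) (c₀ c₁ σ : ℝ) :
    Xc (fun σ => f σ + (c₀ + c₁ * σ)) σ = Xc f σ + c₀ := by
  unfold Xc
  rw [deriv_add_aff f hf]
  ring

theorem c1_d (f : ℝ → ℝ) (hf : Cx f) : ContDiff ℝ 1 (deriv f) := by
  have h2 : ContDiff ℝ (1 + 1) f := by
    have := hf.c2
    norm_num
    exact this
  exact (contDiff_succ_iff_deriv.1 h2).2.2

theorem cont_d2 (f : ℝ → ℝ) (hf : Cx f) : Continuous (deriv (deriv f)) :=
  (c1_d f hf).continuous_deriv le_rfl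

theorem cont_Xc (f : ℝ → ℝ) (hf : Cx f) : Continuous (Xc f) := by
  have h1 : Continuous (deriv f) := hf.c2.continuous_deriv (by norm_num)
  have h0 : Continuous f := hf.c2.continuous
  unfold Xc
  fun_prop

theorem int_d2 (f : ℝ → ℝ) (hf : Cx f) (a b : ℝ) :
    (∫ σ in a..b, deriv (deriv f) σ) = deriv f b - deriv f a := by
  refine intervalIntegral.integral_deriv_eq_sub (fun σ _ => ?_)
    ((cont_d2 f hf).intervalIntegrable _ _)
  exact ((c1_d f hf).differentiable one_ne_zero) σ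

/-- the integral for the shifted function -/
theorem int_aff (n : ℝ → ℝ) (hn : Continuous n) (α : ℝ) (f : ℝ → ℝ) (hf : Cx f) (c₀ c₁ a b : ℝ) :
    (∫ σ in a..b, (n σ + α * Xc (fun σ => f σ + (c₀ + c₁ * σ)) σ)
        * deriv (deriv (fun σ => f σ + (c₀ + c₁ * σ))) σ) =
      (∫ σ in a..b, (n σ + α * Xc f σ) * deriv (deriv f) σ)
        + α * c₀ * (deriv f b - deriv f a) := by
  have hd : Differentiable ℝ f := hf.c2.differentiable (by norm_num)
  rw [← int_d2 f hf a b, ← intervalIntegral.integral_const_mul,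
    ← intervalIntegral.integral_add]
  · refine intervalIntegral.integral_congr (fun σ _ => ?_)
    show (n σ + α * Xc (fun σ => f σ + (c₀ + c₁ * σ)) σ)
        * deriv (deriv (fun σ => f σ + (c₀ + c₁ * σ))) σ =
      (n σ + α * Xc f σ) * deriv (deriv f) σ + α * c₀ * deriv (deriv f) σ
    rw [Xc_add_aff f hd, deriv2_add_aff f hd]
    ring
  · exact ((hn.add ((cont_Xc f hf).const_mul α)).mul (cont_d2 f hf)).intervalIntegrable _ _
  · exact ((cont_d2 f hf).const_mul _).intervalIntegrable _ _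

theorem Ln_aff (l m : ℝ → ℝ) (hl : Cx l) (hm : Cx m) (c₀ c₁ : ℝ) (x : Pl) (r s r' s' : ℝ)
    (h : Ln (fun σ => l σ + (-c₀ + -c₁ * σ)) (fun σ => m σ + (c₀ + c₁ * σ)) x r s r' s') :
    Ln l m x r s r' s' := by
  have hdl : Differentiable ℝ l := hl.c2.differentiable (by norm_num)
  have hdm : Differentiable ℝ m := hm.c2.differentiable (by norm_num)
  have key : ∀ r s, Psi (fun σ => l σ + (-c₀ + -c₁ * σ)) (fun σ => m σ + (c₀ + c₁ * σ)) r s
      = Psi l m r s := by
    intro r s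
    unfold Psi
    rw [Xc_add_aff l hdl, Xc_add_aff m hdm, deriv_add_aff l hdl, deriv_add_aff m hdm]
    refine Prod.ext ?_ ?_
    · simp only
      ring
    · simp only
      ring
  refine ⟨h.top, h.bot, ?_, ?_⟩
  · rw [← key]
    exact h.ht
  · rw [← key]
    exact h.hb

theorem Va_aff (n : ℝ → ℝ) (hn : Continuous n) (α : ℝ) (l m : ℝ → ℝ) (hl : Cx l) (hm : Cx m)
    (c₀ c₁ : ℝ) (x : Pl) (r s r' s' : ℝ) (h : Ln l m x r s r' s') :
    Va n α (fun σ => l σ + (-c₀ + -c₁ * σ)) (fun σ => m σ + (c₀ + c₁ * σ)) x r s r' s'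
      = Va n α l m x r s r' s' := by
  have hdl : Differentiable ℝ l := hl.c2.differentiable (by norm_num)
  have h1 := congrArg Prod.snd h.ht
  have h2 := congrArg Prod.snd h.hb
  unfold Psi at h1 h2
  simp only at h1 h2
  unfold Va
  rw [int_aff n hn α l hl, int_aff n hn α m hm, deriv_add_aff l hdl, deriv_add_aff l hdl]
  have h3 : deriv m s - deriv m s' = deriv l r' - deriv l r := by linarith
  rw [h3]
  ring

end MIQ

open MIQ in
theorem specMIQ : SpecMIQ := by
  refine ⟨fun f hf => ⟨Cx_mi f hf, deriv2_mi f⟩, fun n e h => Nm_mi n e h,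
    fun n α l m l₂ m₂ h => EqV_mi n α l m l₂ m₂ h, ?_⟩
  intro n α l m l₂ m₂ c₀ c₁ hn hl hm h
  have e1 : (fun σ => l₂ σ - (c₀ + c₁ * σ)) = fun σ => l₂ σ + (-c₀ + -c₁ * σ) := by
    funext σ
    ring
  rw [e1]
  refine ⟨Cx_add_aff l₂ hl _ _, Cx_add_aff m₂ hm _ _, ?_⟩
  intro x r s r' s' t u t' u' h1 h2
  have h3 := Ln_aff l₂ m₂ hl hm c₀ c₁ x t u t' u' h2
  rw [Va_aff n hn α l₂ m₂ hl hm c₀ c₁ x t u t' u' h3]
  exact h _ _ _ _ _ _ _ _ _ h1 h3

end Pool.MP671.C3
end

section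
/-!
# MP_671ac3_gt, C3, module MXI: a maximal interval of a closed set around an interior point
-/
set_option autoImplicit false

namespace Pool.MP671.C3

open Set Filter Topology

namespace MXI

theorem right (S : Set ℝ) (σ B : ℝ) (hS : IsClosed S) (hσ : S ∈ 𝓝 σ) (hB : B ∉ S)
    (h : σ < B) : ∃ b, σ < b ∧ Set.Icc σ b ⊆ S ∧ ¬ ∃ δ > 0, Set.Ioo b (b + δ) ⊆ S := by
  set T : Set ℝ := {x | σ ≤ x ∧ Set.Icc σ x ⊆ S} with hT
  have hbd : BddAbove T := ⟨B, fun x hx => by
    by_contra hc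
    push Not at hc
    exact hB (hx.2 ⟨h.le, hc.le⟩)⟩
  obtain ⟨ε, hε, hεS⟩ := Metric.mem_nhds_iff.1 hσ
  have h1 : σ + ε / 2 ∈ T := by
    refine ⟨by linarith, fun x hx => hεS ?_⟩
    rw [Metric.mem_ball, Real.dist_eq, abs_lt]
    constructor <;> linarith [hx.1, hx.2]
  have hle : σ + ε / 2 ≤ sSup T := le_csSup hbd h1
  have hσb : σ < sSup T := by linarith
  have hIco : Set.Ico σ (sSup T) ⊆ S := by
    intro y hy
    obtain ⟨x, hx, hyx⟩ := exists_lt_of_lt_csSup ⟨_, h1⟩ hy.2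
    exact hx.2 ⟨hy.1, hyx.le⟩
  have hIcc : Set.Icc σ (sSup T) ⊆ S := by
    rw [← closure_Ico hσb.ne]
    exact hS.closure_subset_iff.2 hIco
  refine ⟨sSup T, hσb, hIcc, ?_⟩
  rintro ⟨δ, hδ, hδS⟩
  have h2 : sSup T + δ / 2 ∈ T := by
    refine ⟨by linarith, fun x hx => ?_⟩
    rcases le_or_gt x (sSup T) with h3 | h3
    · exact hIcc ⟨hx.1, h3⟩
    · exact hδS ⟨h3, by linarith [hx.2]⟩
  linarith [le_csSup hbd h2]

end MXI

theorem specMXI : SpecMXI := by
  intro S σ A B hS hσ hA hB hAσ hσB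
  obtain ⟨b, hb1, hb2, hb3⟩ := MXI.right S σ B hS hσ hB hσB
  have hS' : IsClosed {x : ℝ | -x ∈ S} := hS.preimage continuous_neg
  have hσ' : {x : ℝ | -x ∈ S} ∈ 𝓝 (-σ) := by
    have h1 : Tendsto (fun x : ℝ => -x) (𝓝 (-σ)) (𝓝 (- -σ)) := continuous_neg.tendsto _
    rw [neg_neg] at h1
    exact h1 hσ
  obtain ⟨a, ha1, ha2, ha3⟩ := MXI.right {x : ℝ | -x ∈ S} (-σ) (-A) hS' hσ'
    (fun h => hA (by simpa using h)) (by linarith)
  refine ⟨-a, b, by linarith, hb1, fun x hx => ?_, hb3, ?_⟩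
  · rcases le_or_gt σ x with h1 | h1
    · exact hb2 ⟨h1, hx.2⟩
    · have h2 : -x ∈ {x : ℝ | -x ∈ S} := ha2 ⟨by linarith, by linarith [hx.1]⟩
      simpa using h2
  · rintro ⟨δ, hδ, hδS⟩
    refine ha3 ⟨δ, hδ, fun x hx => ?_⟩
    exact hδS ⟨by linarith [hx.2], by linarith [hx.1]⟩

end Pool.MP671.C3
end

section
/-!
# MP_671ac3_gt, bodies of class C²₊ : SHF (shifts of the angle)
-/
namespace Pool.MP671.C3.SHF

open MeasureTheory Real Filter Topology Pool.MP671

theorem deriv_sh (h : ℝ → ℝ) (a θ : ℝ) : deriv (sh h a) θ = deriv h (θ + a) :=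
  deriv_comp_add_const h a θ

theorem deriv_sh' (h : ℝ → ℝ) (a : ℝ) : deriv (sh h a) = sh (deriv h) a :=
  funext fun θ => deriv_sh h a θ

theorem sm_sh {h : ℝ → ℝ} (hh : Sm h) (a : ℝ) : Sm (sh h a) where
  c2 := hh.c2.comp (contDiff_id.add contDiff_const)
  per := fun θ => by
    show h (θ + 2 * π + a) = h (θ + a)
    rw [show θ + 2 * π + a = θ + a + 2 * π by ring, hh.per]
  pos := fun θ => by
    rw [deriv_sh', deriv_sh]
    exact hh.pos (θ + a)

theorem rc_sh (h : ℝ → ℝ) (a θ : ℝ) : Rc (sh h a) θ = Rc h (θ + a) := by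
  unfold Rc
  rw [deriv_sh', deriv_sh]
  rfl

theorem fr_bd (h : ℝ → ℝ) (a : ℝ) : fr (vv a) (bd h) = bd (sh h a) := by
  ext z
  show (∀ θ, (mul (vv a) z).1 * cos θ + (mul (vv a) z).2 * sin θ ≤ h θ) ↔
    ∀ θ, z.1 * cos θ + z.2 * sin θ ≤ h (θ + a)
  have key : ∀ θ, (mul (vv a) z).1 * cos (θ + a) + (mul (vv a) z).2 * sin (θ + a) =
      z.1 * cos θ + z.2 * sin θ := by
    intro θ
    have h1 := sin_sq_add_cos_sq a
    simp only [mul, vv, cos_add, sin_add]
    have e : (cos a * z.1 - sin a * z.2) * (cos θ * cos a - sin θ * sin a) +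
        (sin a * z.1 + cos a * z.2) * (sin θ * cos a + cos θ * sin a) =
        (sin a ^ 2 + cos a ^ 2) * (z.1 * cos θ + z.2 * sin θ) := by ring
    rw [e, h1, one_mul]
  constructor
  · intro H θ
    rw [← key θ]
    exact H (θ + a)
  · intro H θ
    have := H (θ - a)
    rw [← key, sub_add_cancel] at this
    exact this

theorem refl_bd {h : ℝ → ℝ} (hh : Sm h) : refl (bd h) = bd (sh h π) := by
  ext z
  have e : z ∈ refl (bd h) ↔ -z ∈ bd h := by
    constructor
    · rintro ⟨w, hw, rfl⟩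
      simpa using hw
    · intro hz
      exact ⟨-z, hz, by simp⟩
  rw [e]
  show (∀ θ, (-z).1 * cos θ + (-z).2 * sin θ ≤ h θ) ↔ ∀ θ, z.1 * cos θ + z.2 * sin θ ≤ h (θ + π)
  constructor
  · intro H θ
    have := H (θ + π)
    rw [cos_add_pi, sin_add_pi] at this
    simpa using this
  · intro H θ
    have := H (θ + π)
    rw [cos_add_pi, sin_add_pi, show θ + π + π = θ + 2 * π by ring, hh.per] at this
    simpa using this

theorem tr_bd (h : ℝ → ℝ) (c : Pl) :
    tr c (bd h) = bd (fun θ => h θ + c.1 * cos θ + c.2 * sin θ) := by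
  ext z
  have e : z ∈ tr c (bd h) ↔ z - c ∈ bd h := by
    constructor
    · rintro ⟨w, hw, rfl⟩
      simpa using hw
    · intro hz
      exact ⟨z - c, hz, by simp⟩
  rw [e]
  show (∀ θ, (z - c).1 * cos θ + (z - c).2 * sin θ ≤ h θ) ↔
    ∀ θ, z.1 * cos θ + z.2 * sin θ ≤ h θ + c.1 * cos θ + c.2 * sin θ
  refine forall_congr' fun θ => ?_
  simp only [Prod.fst_sub, Prod.snd_sub]
  constructor
  · intro H
    nlinarith
  · intro H
    nlinarith

theorem cont_rc {h : ℝ → ℝ} (hh : Sm h) : Continuous (Rc h) := by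
  have h1 : ContDiff ℝ 1 (deriv h) := by
    have := (contDiff_succ_iff_deriv (n := 1) (f := h) (𝕜 := ℝ)).1 (by exact_mod_cast hh.c2)
    exact this.2.2
  exact hh.c2.continuous.add (contDiff_one_iff_deriv.1 h1).2

theorem per_rc {h : ℝ → ℝ} (hh : Sm h) (θ : ℝ) : Rc h (θ + 2 * π) = Rc h θ := by
  rw [← rc_sh]
  congr 1
  funext θ
  exact hh.per θ

theorem pt_sh (h : ℝ → ℝ) (θ : ℝ) : Pt (sh h π) θ = -Pt h (θ + π) := by
  unfold Pt
  rw [deriv_sh, cos_add_pi, sin_add_pi]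
  ext
  · simp only [sh, Prod.fst_neg]
    ring
  · simp only [sh, Prod.snd_neg]
    ring

end Pool.MP671.C3.SHF

namespace Pool.MP671.C3

theorem specSHF : SpecSHF :=
  ⟨fun h a hh => ⟨SHF.sm_sh hh a, SHF.deriv_sh h a, SHF.rc_sh h a, SHF.fr_bd h a⟩,
    fun _ hh => SHF.refl_bd hh, SHF.tr_bd, fun _ hh => ⟨SHF.per_rc hh, SHF.cont_rc hh⟩, SHF.pt_sh⟩

end Pool.MP671.C3
end

section
/-!
# MP_671ac3_gt, C3: module SPT (the support function of `bd h` is `h`)
-/
namespace Pool.MP671.C3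

open MeasureTheory Real Filter Topology

namespace SPT

theorem d1 {h : ℝ → ℝ} (hh : Sm h) (θ : ℝ) : HasDerivAt h (deriv h θ) θ :=
  (hh.c2.differentiable (by norm_num) θ).hasDerivAt

theorem d2 {h : ℝ → ℝ} (hh : Sm h) (θ : ℝ) : HasDerivAt (deriv h) (deriv (deriv h) θ) θ := by
  have h1 : ContDiff ℝ 1 (deriv h) := by
    have := hh.c2
    rw [show (2 : WithTop ℕ∞) = 1 + 1 from rfl, contDiff_succ_iff_deriv] at this
    exact this.2.2
  exact (h1.differentiable (by norm_num) θ).hasDerivAt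

theorem dper {h : ℝ → ℝ} (hh : Sm h) (θ : ℝ) : deriv h (θ + 2 * π) = deriv h θ := by
  have h1 : HasDerivAt (fun x => h (x + 2 * π)) (deriv h (θ + 2 * π)) θ :=
    (d1 hh (θ + 2 * π)).comp_add_const θ (2 * π)
  have h2 : (fun x => h (x + 2 * π)) = h := funext hh.per
  rw [h2] at h1
  exact h1.deriv.symm

/-- the function whose derivative is `Rc h s * sin (τ - s)` -/
noncomputable def G (h : ℝ → ℝ) (τ s : ℝ) : ℝ := deriv h s * sin (τ - s) + h s * cos (τ - s)

theorem dG {h : ℝ → ℝ} (hh : Sm h) (τ s : ℝ) :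
    HasDerivAt (G h τ) ((h s + deriv (deriv h) s) * sin (τ - s)) s := by
  have h1 : HasDerivAt (fun x => τ - x) (-1) s := by
    simpa using (hasDerivAt_id s).const_sub τ
  have h2 : HasDerivAt (fun x => sin (τ - x)) (cos (τ - s) * (-1)) s := h1.sin
  have h3 : HasDerivAt (fun x => cos (τ - x)) (-sin (τ - s) * (-1)) s := h1.cos
  have h4 : HasDerivAt (G h τ) (deriv (deriv h) s * sin (τ - s) + deriv h s * (cos (τ - s) * (-1))
      + (deriv h s * cos (τ - s) + h s * (-sin (τ - s) * (-1)))) s :=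
    ((d2 hh s).mul h2).add ((d1 hh s).mul h3)
  exact h4.congr_deriv (by ring)

theorem up {h : ℝ → ℝ} (hh : Sm h) (θ τ : ℝ) (h1 : θ < τ) (h2 : τ ≤ θ + π) :
    G h τ θ < h τ := by
  have h3 : StrictMonoOn (G h τ) (Set.Icc θ τ) := by
    refine strictMonoOn_of_deriv_pos (convex_Icc θ τ)
      (fun x _ => (dG hh τ x).continuousAt.continuousWithinAt) ?_
    intro x hx
    rw [interior_Icc] at hx
    rw [(dG hh τ x).deriv]
    refine mul_pos (hh.pos x) (sin_pos_of_pos_of_lt_pi ?_ ?_)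
    · linarith [hx.2]
    · linarith [hx.1]
  have h4 := h3 ⟨le_refl θ, h1.le⟩ ⟨h1.le, le_refl τ⟩ h1
  have h5 : G h τ τ = h τ := by simp [G]
  rwa [h5] at h4

theorem dn {h : ℝ → ℝ} (hh : Sm h) (θ τ : ℝ) (h1 : τ < θ) (h2 : θ - π ≤ τ) :
    G h τ θ < h τ := by
  have h3 : StrictAntiOn (G h τ) (Set.Icc τ θ) := by
    refine strictAntiOn_of_deriv_neg (convex_Icc τ θ)
      (fun x _ => (dG hh τ x).continuousAt.continuousWithinAt) ?_
    intro x hx
    rw [interior_Icc] at hx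
    rw [(dG hh τ x).deriv]
    refine mul_neg_of_pos_of_neg (hh.pos x) (sin_neg_of_neg_of_neg_pi_lt ?_ ?_)
    · linarith [hx.1]
    · linarith [hx.2]
  have h4 := h3 ⟨le_refl τ, h1.le⟩ ⟨h1.le, le_refl θ⟩ h1
  have h5 : G h τ τ = h τ := by simp [G]
  rwa [h5] at h4

theorem ptG (h : ℝ → ℝ) (θ τ : ℝ) :
    (Pt h θ).1 * cos τ + (Pt h θ).2 * sin τ = G h τ θ := by
  simp only [Pt, G, sin_sub, cos_sub]
  ring

/-- the difference -/
noncomputable def D (h : ℝ → ℝ) (θ τ : ℝ) : ℝ :=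
  h τ - ((Pt h θ).1 * cos τ + (Pt h θ).2 * sin τ)

theorem key {h : ℝ → ℝ} (hh : Sm h) (θ τ : ℝ) :
    0 ≤ D h θ τ ∧ (D h θ τ = 0 → cos (τ - θ) = 1) := by
  have hp : Function.Periodic (fun x => (D h θ x, cos (x - θ))) (2 * π) := by
    intro x
    simp only [Prod.mk.injEq]
    constructor
    · simp only [D, hh.per, cos_add_two_pi, sin_add_two_pi]
    · rw [show x + 2 * π - θ = (x - θ) + 2 * π by ring, cos_add_two_pi]
  obtain ⟨y, hy, hxy⟩ := hp.exists_mem_Ioc two_pi_pos τ (θ - π)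
  simp only [Prod.mk.injEq] at hxy
  rw [hxy.1, hxy.2]
  have hD : D h θ y = h y - G h y θ := by rw [D, ptG]
  rcases lt_trichotomy y θ with h1 | h1 | h1
  · have := dn hh θ y h1 hy.1.le
    refine ⟨by rw [hD]; linarith, fun h0 => ?_⟩
    rw [hD] at h0
    linarith
  · subst h1
    refine ⟨?_, fun _ => by rw [sub_self, cos_zero]⟩
    rw [hD]
    simp [G]
  · have := up hh θ y h1 (by linarith [hy.2])
    refine ⟨by rw [hD]; linarith, fun h0 => ?_⟩
    rw [hD] at h0
    linarith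

theorem pt_mem {h : ℝ → ℝ} (hh : Sm h) (θ : ℝ) : Pt h θ ∈ bd h := by
  intro τ
  have := (key hh θ τ).1
  simp only [D] at this
  linarith

theorem pt_self (h : ℝ → ℝ) (θ : ℝ) : (Pt h θ).1 * cos θ + (Pt h θ).2 * sin θ = h θ := by
  rw [ptG]
  simp [G]

theorem conv (h : ℝ → ℝ) : Convex ℝ (bd h) := by
  intro z hz w hw a b ha hb hab θ
  have h1 := mul_le_mul_of_nonneg_left (hz θ) ha
  have h2 := mul_le_mul_of_nonneg_left (hw θ) hb
  have h3 : a * h θ + b * h θ = h θ := by rw [← add_mul, hab, one_mul]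
  simp only [Prod.fst_add, Prod.snd_add, Prod.smul_fst, Prod.smul_snd, smul_eq_mul]
  linarith

theorem closed (h : ℝ → ℝ) : IsClosed (bd h) := by
  have : bd h = ⋂ θ, {z : Pl | z.1 * cos θ + z.2 * sin θ ≤ h θ} := by
    ext z
    simp [bd]
  rw [this]
  exact isClosed_iInter fun θ => isClosed_le (by fun_prop) continuous_const

theorem compact (h : ℝ → ℝ) : IsCompact (bd h) := by
  have h1 : IsCompact (Set.Icc ((-h π, -h (-(π / 2))) : Pl) (h 0, h (π / 2))) := isCompact_Icc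
  refine h1.of_isClosed_subset (closed h) ?_
  intro z hz
  have e1 := hz 0
  have e2 := hz π
  have e3 := hz (π / 2)
  have e4 := hz (-(π / 2))
  rw [cos_zero, sin_zero] at e1
  rw [cos_pi, sin_pi] at e2
  rw [cos_pi_div_two, sin_pi_div_two] at e3
  rw [cos_neg, sin_neg, cos_pi_div_two, sin_pi_div_two] at e4
  refine ⟨Prod.mk_le_mk.2 ⟨?_, ?_⟩, Prod.mk_le_mk.2 ⟨?_, ?_⟩⟩ <;> linarith

/-- a point in the interior -/
theorem inner {h : ℝ → ℝ} (hh : Sm h) :
    ∃ c : Pl, ∀ τ, 0 < h τ - (c.1 * cos τ + c.2 * sin τ) := by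
  refine ⟨(((Pt h 0).1 + (Pt h π).1) / 2, ((Pt h 0).2 + (Pt h π).2) / 2), fun τ => ?_⟩
  have k1 := key hh 0 τ
  have k2 := key hh π τ
  have e : h τ - ((((Pt h 0).1 + (Pt h π).1) / 2) * cos τ +
      (((Pt h 0).2 + (Pt h π).2) / 2) * sin τ) = (D h 0 τ + D h π τ) / 2 := by
    simp only [D]
    ring
  show 0 < h τ - ((((Pt h 0).1 + (Pt h π).1) / 2) * cos τ +
      (((Pt h 0).2 + (Pt h π).2) / 2) * sin τ)
  rw [e]
  by_contra hcon
  have h0 : D h 0 τ = 0 := by linarith [k1.1, k2.1]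
  have h1 : D h π τ = 0 := by linarith [k1.1, k2.1]
  have c0 := k1.2 h0
  have c1 := k2.2 h1
  rw [sub_zero] at c0
  rw [cos_sub_pi, c0] at c1
  norm_num at c1

theorem cont {h : ℝ → ℝ} (hh : Sm h) : Continuous h := hh.c2.continuous

theorem int_ne {h : ℝ → ℝ} (hh : Sm h) : (interior (bd h)).Nonempty := by
  obtain ⟨c, hc⟩ := inner hh
  have hF : Continuous (fun τ => h τ - (c.1 * cos τ + c.2 * sin τ)) := by
    have := cont hh
    fun_prop
  obtain ⟨t, _, ht⟩ := (isCompact_Icc (a := (0 : ℝ)) (b := 2 * π)).exists_isMinOn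
    ⟨0, ⟨le_refl _, two_pi_pos.le⟩⟩ hF.continuousOn
  have hδ := hc t
  have hmin : ∀ τ, h t - (c.1 * cos t + c.2 * sin t) ≤ h τ - (c.1 * cos τ + c.2 * sin τ) := by
    intro τ
    have hp : Function.Periodic (fun τ => h τ - (c.1 * cos τ + c.2 * sin τ)) (2 * π) := by
      intro x
      simp only [hh.per, cos_add_two_pi, sin_add_two_pi]
    obtain ⟨y, hy, hxy⟩ := hp.exists_mem_Ico₀ two_pi_pos τ
    rw [hxy]
    exact ht ⟨hy.1, hy.2.le⟩
  refine ⟨c, ?_⟩
  rw [mem_interior_iff_mem_nhds, Metric.mem_nhds_iff]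
  refine ⟨(h t - (c.1 * cos t + c.2 * sin t)) / 2, by linarith, ?_⟩
  intro z hz τ
  rw [Metric.mem_ball, Prod.dist_eq, max_lt_iff, Real.dist_eq, Real.dist_eq] at hz
  have a1 : (z.1 - c.1) * cos τ ≤ |z.1 - c.1| := by
    calc (z.1 - c.1) * cos τ ≤ |(z.1 - c.1) * cos τ| := le_abs_self _
      _ = |z.1 - c.1| * |cos τ| := abs_mul _ _
      _ ≤ |z.1 - c.1| * 1 := mul_le_mul_of_nonneg_left (abs_cos_le_one τ) (abs_nonneg _)
      _ = |z.1 - c.1| := mul_one _
  have a2 : (z.2 - c.2) * sin τ ≤ |z.2 - c.2| := by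
    calc (z.2 - c.2) * sin τ ≤ |(z.2 - c.2) * sin τ| := le_abs_self _
      _ = |z.2 - c.2| * |sin τ| := abs_mul _ _
      _ ≤ |z.2 - c.2| * 1 := mul_le_mul_of_nonneg_left (abs_sin_le_one τ) (abs_nonneg _)
      _ = |z.2 - c.2| := mul_one _
  have a3 := hmin τ
  have a4 : z.1 * cos τ + z.2 * sin τ =
      (c.1 * cos τ + c.2 * sin τ) + ((z.1 - c.1) * cos τ + (z.2 - c.2) * sin τ) := by ring
  rw [a4]
  linarith [hz.1, hz.2]

theorem wid {h : ℝ → ℝ} (hh : Sm h) (θ : ℝ) : 0 < h θ + h (θ + π) := by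
  obtain ⟨c, hc⟩ := inner hh
  have h1 := hc θ
  have h2 := hc (θ + π)
  rw [cos_add_pi, sin_add_pi] at h2
  linarith

end SPT

open SPT in
theorem specSPT : SpecSPT := by
  intro h hh
  exact ⟨fun θ => ⟨pt_mem hh θ, pt_self h θ⟩, ⟨conv h, compact h⟩, int_ne hh, wid hh⟩

end Pool.MP671.C3
end

section
/-!
# MP_671ac3_gt, C3/STC : the norms and the areas agree, and the radii of curvature up to exchange
-/
namespace Pool.MP671.C3

open MeasureTheory Real Filter Topology Pool.MP671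

namespace STC

theorem vv_ne (a : ℝ) : vv a ≠ 0 := by
  intro h
  have h1 : cos a = 0 := congrArg Prod.fst h
  have h2 : sin a = 0 := congrArg Prod.snd h
  have h3 := cos_sq_add_sin_sq a
  rw [h1, h2] at h3
  norm_num at h3

theorem mul10 (a : ℝ) : mul (vv a) (1, 0) = vv a := by
  unfold mul vv
  refine Prod.ext ?_ ?_ <;> simp

theorem mul01 (a : ℝ) : mul (vv a) (0, 1) = vv (a + π / 2) := by
  unfold mul vv
  rw [cos_add_pi_div_two, sin_add_pi_div_two]
  refine Prod.ext ?_ ?_ <;> simp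

theorem polar (v : Pl) : ∃ t a : ℝ, v = t • vv a := by
  refine ⟨‖(⟨v.1, v.2⟩ : ℂ)‖, Complex.arg ⟨v.1, v.2⟩, ?_⟩
  refine Prod.ext ?_ ?_
  · have := Complex.norm_mul_cos_arg (⟨v.1, v.2⟩ : ℂ)
    simp only [vv, Prod.smul_fst, smul_eq_mul]
    exact this.symm
  · have := Complex.norm_mul_sin_arg (⟨v.1, v.2⟩ : ℂ)
    simp only [vv, Prod.smul_snd, smul_eq_mul]
    exact this.symm

theorem cov_zero (φ : Set Pl → ℝ) (K : Set Pl) : cov φ K (0, 0) = φ K := by
  unfold cov tr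
  have h : (fun z : Pl => z + ((0 : ℝ), (0 : ℝ))) '' K = K := by
    have h1 : (fun z : Pl => z + ((0 : ℝ), (0 : ℝ))) = id := by
      funext z
      refine Prod.ext ?_ ?_ <;> simp
    rw [h1, Set.image_id]
  rw [h, Set.inter_self]

theorem comb (A B C : ℝ) (hs : sin (B - A) ≠ 0) :
    vv C = (sin (B - C) / sin (B - A)) • vv A + (sin (C - A) / sin (B - A)) • vv B := by
  have e1 : sin (B - C) * cos A + sin (C - A) * cos B = cos C * sin (B - A) := by
    rw [sin_sub, sin_sub, sin_sub]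
    ring
  have e2 : sin (B - C) * sin A + sin (C - A) * sin B = sin C * sin (B - A) := by
    rw [sin_sub, sin_sub, sin_sub]
    ring
  refine Prod.ext ?_ ?_
  · simp only [vv, Prod.fst_add, Prod.smul_fst, smul_eq_mul]
    rw [div_mul_eq_mul_div, div_mul_eq_mul_div, ← add_div, e1, mul_div_assoc, div_self hs, mul_one]
  · simp only [vv, Prod.snd_add, Prod.smul_snd, smul_eq_mul]
    rw [div_mul_eq_mul_div, div_mul_eq_mul_div, ← add_div, e2, mul_div_assoc, div_self hs, mul_one]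

/-- two independent null directions -/
theorem null (hSEG : SpecSEG) (hNUL : SpecNUL) (φ : Set Pl → ℝ) (hφ : IsPhi φ) (A B C : ℝ)
    (hs : sin (B - A) ≠ 0) (hA : nrm φ (vv A) = 0) (hB : nrm φ (vv B) = 0) :
    nrm φ (vv C) = 0 := by
  obtain ⟨_, h2, h3⟩ := hSEG φ hφ
  refine le_antisymm ?_ (h3 _)
  rw [comb A B C hs]
  refine (hNUL φ hφ _ _).trans ?_
  rw [h2, h2, hA, hB]
  simp

theorem d1_sum (h : ℝ → ℝ) (hh : Sm h) (θ : ℝ) :
    deriv (fun θ => h θ + h (θ + π)) θ = deriv h θ + deriv h (θ + π) := by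
  have hd : Differentiable ℝ h := hh.c2.differentiable (by norm_num)
  have h1 : HasDerivAt h (deriv h θ) θ := (hd θ).hasDerivAt
  have h2 : HasDerivAt (fun θ => h (θ + π)) (deriv h (θ + π)) θ :=
    ((hd (θ + π)).hasDerivAt).comp_add_const θ π
  exact (h1.add h2).deriv

theorem c1_d (h : ℝ → ℝ) (hh : Sm h) : ContDiff ℝ 1 (deriv h) := by
  have h2 : ContDiff ℝ (1 + 1) h := by
    have := hh.c2
    norm_num
    exact this
  exact (contDiff_succ_iff_deriv.1 h2).2.2

theorem d2_sum (h : ℝ → ℝ) (hh : Sm h) (θ : ℝ) :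
    deriv (deriv (fun θ => h θ + h (θ + π))) θ = deriv (deriv h) θ + deriv (deriv h) (θ + π) := by
  have hd : Differentiable ℝ (deriv h) := (c1_d h hh).differentiable one_ne_zero
  have h0 : deriv (fun θ => h θ + h (θ + π)) = fun θ => deriv h θ + deriv h (θ + π) := by
    funext θ
    exact d1_sum h hh θ
  rw [h0]
  have h1 : HasDerivAt (deriv h) (deriv (deriv h) θ) θ := (hd θ).hasDerivAt
  have h2 : HasDerivAt (fun θ => deriv h (θ + π)) (deriv (deriv h) (θ + π)) θ :=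
    ((hd (θ + π)).hasDerivAt).comp_add_const θ π
  exact (h1.add h2).deriv

/-- the unit square -/
theorem square (φ : Set Pl → ℝ) (α : ℝ) (hα : IsAl φ α) (h0 : ∀ v, nrm φ v = 0)
    (hpos : ∀ A, CC A → (interior A).Nonempty → 0 < φ A) : 0 < α := by
  have h1 := hα 0 1 0 0 1 0 zero_le_one zero_le_one (by norm_num)
  have e1 : ee φ = 0 := h0 _
  have e2 : nn φ 0 = 0 := h0 _
  rw [e1, e2] at h1
  have e3 : prof 0 (0 + 1) (fun z => 0 + 0 * (z - 0)) (fun z => 1 + 0 * (z - 0)) =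
      Set.Icc (0 : ℝ) 1 ×ˢ Set.Icc (0 : ℝ) 1 := by
    ext z
    simp only [prof, Set.mem_ofPred_eq, Set.mem_prod, Set.mem_Icc]
    constructor
    · rintro ⟨a1, a2, a3, a4⟩
      exact ⟨⟨by linarith, by linarith⟩, by linarith, by linarith⟩
    · rintro ⟨⟨a1, a2⟩, a3, a4⟩
      exact ⟨by linarith, by linarith, by linarith, by linarith⟩
  rw [e3] at h1
  have h2 := hpos (Set.Icc (0 : ℝ) 1 ×ˢ Set.Icc (0 : ℝ) 1)
    ⟨(convex_Icc 0 1).prod (convex_Icc 0 1), isCompact_Icc.prod isCompact_Icc⟩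
    (by
      rw [interior_prod_eq, interior_Icc]
      exact ⟨(1 / 2, 1 / 2), ⟨⟨by norm_num, by norm_num⟩, ⟨by norm_num, by norm_num⟩⟩⟩)
  rw [h1] at h2
  norm_num at h2
  exact h2

end STC

open STC in
theorem specSTC (hEXO : SpecEXO) (hTHN : SpecTHN) (hCCC : SpecCCC) (hALF : SpecALF)
    (hFRM : SpecFRM) (hSHF : SpecSHF) (hSPT : SpecSPT) (hSP2 : SpecSP2) (hDIH : SpecDIH)
    (hSEG : SpecSEG) (hNUL : SpecNUL) : SpecSTC := by
  intro h k φ ψ α β hh hk hφ hψ hα hβ hpφ hpψ hcov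
  -- the sums
  have hd : dif (bd h) = dif (bd k) :=
    hSP2 φ ψ hφ hψ hpφ hpψ (bd h) (bd k) (hSPT h hh).2.1 (hSPT k hk).2.1 (hSPT h hh).2.2.1
      (hSPT k hk).2.2.1 hcov
  have hsum : ∀ θ, h θ + h (θ + π) = k θ + k (θ + π) := hDIH h k hh hk hd
  have hfun : (fun θ => h θ + h (θ + π)) = fun θ => k θ + k (θ + π) := by
    funext θ
    exact hsum θ
  have hsum1 : ∀ θ, deriv h θ + deriv h (θ + π) = deriv k θ + deriv k (θ + π) := by
    intro θ
    rw [← d1_sum h hh, ← d1_sum k hk, hfun]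
  have hsumR : ∀ θ, Rc h θ + Rc h (θ + π) = Rc k θ + Rc k (θ + π) := by
    intro θ
    have h2 : deriv (deriv h) θ + deriv (deriv h) (θ + π) =
        deriv (deriv k) θ + deriv (deriv k) (θ + π) := by
      rw [← d2_sum h hh, ← d2_sum k hk, hfun]
    have h1 := hsum θ
    unfold Rc
    linarith
  obtain ⟨hS1, _, _, hS4, _⟩ := hSHF
  -- the frames
  have hcovf : ∀ a x, cov (frφ (vv a) φ) (bd (sh h a)) x = cov (frφ (vv a) ψ) (bd (sh k a)) x := by
    intro a x
    rw [← (hS1 h a hh).2.2.2, ← (hS1 k a hk).2.2.2, (hFRM (vv a) (vv_ne a)).2.1,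
      (hFRM (vv a) (vv_ne a)).2.1]
    exact hcov _
  have hee : ∀ χ : Set Pl → ℝ, ∀ a, ee (frφ (vv a) χ) = nrm χ (vv a) := by
    intro χ a
    unfold ee
    rw [(hFRM (vv a) (vv_ne a)).2.2.1, mul10]
  have hnn : ∀ χ : Set Pl → ℝ, ∀ a, nn (frφ (vv a) χ) 0 = nrm χ (vv (a + π / 2)) := by
    intro χ a
    unfold nn
    rw [(hFRM (vv a) (vv_ne a)).2.2.1, mul01]
  have hEX : ∀ a, 2 * nrm φ (vv a) + α * (h (π / 2 + a) + h (-(π / 2) + a)) =
      2 * nrm ψ (vv a) + β * (k (π / 2 + a) + k (-(π / 2) + a)) := by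
    intro a
    have h1 := hEXO (sh h a) (frφ (vv a) φ) α (hS1 h a hh).1 ((hFRM (vv a) (vv_ne a)).1 φ hφ)
      ((hALF φ α hφ hα).2 a)
    have h2 := hEXO (sh k a) (frφ (vv a) ψ) β (hS1 k a hk).1 ((hFRM (vv a) (vv_ne a)).1 ψ hψ)
      ((hALF ψ β hψ hβ).2 a)
    have h3 : (fun ξ : ℝ => (frφ (vv a) φ (bd (sh h a)) -
        cov (frφ (vv a) φ) (bd (sh h a)) (ξ, 0)) / ξ) = fun ξ : ℝ =>
        (frφ (vv a) ψ (bd (sh k a)) - cov (frφ (vv a) ψ) (bd (sh k a)) (ξ, 0)) / ξ := by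
      funext ξ
      rw [← cov_zero (frφ (vv a) φ) (bd (sh h a)), ← cov_zero (frφ (vv a) ψ) (bd (sh k a)),
        hcovf a, hcovf a]
    rw [h3] at h1
    have h4 := tendsto_nhds_unique h1 h2
    rw [hee, hee] at h4
    exact h4
  have hRpos : ∀ g, Sm g → ∀ θ, 0 < Rc g θ := fun g hg θ => hg.pos θ
  have hshd : ∀ g, Sm g → ∀ a, sh g a 0 = g a ∧ sh g a π = g (a + π) ∧
      deriv (sh g a) 0 = deriv g a ∧ deriv (sh g a) π = deriv g (a + π) ∧
      Rc (sh g a) 0 = Rc g a ∧ Rc (sh g a) π = Rc g (a + π) := by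
    intro g hg a
    obtain ⟨_, b2, b3, _⟩ := hS1 g a hg
    refine ⟨?_, ?_, ?_, ?_, ?_, ?_⟩
    · unfold sh
      rw [zero_add]
    · unfold sh
      rw [add_comm]
    · rw [b2, zero_add]
    · rw [b2, add_comm]
    · rw [b3, zero_add]
    · rw [b3, add_comm]
  have hpt : ∀ a, (fun ε : ℝ => cov (frφ (vv a) φ) (bd (sh h a))
      (sh h a 0 + sh h a π - ε, deriv (sh h a) 0 + deriv (sh h a) π)) = fun ε : ℝ =>
      cov (frφ (vv a) ψ) (bd (sh k a))
      (sh k a 0 + sh k a π - ε, deriv (sh k a) 0 + deriv (sh k a) π) := by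
    intro a
    funext ε
    obtain ⟨a1, a2, a3, a4, _, _⟩ := hshd h hh a
    obtain ⟨b1, b2, b3, b4, _, _⟩ := hshd k hk a
    rw [hcovf a, a1, a2, a3, a4, b1, b2, b3, b4, hsum a, hsum1 a]
  have hprod : ∀ a, nrm φ (vv (a + π / 2)) ^ 2 * (Rc h a * Rc h (a + π)) =
      nrm ψ (vv (a + π / 2)) ^ 2 * (Rc k a * Rc k (a + π)) := by
    intro a
    have h1 := (hTHN (sh h a) (frφ (vv a) φ) α (hS1 h a hh).1
      ((hFRM (vv a) (vv_ne a)).1 φ hφ) ((hALF φ α hφ hα).2 a)).1
    have h2 := (hTHN (sh k a) (frφ (vv a) ψ) β (hS1 k a hk).1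
      ((hFRM (vv a) (vv_ne a)).1 ψ hψ) ((hALF ψ β hψ hβ).2 a)).1
    have h3 : (fun ε : ℝ => (cov (frφ (vv a) φ) (bd (sh h a))
      (sh h a 0 + sh h a π - ε, deriv (sh h a) 0 + deriv (sh h a) π)) ^ 2 / ε) = fun ε : ℝ =>
      (cov (frφ (vv a) ψ) (bd (sh k a))
      (sh k a 0 + sh k a π - ε, deriv (sh k a) 0 + deriv (sh k a) π)) ^ 2 / ε := by
      funext ε
      rw [congrFun (hpt a) ε]
    rw [h3] at h1
    have h4 := tendsto_nhds_unique h1 h2
    obtain ⟨_, _, _, _, a5, a6⟩ := hshd h hh a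
    obtain ⟨_, _, _, _, b5, b6⟩ := hshd k hk a
    rw [hnn, hnn, a5, a6, b5, b6, hsumR a] at h4
    have hp : 0 < Rc k a + Rc k (a + π) := add_pos (hRpos k hk _) (hRpos k hk _)
    have h5 : nrm φ (vv (a + π / 2)) ^ 2 * (Rc h a * Rc h (a + π)) / (Rc k a + Rc k (a + π)) =
        nrm ψ (vv (a + π / 2)) ^ 2 * (Rc k a * Rc k (a + π)) / (Rc k a + Rc k (a + π)) := by
      linear_combination (1 / 32) * h4
    exact (div_left_inj' hp.ne').1 h5
  -- the constants
  have hCC := hCCC (fun θ => nrm φ (vv (θ + π / 2))) (fun θ => nrm ψ (vv (θ + π / 2))) (Rc h) (Rc k)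
    (fun θ => h θ + h (θ + π)) α β (fun θ => (hSEG φ hφ).2.2 _) (fun θ => (hSEG ψ hψ).2.2 _)
    (hRpos h hh) (hRpos k hk) (hSPT h hh).2.2.2 (hS4 h hh).2 (hS4 k hk).2 (hS4 h hh).1 (hS4 k hk).1
    hsumR (by
      intro θ
      have h1 := hEX (θ + π / 2)
      have e1 : π / 2 + (θ + π / 2) = θ + π := by ring
      have e2 : -(π / 2) + (θ + π / 2) = θ := by ring
      rw [e1, e2] at h1
      have h2 := hsum θ
      have h3 : k (θ + π) + k θ = h θ + h (θ + π) := by linarith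
      have h4 : h (θ + π) + h θ = h θ + h (θ + π) := by ring
      rw [h3, h4] at h1
      exact h1) (by
      intro θ
      exact hprod θ)
  obtain ⟨hαβ, hNN, hlast⟩ := hCC
  have hnorm : ∀ v, nrm φ v = nrm ψ v := by
    intro v
    obtain ⟨t, a, rfl⟩ := polar v
    rw [(hSEG φ hφ).2.1, (hSEG ψ hψ).2.1]
    have h1 := hNN (a - π / 2)
    rw [show a - π / 2 + π / 2 = a by ring] at h1
    rw [h1]
  refine ⟨hαβ, hnorm, hsum, ?_⟩
  by_cases hall : ∀ θ, nrm φ (vv (θ + π / 2)) = 0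
  · -- the norm vanishes
    have hz : ∀ v, nrm φ v = 0 := by
      intro v
      obtain ⟨t, a, rfl⟩ := polar v
      rw [(hSEG φ hφ).2.1]
      have h1 := hall (a - π / 2)
      rw [show a - π / 2 + π / 2 = a by ring] at h1
      rw [h1, mul_zero]
    have hz' : ∀ v, nrm ψ v = 0 := fun v => by rw [← hnorm v, hz v]
    have hαp : 0 < α := square φ α hα hz hpφ
    intro a
    have h1 := (hTHN (sh h a) (frφ (vv a) φ) α (hS1 h a hh).1
      ((hFRM (vv a) (vv_ne a)).1 φ hφ) ((hALF φ α hφ hα).2 a)).2 (by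
        intro x
        unfold nn
        rw [(hFRM (vv a) (vv_ne a)).2.2.1]
        exact hz _)
    have h2 := (hTHN (sh k a) (frφ (vv a) ψ) β (hS1 k a hk).1
      ((hFRM (vv a) (vv_ne a)).1 ψ hψ) ((hALF ψ β hψ hβ).2 a)).2 (by
        intro x
        unfold nn
        rw [(hFRM (vv a) (vv_ne a)).2.2.1]
        exact hz' _)
    have h3 : (fun ε : ℝ => (cov (frφ (vv a) φ) (bd (sh h a))
      (sh h a 0 + sh h a π - ε, deriv (sh h a) 0 + deriv (sh h a) π)) ^ 2 / ε ^ 3) = fun ε : ℝ =>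
      (cov (frφ (vv a) ψ) (bd (sh k a))
      (sh k a 0 + sh k a π - ε, deriv (sh k a) 0 + deriv (sh k a) π)) ^ 2 / ε ^ 3 := by
      funext ε
      rw [congrFun (hpt a) ε]
    rw [h3] at h1
    have h4 := tendsto_nhds_unique h1 h2
    obtain ⟨_, _, _, _, a5, a6⟩ := hshd h hh a
    obtain ⟨_, _, _, _, b5, b6⟩ := hshd k hk a
    rw [a5, a6, b5, b6, hsumR a, ← hαβ] at h4
    have hp : 0 < Rc k a + Rc k (a + π) := add_pos (hRpos k hk _) (hRpos k hk _)
    have hc : 32 / 9 * α ^ 2 ≠ 0 := by positivity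
    have h5 := (div_left_inj' hp.ne').1 (mul_left_cancel₀ hc h4)
    have h6 := hsumR a
    have h7 : (Rc k a - Rc h a) * (Rc k a - Rc h (a + π)) = 0 := by
      have e : Rc h (a + π) = Rc k a + Rc k (a + π) - Rc h a := by linarith
      rw [e] at h5 ⊢
      nlinarith
    rcases mul_eq_zero.1 h7 with h8 | h8
    · exact Or.inl (by linarith)
    · exact Or.inr (by linarith)
  · push Not at hall
    obtain ⟨θ₀, hθ₀⟩ := hall
    intro θ
    by_cases hθ : nrm φ (vv (θ + π / 2)) = 0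
    · -- approximation
      have hcl : IsClosed {t : ℝ | Rc k t = Rc h t ∨ Rc k t = Rc h (t + π)} := by
        refine IsClosed.union ?_ ?_
        · exact isClosed_eq (hS4 k hk).2 (hS4 h hh).2
        · exact isClosed_eq (hS4 k hk).2 ((hS4 h hh).2.comp (continuous_id.add continuous_const))
      have hsub : Set.Ioo θ (θ + π) ⊆ {t : ℝ | Rc k t = Rc h t ∨ Rc k t = Rc h (t + π)} := by
        intro t ht
        refine hlast t ?_
        intro h0
        refine hθ₀ (null hSEG hNUL φ hφ (θ + π / 2) (t + π / 2) (θ₀ + π / 2) ?_ hθ h0)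
        rw [show t + π / 2 - (θ + π / 2) = t - θ by ring]
        exact (sin_pos_of_pos_of_lt_pi (by linarith [ht.1]) (by linarith [ht.2])).ne'
      have h1 : closure (Set.Ioo θ (θ + π)) ⊆ _ := closure_minimal hsub hcl
      rw [closure_Ioo (by linarith [pi_pos])] at h1
      exact h1 ⟨le_rfl, by linarith [pi_pos]⟩
    · exact hlast θ hθ

end Pool.MP671.C3
end

section
/-!
# THE: the length of the level intervals of a function near a nondegenerate maximum
-/
namespace Pool.MP671.C3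

open MeasureTheory Real Filter Topology Pool.MP671

namespace THE

/-- a continuous function with a given asymptotic behaviour: the one sided inverse and the integral -/
theorem one_sided (G g : ℝ → ℝ) (c ρ : ℝ) (hc : 0 < c) (hρ : 0 < ρ) (hG0 : G 0 = 0) (hg0 : g 0 = 0)
    (hG : ∀ u ∈ Set.Ioo (-ρ) ρ, HasDerivAt G (g u) u) (hg : StrictMonoOn g (Set.Ioo (-ρ) ρ))
    (hd : HasDerivAt g c 0) :
    ∃ v : ℝ → ℝ, (∀ᶠ ε in 𝓝[>] (0 : ℝ), 0 < v ε ∧ v ε < ρ ∧ G (v ε) = ε) ∧
      Tendsto v (𝓝[>] 0) (𝓝 0) ∧ Tendsto (fun ε => v ε ^ 2 / ε) (𝓝[>] 0) (𝓝 (2 / c)) ∧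
      Tendsto (fun ε => (∫ u in (0 : ℝ)..v ε, (ε - G u)) / (ε * v ε)) (𝓝[>] 0) (𝓝 (2 / 3)) := by
  classical
  have hcont : ContinuousOn G (Set.Ioo (-ρ) ρ) := fun u hu =>
    (hG u hu).continuousAt.continuousWithinAt
  have h0mem : (0 : ℝ) ∈ Set.Ioo (-ρ) ρ := ⟨by linarith, hρ⟩
  have hIco : Set.Ico (0 : ℝ) ρ ⊆ Set.Ioo (-ρ) ρ := by
    intro u hu; exact ⟨by linarith [hu.1], hu.2⟩
  have hev : ∀ᶠ u in 𝓝[>] (0 : ℝ), u ∈ Set.Ioo 0 ρ := Ioo_mem_nhdsGT hρ
  -- strict monotonicity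
  have hmono : StrictMonoOn G (Set.Ico 0 ρ) := by
    apply strictMonoOn_of_deriv_pos (convex_Ico 0 ρ) (hcont.mono hIco)
    intro u hu
    rw [interior_Ico] at hu
    have hu' : u ∈ Set.Ioo (-ρ) ρ := ⟨by linarith [hu.1], hu.2⟩
    rw [(hG u hu').deriv]
    have := hg h0mem hu' hu.1
    rw [hg0] at this
    exact this
  -- asymptotics of g
  have hslope : Tendsto (fun u => g u / u) (𝓝[>] (0 : ℝ)) (𝓝 c) := by
    have h1 := hasDerivAt_iff_tendsto_slope.1 hd
    have h2 : Tendsto (slope g 0) (𝓝[>] (0 : ℝ)) (𝓝 c) :=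
      h1.mono_left (nhdsWithin_mono _ (fun u hu => ne_of_gt hu))
    refine h2.congr ?_
    intro u
    rw [slope_def_field, hg0]
    simp
  -- asymptotics of G
  have hGcont0 : Tendsto G (𝓝[>] (0 : ℝ)) (𝓝 0) := by
    have := (hG 0 h0mem).continuousAt.tendsto
    rw [hG0] at this
    exact this.mono_left nhdsWithin_le_nhds
  have hGas : Tendsto (fun u => G u / u ^ 2) (𝓝[>] (0 : ℝ)) (𝓝 (c / 2)) := by
    refine HasDerivAt.lhopital_zero_nhdsGT (f' := g) (g' := fun u => 2 * u) ?_ ?_ ?_ hGcont0 ?_ ?_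
    · filter_upwards [hev] with u hu
      exact hG u ⟨by linarith [hu.1], hu.2⟩
    · filter_upwards with u
      simpa using hasDerivAt_pow 2 u
    · filter_upwards [hev] with u hu
      have := hu.1
      positivity
    · have : Tendsto (fun u : ℝ => u ^ 2) (𝓝 0) (𝓝 (0 ^ 2)) := (continuous_pow 2).tendsto 0
      simp only [ne_eq, OfNat.ofNat_ne_zero, not_false_eq_true, zero_pow] at this
      exact this.mono_left nhdsWithin_le_nhds
    · have h1 := hslope.div_const 2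
      refine h1.congr' ?_
      filter_upwards [hev] with u hu
      have := hu.1
      field_simp
  -- integral
  have hint : ∀ v ∈ Set.Ico (0 : ℝ) ρ, IntervalIntegrable G volume 0 v := by
    intro v hv
    apply ContinuousOn.intervalIntegrable
    apply hcont.mono
    rw [Set.uIcc_of_le hv.1]
    intro u hu
    exact ⟨by linarith [hu.1], lt_of_le_of_lt hu.2 hv.2⟩
  have hIder : ∀ v ∈ Set.Ioo (0 : ℝ) ρ, HasDerivAt (fun w => ∫ u in (0 : ℝ)..w, G u) (G v) v := by
    intro v hv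
    have hv' : v ∈ Set.Ioo (-ρ) ρ := ⟨by linarith [hv.1], hv.2⟩
    apply intervalIntegral.integral_hasDerivAt_right (hint v ⟨hv.1.le, hv.2⟩)
    · exact hcont.stronglyMeasurableAtFilter isOpen_Ioo v hv'
    · exact (hG v hv').continuousAt
  have hIcont : Tendsto (fun w => ∫ u in (0 : ℝ)..w, G u) (𝓝[>] (0 : ℝ)) (𝓝 0) := by
    have hd0 : HasDerivAt (fun w => ∫ u in (0 : ℝ)..w, G u) (G 0) 0 := by
      apply intervalIntegral.integral_hasDerivAt_right (hint 0 ⟨le_rfl, hρ⟩)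
      · exact hcont.stronglyMeasurableAtFilter isOpen_Ioo 0 h0mem
      · exact (hG 0 h0mem).continuousAt
    have := hd0.continuousAt.tendsto
    simp only [intervalIntegral.integral_same] at this
    exact this.mono_left nhdsWithin_le_nhds
  have hIas : Tendsto (fun v => (∫ u in (0 : ℝ)..v, G u) / v ^ 3) (𝓝[>] (0 : ℝ)) (𝓝 (c / 6)) := by
    refine HasDerivAt.lhopital_zero_nhdsGT (f' := G) (g' := fun u => 3 * u ^ 2) ?_ ?_ ?_ hIcont ?_ ?_
    · filter_upwards [hev] with u hu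
      exact hIder u hu
    · filter_upwards with u
      simpa using hasDerivAt_pow 3 u
    · filter_upwards [hev] with u hu
      have := hu.1
      positivity
    · have : Tendsto (fun u : ℝ => u ^ 3) (𝓝 0) (𝓝 (0 ^ 3)) := (continuous_pow 3).tendsto 0
      simp only [ne_eq, OfNat.ofNat_ne_zero, not_false_eq_true, zero_pow] at this
      exact this.mono_left nhdsWithin_le_nhds
    · have h1 := hGas.div_const 3
      have h2 : c / 2 / 3 = c / 6 := by ring
      rw [h2] at h1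
      refine h1.congr' ?_
      filter_upwards [hev] with u hu
      have := hu.1
      field_simp
  -- the inverse
  let v : ℝ → ℝ := fun ε => if h : ∃ u, u ∈ Set.Ioo (0 : ℝ) ρ ∧ G u = ε then h.choose else 0
  have hρ2 : ρ / 2 ∈ Set.Ico (0 : ℝ) ρ := ⟨by linarith, by linarith⟩
  have hGpos : ∀ u ∈ Set.Ioo (0 : ℝ) ρ, 0 < G u := by
    intro u hu
    have := hmono ⟨le_rfl, hρ⟩ ⟨hu.1.le, hu.2⟩ hu.1
    rwa [hG0] at this
  have hex : ∀ δ ∈ Set.Ioo (0 : ℝ) ρ, ∀ ε ∈ Set.Ioo 0 (G δ), ∃ u, u ∈ Set.Ioo (0 : ℝ) δ ∧ G u = ε := by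
    intro δ hδ ε hε
    have hcc : ContinuousOn G (Set.Icc 0 δ) := by
      apply hcont.mono
      intro u hu
      exact ⟨by linarith [hu.1], lt_of_le_of_lt hu.2 hδ.2⟩
    have h1 := intermediate_value_Ioo hδ.1.le hcc
    rw [hG0] at h1
    obtain ⟨u, hu, hu'⟩ := h1 hε
    exact ⟨u, hu, hu'⟩
  have hv : ∀ ε ∈ Set.Ioo 0 (G (ρ / 2)), v ε ∈ Set.Ioo (0 : ℝ) ρ ∧ G (v ε) = ε := by
    intro ε hε
    obtain ⟨u, hu, hu'⟩ := hex (ρ / 2) ⟨by linarith, by linarith⟩ ε hε
    have h : ∃ u, u ∈ Set.Ioo (0 : ℝ) ρ ∧ G u = ε := ⟨u, ⟨hu.1, by linarith [hu.2]⟩, hu'⟩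
    have h2 : v ε = h.choose := by
      show (if h : ∃ u, u ∈ Set.Ioo (0 : ℝ) ρ ∧ G u = ε then h.choose else 0) = _
      rw [dif_pos h]
    rw [h2]
    exact h.choose_spec
  have hGρ : 0 < G (ρ / 2) := hGpos _ ⟨by linarith, by linarith⟩
  have hevε : ∀ᶠ ε in 𝓝[>] (0 : ℝ), ε ∈ Set.Ioo 0 (G (ρ / 2)) := Ioo_mem_nhdsGT hGρ
  have hvev : ∀ᶠ ε in 𝓝[>] (0 : ℝ), 0 < v ε ∧ v ε < ρ ∧ G (v ε) = ε := by
    filter_upwards [hevε] with ε hε
    exact ⟨(hv ε hε).1.1, (hv ε hε).1.2, (hv ε hε).2⟩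
  have hvt : Tendsto v (𝓝[>] 0) (𝓝 0) := by
    rw [Metric.tendsto_nhds]
    intro δ hδ
    set δ' := min δ (ρ / 2) with hδ'
    have hδ'0 : 0 < δ' := lt_min hδ (by linarith)
    have hδ'1 : δ' ∈ Set.Ioo (0 : ℝ) ρ := ⟨hδ'0, lt_of_le_of_lt (min_le_right _ _) (by linarith)⟩
    have h1 : ∀ᶠ ε in 𝓝[>] (0 : ℝ), ε ∈ Set.Ioo 0 (G δ') := Ioo_mem_nhdsGT (hGpos _ hδ'1)
    filter_upwards [hvev, h1] with ε h2 h3
    have h4 : v ε < δ' := by
      by_contra hcon
      push Not at hcon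
      have h5 := hmono.monotoneOn ⟨hδ'1.1.le, hδ'1.2⟩ ⟨h2.1.le, h2.2.1⟩ hcon
      rw [h2.2.2] at h5
      exact absurd h3.2 (not_lt.2 h5)
    rw [Real.dist_eq, sub_zero, abs_of_pos h2.1]
    exact lt_of_lt_of_le h4 (min_le_left _ _)
  have hvt' : Tendsto v (𝓝[>] 0) (𝓝[>] 0) := by
    rw [tendsto_nhdsWithin_iff]
    exact ⟨hvt, by filter_upwards [hvev] with ε h; exact h.1⟩
  have hev_pos : ∀ᶠ ε in 𝓝[>] (0 : ℝ), 0 < ε := self_mem_nhdsWithin
  have hsq : Tendsto (fun ε => v ε ^ 2 / ε) (𝓝[>] 0) (𝓝 (2 / c)) := by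
    have h1 := (hGas.comp hvt').inv₀ (by positivity)
    have h2 : (c / 2)⁻¹ = 2 / c := by rw [inv_div]
    rw [h2] at h1
    refine h1.congr' ?_
    filter_upwards [hvev, hev_pos] with ε h3 h4
    simp only [Function.comp, h3.2.2]
    rw [inv_div]
  refine ⟨v, hvev, hvt, hsq, ?_⟩
  have h1 := (hIas.comp hvt').mul hsq
  have h2 := (tendsto_const_nhds (x := (1 : ℝ)) (f := 𝓝[>] (0 : ℝ))).sub h1
  have h3 : 1 - c / 6 * (2 / c) = 2 / 3 := by field_simp; norm_num
  rw [h3] at h2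
  refine h2.congr' ?_
  filter_upwards [hvev, hev_pos] with ε h4 h5
  have hvpos := h4.1
  have h6 : (∫ u in (0 : ℝ)..v ε, (ε - G u)) = ε * v ε - ∫ u in (0 : ℝ)..v ε, G u := by
    rw [intervalIntegral.integral_sub intervalIntegrable_const (hint (v ε) ⟨h4.1.le, h4.2.1⟩)]
    simp
    ring
  rw [h6]
  simp only [Function.comp]
  field_simp

end THE

/-- THE -/
theorem specTHE : SpecTHE := by
  intro E E' y₀ c ρ hc hρ hE0 hE'0 hE hanti hder
  -- right side
  obtain ⟨v, hv1, hv2, hv3, hv4⟩ := THE.one_sided (fun u => -E (y₀ + u)) (fun u => -E' (y₀ + u)) c ρ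
    hc hρ (by simp [hE0]) (by simp [hE'0])
    (by
      intro u hu
      have h1 := hE (y₀ + u) ⟨by linarith [hu.1], by linarith [hu.2]⟩
      have h2 : HasDerivAt (fun u : ℝ => y₀ + u) 1 u := by
        simpa using (hasDerivAt_id u).const_add y₀
      have h3 : HasDerivAt (fun u : ℝ => -E (y₀ + u)) (-(E' (y₀ + u) * 1)) u := (h1.comp u h2).neg
      rw [mul_one] at h3
      exact h3)
    (by
      intro a ha b hb hab
      have := hanti (a := y₀ + a) ⟨by linarith [ha.1], by linarith [ha.2]⟩ (b := y₀ + b)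
        ⟨by linarith [hb.1], by linarith [hb.2]⟩ (by linarith)
      show -E' (y₀ + a) < -E' (y₀ + b)
      linarith)
    (by
      have h2 : HasDerivAt (fun u : ℝ => y₀ + u) 1 0 := by
        simpa using (hasDerivAt_id (0 : ℝ)).const_add y₀
      have h1 : HasDerivAt E' (-c) (y₀ + 0) := by simpa using hder
      have h3 : HasDerivAt (fun u : ℝ => -E' (y₀ + u)) (-(-c * 1)) 0 := (h1.comp (0 : ℝ) h2).neg
      rw [mul_one, neg_neg] at h3
      exact h3)
  obtain ⟨w, hw1, hw2, hw3, hw4⟩ := THE.one_sided (fun u => -E (y₀ - u)) (fun u => E' (y₀ - u)) c ρ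
    hc hρ (by simp [hE0]) (by simp [hE'0])
    (by
      intro u hu
      have h1 := hE (y₀ - u) ⟨by linarith [hu.2], by linarith [hu.1]⟩
      have h2 : HasDerivAt (fun u : ℝ => y₀ - u) (-1) u := by
        simpa using (hasDerivAt_id u).const_sub y₀
      have h3 : HasDerivAt (fun u : ℝ => -E (y₀ - u)) (-(E' (y₀ - u) * (-1))) u :=
        (h1.comp u h2).neg
      have h4 : -(E' (y₀ - u) * (-1)) = E' (y₀ - u) := by ring
      rw [h4] at h3
      exact h3)
    (by
      intro a ha b hb hab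
      exact hanti (a := y₀ - b) ⟨by linarith [hb.2], by linarith [hb.1]⟩ (b := y₀ - a)
        ⟨by linarith [ha.2], by linarith [ha.1]⟩ (by linarith))
    (by
      have h2 : HasDerivAt (fun u : ℝ => y₀ - u) (-1) 0 := by
        simpa using (hasDerivAt_id (0 : ℝ)).const_sub y₀
      have h1 : HasDerivAt E' (-c) (y₀ - 0) := by simpa using hder
      have h3 : HasDerivAt (fun u : ℝ => E' (y₀ - u)) (-c * (-1)) 0 := (h1.comp (0 : ℝ) h2)
      have h4 : -c * (-1) = c := by ring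
      rw [h4] at h3
      exact h3)
  refine ⟨fun ε => y₀ + v ε, fun ε => y₀ - w ε, ?_, ?_, ?_, ?_, ?_⟩
  · filter_upwards [hv1, hw1] with ε h1 h2
    refine ⟨by linarith [h2.2.1], by linarith [h2.1], by linarith [h1.1], by linarith [h1.2.1], ?_, ?_⟩
    · have := h1.2.2; linarith
    · have := h2.2.2; linarith
  · have := hv2.const_add y₀
    simpa using this
  · have := hw2.const_sub y₀
    simpa using this
  · have hs1 := hv3.sqrt
    have hs2 := hw3.sqrt
    have h1 := (hs1.add hs2).pow 2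
    have h2 : (√(2 / c) + √(2 / c)) ^ 2 = 8 / c := by
      have h3 : √(2 / c) ^ 2 = 2 / c := Real.sq_sqrt (by positivity)
      have h4 : (8 : ℝ) / c = 4 * (2 / c) := by ring
      have h5 : (√(2 / c) + √(2 / c)) ^ 2 = 4 * √(2 / c) ^ 2 := by ring
      rw [h4, h5, h3]
    rw [h2] at h1
    refine h1.congr' ?_
    filter_upwards [hv1, hw1, self_mem_nhdsWithin] with ε h3 h4 h5
    have h5' : (0 : ℝ) < ε := h5
    rw [Real.sqrt_div (by positivity), Real.sqrt_div (by positivity), Real.sqrt_sq h3.1.le,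
      Real.sqrt_sq h4.1.le, ← add_div, div_pow, Real.sq_sqrt h5'.le]
    congr 1
    ring
  · -- the integrals
    have hcont : ∀ a b, a ∈ Set.Ioo (y₀ - ρ) (y₀ + ρ) → b ∈ Set.Ioo (y₀ - ρ) (y₀ + ρ) → ∀ ε : ℝ,
        IntervalIntegrable (fun y => E y + ε) volume a b := by
      intro a b ha hb ε
      apply ContinuousOn.intervalIntegrable
      have hsub : Set.uIcc a b ⊆ Set.Ioo (y₀ - ρ) (y₀ + ρ) :=
        (Set.ordConnected_Ioo).uIcc_subset ha hb
      apply ContinuousOn.add _ continuousOn_const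
      intro y hy
      exact (hE y (hsub hy)).continuousAt.continuousWithinAt
    have key : ∀ᶠ ε in 𝓝[>] (0 : ℝ),
        |(∫ y in (y₀ - w ε)..(y₀ + v ε), (E y + ε)) / (ε * ((y₀ + v ε) - (y₀ - w ε))) - 2 / 3| ≤
        |(∫ u in (0 : ℝ)..v ε, (ε - (fun u => -E (y₀ + u)) u)) / (ε * v ε) - 2 / 3| +
        |(∫ u in (0 : ℝ)..w ε, (ε - (fun u => -E (y₀ - u)) u)) / (ε * w ε) - 2 / 3| := by
      filter_upwards [hv1, hw1, self_mem_nhdsWithin] with ε h3 h4 h5
      have h5' : (0 : ℝ) < ε := h5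
      have hvp := h3.1
      have hwp := h4.1
      have e1 : (∫ y in (y₀ - w ε)..(y₀ + v ε), (E y + ε)) =
          (∫ u in (0 : ℝ)..w ε, (ε - (fun u => -E (y₀ - u)) u)) +
          ∫ u in (0 : ℝ)..v ε, (ε - (fun u => -E (y₀ + u)) u) := by
        rw [← intervalIntegral.integral_add_adjacent_intervals (b := y₀)
          (hcont _ _ ⟨by linarith [h4.2.1], by linarith⟩ ⟨by linarith, by linarith⟩ ε)
          (hcont _ _ ⟨by linarith, by linarith⟩ ⟨by linarith, by linarith [h3.2.1]⟩ ε)]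
        congr 1
        · have h6 := intervalIntegral.integral_comp_sub_left (a := 0) (b := w ε)
            (fun y => E y + ε) y₀
          rw [sub_zero] at h6
          rw [← h6]
          apply intervalIntegral.integral_congr
          intro u _
          simp only
          ring
        · have h6 := intervalIntegral.integral_comp_add_left (a := 0) (b := v ε)
            (fun y => E y + ε) y₀
          rw [add_zero] at h6
          rw [← h6]
          apply intervalIntegral.integral_congr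
          intro u _
          simp only
          ring
      rw [e1]
      set I := ∫ u in (0 : ℝ)..w ε, (ε - (fun u => -E (y₀ - u)) u)
      set J := ∫ u in (0 : ℝ)..v ε, (ε - (fun u => -E (y₀ + u)) u)
      have e2 : (I + J) / (ε * ((y₀ + v ε) - (y₀ - w ε))) - 2 / 3 =
          (v ε / (v ε + w ε)) * (J / (ε * v ε) - 2 / 3) +
          (w ε / (v ε + w ε)) * (I / (ε * w ε) - 2 / 3) := by
        have hne : v ε + w ε ≠ 0 := by positivity
        have : (y₀ + v ε) - (y₀ - w ε) = v ε + w ε := by ring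
        rw [this]
        field_simp
        ring
      rw [e2]
      refine le_trans (abs_add_le _ _) ?_
      rw [abs_mul, abs_mul]
      have h7 : |v ε / (v ε + w ε)| ≤ 1 := by
        rw [abs_of_nonneg (by positivity), div_le_one (by positivity)]
        linarith
      have h8 : |w ε / (v ε + w ε)| ≤ 1 := by
        rw [abs_of_nonneg (by positivity), div_le_one (by positivity)]
        linarith
      have h9 := mul_le_mul_of_nonneg_right h7 (abs_nonneg (J / (ε * v ε) - 2 / 3))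
      have h10 := mul_le_mul_of_nonneg_right h8 (abs_nonneg (I / (ε * w ε) - 2 / 3))
      linarith
    rw [tendsto_iff_dist_tendsto_zero]
    have hl1 : Tendsto (fun ε => |(∫ u in (0 : ℝ)..v ε, (ε - (fun u => -E (y₀ + u)) u)) / (ε * v ε)
        - 2 / 3|) (𝓝[>] 0) (𝓝 0) := by
      have h := (hv4.sub_const (2 / 3)).abs
      simpa using h
    have hl2 : Tendsto (fun ε => |(∫ u in (0 : ℝ)..w ε, (ε - (fun u => -E (y₀ - u)) u)) / (ε * w ε)
        - 2 / 3|) (𝓝[>] 0) (𝓝 0) := by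
      have h := (hw4.sub_const (2 / 3)).abs
      simpa using h
    have hl := hl1.add hl2
    rw [add_zero] at hl
    refine squeeze_zero' ?_ ?_ hl
    · filter_upwards with ε; exact dist_nonneg
    · filter_upwards [key] with ε h
      rw [Real.dist_eq]
      exact h

end Pool.MP671.C3
end

section
/-!
# MP_671ac3_gt, C3: THN (helper21)

The covariogram near the boundary of the difference body.
-/
namespace Pool.MP671.C3

open MeasureTheory Real Filter Topology

namespace THN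

/-- averages of a continuous function over shrinking intervals -/
theorem avg {g : ℝ → ℝ} {y₀ ρ : ℝ} (hρ : 0 < ρ)
    (hg : ContinuousOn g (Set.Ioo (y₀ - ρ) (y₀ + ρ))) {y₁ y₄ : ℝ → ℝ} {F : Filter ℝ}
    (h14 : ∀ᶠ ε in F, y₀ - ρ < y₄ ε ∧ y₄ ε < y₀ ∧ y₀ < y₁ ε ∧ y₁ ε < y₀ + ρ)
    (t1 : Tendsto y₁ F (𝓝 y₀)) (t4 : Tendsto y₄ F (𝓝 y₀)) :
    Tendsto (fun ε => (∫ y in (y₄ ε)..(y₁ ε), g y) / (y₁ ε - y₄ ε)) F (𝓝 (g y₀)) := by
  rw [Metric.tendsto_nhds]
  intro η hη
  have hcont : ContinuousAt g y₀ :=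
    hg.continuousAt (Ioo_mem_nhds (by linarith) (by linarith))
  obtain ⟨δ, hδ, hgd⟩ := Metric.continuousAt_iff.1 hcont (η / 2) (by linarith)
  have e1 : ∀ᶠ ε in F, dist (y₁ ε) y₀ < δ := (Metric.tendsto_nhds.1 t1) δ hδ
  have e4 : ∀ᶠ ε in F, dist (y₄ ε) y₀ < δ := (Metric.tendsto_nhds.1 t4) δ hδ
  filter_upwards [h14, e1, e4] with ε h e1 e4
  obtain ⟨ha, hb, hc, hd⟩ := h
  have hpos : 0 < y₁ ε - y₄ ε := by linarith
  have hsub : Set.uIcc (y₄ ε) (y₁ ε) ⊆ Set.Ioo (y₀ - ρ) (y₀ + ρ) := by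
    rw [Set.uIcc_of_le (by linarith)]
    intro z hz
    exact ⟨by linarith [hz.1], by linarith [hz.2]⟩
  have hint : IntervalIntegrable g volume (y₄ ε) (y₁ ε) :=
    (hg.mono hsub).intervalIntegrable
  have hsubst : (∫ y in (y₄ ε)..(y₁ ε), (g y - g y₀))
      = (∫ y in (y₄ ε)..(y₁ ε), g y) - (y₁ ε - y₄ ε) * g y₀ := by
    rw [intervalIntegral.integral_sub hint (by simp), intervalIntegral.integral_const,
      smul_eq_mul]
  have hbd : ‖∫ y in (y₄ ε)..(y₁ ε), (g y - g y₀)‖ ≤ η / 2 * |y₁ ε - y₄ ε| := by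
    apply intervalIntegral.norm_integral_le_of_norm_le_const
    intro z hz
    rw [Set.uIoc_of_le (by linarith)] at hz
    have hzd : dist z y₀ < δ := by
      rw [Real.dist_eq, abs_lt] at *
      constructor <;> linarith [hz.1, hz.2, e1.1, e1.2, e4.1, e4.2]
    have := hgd hzd
    rw [Real.dist_eq] at this
    exact this.le
  rw [hsubst, abs_of_pos hpos, Real.norm_eq_abs] at hbd
  rw [Real.dist_eq]
  have h1 : (∫ y in (y₄ ε)..(y₁ ε), g y) / (y₁ ε - y₄ ε) - g y₀
      = ((∫ y in (y₄ ε)..(y₁ ε), g y) - (y₁ ε - y₄ ε) * g y₀) / (y₁ ε - y₄ ε) := by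
    field_simp
  rw [h1, abs_div, abs_of_pos hpos, div_lt_iff₀ hpos]
  nlinarith

end THN

/-- THN -/
theorem specTHN (hTHE : SpecTHE) (hCVY : SpecCVY) (hLEG : SpecLEG) (hFRC : SpecFRC)
    (hSHF : SpecSHF) (hNPR : SpecNPR) : SpecTHN := by
  intro h φ α hh hφ hα
  obtain ⟨hsh, hshd, hshR, -⟩ := hSHF.1 h π hh
  obtain ⟨cl, fl, -⟩ := hFRC h hh
  obtain ⟨cm', fm', -⟩ := hFRC (sh h π) hsh
  have cm : Cx (em h) := cm'
  have hl0 : deriv (el h) 0 = -deriv h 0 := by
    have := (fl 0).1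
    simpa [Pt] using this
  have hX0 : Xc (el h) 0 = h 0 := by
    have := (fl 0).2.1
    simpa [Pt] using this
  have hl2 : deriv (deriv (el h)) 0 = Rc h 0 := by
    have := (fl 0).2.2
    simpa using this
  have hm0 : deriv (em h) 0 = -deriv h π := by
    have := (fm' 0).1
    have h2 := hshd 0
    rw [zero_add] at h2
    simpa [em, Pt, h2] using this
  have hXm0 : Xc (em h) 0 = h π := by
    have := (fm' 0).2.1
    simpa [em, Pt, sh] using this
  have hm2 : deriv (deriv (em h)) 0 = Rc h π := by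
    have := (fm' 0).2.2
    have h2 := hshR 0
    rw [zero_add] at h2
    simpa [em, h2] using this
  have R0 : 0 < Rc h 0 := hh.pos 0
  have Rπ : 0 < Rc h π := hh.pos π
  obtain ⟨lmono, lsl, lds, ⟨lopen, -⟩, -, ldd, llg, -, -⟩ := hLEG (el h) cl
  obtain ⟨mmono, msl, mds, ⟨mopen, -⟩, -, mdd, mlg, -, -⟩ := hLEG (em h) cm
  -- the radius
  obtain ⟨ρ, hρ, hρl, hρm⟩ : ∃ ρ > 0, (∀ y ∈ Set.Ioo (deriv h 0 - ρ) (deriv h 0 + ρ),
      -y ∈ Set.range (deriv (el h))) ∧ (∀ y ∈ Set.Ioo (deriv h 0 - ρ) (deriv h 0 + ρ),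
      y - (deriv h 0 + deriv h π) ∈ Set.range (deriv (em h))) := by
    have n1 : ∀ᶠ y in 𝓝 (deriv h 0), -y ∈ Set.range (deriv (el h)) := by
      have : Tendsto (fun y : ℝ => -y) (𝓝 (deriv h 0)) (𝓝 (-deriv h 0)) := tendsto_id.neg
      exact this.eventually (lopen.mem_nhds ⟨0, hl0⟩)
    have n2 : ∀ᶠ y in 𝓝 (deriv h 0), y - (deriv h 0 + deriv h π) ∈ Set.range (deriv (em h)) := by
      have : Tendsto (fun y : ℝ => y - (deriv h 0 + deriv h π)) (𝓝 (deriv h 0))
          (𝓝 (deriv h 0 - (deriv h 0 + deriv h π))) := tendsto_id.sub_const _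
      exact this.eventually (mopen.mem_nhds ⟨0, by rw [hm0]; ring⟩)
    obtain ⟨ρ, hρ, h1⟩ := Metric.eventually_nhds_iff.1 (n1.and n2)
    refine ⟨ρ, hρ, fun y hy => (h1 ?_).1, fun y hy => (h1 ?_).2⟩ <;>
    · rw [Real.dist_eq, abs_lt]
      constructor <;> linarith [hy.1, hy.2]
  set t : ℝ := deriv h 0 + deriv h π with ht
  set y₀ : ℝ := deriv h 0 with hy₀
  set l : ℝ → ℝ := el h with hldef
  set m : ℝ → ℝ := em h with hmdef
  have hy₀t : y₀ - t = deriv m 0 := by rw [hm0, ht]; ring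
  have hy₀l : -y₀ = deriv l 0 := by rw [hl0]
  have hmem0 : y₀ ∈ Set.Ioo (y₀ - ρ) (y₀ + ρ) := ⟨by linarith, by linarith⟩
  -- the function E and its derivative
  let E : ℝ → ℝ := fun y => -lg l (-y) - lg m (y - t) - h 0 - h π
  let E' : ℝ → ℝ := fun y => sl l (-y) - sl m (y - t)
  have hE0 : E y₀ = 0 := by
    change -lg l (-y₀) - lg m (y₀ - t) - h 0 - h π = 0
    rw [hy₀t, hy₀l, llg, mlg, hX0, hXm0]; ring
  have hE'0 : E' y₀ = 0 := by
    change sl l (-y₀) - sl m (y₀ - t) = 0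
    rw [hy₀t, hy₀l, lsl, msl]; ring
  have hEd : ∀ y ∈ Set.Ioo (y₀ - ρ) (y₀ + ρ), HasDerivAt E (E' y) y := by
    intro y hy
    have h1 : HasDerivAt (fun y => lg l (-y)) (sl l (-y) * (-1)) y :=
      (ldd (-y) (hρl y hy)).2.comp y (hasDerivAt_neg y)
    have h2 : HasDerivAt (fun y => lg m (y - t)) (sl m (y - t)) y :=
      (mdd (y - t) (hρm y hy)).2.comp_sub_const y t
    have h3 := (((h1.neg).sub h2).sub_const (h 0)).sub_const (h π)
    refine h3.congr_deriv ?_
    change -(sl l (-y) * (-1)) - sl m (y - t) = sl l (-y) - sl m (y - t)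
    ring
  have slmono : ∀ {f : ℝ → ℝ}, StrictMono (deriv f) →
      (∀ y ∈ Set.range (deriv f), deriv f (sl f y) = y) →
      ∀ a ∈ Set.range (deriv f), ∀ b ∈ Set.range (deriv f), a < b → sl f a < sl f b := by
    intro f hf hs a ha b hb hab
    rw [← hf.lt_iff_lt, hs a ha, hs b hb]
    exact hab
  have hanti : StrictAntiOn E' (Set.Ioo (y₀ - ρ) (y₀ + ρ)) := by
    intro a ha b hb hab
    change sl l (-b) - sl m (b - t) < sl l (-a) - sl m (a - t)
    have h1 := slmono lmono lds (-b) (hρl b hb) (-a) (hρl a ha) (by linarith)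
    have h2 := slmono mmono mds (a - t) (hρm a ha) (b - t) (hρm b hb) (by linarith)
    linarith
  have hE'' : HasDerivAt E' (-(1 / Rc h 0 + 1 / Rc h π)) y₀ := by
    have h1 : HasDerivAt (fun y => sl l (-y)) (1 / deriv (deriv l) (sl l (-y₀)) * (-1)) y₀ :=
      (ldd (-y₀) (hρl y₀ hmem0)).1.comp y₀ (hasDerivAt_neg y₀)
    have h2 : HasDerivAt (fun y => sl m (y - t)) (1 / deriv (deriv m) (sl m (y₀ - t))) y₀ :=
      (mdd (y₀ - t) (hρm y₀ hmem0)).1.comp_sub_const y₀ t
    refine (h1.sub h2).congr_deriv ?_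
    rw [hy₀t, hy₀l, lsl, msl, hl2, hm2]; ring
  have hc : 0 < 1 / Rc h 0 + 1 / Rc h π := by positivity
  obtain ⟨y₁, y₄, hev, t1, t4, tsq, tint⟩ := hTHE E E' y₀ (1 / Rc h 0 + 1 / Rc h π) ρ hc hρ hE0
    hE'0 hEd hanti hE''
  have h8c : 8 / (1 / Rc h 0 + 1 / Rc h π) = 8 * (Rc h 0 * Rc h π / (Rc h 0 + Rc h π)) := by
    field_simp
    ring
  rw [h8c] at tsq
  set R : ℝ := Rc h 0 * Rc h π / (Rc h 0 + Rc h π) with hR
  -- continuity
  have nnc : Continuous (nn φ) := by
    have hL := (hNPR φ hφ).2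
    rw [Metric.continuous_iff]
    intro b ε hε
    have hee : 0 ≤ |ee φ| := abs_nonneg _
    refine ⟨ε / (|ee φ| + 1), by positivity, fun a ha => ?_⟩
    rw [Real.dist_eq] at *
    have h1 := hL a b
    have h2 : ee φ * |a - b| ≤ |ee φ| * |a - b| :=
      mul_le_mul_of_nonneg_right (le_abs_self _) (abs_nonneg _)
    rw [lt_div_iff₀ (by positivity)] at ha
    nlinarith [abs_nonneg (a - b)]
  have cslm : ContinuousOn (fun y => sl m (y - t)) (Set.Ioo (y₀ - ρ) (y₀ + ρ)) := by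
    intro y hy
    exact ((mdd (y - t) (hρm y hy)).1.comp_sub_const y t).continuousAt.continuousWithinAt
  have csll : ContinuousOn (fun y => sl l (-y)) (Set.Ioo (y₀ - ρ) (y₀ + ρ)) := by
    intro y hy
    exact ((ldd (-y) (hρl y hy)).1.comp y (hasDerivAt_neg y)).continuousAt.continuousWithinAt
  have cE : ContinuousOn E (Set.Ioo (y₀ - ρ) (y₀ + ρ)) := fun y hy =>
    (hEd y hy).continuousAt.continuousWithinAt
  let g : ℝ → ℝ := fun y => nn φ (sl m (y - t)) + nn φ (sl l (-y))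
  have cg : ContinuousOn g (Set.Ioo (y₀ - ρ) (y₀ + ρ)) :=
    (nnc.comp_continuousOn cslm).add (nnc.comp_continuousOn csll)
  have g0 : g y₀ = 2 * nn φ 0 := by
    change nn φ (sl m (y₀ - t)) + nn φ (sl l (-y₀)) = 2 * nn φ 0
    rw [hy₀t, hy₀l, lsl, msl]; ring
  have hev' : ∀ᶠ ε in 𝓝[>] (0 : ℝ), y₀ - ρ < y₄ ε ∧ y₄ ε < y₀ ∧ y₀ < y₁ ε ∧ y₁ ε < y₀ + ρ := by
    filter_upwards [hev] with ε h
    exact ⟨h.1, h.2.1, h.2.2.1, h.2.2.2.1⟩
  -- the value of the covariogram
  have hcov : ∀ᶠ ε in 𝓝[>] (0 : ℝ), cov φ (bd h) (h 0 + h π - ε, t)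
      = (∫ y in (y₄ ε)..(y₁ ε), g y) + α * ∫ y in (y₄ ε)..(y₁ ε), (E y + ε) := by
    filter_upwards [hev] with ε hε
    obtain ⟨ha, hb, hc', hd, h1, h4⟩ := hε
    have m1 : y₁ ε ∈ Set.Ioo (y₀ - ρ) (y₀ + ρ) := ⟨by linarith, hd⟩
    have m4 : y₄ ε ∈ Set.Ioo (y₀ - ρ) (y₀ + ρ) := ⟨ha, by linarith⟩
    have d1 := lds _ (hρl _ m1)
    have d4 := lds _ (hρl _ m4)
    have e1 := mds _ (hρm _ m1)
    have e4 := mds _ (hρm _ m4)
    have X1 : Xc l (sl l (-y₁ ε)) = -lg l (-y₁ ε) := by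
      have := llg (sl l (-y₁ ε)); rw [d1] at this; linarith
    have X4 : Xc l (sl l (-y₄ ε)) = -lg l (-y₄ ε) := by
      have := llg (sl l (-y₄ ε)); rw [d4] at this; linarith
    have Y1 : Xc m (sl m (y₁ ε - t)) = -lg m (y₁ ε - t) := by
      have := mlg (sl m (y₁ ε - t)); rw [e1] at this; linarith
    have Y4 : Xc m (sl m (y₄ ε - t)) = -lg m (y₄ ε - t) := by
      have := mlg (sl m (y₄ ε - t)); rw [e4] at this; linarith
    have hln : Ln l m (h 0 + h π - ε, t) (sl l (-y₁ ε)) (sl m (y₁ ε - t)) (sl l (-y₄ ε))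
        (sl m (y₄ ε - t)) := by
      constructor
      · have := hanti hmem0 m1 hc'
        rw [hE'0] at this
        change sl l (-y₁ ε) - sl m (y₁ ε - t) < 0 at this
        linarith
      · have := hanti m4 hmem0 hb
        rw [hE'0] at this
        change 0 < sl l (-y₄ ε) - sl m (y₄ ε - t) at this
        linarith
      · unfold Psi
        rw [X1, Y1, d1, e1]
        change -lg l (-y₁ ε) - lg m (y₁ ε - t) - h 0 - h π = -ε at h1
        ext
        · simp only; linarith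
        · simp only; ring
      · unfold Psi
        rw [X4, Y4, d4, e4]
        change -lg l (-y₄ ε) - lg m (y₄ ε - t) - h 0 - h π = -ε at h4
        ext
        · simp only; linarith
        · simp only; ring
    have hval := hCVY h φ α hh hφ hα _ _ _ _ _ hln
    rw [hval]
    have q1 : -deriv (el h) (sl l (-y₁ ε)) = y₁ ε := by
      rw [show deriv (el h) (sl l (-y₁ ε)) = -y₁ ε from d1]; ring
    have q4 : -deriv (el h) (sl l (-y₄ ε)) = y₄ ε := by
      rw [show deriv (el h) (sl l (-y₄ ε)) = -y₄ ε from d4]; ring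
    rw [q1, q4]
    have hsub : Set.uIcc (y₄ ε) (y₁ ε) ⊆ Set.Ioo (y₀ - ρ) (y₀ + ρ) := by
      rw [Set.uIcc_of_le (by linarith)]
      intro z hz
      exact ⟨by linarith [hz.1], by linarith [hz.2]⟩
    have i1 : IntervalIntegrable g volume (y₄ ε) (y₁ ε) := (cg.mono hsub).intervalIntegrable
    have i2 : IntervalIntegrable (fun y => E y + ε) volume (y₄ ε) (y₁ ε) :=
      ((cE.mono hsub).add continuousOn_const).intervalIntegrable
    rw [← intervalIntegral.integral_const_mul, ← intervalIntegral.integral_add i1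
      (i2.const_mul α)]
    apply intervalIntegral.integral_congr
    intro y _
    change nn φ (sl m (y - t)) + nn φ (sl l (-y)) + α * (-lg l (-y) - lg m (y - t) - (h 0 + h π - ε))
      = nn φ (sl m (y - t)) + nn φ (sl l (-y)) + α * ((-lg l (-y) - lg m (y - t) - h 0 - h π) + ε)
    ring
  have tε : Tendsto (fun ε : ℝ => ε) (𝓝[>] (0 : ℝ)) (𝓝 0) := tendsto_nhdsWithin_of_tendsto_nhds tendsto_id
  have posε : ∀ᶠ ε : ℝ in 𝓝[>] (0 : ℝ), 0 < ε := eventually_mem_nhdsWithin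
  constructor
  · have ta := THN.avg hρ cg hev' t1 t4
    rw [g0] at ta
    have tb : Tendsto (fun ε => α * (ε * ((∫ y in (y₄ ε)..(y₁ ε), (E y + ε))
        / (ε * (y₁ ε - y₄ ε))))) (𝓝[>] 0) (𝓝 (α * (0 * (2 / 3)))) :=
      (tε.mul tint).const_mul α
    have tc := ((ta.add tb).pow 2).mul tsq
    have hval : (2 * nn φ 0 + α * (0 * (2 / 3))) ^ 2 * (8 * R) = 32 * (nn φ 0) ^ 2 * R := by ring
    rw [hval] at tc
    refine tc.congr' ?_
    filter_upwards [hcov, hev', posε] with ε h1 h2 h3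
    rw [h1]
    have hpos : 0 < y₁ ε - y₄ ε := by linarith [h2.2.1, h2.2.2.1]
    field_simp
  · intro hn
    have tc := ((tint.const_mul α).pow 2).mul tsq
    have hval : (α * (2 / 3)) ^ 2 * (8 * R) = 32 / 9 * α ^ 2 * R := by ring
    rw [hval] at tc
    refine tc.congr' ?_
    filter_upwards [hcov, hev', posε] with ε h1 h2 h3
    rw [h1]
    have hpos : 0 < y₁ ε - y₄ ε := by linarith [h2.2.1, h2.2.2.1]
    have hg0 : (∫ y in (y₄ ε)..(y₁ ε), g y) = 0 := by
      have : g = fun _ => (0 : ℝ) := by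
        funext y
        change nn φ (sl m (y - t)) + nn φ (sl l (-y)) = 0
        rw [hn, hn]; ring
      rw [this]; simp
    rw [hg0, zero_add]
    field_simp

end Pool.MP671.C3
end

section
/-! # MP_671ac3_gt, C3: module TOP (behaviour at the top) -/
namespace Pool.MP671.C3

open MeasureTheory Real Filter Topology Pool.MP671

namespace TOP

theorem cPt {h : ℝ → ℝ} (hh : Sm h) : Continuous (fun θ => (Pt h θ).1) := by
  unfold Pt
  have h1 : Continuous h := hh.c2.continuous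
  have h2 : Continuous (deriv h) := hh.c2.continuous_deriv (by norm_num)
  exact (h1.mul continuous_cos).sub (h2.mul continuous_sin)

end TOP

open TOP in
theorem specTOP (hLEG : SpecLEG) (hFRC : SpecFRC) (hSHF : SpecSHF) : SpecTOP := by
  intro h hh
  have hs := (hSHF.1 h π hh).1
  obtain ⟨cl, fl, rl⟩ := hFRC h hh
  obtain ⟨cm, fm, rm⟩ := hFRC (sh h π) hs
  have e1 : sh h π (π / 2) = h (-(π / 2)) := by
    have := hh.per (-(π / 2))
    rw [← this]
    unfold sh
    congr 1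
    ring
  have e2 : sh h π (-(π / 2)) = h (π / 2) := by
    unfold sh
    congr 1
    ring
  rw [e1, e2] at rm
  have rm' : Set.range (deriv (em h)) = Set.Ioo (-h (-(π / 2))) (h (π / 2)) := rm
  have cm' : Cx (em h) := cm
  have Ll := hLEG (el h) cl
  have Lm := hLEG (em h) cm'
  have part1 : ∀ M, ∃ y₀, -h (-(π / 2)) < y₀ ∧ y₀ < h (π / 2) ∧ ∀ y, y₀ < y → y < h (π / 2) →
      sl (el h) (-y) < -M ∧ M < sl (em h) y := by
    intro M
    have a1 : deriv (el h) (-M) ∈ Set.Ioo (-h (π / 2)) (h (-(π / 2))) := by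
      rw [← rl]
      exact ⟨_, rfl⟩
    have a2 : deriv (em h) M ∈ Set.Ioo (-h (-(π / 2))) (h (π / 2)) := by
      rw [← rm']
      exact ⟨_, rfl⟩
    refine ⟨max (-deriv (el h) (-M)) (deriv (em h) M), ?_, ?_, ?_⟩
    · exact lt_of_lt_of_le a2.1 (le_max_right _ _)
    · exact max_lt (by linarith [a1.1]) a2.2
    · intro y hy1 hy2
      have b1 : -deriv (el h) (-M) < y := lt_of_le_of_lt (le_max_left _ _) hy1
      have b2 : deriv (em h) M < y := lt_of_le_of_lt (le_max_right _ _) hy1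
      have c1 : -y ∈ Set.range (deriv (el h)) := by
        rw [rl]
        exact ⟨by linarith, by linarith [a2.1]⟩
      have c2 : y ∈ Set.range (deriv (em h)) := by
        rw [rm']
        exact ⟨by linarith [a2.1], hy2⟩
      constructor
      · rw [← Ll.1.lt_iff_lt, Ll.2.2.1 _ c1]
        linarith
      · rw [← Lm.1.lt_iff_lt, Lm.2.2.1 _ c2]
        exact b2
  refine ⟨part1, ?_⟩
  obtain ⟨y₀, hy₀a, hy₀b, _⟩ := part1 0
  have ev : ∀ᶠ y in 𝓝[<] (h (π / 2)), y₀ < y ∧ y < h (π / 2) := by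
    have h1 : ∀ᶠ y in 𝓝[<] (h (π / 2)), y₀ < y :=
      (lt_mem_nhds hy₀b).filter_mono nhdsWithin_le_nhds
    have h2 : ∀ᶠ y in 𝓝[<] (h (π / 2)), y < h (π / 2) := self_mem_nhdsWithin
    exact h1.and h2
  have t1 : Tendsto (fun y => sl (el h) (-y)) (𝓝[<] (h (π / 2))) atBot := by
    rw [tendsto_atBot]
    intro b
    obtain ⟨y₁, _, hb, hy⟩ := part1 (-b)
    have h1 : ∀ᶠ y in 𝓝[<] (h (π / 2)), y₁ < y :=
      (lt_mem_nhds hb).filter_mono nhdsWithin_le_nhds
    have h2 : ∀ᶠ y in 𝓝[<] (h (π / 2)), y < h (π / 2) := self_mem_nhdsWithin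
    filter_upwards [h1, h2] with y k1 k2
    have := (hy y k1 k2).1
    linarith
  have t2 : Tendsto (fun y => sl (em h) y) (𝓝[<] (h (π / 2))) atTop := by
    rw [tendsto_atTop]
    intro b
    obtain ⟨y₁, _, hb, hy⟩ := part1 b
    have h1 : ∀ᶠ y in 𝓝[<] (h (π / 2)), y₁ < y :=
      (lt_mem_nhds hb).filter_mono nhdsWithin_le_nhds
    have h2 : ∀ᶠ y in 𝓝[<] (h (π / 2)), y < h (π / 2) := self_mem_nhdsWithin
    filter_upwards [h1, h2] with y k1 k2
    exact (hy y k1 k2).2.le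
  have at1 : Tendsto (fun y => -arctan (sl (el h) (-y))) (𝓝[<] (h (π / 2))) (𝓝 (π / 2)) := by
    have := ((tendsto_arctan_atBot.mono_right nhdsWithin_le_nhds).comp t1).neg
    rw [neg_neg] at this
    exact this
  have at2 : Tendsto (fun y => -arctan (sl (em h) y)) (𝓝[<] (h (π / 2))) (𝓝 (-(π / 2))) :=
    ((tendsto_arctan_atTop.mono_right nhdsWithin_le_nhds).comp t2).neg
  have l1 : Tendsto (fun y => (Pt h (-arctan (sl (el h) (-y)))).1) (𝓝[<] (h (π / 2)))
      (𝓝 (Pt h (π / 2)).1) := ((cPt hh).tendsto (π / 2)).comp at1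
  have l2 : Tendsto (fun y => (Pt (sh h π) (-arctan (sl (em h) y))).1) (𝓝[<] (h (π / 2)))
      (𝓝 (Pt (sh h π) (-(π / 2))).1) := ((cPt hs).tendsto (-(π / 2))).comp at2
  have e3 : (Pt (sh h π) (-(π / 2))).1 = -(Pt h (π / 2)).1 := by
    rw [hSHF.2.2.2.2 h (-(π / 2))]
    have : -(π / 2) + π = π / 2 := by ring
    rw [this]
    rfl
  rw [e3] at l2
  have l3 := l1.add l2
  rw [add_neg_cancel] at l3
  refine l3.congr' ?_
  filter_upwards [ev] with y hy
  have c1 : -y ∈ Set.range (deriv (el h)) := by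
    rw [rl]
    exact ⟨by linarith [hy.2], by linarith [hy.1]⟩
  have c2 : y ∈ Set.range (deriv (em h)) := by
    rw [rm']
    exact ⟨by linarith [hy.1], hy.2⟩
  have k1 : lg (el h) (-y) = -Xc (el h) (sl (el h) (-y)) := by
    have := Ll.2.2.2.2.2.2.1 (sl (el h) (-y))
    rw [Ll.2.2.1 _ c1] at this
    exact this
  have k2 : lg (em h) y = -Xc (em h) (sl (em h) y) := by
    have := Lm.2.2.2.2.2.2.1 (sl (em h) y)
    rw [Lm.2.2.1 _ c2] at this
    exact this
  have k3 : Xc (el h) (sl (el h) (-y)) = (Pt h (-arctan (sl (el h) (-y)))).1 := (fl _).2.1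
  have k4 : Xc (em h) (sl (em h) y) = (Pt (sh h π) (-arctan (sl (em h) y))).1 := (fm _).2.1
  rw [k1, k2, k3, k4]
  ring

end Pool.MP671.C3
end

section
/-!
# MP_671ac3_gt, C3: UNQ (helper22)

Bodies with the same radius of curvature are translates.
-/
namespace Pool.MP671.C3

open MeasureTheory Real Filter Topology

namespace UNQ

/-- the first two derivatives -/
theorem der2 {h : ℝ → ℝ} (hh : ContDiff ℝ 2 h) (s : ℝ) :
    HasDerivAt h (deriv h s) s ∧ HasDerivAt (deriv h) (deriv (deriv h) s) s := by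
  have h1 : Differentiable ℝ h := hh.differentiable (by norm_num)
  have h2 : ContDiff ℝ (1 + 1) h := by rw [one_add_one_eq_two]; exact hh
  have h3 : ContDiff ℝ 1 (deriv h) := (contDiff_succ_iff_deriv.1 h2).2.2
  have h4 : Differentiable ℝ (deriv h) := h3.differentiable (by norm_num)
  exact ⟨(h1 s).hasDerivAt, (h4 s).hasDerivAt⟩

/-- `f + f'' = 0` -/
theorem ode {h k : ℝ → ℝ} (hh : ContDiff ℝ 2 h) (hk : ContDiff ℝ 2 k)
    (he : ∀ θ, k θ + deriv (deriv k) θ = h θ + deriv (deriv h) θ) :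
    ∀ θ, k θ = h θ + (k 0 - h 0) * cos θ + (deriv k 0 - deriv h 0) * sin θ := by
  have hA : ∀ s, HasDerivAt (fun s => (deriv k s - deriv h s) * cos s + (k s - h s) * sin s) 0 s := by
    intro s
    have h1 := (((der2 hk s).2.sub (der2 hh s).2).mul (hasDerivAt_cos s)).add
      (((der2 hk s).1.sub (der2 hh s).1).mul (hasDerivAt_sin s))
    refine h1.congr_deriv ?_
    simp only [Pi.sub_apply]
    linear_combination (cos s) * he s
  have hB : ∀ s, HasDerivAt (fun s => (k s - h s) * cos s - (deriv k s - deriv h s) * sin s) 0 s := by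
    intro s
    have h1 := (((der2 hk s).1.sub (der2 hh s).1).mul (hasDerivAt_cos s)).sub
      (((der2 hk s).2.sub (der2 hh s).2).mul (hasDerivAt_sin s))
    refine h1.congr_deriv ?_
    simp only [Pi.sub_apply]
    linear_combination (-sin s) * he s
  intro θ
  have cA := is_const_of_deriv_eq_zero (fun s => (hA s).differentiableAt) (fun s => (hA s).deriv) θ 0
  have cB := is_const_of_deriv_eq_zero (fun s => (hB s).differentiableAt) (fun s => (hB s).deriv) θ 0
  simp only [cos_zero, sin_zero, mul_one, mul_zero, add_zero, sub_zero] at cA cB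
  have hcs := sin_sq_add_cos_sq θ
  linear_combination (sin θ) * cA + (cos θ) * cB - (k θ - h θ) * hcs

end UNQ

/-- UNQ -/
theorem specUNQ (hSHF : SpecSHF) : SpecUNQ := by
  intro h k hh hk he
  refine ⟨(k 0 - h 0, deriv k 0 - deriv h 0), ?_⟩
  rw [hSHF.2.2.1 h (k 0 - h 0, deriv k 0 - deriv h 0)]
  have h1 : k = fun θ => h θ + (k 0 - h 0) * cos θ + (deriv k 0 - deriv h 0) * sin θ :=
    funext (UNQ.ode hh.c2 hk.c2 he)
  exact congrArg bd h1

end Pool.MP671.C3
end

section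
/-! # MP_671ac3_gt, C3: module VAV (value of the valuation and contributions of the corners) -/
namespace Pool.MP671.C3

open MeasureTheory Real Filter Topology Pool.MP671

namespace VAV

theorem cd1 {f : ℝ → ℝ} (hf : Cx f) : ContDiff ℝ 1 (deriv f) := by
  have h := hf.c2
  have : (2 : WithTop ℕ∞) = 1 + 1 := by norm_num
  rw [this] at h
  exact (contDiff_succ_iff_deriv.1 h).2.2

theorem cd {f : ℝ → ℝ} (hf : Cx f) : Continuous (deriv f) := (cd1 hf).continuous

theorem cdd {f : ℝ → ℝ} (hf : Cx f) : Continuous (deriv (deriv f)) :=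
  (cd1 hf).continuous_deriv (le_refl _)

theorem cXc {f : ℝ → ℝ} (hf : Cx f) : Continuous (Xc f) := by
  unfold Xc
  exact hf.c2.continuous.sub (continuous_id.mul (cd hf))

theorem dXc {f : ℝ → ℝ} (hf : Cx f) : Differentiable ℝ (Xc f) := by
  unfold Xc
  exact (hf.c2.differentiable (by norm_num)).sub
    (differentiable_id.mul ((cd1 hf).differentiable (by norm_num)))

theorem cint {n : ℝ → ℝ} (hn : Continuous n) (α : ℝ) {f : ℝ → ℝ} (hf : Cx f) :
    Continuous (fun σ => (n σ + α * Xc f σ) * deriv (deriv f) σ) :=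
  (hn.add (continuous_const.mul (cXc hf))).mul (cdd hf)

theorem dint {g : ℝ → ℝ} (hg : Continuous g) (c : ℝ) :
    Differentiable ℝ (fun s => ∫ σ in c..s, g σ) :=
  fun s => (intervalIntegral.integral_hasDerivAt_right (hg.intervalIntegrable _ _)
    hg.stronglyMeasurable.stronglyMeasurableAtFilter hg.continuousAt).differentiableAt

theorem dint' {g : ℝ → ℝ} (hg : Continuous g) (c : ℝ) :
    Differentiable ℝ (fun s => ∫ σ in s..c, g σ) := by
  have : (fun s => ∫ σ in s..c, g σ) = fun s => -∫ σ in c..s, g σ := by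
    ext s
    rw [intervalIntegral.integral_symm]
  rw [this]
  exact (dint hg c).neg

end VAV

open VAV in
theorem specVAV : SpecVAV := by
  refine ⟨?_, ?_, ?_⟩
  · intro n α c l m hn hl hm x r s r' s' hx
    have cl := cint hn α hl
    have cm := cint hn α hm
    have i1 : (∫ σ in r..c, (n σ + α * Xc l σ) * deriv (deriv l) σ) =
        (∫ σ in r..r', (n σ + α * Xc l σ) * deriv (deriv l) σ) +
        ∫ σ in r'..c, (n σ + α * Xc l σ) * deriv (deriv l) σ :=
      (intervalIntegral.integral_add_adjacent_intervals (cl.intervalIntegrable _ _)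
        (cl.intervalIntegrable _ _)).symm
    have i2 : (∫ σ in c..s, (n σ + α * Xc m σ) * deriv (deriv m) σ) =
        (∫ σ in c..s', (n σ + α * Xc m σ) * deriv (deriv m) σ) +
        ∫ σ in s'..s, (n σ + α * Xc m σ) * deriv (deriv m) σ :=
      (intervalIntegral.integral_add_adjacent_intervals (cm.intervalIntegrable _ _)
        (cm.intervalIntegrable _ _)).symm
    have h1 : Xc l r + Xc m s = x.1 := congrArg Prod.fst hx.ht
    have h2 : Xc l r' + Xc m s' = x.1 := congrArg Prod.fst hx.hb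
    unfold Va VV
    rw [i1, i2, h1, h2]
    ring
  · intro n α c l m hn hl hm
    have cl := cint hn α hl
    have cm := cint hn α hm
    have f1 : Differentiable ℝ (fun z : Pl => z.1) := differentiable_fst
    have f2 : Differentiable ℝ (fun z : Pl => z.2) := differentiable_snd
    have g1 : Differentiable ℝ (fun z : Pl =>
        ∫ σ in z.1..c, (n σ + α * Xc l σ) * deriv (deriv l) σ) := (dint' cl c).comp f1
    have g2 : Differentiable ℝ (fun z : Pl =>
        ∫ σ in c..z.2, (n σ + α * Xc m σ) * deriv (deriv m) σ) := (dint cm c).comp f2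
    have g3 : Differentiable ℝ (fun z : Pl => Xc l z.1) := (dXc hl).comp f1
    have g4 : Differentiable ℝ (fun z : Pl => Xc m z.2) := (dXc hm).comp f2
    have g5 : Differentiable ℝ (fun z : Pl => deriv l z.1) :=
      ((cd1 hl).differentiable (by norm_num)).comp f1
    exact (g1.add g2).add (((g3.add g4).const_mul α).mul g5)
  · intro l m x r s r' s' hx
    have h1 : Xc l r + Xc m s = x.1 := congrArg Prod.fst hx.ht
    have h2 : Xc l r' + Xc m s' = x.1 := congrArg Prod.fst hx.hb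
    have h3 : -(deriv l r + deriv m s) = x.2 := congrArg Prod.snd hx.ht
    have h4 : -(deriv l r' + deriv m s') = x.2 := congrArg Prod.snd hx.hb
    refine ⟨⟨hx.bot, hx.top, ?_, ?_⟩, ?_⟩
    · unfold Psi
      rw [add_comm (Xc m s'), add_comm (deriv m s'), h2, h4]
    · unfold Psi
      rw [add_comm (Xc m s), add_comm (deriv m s), h1, h3]
    · intro n α
      unfold Va
      have h5 : deriv m s' - deriv m s = deriv l r - deriv l r' := by linarith
      rw [h5]
      ring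

end Pool.MP671.C3
end
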