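import Pool.Agent.Lib.MP_671ac3_gt.C3.Spec
import Pool.Agent.Lib.MP_671ac3_gt.SP2
import Pool.Agent.Lib.MP_671ac3_gt.MR2
import Pool.Agent.Lib.MP_671ac3_gt.C3.LN0
import Pool.Agent.Lib.MP_671ac3_gt.C3.FIN
import Pool.Agent.Lib.MP_671ac3_gt.C3.VAV
import Pool.Agent.Lib.MP_671ac3_gt.C3.PHF

section
/-!
# MP_671ac3_gt, C3, module ALF (helper54)
-/
namespace Pool.MP671.C3

open MeasureTheory Real Filter Topology Pool.MP671

namespace ALF

/-- the parallelogram spanned by `(1, 0)` and `(c, s)` -/
def Pg (c s : ℝ) : Set Pl := prof 0 (0 + s) (fun z => 0 + c / s * (z - 0))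
  (fun z => 1 + c / s * (z - 0))

theorem mem_Pg {c s : ℝ} (hs : 0 < s) (z : Pl) :
    z ∈ Pg c s ↔ 0 ≤ z.2 ∧ z.2 ≤ s ∧ c * z.2 ≤ s * z.1 ∧ s * z.1 ≤ s + c * z.2 := by
  have h1 : c / s * (z.2 - 0) = c * z.2 / s := by ring
  constructor
  · rintro ⟨z1, z2, z3, z4⟩
    simp only [h1] at z3 z4
    refine ⟨z1, by linarith, ?_, ?_⟩
    · rw [zero_add, div_le_iff₀ hs] at z3
      linarith
    · have h2 : z.1 - 1 ≤ c * z.2 / s := by linarith
      rw [le_div_iff₀ hs] at h2
      linarith
  · rintro ⟨z1, z2, z3, z4⟩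
    refine ⟨z1, by linarith, ?_, ?_⟩
    · simp only [h1]
      rw [zero_add, div_le_iff₀ hs]
      linarith
    · simp only [h1]
      have h2 : z.1 - 1 ≤ c * z.2 / s := by
        rw [le_div_iff₀ hs]
        linarith
      linarith

theorem im_Pg {c s : ℝ} (hs : 0 < s) (h : c ^ 2 + s ^ 2 = 1) :
    mul (c, s) '' Pg (-c) s = tr (-1, 0) (Pg c s) := by
  ext z
  constructor
  · rintro ⟨w, hw, rfl⟩
    rw [mem_Pg hs] at hw
    obtain ⟨w1, w2, w3, w4⟩ := hw
    refine ⟨(c * w.1 - s * w.2 + 1, s * w.1 + c * w.2), ?_, ?_⟩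
    · rw [mem_Pg hs]
      have e : s * (c * w.1 - s * w.2 + 1) = c * (s * w.1 + c * w.2) + s - w.2 := by
        have : w.2 = (c ^ 2 + s ^ 2) * w.2 := by rw [h, one_mul]
        nlinarith
      simp only
      refine ⟨by linarith, by linarith, ?_, ?_⟩
      · rw [e]; linarith
      · rw [e]; linarith
    · unfold mul
      ext <;> simp
  · rintro ⟨p, hp, rfl⟩
    rw [mem_Pg hs] at hp
    obtain ⟨p1, p2, p3, p4⟩ := hp
    refine ⟨(c * (p.1 - 1) + s * p.2, -s * (p.1 - 1) + c * p.2), ?_, ?_⟩
    · rw [mem_Pg hs]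
      have e : s * (c * (p.1 - 1) + s * p.2) = -c * (-s * (p.1 - 1) + c * p.2) + p.2 := by
        have : p.2 = (c ^ 2 + s ^ 2) * p.2 := by rw [h, one_mul]
        nlinarith
      simp only
      refine ⟨by linarith, by linarith, ?_, ?_⟩
      · rw [e]; linarith
      · rw [e]; linarith
    · unfold mul
      have e1 : c * (c * (p.1 - 1) + s * p.2) - s * (-s * (p.1 - 1) + c * p.2) =
          (c ^ 2 + s ^ 2) * (p.1 - 1) := by ring
      have e2 : s * (c * (p.1 - 1) + s * p.2) + c * (-s * (p.1 - 1) + c * p.2) =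
          (c ^ 2 + s ^ 2) * p.2 := by ring
      ext
      · simp only [Prod.fst_add]
        rw [e1, h]
        ring
      · simp only [Prod.snd_add]
        rw [e2, h]
        ring

theorem pos_frame {φ : Set Pl → ℝ} {α : ℝ} (hφ : IsPhi φ) (hα : IsAl φ α) {c s : ℝ} (hs : 0 < s)
    (h : c ^ 2 + s ^ 2 = 1) : IsAl (frφ (c, s) φ) α := by
  have hv : ((c, s) : Pl) ≠ 0 := by
    intro h0
    have := congrArg Prod.snd h0
    simp only [Prod.snd_zero] at this
    exact hs.ne' this
  obtain ⟨hF1, -, hF3, -⟩ := specFRM (c, s) hv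
  have hψ := hF1 φ hφ
  obtain ⟨α', hα'⟩ := specREP specSEG _ hψ
  have hα'' : IsAl (frφ (c, s) φ) α' := hα'
  obtain ⟨-, hhom, -⟩ := specSEG φ hφ
  obtain ⟨-, hhom', -⟩ := specSEG _ hψ
  have e1 : s * nn φ (c / s) = nrm φ (c, s) := by
    have h1 := hhom s (c / s, 1)
    rw [abs_of_pos hs] at h1
    unfold nn
    rw [← h1]
    congr 1
    ext
    · simp only [Prod.smul_fst, smul_eq_mul]; field_simp
    · simp
  have e2 : s * nn (frφ (c, s) φ) (-c / s) = ee φ := by
    have h1 := hhom' s (-c / s, 1)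
    rw [abs_of_pos hs] at h1
    unfold nn
    rw [← h1, hF3]
    have h2 : mul (c, s) (s • ((-c / s, 1) : Pl)) = (-1 : ℝ) • ((1, 0) : Pl) := by
      have h3 : s • ((-c / s, 1) : Pl) = (-c, s) := by
        ext
        · simp only [Prod.smul_fst, smul_eq_mul]; field_simp
        · simp
      rw [h3]
      unfold mul
      ext
      · simp only [Prod.smul_fst, smul_eq_mul]; linarith
      · simp only [Prod.smul_snd, smul_eq_mul]; ring
    rw [h2, hhom, abs_neg, abs_one, one_mul]
    rfl
  have e3 : ee (frφ (c, s) φ) = nrm φ (c, s) := by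
    unfold ee
    rw [hF3]
    congr 1
    unfold mul
    ext <;> simp
  have k1 := hα 0 s 0 (c / s) 1 (c / s) hs.le (by norm_num) (by linarith)
  have k2 := hα'' 0 s 0 (-c / s) 1 (-c / s) hs.le (by norm_num) (by linarith)
  have k3 : frφ (c, s) φ (Pg (-c) s) = φ (Pg c s) := by
    unfold frφ
    rw [im_Pg hs h]
    apply hφ.trans
    have := REP.CC_TZ s 0 (c / s) 1 (c / s)
    have e : REP.TZ s 0 (c / s) 1 (c / s) = Pg c s := by
      unfold REP.TZ Pg
      simp only [zero_add, sub_zero]
    rwa [e] at this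
  have k1' : φ (Pg c s) = _ := k1
  have k2' : frφ (c, s) φ (Pg (-c) s) = _ := k2
  rw [k3, k1', e1, e2, e3] at k2'
  have k4 : α' = α := by
    have : α * s = α' * s := by ring_nf at k2' ⊢; linarith
    exact (mul_right_cancel₀ hs.ne' this).symm
  rw [← k4]
  exact hα''

theorem transfer {ψ ψ' : Set Pl → ℝ} {α : ℝ} (hψ : IsPhi ψ) (hψ' : IsPhi ψ')
    (h : ∀ A, CC A → ψ' A = ψ A) (hα : IsAl ψ α) : IsAl ψ' α := by
  have hn : ∀ v, nrm ψ' v = nrm ψ v := by
    intro v
    unfold nrm
    rw [h _ (REP.CC_seg 0 v)]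
  intro y k a b c d hk hac hbd
  rw [REP.φ_prof hψ', h _ (REP.CC_TZ _ _ _ _ _), ← REP.φ_prof hψ, hα y k a b c d hk hac hbd]
  unfold ee nn
  rw [hn, hn, hn]

theorem im_neg (v : Pl) (A : Set Pl) : mul (-v) '' A = refl (mul v '' A) := by
  have e : ∀ z, mul (-v) z = -mul v z := by
    intro z
    unfold mul
    ext
    · simp only [Prod.fst_neg, Prod.snd_neg]; ring
    · simp only [Prod.fst_neg, Prod.snd_neg]; ring
  unfold refl
  rw [Set.image_image]
  exact Set.image_congr fun z _ => e z

end ALF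

open ALF in
theorem specALF : SpecALF := by
  intro φ α hφ hα
  obtain ⟨-, -, hnn⟩ := specSEG φ hφ
  refine ⟨?_, ?_⟩
  · by_contra hneg
    push Not at hneg
    set M := 2 * ee φ + 2 * nn φ 0 + 1 with hM
    have h1 : 0 ≤ ee φ := hnn _
    have h2 : 0 ≤ nn φ 0 := hnn _
    have hM0 : 0 < M := by linarith
    set x := M / (-α) with hx
    have hx0 : 0 < x := div_pos hM0 (by linarith)
    have h3 := hα 0 x 0 0 x 0 hx0.le hx0.le (by linarith)
    have h4 : 0 ≤ φ (REP.TZ x 0 0 x 0) := by
      have := hφ.mono ∅ (REP.TZ x 0 0 x 0) ⟨convex_empty, isCompact_empty⟩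
        (REP.CC_TZ _ _ _ _ _) (Set.empty_subset _)
      rwa [hφ.empty] at this
    rw [REP.φ_prof hφ, sub_zero] at h3
    rw [h3] at h4
    have h5 : α * x = -M := by
      rw [hx, div_neg, mul_neg, mul_div_cancel₀ M hneg.ne]
    have h6 : ee φ * (x - 0 + (x + 0 * x - (0 + 0 * x))) + x * nn φ 0 + x * nn φ 0 +
        α * (x * (x - 0 + (x + 0 * x - (0 + 0 * x))) / 2) = x * (2 * ee φ + 2 * nn φ 0 + α * x) := by
      ring
    rw [h5] at h6
    have h7 : x * (2 * ee φ + 2 * nn φ 0 + -M) = -x := by rw [hM]; ring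
    linarith
  · intro a
    have hcs : cos a ^ 2 + sin a ^ 2 = 1 := by rw [add_comm]; exact sin_sq_add_cos_sq a
    have hv : vv a ≠ 0 := by
      intro h0
      have h1 : cos a = 0 := congrArg Prod.fst h0
      have h2 : sin a = 0 := congrArg Prod.snd h0
      rw [h1, h2] at hcs
      norm_num at hcs
    have hψ := (specFRM (vv a) hv).1 φ hφ
    rcases lt_trichotomy (sin a) 0 with h | h | h
    · have h1 := pos_frame hφ hα (c := -cos a) (s := -sin a) (by linarith) (by
        rw [neg_sq, neg_sq]; exact hcs)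
      have hv' : ((-cos a, -sin a) : Pl) ≠ 0 := by
        intro h0
        have h2 := congrArg Prod.snd h0
        simp only [Prod.snd_zero] at h2
        linarith
      refine transfer ((specFRM _ hv').1 φ hφ) hψ ?_ h1
      intro A hA
      have e : vv a = -((-cos a, -sin a) : Pl) := by
        unfold vv
        ext <;> simp
      unfold frφ
      rw [e, im_neg]
      exact hφ.even _ (FRM.im_cc hA)
    · have h1 : cos a = 1 ∨ cos a = -1 := by
        rw [h] at hcs
        have : (cos a - 1) * (cos a + 1) = 0 := by nlinarith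
        rcases mul_eq_zero.1 this with h2 | h2
        · left; linarith
        · right; linarith
      have hid : ∀ A : Set Pl, mul (1, 0) '' A = A := by
        intro A
        have : mul (1, 0) = id := by
          funext z
          unfold mul
          ext <;> simp
        rw [this, Set.image_id]
      rcases h1 with h1 | h1
      · refine transfer hφ hψ ?_ hα
        intro A hA
        unfold frφ
        have e : vv a = (1, 0) := by unfold vv; rw [h, h1]
        rw [e, hid]
      · refine transfer hφ hψ ?_ hα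
        intro A hA
        unfold frφ
        have e : vv a = -((1, 0) : Pl) := by
          unfold vv
          rw [h, h1]
          ext <;> simp
        rw [e, im_neg, hid]
        exact hφ.even _ hA
    · exact pos_frame hφ hα h hcs

end Pool.MP671.C3
end

section
/-!
# MP_671ac3_gt : the theorem for bodies of class C²₊
-/
namespace Pool.MP671

open C3

theorem final3 : Final3 := by
  have sNPR := FIN.sNPR
  have leg := specLEG
  have shf := specSHF
  have spt := specSPT
  have frc := specFRC
  have meb := specMEB leg spt frc shf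
  have dih := specDIH spt
  have unq := specUNQ shf
  have phf := specPHF specSEG sNPR
  have alf := specALF
  have ln0 := specLN0 leg
  have lns := specLNS ln0 leg frc meb shf
  have cvy := specCVY lns ln0 phf leg frc shf
  have cvs := specCVS cvy leg frc shf sNPR
  have top := specTOP leg frc shf
  have exo := specEXO top cvy phf meb spt leg frc shf specSEG sNPR
  have thn := specTHN specTHE cvy leg frc shf sNPR
  have stc := specSTC exo thn specCCC alf specFRM shf spt specSP2 dih specSEG FIN.sNUL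
  have brg := specBRG specEXL leg
  have crs := specCRS specINV specVAV (specCEQ leg) (specLSX leg) leg
  have edg := specEDG brg crs specVAV
  have crx := specCRX edg specMIQ
  exact specFIN shf frc alf cvs unq stc specMXI crx

end Pool.MP671
end
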